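import Pool.Agent.KGR.St

/-!
# KGR: assembly of the theorem for rings
-/

set_option autoImplicit false

noncomputable section

namespace Pool.Agent.KGR

open Function Matrix

/-- The set of rows is finite. -/
theorem asm_finite_Ro (σ : Type) [Finite σ] : Finite (Ro σ) := by
  let f : Ro σ → Option (Option (σ ⊕ σ ⊕ σ ⊕ (σ × σ × σ) ⊕ (σ × σ × σ))) := fun r =>
    match r with
    | Ro.E => none
    | Ro.D0 => some none
    | Ro.D i => some (some (Sum.inl i))
    | Ro.U i => some (some (Sum.inr (Sum.inl i)))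
    | Ro.Q i => some (some (Sum.inr (Sum.inr (Sum.inl i))))
    | Ro.R a b c => some (some (Sum.inr (Sum.inr (Sum.inr (Sum.inl (a, b, c))))))
    | Ro.R' a b c => some (some (Sum.inr (Sum.inr (Sum.inr (Sum.inr (a, b, c))))))
  refine Finite.of_injective f ?_
  intro x y h
  cases x <;> cases y <;> simp_all [f]

/-- The set of columns is finite. -/
theorem asm_finite_Co (σ : Type) [Finite σ] : Finite (Co σ) := by
  let f : Co σ → Option (σ ⊕ σ ⊕ σ ⊕ σ) := fun r =>
    match r with
    | Co.d => none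
    | Co.c i => some (Sum.inl i)
    | Co.h i => some (Sum.inr (Sum.inl i))
    | Co.m i => some (Sum.inr (Sum.inr (Sum.inl i)))
    | Co.s i => some (Sum.inr (Sum.inr (Sum.inr i)))
  refine Finite.of_injective f ?_
  intro x y h
  cases x <;> cases y <;> simp_all [f]

/-- The space of the incidence configurations is good. -/
theorem asm_IncF (hPAT : St_PAT) (hSPI : St_SPI) (hLD : St_LD) (k : Type) [CommRing k]
    (G : (R : Type) → [CommRing R] → Prop) (hG : ClsQ G) (hP : HP k G) (σ : Type) [Finite σ]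
    (s : Sys σ) : (IncF k s).Good G := by
  classical
  have := asm_finite_Ro σ
  have := asm_finite_Co σ
  let _ : Fintype (Ro σ) := Fintype.ofFinite _
  let _ : Fintype (Co σ) := Fintype.ofFinite _
  have h1 : ∀ (V : Type) [Fintype V] [DecidableEq V] (P U : V → V → Prop),
      (MatU k V P U).Good G := fun V _ _ P U => hPAT k G hG hP V P U
  exact hLD k G hG (LVW k (PVs s) UVs PWs UWs) {p : Ro σ × Co σ // Inc s p.1 p.2}
    (fun j => gVW (PVs s) UVs PWs UWs j.1.1 j.1.2) fun J' _ _ e m _ _ =>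
      hSPI k G hG h1 (Ro σ) (Fin 3) (Co σ) (PVs s) UVs PWs UWs J' (fun j => (e j).1.1)
        (fun j => (e j).1.2) m

/-- **The theorem for rings.** -/
theorem thm_ASM (hFNB : St_FNB) (hSYM : St_SYM) (hPAT : St_PAT) (hSPI : St_SPI) (hLD : St_LD)
    (hGAU : St_GAU) (hINC : St_INC) (hSLP : St_SLP) : St_ASM := by
  intro k _ _ G hG hk
  refine ⟨hSYM k G hG, ?_⟩
  intro hP B _ _ _
  obtain ⟨f1, -, -, -, f5, f6⟩ := hFNB k G hG
  obtain ⟨σ, hσ, s, ⟨e⟩⟩ := hSLP k hk B
  have := hσ
  have := asm_finite_Ro σ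
  have := asm_finite_Co σ
  have h1 : (IncF k s).Good G := asm_IncF hPAT hSPI hLD k G hG hP σ s
  obtain ⟨e1⟩ := hGAU k σ s
  obtain ⟨e2⟩ := hINC k σ s
  have h2 : (IncN k s).Good G := (f5 _ (Ro σ ⊕ Co σ ⊕ Fin 2)).1 (f1 _ _ e1 h1)
  have h3 : (Fn.hom (k := k) B).Good G := f1 _ _ e (f1 _ _ e2 h2)
  have : IsNoetherianRing B := Algebra.FiniteType.isNoetherianRing k B
  exact f6 B h3

end Pool.Agent.KGR
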