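import Pool.Agent.KGR.St

/-!
# KGR, BOR: bordered matrices
-/

set_option autoImplicit false

noncomputable section

namespace Pool.Agent.KGR

open Function Matrix

variable {k : Type} [CommRing k]

section linalg

variable {V S : Type} [CommRing S]

/-- the bordered matrix -/
abbrev bor_M (N : Matrix V V S) (c ρ : V → S) (t : S) : Matrix (V ⊕ Unit) (V ⊕ Unit) S :=
  fromBlocks N (replicateCol Unit c) (replicateRow Unit ρ) (of fun _ _ => t)

omit [CommRing S] in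
theorem bor_M_to (M : Matrix (V ⊕ Unit) (V ⊕ Unit) S) :
    bor_M M.toBlocks₁₁ (fun i => M (Sum.inl i) (Sum.inr ())) (fun i => M (Sum.inr ()) (Sum.inl i))
      (M (Sum.inr ()) (Sum.inr ())) = M := by
  ext (i | i) (j | j) <;> rfl

variable [Fintype V] [DecidableEq V]

theorem bor_det_mul (N : Matrix V V S) (c ρ : V → S) (t : S) :
    (bor_M N (N *ᵥ c) ρ t).det = N.det * (t - ∑ i, ρ i * c i) := by
  have h1 : bor_M N (N *ᵥ c) ρ t =
      fromBlocks N 0 (replicateRow Unit ρ) (of fun _ _ => t - ∑ i, ρ i * c i) *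
        fromBlocks (1 : Matrix V V S) (replicateCol Unit c) 0 (1 : Matrix Unit Unit S) := by
    rw [fromBlocks_multiply]
    ext (i | i) (j | j)
    · simp [bor_M]
    · simp [bor_M, Matrix.mul_apply, Matrix.mulVec, dotProduct]
    · simp [bor_M]
    · simp [bor_M, Matrix.mul_apply]
  have h2 : (of fun (_ : Unit) (_ : Unit) => t - ∑ i, ρ i * c i).det = t - ∑ i, ρ i * c i :=
    det_unique _
  rw [h1, det_mul, det_fromBlocks_zero₁₂, det_fromBlocks_zero₂₁, h2, det_one, det_one, mul_one,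
    mul_one]

theorem bor_det_add (N : Matrix V V S) (c ρ : V → S) (t : S) :
    (bor_M N c ρ t).det = (bor_M N c ρ 0).det + t * N.det := by
  have h1 : bor_M N c ρ t = (bor_M N c ρ 0).updateRow (Sum.inr ())
      ((bor_M N c ρ 0) (Sum.inr ()) + t • (Pi.single (Sum.inr ()) 1 : V ⊕ Unit → S)) := by
    ext (i | i) (j | j)
    · rw [updateRow_ne (by simp)]
      rfl
    · rw [updateRow_ne (by simp)]
      rfl
    · rw [updateRow_self]
      simp [bor_M]
    · rw [updateRow_self]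
      simp [bor_M]
  have h2 : (bor_M N c ρ 0).updateRow (Sum.inr ()) ((bor_M N c ρ 0) (Sum.inr ())) = bor_M N c ρ 0 :=
    updateRow_eq_self _ _
  have h3 : (bor_M N c ρ 0).updateRow (Sum.inr ()) (Pi.single (Sum.inr ()) 1 : V ⊕ Unit → S) =
      fromBlocks N (replicateCol Unit c) 0 (1 : Matrix Unit Unit S) := by
    ext (i | i) (j | j)
    · rw [updateRow_ne (by simp)]
      rfl
    · rw [updateRow_ne (by simp)]
      rfl
    · rw [updateRow_self]
      simp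
    · rw [updateRow_self]
      simp
  rw [h1, det_updateRow_add, det_updateRow_smul, h2, h3, det_fromBlocks_zero₂₁, det_one, mul_one]

theorem bor_inv_mul {N : Matrix V V S} (h : IsUnit N.det) (c : V → S) : N⁻¹ *ᵥ (N *ᵥ c) = c := by
  rw [mulVec_mulVec, nonsing_inv_mul _ h, one_mulVec]

theorem bor_mul_inv {N : Matrix V V S} (h : IsUnit N.det) (c : V → S) : N *ᵥ (N⁻¹ *ᵥ c) = c := by
  rw [mulVec_mulVec, mul_nonsing_inv _ h, one_mulVec]

theorem bor_det_inv {N : Matrix V V S} (h : IsUnit N.det) (c ρ : V → S) (t : S) :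
    (bor_M N c ρ t).det = N.det * (t - ∑ i, ρ i * (N⁻¹ *ᵥ c) i) := by
  rw [← bor_det_mul, bor_mul_inv h]

theorem bor_unit {N : Matrix V V S} (h : IsUnit N.det) {c ρ : V → S} {t : S}
    (h' : IsUnit (bor_M N c ρ t).det) : IsUnit (t - ∑ i, ρ i * (N⁻¹ *ᵥ c) i) := by
  rw [bor_det_inv h] at h'
  exact isUnit_of_mul_isUnit_right h'

theorem bor_zero {N : Matrix V V S} (h : N.det = 0) {c ρ : V → S} (t t' : S) :
    (bor_M N c ρ t).det = (bor_M N c ρ t').det := by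
  rw [bor_det_add N c ρ t, bor_det_add N c ρ t', h, mul_zero, mul_zero]

omit [DecidableEq V] in
theorem bor_map_mulVec {S' : Type} [CommRing S'] [Algebra k S] [Algebra k S'] (f : S →ₐ[k] S')
    (N : Matrix V V S) (c : V → S) : (fun i => f ((N *ᵥ c) i)) = (N.map f) *ᵥ (fun i => f (c i)) := by
  funext i
  simp [Matrix.mulVec, dotProduct, map_sum, map_mul]

theorem bor_map_inv {S' : Type} [CommRing S'] [Algebra k S] [Algebra k S'] (f : S →ₐ[k] S')
    {N : Matrix V V S} (h : IsUnit N.det) (c : V → S) :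
    (fun i => f ((N⁻¹ *ᵥ c) i)) = (N.map f)⁻¹ *ᵥ (fun i => f (c i)) := by
  have h1 : (N.map f) *ᵥ (fun i => f ((N⁻¹ *ᵥ c) i)) = fun i => f (c i) := by
    rw [← bor_map_mulVec, bor_mul_inv h]
  rw [← h1, bor_inv_mul (isUnit_det_map f N h)]

end linalg

section functors

variable (F : Fn k) {J : Type} [Fintype J] [DecidableEq J] (g : J → F.Fu) (g₀ : F.Fu) (m : Type)
  [Fintype m] [DecidableEq m]

/-- the determinant of `N` -/
def bor_d : (Bor F g m).Fu where
  app p := p.1.1.2.det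
  nat f p := (AlgHom.map_det f p.1.1.2).symm

/-- the part where `t = g₀ x` -/
def bor_Y : Fn k := (Bor F g m).sub (fun p => p.1.2.2.2 = g₀.app p.1.1.1) fun f x h => by
  change f x.1.2.2.2 = g₀.app (F.map f x.1.1.1)
  rw [g₀.nat, h]

/-- the determinant of `N` -/
def bor_dY : (bor_Y F g g₀ m).Fu where
  app p := p.1.1.1.2.det
  nat f p := (AlgHom.map_det f p.1.1.1.2).symm

/-- the part where `det N = 0` and `t = 0` -/
def bor_B : Fn k := (Bor F g m).sub (fun p => p.1.1.2.det = 0 ∧ p.1.2.2.2 = 0) fun f x h => by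
  refine ⟨?_, ?_⟩
  · change (x.1.1.2.map f).det = 0
    have h1 : (x.1.1.2.map f).det = f x.1.1.2.det := (AlgHom.map_det f x.1.1.2).symm
    rw [h1, h.1, map_zero]
  · change f x.1.2.2.2 = 0
    rw [h.2, map_zero]

/-- the indices of (1) -/
def bor_e1 : J ⊕ Option m ≃ (J ⊕ m) ⊕ Unit where
  toFun
    | Sum.inl j => Sum.inl (Sum.inl j)
    | Sum.inr none => Sum.inr ()
    | Sum.inr (some i) => Sum.inl (Sum.inr i)
  invFun
    | Sum.inl (Sum.inl j) => Sum.inl j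
    | Sum.inl (Sum.inr i) => Sum.inr (some i)
    | Sum.inr _ => Sum.inr none
  left_inv := by rintro (j | _ | i) <;> rfl
  right_inv := by rintro ((j | i) | i) <;> rfl

/-- the indices of (2) -/
def bor_e2 : Option J ⊕ m ≃ (J ⊕ m) ⊕ Unit where
  toFun
    | Sum.inl none => Sum.inr ()
    | Sum.inl (some j) => Sum.inl (Sum.inl j)
    | Sum.inr i => Sum.inl (Sum.inr i)
  invFun
    | Sum.inl (Sum.inl j) => Sum.inl (some j)
    | Sum.inl (Sum.inr i) => Sum.inr i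
    | Sum.inr _ => Sum.inl none
  left_inv := by rintro ((_ | j) | i) <;> rfl
  right_inv := by rintro ((j | i) | i) <;> rfl

/-- (1) -/
def bor_iso1 : (Bor F g m).Iso (Phi F g (Option m)) where
  fwd p := ⟨(p.1.1.1, (bor_M p.1.1.2 p.1.2.1 p.1.2.2.1 p.1.2.2.2).submatrix (bor_e1 (J := J) m)
    (bor_e1 (J := J) m)), fun j => p.2.1 j, by
      rw [det_submatrix_equiv_self]
      exact p.2.2⟩
  inv q := ⟨((q.1.1, (q.1.2.submatrix (bor_e1 (J := J) m).symm (bor_e1 (J := J) m).symm).toBlocks₁₁),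
    (fun i => q.1.2.submatrix (bor_e1 (J := J) m).symm (bor_e1 (J := J) m).symm (Sum.inl i)
      (Sum.inr ())),
    (fun i => q.1.2.submatrix (bor_e1 (J := J) m).symm (bor_e1 (J := J) m).symm (Sum.inr ())
      (Sum.inl i)),
    q.1.2.submatrix (bor_e1 (J := J) m).symm (bor_e1 (J := J) m).symm (Sum.inr ()) (Sum.inr ())),
    fun j => q.2.1 j, by
      change IsUnit (bor_M _ _ _ _).det
      rw [bor_M_to, det_submatrix_equiv_self]
      exact q.2.2⟩
  left p := by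
    refine Subtype.ext (Prod.ext (Prod.ext rfl ?_) (Prod.ext ?_ (Prod.ext ?_ rfl)))
    · ext (i | i) (j | j) <;> rfl
    · funext i
      rcases i with i | i <;> rfl
    · funext i
      rcases i with i | i <;> rfl
  right q := by
    refine Subtype.ext (Prod.ext rfl ?_)
    ext (i | _ | i) (j | _ | j) <;> rfl
  nat f p := by
    refine Subtype.ext (Prod.ext rfl ?_)
    ext (i | _ | i) (j | _ | j) <;> rfl

/-- (2) -/
def bor_iso2 : (bor_Y F g g₀ m).Iso (Phi F (fun j : Option J => j.elim g₀ g) m) where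
  fwd p := ⟨(p.1.1.1.1, (bor_M p.1.1.1.2 p.1.1.2.1 p.1.1.2.2.1 p.1.1.2.2.2).submatrix
    (bor_e2 (J := J) m) (bor_e2 (J := J) m)), fun j => by
      cases j with
      | none => exact p.2
      | some j => exact p.1.2.1 j, by
      rw [det_submatrix_equiv_self]
      exact p.1.2.2⟩
  inv q := ⟨⟨((q.1.1, (q.1.2.submatrix (bor_e2 (J := J) m).symm (bor_e2 (J := J) m).symm).toBlocks₁₁),
    (fun i => q.1.2.submatrix (bor_e2 (J := J) m).symm (bor_e2 (J := J) m).symm (Sum.inl i)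
      (Sum.inr ())),
    (fun i => q.1.2.submatrix (bor_e2 (J := J) m).symm (bor_e2 (J := J) m).symm (Sum.inr ())
      (Sum.inl i)),
    q.1.2.submatrix (bor_e2 (J := J) m).symm (bor_e2 (J := J) m).symm (Sum.inr ()) (Sum.inr ())),
    fun j => q.2.1 (some j), by
      change IsUnit (bor_M _ _ _ _).det
      rw [bor_M_to, det_submatrix_equiv_self]
      exact q.2.2⟩, q.2.1 none⟩
  left p := by
    refine Subtype.ext (Subtype.ext (Prod.ext (Prod.ext rfl ?_) (Prod.ext ?_ (Prod.ext ?_ rfl))))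
    · ext (i | i) (j | j) <;> rfl
    · funext i
      rcases i with i | i <;> rfl
    · funext i
      rcases i with i | i <;> rfl
  right q := by
    refine Subtype.ext (Prod.ext rfl ?_)
    ext ((_ | i) | i) ((_ | j) | j) <;> rfl
  nat f p := by
    refine Subtype.ext (Prod.ext rfl ?_)
    ext ((_ | i) | i) ((_ | j) | j) <;> rfl

/-- (3) -/
def bor_iso3 : ((Bor F g m).unt (bor_d F g m)).Iso
    (((Phi F g m).aff ((J ⊕ m) ⊕ (J ⊕ m))).gm Unit) where
  fwd p := ((⟨p.1.1.1, p.1.2.1, p.2⟩, Sum.elim p.1.1.2.2.1 (p.1.1.1.2⁻¹ *ᵥ p.1.1.2.1)),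
    fun _ => (bor_unit p.2 p.1.2.2).unit)
  inv q := ⟨⟨(q.1.1.1, q.1.1.1.2 *ᵥ (fun i => q.1.2 (Sum.inr i)), (fun i => q.1.2 (Sum.inl i)),
    (q.2 () : _) + ∑ i, q.1.2 (Sum.inl i) * q.1.2 (Sum.inr i)), q.1.1.2.1, by
      change IsUnit (bor_M _ _ _ _).det
      rw [bor_det_mul, add_sub_cancel_right]
      exact q.1.1.2.2.mul (q.2 ()).isUnit⟩, q.1.1.2.2⟩
  left p := by
    refine Subtype.ext (Subtype.ext (Prod.ext rfl (Prod.ext ?_ (Prod.ext rfl ?_))))
    · exact bor_mul_inv p.2 _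
    · exact sub_add_cancel _ _
  right q := by
    have h1 := bor_inv_mul q.1.1.2.2 (fun i => q.1.2 (Sum.inr i))
    refine Prod.ext (Prod.ext rfl ?_) ?_
    · funext i
      rcases i with i | i
      · rfl
      · exact congrFun h1 i
    · funext i
      refine Units.ext ?_
      change ((q.2 () : _) + ∑ i, q.1.2 (Sum.inl i) * q.1.2 (Sum.inr i)) -
        ∑ i, q.1.2 (Sum.inl i) * (q.1.1.1.2⁻¹ *ᵥ (q.1.1.1.2 *ᵥ fun i => q.1.2 (Sum.inr i))) i = _
      rw [h1]
      exact add_sub_cancel_right _ _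
  nat f p := by
    have h1 := bor_map_inv f p.2 p.1.1.2.1
    refine Prod.ext (Prod.ext rfl ?_) ?_
    · funext i
      rcases i with i | i
      · rfl
      · exact (congrFun h1 i).symm
    · funext i
      refine Units.ext ?_
      change f p.1.1.2.2.2 - ∑ i, f (p.1.1.2.2.1 i) *
        ((p.1.1.1.2.map f)⁻¹ *ᵥ fun i => f (p.1.1.2.1 i)) i =
        f (p.1.1.2.2.2 - ∑ i, p.1.1.2.2.1 i * (p.1.1.1.2⁻¹ *ᵥ p.1.1.2.1) i)
      rw [← h1, map_sub, map_sum]
      simp only [map_mul]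

/-- the function `g₀` on `Phi` -/
abbrev bor_h : (Phi F g m).Fu := ⟨fun p => g₀.app p.1.1, fun f p => g₀.nat f p.1.1⟩

/-- (4) -/
def bor_iso4 : ((bor_Y F g g₀ m).unt (bor_dY F g g₀ m)).Iso
    (((Phi F g m).aff ((J ⊕ m) ⊕ (J ⊕ m))).unt (hyp (F := Phi F g m) (bor_h F g g₀ m) (J ⊕ m))) where
  fwd p := ⟨(⟨p.1.1.1.1, p.1.1.2.1, p.2⟩, Sum.elim p.1.1.1.2.2.1 (p.1.1.1.1.2⁻¹ *ᵥ p.1.1.1.2.1)), by
    have h1 := bor_unit p.2 p.1.1.2.2
    rw [p.1.2] at h1
    have h2 := h1.neg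
    rw [neg_sub] at h2
    exact h2⟩
  inv q := ⟨⟨⟨(q.1.1.1, q.1.1.1.2 *ᵥ (fun i => q.1.2 (Sum.inr i)), (fun i => q.1.2 (Sum.inl i)),
    g₀.app q.1.1.1.1), q.1.1.2.1, by
      change IsUnit (bor_M _ _ _ _).det
      rw [bor_det_mul]
      refine q.1.1.2.2.mul ?_
      have h2 := q.2.neg
      change IsUnit (-(∑ i, q.1.2 (Sum.inl i) * q.1.2 (Sum.inr i) - g₀.app q.1.1.1.1)) at h2
      rw [neg_sub] at h2
      exact h2⟩, rfl⟩, q.1.1.2.2⟩
  left p := by
    refine Subtype.ext (Subtype.ext (Subtype.ext (Prod.ext rfl (Prod.ext ?_ (Prod.ext rfl ?_)))))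
    · exact bor_mul_inv p.2 _
    · exact p.1.2.symm
  right q := by
    have h1 := bor_inv_mul q.1.1.2.2 (fun i => q.1.2 (Sum.inr i))
    refine Subtype.ext (Prod.ext rfl ?_)
    funext i
    rcases i with i | i
    · rfl
    · exact congrFun h1 i
  nat f p := by
    have h1 := bor_map_inv f p.2 p.1.1.1.2.1
    refine Subtype.ext (Prod.ext rfl ?_)
    funext i
    rcases i with i | i
    · rfl
    · exact (congrFun h1 i).symm

/-- (5) -/
def bor_iso5 : ((Bor F g m).zer (bor_d F g m)).Iso ((bor_B F g m).aff Unit) where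
  fwd p := (⟨⟨(p.1.1.1, p.1.1.2.1, p.1.1.2.2.1, 0), p.1.2.1, by
    have h1 := p.1.2.2
    change IsUnit (bor_M _ _ _ _).det at h1
    change IsUnit (bor_M _ _ _ _).det
    rwa [bor_zero p.2 _ p.1.1.2.2.2]⟩, p.2, rfl⟩, fun _ => p.1.1.2.2.2)
  inv q := ⟨⟨(q.1.1.1.1, q.1.1.1.2.1, q.1.1.1.2.2.1, q.2 ()), q.1.1.2.1, by
    have h1 := q.1.1.2.2
    change IsUnit (bor_M _ _ _ _).det at h1
    change IsUnit (bor_M _ _ _ _).det
    rwa [bor_zero q.1.2.1 _ q.1.1.1.2.2.2]⟩, q.1.2.1⟩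
  left p := rfl
  right q := Prod.ext (Subtype.ext (Subtype.ext (Prod.ext rfl (Prod.ext rfl (Prod.ext rfl
    q.1.2.2.symm))))) rfl
  nat f p := Prod.ext (Subtype.ext (Subtype.ext (Prod.ext rfl (Prod.ext rfl (Prod.ext rfl
    (map_zero f).symm))))) rfl

/-- (6) -/
def bor_iso6 : ((bor_Y F g g₀ m).zer (bor_dY F g g₀ m)).Iso (bor_B F g m) where
  fwd p := ⟨⟨(p.1.1.1.1, p.1.1.1.2.1, p.1.1.1.2.2.1, 0), p.1.1.2.1, by
    have h1 := p.1.1.2.2
    change IsUnit (bor_M _ _ _ _).det at h1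
    change IsUnit (bor_M _ _ _ _).det
    rwa [bor_zero p.2 _ p.1.1.1.2.2.2]⟩, p.2, rfl⟩
  inv q := ⟨⟨⟨(q.1.1.1, q.1.1.2.1, q.1.1.2.2.1, g₀.app q.1.1.1.1), q.1.2.1, by
    have h1 := q.1.2.2
    change IsUnit (bor_M _ _ _ _).det at h1
    change IsUnit (bor_M _ _ _ _).det
    rwa [bor_zero q.2.1 _ q.1.1.2.2.2]⟩, rfl⟩, q.2.1⟩
  left p := Subtype.ext (Subtype.ext (Subtype.ext (Prod.ext rfl (Prod.ext rfl (Prod.ext rfl
    p.1.2.symm)))))
  right q := Subtype.ext (Subtype.ext (Prod.ext rfl (Prod.ext rfl (Prod.ext rfl q.2.2.symm))))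
  nat f p := Subtype.ext (Subtype.ext (Prod.ext rfl (Prod.ext rfl (Prod.ext rfl
    (map_zero f).symm))))

end functors

theorem thm_BOR : St_BOR := by
  intro k _ F J _ _ g g₀ m _ _
  exact ⟨Bor F g m, bor_Y F g g₀ m, bor_d F g m, bor_dY F g g₀ m, bor_B F g m,
    ⟨bor_iso1 F g m⟩, ⟨bor_iso2 F g g₀ m⟩, ⟨bor_iso3 F g m⟩, ⟨bor_iso4 F g g₀ m⟩,
    ⟨bor_iso5 F g m⟩, ⟨bor_iso6 F g g₀ m⟩⟩

end Pool.Agent.KGR
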