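import Pool.Agent.KGR.St3

/-!
# KGR, CON: contraction of an edge in the graph matrix
-/

set_option autoImplicit false

noncomputable section

namespace Pool.Agent.KGR

open Function Matrix

/-- an edge with equal ends: its weight is a unit if the graph matrix is invertible -/
theorem con_unit {ι V S : Type} [Fintype ι] [DecidableEq ι] [Fintype V] [DecidableEq V]
    [CommRing S] (a b : ι → Option V) (x : ι → S) (e : ι) (hab : a e = b e)
    (h : IsUnit (grm a b x).det) : IsUnit (x e) := by
  have h1 : grm a b x = (grm a b x).updateRow (Sum.inl e)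
      (x e • (Pi.single (Sum.inl e) (1 : S) : ι ⊕ V → S)) := by
    ext p q
    rw [updateRow_apply]
    split_ifs with hp
    · subst hp
      rw [Pi.smul_apply, smul_eq_mul]
      rcases q with f | v
      · by_cases hf : f = e
        · subst hf
          rw [Pi.single_eq_same, mul_one]
          exact diagonal_apply_eq x f
        · rw [Pi.single_eq_of_ne (fun h => hf (Sum.inl_injective h)), mul_zero]
          exact diagonal_apply_ne x (Ne.symm hf)
      · rw [Pi.single_eq_of_ne (by simp), mul_zero]
        change (if a e = some v then (1 : S) else 0) - (if b e = some v then 1 else 0) = 0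
        rw [hab, sub_self]
    · rfl
  rw [h1, det_updateRow_smul] at h
  exact isUnit_of_mul_isUnit_left h

/-- exchange of the ends -/
theorem con_swap {ι V S : Type} [Fintype ι] [DecidableEq ι] [Fintype V] [DecidableEq V]
    [CommRing S] (a b : ι → Option V) (x : ι → S) :
    (grm b a x).det = (grm a b x).det := by
  have hinc : inc S b a = -inc S a b := by
    ext e v
    change (if b e = some v then (1 : S) else 0) - (if a e = some v then 1 else 0) =
      -((if a e = some v then (1 : S) else 0) - (if b e = some v then 1 else 0))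
    ring
  let T : Matrix (ι ⊕ V) (ι ⊕ V) S := fromBlocks 1 0 0 (-1)
  have hT : T * T = 1 := by
    change fromBlocks 1 0 0 (-1) * fromBlocks 1 0 0 (-1) = (1 : Matrix (ι ⊕ V) (ι ⊕ V) S)
    rw [fromBlocks_multiply]
    simp
  have h1 : grm b a x = T * grm a b x * T := by
    change fromBlocks (diagonal x) (inc S b a) (-(inc S b a)ᵀ) 0 =
      fromBlocks 1 0 0 (-1) * fromBlocks (diagonal x) (inc S a b) (-(inc S a b)ᵀ) 0 *
        fromBlocks 1 0 0 (-1)
    rw [fromBlocks_multiply, fromBlocks_multiply, hinc]
    simp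
  have h2 : T.det * T.det = 1 := by rw [← det_mul, hT, det_one]
  rw [h1, det_mul, det_mul]
  linear_combination (grm a b x).det * h2

section contr

variable {V : Type} [DecidableEq V]

/-- the vertex `i` is removed -/
def con_kap (i : V) : Option V → Option {w : V // w ≠ i}
  | none => none
  | some w => if h : w ≠ i then some ⟨w, h⟩ else none

/-- the vertex `i` is identified with `v` -/
def con_rho (i : V) (v : Option V) (t : Option V) : Option {w : V // w ≠ i} :=
  if t = some i then con_kap i v else con_kap i t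

theorem con_kap_iff (i : V) (t : Option V) (w : {w : V // w ≠ i}) :
    con_kap i t = some w ↔ t = some w.1 := by
  cases t with
  | none => simp [con_kap]
  | some u =>
    by_cases h : u ≠ i
    · have h1 : con_kap i (some u) = some ⟨u, h⟩ := dif_pos h
      rw [h1, Option.some_inj, Option.some_inj]
      constructor
      · intro h2; rw [← h2]
      · intro h2; exact Subtype.ext h2
    · have h1 : con_kap i (some u) = none := dif_neg h
      rw [h1, Option.some_inj]
      constructor
      · intro h2; exact absurd h2 (by simp)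
      · intro h2
        rw [h2] at h
        exact absurd w.2 h

theorem con_rho_ind {S : Type} [CommRing S] (i : V) (v : Option V) (t : Option V)
    (w : {w : V // w ≠ i}) :
    (if con_rho i v t = some w then (1 : S) else 0) = (if t = some w.1 then 1 else 0) +
      (if v = some w.1 then 1 else 0) * (if t = some i then 1 else 0) := by
  unfold con_rho
  by_cases h : t = some i
  · rw [if_pos h, if_pos h, mul_one]
    have h1 : ¬ t = some w.1 := by
      rw [h, Option.some_inj]
      exact fun h2 => w.2 h2.symm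
    rw [if_neg h1, zero_add]
    simp only [con_kap_iff]
  · rw [if_neg h, if_neg h, mul_zero, add_zero]
    simp only [con_kap_iff]

end contr

/-- the index of the reindexed matrix -/
def con_phi {ι V : Type} (e : ι) (i : V) :
    ({f : ι // f ≠ e} ⊕ {w : V // w ≠ i}) ⊕ Fin 2 → ι ⊕ V
  | Sum.inl (Sum.inl f) => Sum.inl f.1
  | Sum.inl (Sum.inr w) => Sum.inr w.1
  | Sum.inr j => if j = 0 then Sum.inl e else Sum.inr i

theorem con_phi_bij {ι V : Type} (e : ι) (i : V) : Bijective (con_phi e i) := by
  constructor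
  · rintro ((f | w) | j) ((f' | w') | j') h
    · have h1 : f.1 = f'.1 := Sum.inl_injective h
      rw [Subtype.ext h1]
    · exact absurd h (by simp [con_phi])
    · exfalso
      fin_cases j'
      · exact f.2 (Sum.inl_injective h)
      · exact Sum.inl_ne_inr h
    · exact absurd h (by simp [con_phi])
    · have h1 : w.1 = w'.1 := Sum.inr_injective h
      rw [Subtype.ext h1]
    · exfalso
      fin_cases j'
      · exact Sum.inr_ne_inl h
      · exact w.2 (Sum.inr_injective h)
    · exfalso
      fin_cases j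
      · exact f'.2 (Sum.inl_injective h).symm
      · exact Sum.inr_ne_inl h
    · exfalso
      fin_cases j
      · exact Sum.inl_ne_inr h
      · exact w'.2 (Sum.inr_injective h).symm
    · fin_cases j <;> fin_cases j'
      · rfl
      · exact absurd h Sum.inl_ne_inr
      · exact absurd h Sum.inr_ne_inl
      · rfl
  · rintro (f | w)
    · by_cases hf : f = e
      · exact ⟨Sum.inr 0, by rw [hf]; rfl⟩
      · exact ⟨Sum.inl (Sum.inl ⟨f, hf⟩), rfl⟩
    · by_cases hw : w = i
      · exact ⟨Sum.inr 1, by rw [hw]; rfl⟩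
      · exact ⟨Sum.inl (Sum.inr ⟨w, hw⟩), rfl⟩

/-- contraction in the graph matrix -/
theorem con_det {ι V S : Type} [Fintype ι] [DecidableEq ι] [Fintype V] [DecidableEq V]
    [CommRing S] (a b : ι → Option V) (x : ι → S) (e : ι) (i : V) (ha : a e = some i)
    (hb : b e ≠ some i) (hx : x e = 0) :
    (grm a b x).det = (grm (fun f : {f // f ≠ e} => con_rho i (b e) (a f.1))
      (fun f : {f // f ≠ e} => con_rho i (b e) (b f.1)) fun f => x f.1).det := by
  let φ : ({f : ι // f ≠ e} ⊕ {w : V // w ≠ i}) ⊕ Fin 2 ≃ ι ⊕ V :=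
    Equiv.ofBijective (con_phi e i) (con_phi_bij e i)
  let M := (grm a b x).submatrix φ φ
  have hM : M.det = (grm a b x).det := det_submatrix_equiv_self φ _
  have hD : M.toBlocks₂₂ = !![0, 1; -1, 0] := by
    ext p q
    fin_cases p <;> fin_cases q
    · change (diagonal x) e e = 0
      rw [diagonal_apply_eq, hx]
    · change (if a e = some i then (1 : S) else 0) - (if b e = some i then 1 else 0) = 1
      rw [if_pos ha, if_neg hb, sub_zero]
    · change -((if a e = some i then (1 : S) else 0) - (if b e = some i then 1 else 0)) = -1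
      rw [if_pos ha, if_neg hb, sub_zero]
    · rfl
  have hR0 : ∀ f : {f : ι // f ≠ e}, M.toBlocks₁₂ (Sum.inl f) 0 = 0 := fun f =>
    diagonal_apply_ne x f.2
  have hR1 : ∀ f : {f : ι // f ≠ e}, M.toBlocks₁₂ (Sum.inl f) 1 = inc S a b f.1 i :=
    fun f => rfl
  have hR2 : ∀ w : {w : V // w ≠ i}, M.toBlocks₁₂ (Sum.inr w) 0 = -inc S a b e w.1 :=
    fun w => rfl
  have hR3 : ∀ w : {w : V // w ≠ i}, M.toBlocks₁₂ (Sum.inr w) 1 = 0 := fun w => rfl
  have hT0 : ∀ f : {f : ι // f ≠ e}, M.toBlocks₂₁ 0 (Sum.inl f) = 0 := fun f =>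
    diagonal_apply_ne x f.2.symm
  have hT1 : ∀ f : {f : ι // f ≠ e}, M.toBlocks₂₁ 1 (Sum.inl f) = -inc S a b f.1 i :=
    fun f => rfl
  have hT2 : ∀ w : {w : V // w ≠ i}, M.toBlocks₂₁ 0 (Sum.inr w) = inc S a b e w.1 :=
    fun w => rfl
  have hT3 : ∀ w : {w : V // w ≠ i}, M.toBlocks₂₁ 1 (Sum.inr w) = 0 := fun w => rfl
  have hinv1 : M.toBlocks₂₂ * !![0, -1; 1, 0] = 1 := by
    rw [hD]
    ext p q
    fin_cases p <;> fin_cases q <;> simp [Matrix.mul_apply, Fin.sum_univ_two]
  have hinv2 : !![0, -1; 1, 0] * M.toBlocks₂₂ = 1 := by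
    rw [hD]
    ext p q
    fin_cases p <;> fin_cases q <;> simp [Matrix.mul_apply, Fin.sum_univ_two]
  let inst : Invertible M.toBlocks₂₂ := ⟨!![0, -1; 1, 0], hinv2, hinv1⟩
  have hie : ∀ w : {w : V // w ≠ i}, inc S a b e w.1 =
      -(if b e = some w.1 then 1 else 0) := by
    intro w
    change (if a e = some w.1 then (1 : S) else 0) - (if b e = some w.1 then 1 else 0) = _
    have h1 : ¬ a e = some w.1 := by
      rw [ha, Option.some_inj]
      exact fun h2 => w.2 h2.symm
    rw [if_neg h1, zero_sub]
  have hinc : ∀ (f : {f : ι // f ≠ e}) (w : {w : V // w ≠ i}),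
      inc S (fun f : {f // f ≠ e} => con_rho i (b e) (a f.1))
        (fun f : {f // f ≠ e} => con_rho i (b e) (b f.1)) f w =
      inc S a b f.1 w.1 - inc S a b f.1 i * inc S a b e w.1 := by
    intro f w
    rw [hie]
    change (if con_rho i (b e) (a f.1) = some w then (1 : S) else 0) -
      (if con_rho i (b e) (b f.1) = some w then 1 else 0) =
      ((if a f.1 = some w.1 then 1 else 0) - if b f.1 = some w.1 then 1 else 0) -
      ((if a f.1 = some i then 1 else 0) - if b f.1 = some i then 1 else 0) *
        -(if b e = some w.1 then 1 else 0)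
    rw [con_rho_ind, con_rho_ind]
    ring
  have hS : M.toBlocks₁₁ - M.toBlocks₁₂ * ⅟M.toBlocks₂₂ * M.toBlocks₂₁ =
      grm (fun f : {f // f ≠ e} => con_rho i (b e) (a f.1))
        (fun f : {f // f ≠ e} => con_rho i (b e) (b f.1)) fun f => x f.1 := by
    have hi : ⅟M.toBlocks₂₂ = !![0, -1; 1, 0] := rfl
    have hent : ∀ p q, (M.toBlocks₁₁ - M.toBlocks₁₂ * ⅟M.toBlocks₂₂ * M.toBlocks₂₁) p q =
        M.toBlocks₁₁ p q - (M.toBlocks₁₂ p 1 * M.toBlocks₂₁ 0 q -
          M.toBlocks₁₂ p 0 * M.toBlocks₂₁ 1 q) := by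
      intro p q
      rw [Matrix.sub_apply, mul_apply, Fin.sum_univ_two, mul_apply, mul_apply, Fin.sum_univ_two,
        Fin.sum_univ_two, hi]
      simp
      ring
    ext p q
    rw [hent]
    rcases p with f | w <;> rcases q with f' | w'
    · rw [hR0, hT0, mul_zero, zero_mul, sub_zero, sub_zero]
      change (diagonal x) f.1 f'.1 = (diagonal fun f : {f // f ≠ e} => x f.1) f f'
      by_cases h : f = f'
      · rw [h, diagonal_apply_eq, diagonal_apply_eq]
      · rw [diagonal_apply_ne _ h, diagonal_apply_ne _ fun h2 => h (Subtype.ext h2)]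
    · rw [hR1, hT2, hR0, zero_mul, sub_zero]
      change inc S a b f.1 w'.1 - _ = inc S (fun f : {f // f ≠ e} => con_rho i (b e) (a f.1))
        (fun f : {f // f ≠ e} => con_rho i (b e) (b f.1)) f w'
      rw [hinc]
    · rw [hR3, zero_mul, hR2, hT1]
      change -inc S a b f'.1 w.1 - _ =
        -inc S (fun f : {f // f ≠ e} => con_rho i (b e) (a f.1))
        (fun f : {f // f ≠ e} => con_rho i (b e) (b f.1)) f' w
      rw [hinc]
      ring
    · rw [hR3, hT3, zero_mul, mul_zero]
      change (0 : S) - _ = 0
      ring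
  rw [← hM, ← fromBlocks_toBlocks M, det_fromBlocks₂₂, hS]
  have hd : (M.toBlocks₂₂).det = 1 := by
    rw [hD, det_fin_two_of]
    ring
  rw [hd, one_mul]

/-- extension by zero -/
def con_ext {ι S : Type} [DecidableEq ι] [Zero S] (e : ι) (y : {f // f ≠ e} → S) : ι → S :=
  fun f => if h : f ≠ e then y ⟨f, h⟩ else 0

theorem con_ext_ne {ι S : Type} [DecidableEq ι] [Zero S] (e : ι) (y : {f // f ≠ e} → S) (f : ι)
    (h : f ≠ e) : con_ext e y f = y ⟨f, h⟩ := dif_pos h

theorem con_ext_self {ι S : Type} [DecidableEq ι] [Zero S] (e : ι) (y : {f // f ≠ e} → S) :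
    con_ext e y e = 0 := dif_neg (not_not.2 rfl)

theorem con_ext_res {ι S : Type} [DecidableEq ι] [Zero S] (e : ι) (y : {f // f ≠ e} → S) :
    (fun f : {f // f ≠ e} => con_ext e y f.1) = y := funext fun f => dif_pos f.2

theorem con_res_ext {ι S : Type} [DecidableEq ι] [Zero S] (e : ι) (x : ι → S) (hx : x e = 0) :
    con_ext e (fun f : {f // f ≠ e} => x f.1) = x := by
  funext f
  by_cases h : f ≠ e
  · exact dif_pos h
  · have h1 : f = e := not_not.1 h
    refine (dif_neg h).trans ?_
    rw [h1, hx]

/-- the isomorphism of functors for a contraction -/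
def con_iso {k : Type} [CommRing k] {ι V V' : Type} [Fintype ι] [DecidableEq ι] [Fintype V]
    [DecidableEq V] [Fintype V'] [DecidableEq V'] (a b : ι → Option V) (U : ι → Prop) (e : ι)
    (hU : ¬ U e) (a' b' : {f // f ≠ e} → Option V')
    (hdet : ∀ (S : Type) [CommRing S] (x : ι → S), x e = 0 →
      (grm a b x).det = (grm a' b' fun f : {f // f ≠ e} => x f.1).det) :
    ((SymF k a b U).zer (SymF.x a b U e)).Iso (SymF k a' b' fun f => U f.1) where
  fwd {S} _ _ x := ⟨fun f => x.1.1 f.1, fun f h => x.1.2.1 f.1 h,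
    (hdet S x.1.1 x.2) ▸ x.1.2.2⟩
  inv {S} _ _ y := ⟨⟨con_ext e y.1, fun f h => by
      have h1 : f ≠ e := fun h2 => hU (h2 ▸ h)
      have h2 := con_ext_ne e y.1 f h1
      exact h2 ▸ y.2.1 ⟨f, h1⟩ h, by
      have h1 := hdet S (con_ext e y.1) (con_ext_self e y.1)
      rw [con_ext_res] at h1
      exact h1 ▸ y.2.2⟩, con_ext_self e y.1⟩
  left x := Subtype.ext (Subtype.ext (con_res_ext e x.1.1 x.2))
  right y := Subtype.ext (con_ext_res e y.1)
  nat f x := rfl

theorem thm_CON : St_CON := by
  intro k _ ι V _ _ _ _ a b U e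
  constructor
  · intro hab
    refine ⟨{ fwd := fun x => ⟨x.1, fun f h => x.2.1 f (Or.inl h), x.2.2⟩
              inv := fun x => ⟨x.1, fun f h => ?_, x.2.2⟩
              left := fun x => rfl
              right := fun x => rfl
              nat := fun f x => rfl }⟩
    rcases h with h | h
    · exact x.2.1 f h
    · rw [h]
      exact con_unit a b x.1 e hab x.2.2
  · intro hab hU
    rcases hae : a e with _ | i
    · rcases hbe : b e with _ | i
      · exact absurd (hae.trans hbe.symm) hab
      · refine ⟨{w : V // w ≠ i}, inferInstance, inferInstance,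
          fun f => con_rho i (a e) (b f.1), fun f => con_rho i (a e) (a f.1),
          ⟨con_iso a b U e hU _ _ fun S _ x hx => ?_⟩⟩
        rw [← con_swap a b x]
        exact con_det b a x e i hbe (by rw [hae]; simp) hx
    · refine ⟨{w : V // w ≠ i}, inferInstance, inferInstance,
          fun f => con_rho i (b e) (a f.1), fun f => con_rho i (b e) (b f.1),
          ⟨con_iso a b U e hU _ _ fun S _ x hx => ?_⟩⟩
      exact con_det a b x e i hae (fun h => hab (hae.trans h.symm)) hx

end Pool.Agent.KGR
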