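import Pool.Agent.KGR.StF

/-!
# KGR: the closure properties of the class of rings with good groups (helper81)
-/

set_option autoImplicit false

noncomputable section

namespace Pool.Agent.KGR

open CategoryTheory AlgebraicGeometry Function Pool.Agent.KQ Pool.Agent.KQG Pool.Agent.KTX
open Pool.Agent.KPR Pool.Agent.GTH Pool.Agent.KGT

theorem thm_CQ : St_CQ := by
  intro 𝒯 𝒮 h𝒮
  have hC := cls_PA 𝒯 h𝒮
  exact
    { iso := fun R S _ _ _ _ e h => hC.iso R S e h
      mv := fun R _ _ σ _ => ⟨fun h => pa_mv 𝒯 h𝒮 R σ h, fun h => hC.mv R σ h⟩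
      away := fun R V _ _ _ _ s _ h h' => hC.away R V s h h'
      quot := fun R V _ _ _ _ s _ h h' => by
        have := noeth_away (V := V) s
        intro n
        exact SFG.quot_deg h𝒮 (isLoc_alg (V := V) s) n (WithTop.coe_lt_top n) (h' (n + 1)) (h n)
      of_lau := fun R V _ _ _ _ _ h => hC.of_lau R V h }

end Pool.Agent.KGR
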