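import Pool.Agent.KGR.St3

/-!
# KGR DEL: one more invertible weight; deletion of an edge (helper56)
-/

set_option autoImplicit false

noncomputable section

namespace Pool.Agent.KGR

open Function Matrix

theorem del_lpm {ι V : Type} [Fintype ι] [DecidableEq ι] [DecidableEq V] (a b : ι → Option V)
    (e : ι) {S : Type} [CommRing S] (x : ι → S) (hx : x e = 0) :
    lpm a b x = lpm (fun f : {f // f ≠ e} => a f.1) (fun f => b f.1) fun f => x f.1 := by
  ext v w
  unfold lpm
  rw [mul_apply, mul_apply, Fintype.sum_eq_add_sum_subtype_ne _ e]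
  simp only [mul_diagonal, transpose_apply]
  rw [hx, mul_zero, zero_mul, zero_add]
  rfl

/-- the extension by zero -/
def del_ext {ι : Type} [DecidableEq ι] (e : ι) {S : Type} [CommRing S]
    (x : {f : ι // f ≠ e} → S) : ι → S := fun f => if h : f ≠ e then x ⟨f, h⟩ else 0

theorem del_ext_ne {ι : Type} [DecidableEq ι] (e : ι) {S : Type} [CommRing S]
    (x : {f : ι // f ≠ e} → S) (f : ι) (h : f ≠ e) : del_ext e x f = x ⟨f, h⟩ := by
  unfold del_ext
  rw [dif_pos h]

theorem del_ext_self {ι : Type} [DecidableEq ι] (e : ι) {S : Type} [CommRing S]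
    (x : {f : ι // f ≠ e} → S) : del_ext e x e = 0 := by
  unfold del_ext
  rw [dif_neg (not_not.mpr rfl)]

/-- **DEL.** One more invertible weight; deletion of an edge. -/
theorem thm_DEL : St_DEL := by
  intro k _ ι V _ _ _ _ a b U e
  refine ⟨⟨?_⟩, ⟨?_⟩, fun hU => ⟨?_⟩⟩
  · exact
      { fwd := fun x => ⟨x.1.1, fun f hf => hf.elim (x.1.2.1 f) fun h => by
          rw [h]
          exact x.2, x.1.2.2⟩
        inv := fun y => ⟨⟨y.1, fun f hf => y.2.1 f (Or.inl hf), y.2.2⟩, y.2.1 e (Or.inr rfl)⟩
        left := fun x => rfl
        right := fun y => rfl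
        nat := fun f x => rfl }
  · exact
      { fwd := fun x => ⟨x.1.1, fun f hf => hf.elim (x.1.2.1 f) fun h => by
          rw [h]
          exact x.2, x.1.2.2⟩
        inv := fun y => ⟨⟨y.1, fun f hf => y.2.1 f (Or.inl hf), y.2.2⟩, y.2.1 e (Or.inr rfl)⟩
        left := fun x => rfl
        right := fun y => rfl
        nat := fun f x => rfl }
  · exact
      { fwd := fun x => ⟨fun f => x.1.1 f.1, fun f hf => x.1.2.1 f.1 hf, by
          have h := x.1.2.2
          rw [del_lpm a b e x.1.1 x.2] at h
          exact h⟩
        inv := fun y => ⟨⟨del_ext e y.1, fun f hf => by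
            have h : f ≠ e := fun h => hU (h ▸ hf)
            rw [del_ext_ne e _ f h]
            exact y.2.1 ⟨f, h⟩ hf, by
            rw [del_lpm a b e _ (del_ext_self e y.1)]
            have h : (fun f : {f // f ≠ e} => del_ext e y.1 f.1) = y.1 := by
              funext f
              rw [del_ext_ne e _ f.1 f.2]
            rw [h]
            exact y.2.2⟩, del_ext_self e y.1⟩
        left := fun x => by
          refine Subtype.ext (Subtype.ext (funext fun f => ?_))
          by_cases h : f = e
          · subst h
            change del_ext f (fun g : {g // g ≠ f} => x.1.1 g.1) f = x.1.1 f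
            rw [del_ext_self]
            exact x.2.symm
          · change del_ext e (fun g : {g // g ≠ e} => x.1.1 g.1) f = x.1.1 f
            rw [del_ext_ne e _ f h]
        right := fun y => by
          refine Subtype.ext (funext fun f => ?_)
          change del_ext e y.1 f.1 = y.1 f
          rw [del_ext_ne e _ f.1 f.2]
        nat := fun f x => rfl }

end Pool.Agent.KGR
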