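import Pool.Agent.KGT.PresC
import Pool.Agent.GTH.Cls

/-!
# KGR: Bass's conjecture and graph polynomials: functors of points (architect helper71)

Project for MP_e17fa799_al. The class of the noetherian rings with good `K'`-groups is treated by
functors of points: `Fn k` are the functors from commutative `k`-algebras to sets, `F.Good G` means
that `F` is represented by a noetherian ring in the class `G`.
-/

set_option autoImplicit false

noncomputable section

namespace Pool.Agent.KGR

open Function Matrix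

/-- Closure properties of a class of noetherian rings (all degrees). -/
structure ClsQ (G : (R : Type) → [CommRing R] → Prop) : Prop where
  iso : ∀ (R S : Type) [CommRing R] [IsNoetherianRing R] [CommRing S] [IsNoetherianRing S],
    (R ≃+* S) → G R → G S
  mv : ∀ (R : Type) [CommRing R] [IsNoetherianRing R] (σ : Type) [Finite σ],
    G (MvPolynomial σ R) ↔ G R
  away : ∀ (R V : Type) [CommRing R] [IsNoetherianRing R] [CommRing V] [Algebra R V] (s : R)
    [IsLocalization.Away s V], G R → G (R ⧸ Ideal.span {s}) → G V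
  quot : ∀ (R V : Type) [CommRing R] [IsNoetherianRing R] [CommRing V] [Algebra R V] (s : R)
    [IsLocalization.Away s V], G R → G V → G (R ⧸ Ideal.span {s})
  of_lau : ∀ (R V : Type) [CommRing R] [IsNoetherianRing R] [CommRing V]
    [Algebra (Polynomial R) V] [IsLocalization.Away (Polynomial.X : Polynomial R) V], G V → G R

/-- functors from the commutative `k`-algebras to sets -/
structure Fn (k : Type) [CommRing k] where
  /-- the points -/
  obj : (S : Type) → [CommRing S] → [Algebra k S] → Type
  /-- the maps -/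
  map : ∀ {S S' : Type} [CommRing S] [Algebra k S] [CommRing S'] [Algebra k S'],
    (S →ₐ[k] S') → obj S → obj S'
  map_id : ∀ {S : Type} [CommRing S] [Algebra k S] (x : obj S), map (AlgHom.id k S) x = x
  map_comp : ∀ {S S' S'' : Type} [CommRing S] [Algebra k S] [CommRing S'] [Algebra k S']
    [CommRing S''] [Algebra k S''] (f : S →ₐ[k] S') (g : S' →ₐ[k] S'') (x : obj S),
    map (g.comp f) x = map g (map f x)

namespace Fn

variable {k : Type} [CommRing k]

/-- functions on `F` -/
structure Fu (F : Fn k) where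
  /-- the values -/
  app : ∀ {S : Type} [CommRing S] [Algebra k S], F.obj S → S
  nat : ∀ {S S' : Type} [CommRing S] [Algebra k S] [CommRing S'] [Algebra k S']
    (f : S →ₐ[k] S') (x : F.obj S), app (F.map f x) = f (app x)

/-- subfunctors -/
def sub (F : Fn k) (P : ∀ {S : Type} [CommRing S] [Algebra k S], F.obj S → Prop)
    (h : ∀ {S S' : Type} [CommRing S] [Algebra k S] [CommRing S'] [Algebra k S']
      (f : S →ₐ[k] S') (x : F.obj S), P x → P (F.map f x)) : Fn k where
  obj S _ _ := {x : F.obj S // P x}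
  map f x := ⟨F.map f x.1, h f x.1 x.2⟩
  map_id x := Subtype.ext (F.map_id x.1)
  map_comp f g x := Subtype.ext (F.map_comp f g x.1)

/-- the zeros of a family of functions -/
def zers (F : Fn k) {J : Type} (s : J → F.Fu) : Fn k :=
  F.sub (fun x => ∀ j, (s j).app x = 0) fun f x h j => by rw [(s j).nat, h j, map_zero]

/-- the zeros of a function -/
def zer (F : Fn k) (s : F.Fu) : Fn k :=
  F.sub (fun x => s.app x = 0) fun f x h => by rw [s.nat, h, map_zero]

/-- the points where a function is invertible -/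
def unt (F : Fn k) (s : F.Fu) : Fn k :=
  F.sub (fun x => IsUnit (s.app x)) fun f x h => by rw [s.nat]; exact h.map f

/-- `F × 𝔸^σ` -/
def aff (F : Fn k) (σ : Type) : Fn k where
  obj S _ _ := F.obj S × (σ → S)
  map f x := (F.map f x.1, fun i => f (x.2 i))
  map_id x := Prod.ext (F.map_id x.1) rfl
  map_comp f g x := Prod.ext (F.map_comp f g x.1) rfl

/-- `F × 𝔾_m^σ` -/
def gm (F : Fn k) (σ : Type) : Fn k where
  obj S _ _ := F.obj S × (σ → Sˣ)
  map f x := (F.map f x.1, fun i => Units.map (f : _ →* _) (x.2 i))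
  map_id x := Prod.ext (F.map_id x.1) (funext fun _ => Units.ext rfl)
  map_comp f g x := Prod.ext (F.map_comp f g x.1) (funext fun _ => Units.ext rfl)

/-- the point -/
def pt (k : Type) [CommRing k] : Fn k where
  obj _ _ _ := Unit
  map _ x := x
  map_id _ := rfl
  map_comp _ _ _ := rfl

/-- the homomorphisms of an algebra -/
def hom (B : Type) [CommRing B] [Algebra k B] : Fn k where
  obj S _ _ := B →ₐ[k] S
  map f x := f.comp x
  map_id _ := rfl
  map_comp _ _ _ := rfl

/-- isomorphisms -/
structure Iso (F F' : Fn k) where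
  /-- the map -/
  fwd : ∀ {S : Type} [CommRing S] [Algebra k S], F.obj S → F'.obj S
  /-- the inverse map -/
  inv : ∀ {S : Type} [CommRing S] [Algebra k S], F'.obj S → F.obj S
  left : ∀ {S : Type} [CommRing S] [Algebra k S] (x : F.obj S), inv (fwd x) = x
  right : ∀ {S : Type} [CommRing S] [Algebra k S] (x : F'.obj S), fwd (inv x) = x
  nat : ∀ {S S' : Type} [CommRing S] [Algebra k S] [CommRing S'] [Algebra k S']
    (f : S →ₐ[k] S') (x : F.obj S), fwd (F.map f x) = F'.map f (fwd x)

/-- `F` is represented by `R`, with the universal point `u`. -/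
def Rep (F : Fn k) (R : Type) [CommRing R] [Algebra k R] (u : F.obj R) : Prop :=
  ∀ (S : Type) [CommRing S] [Algebra k S] (y : F.obj S), ∃! f : R →ₐ[k] S, F.map f u = y

/-- `F` is represented by a noetherian ring in the class `G`. -/
def Good (F : Fn k) (G : (R : Type) → [CommRing R] → Prop) : Prop :=
  ∃ (R : Type) (_ : CommRing R) (_ : Algebra k R) (u : F.obj R),
    IsNoetherianRing R ∧ F.Rep R u ∧ G R

end Fn

variable {k : Type} [CommRing k]

/-! ### invertible matrices -/

/-- the images of matrices -/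
theorem isUnit_det_map {S S' : Type} [CommRing S] [Algebra k S] [CommRing S'] [Algebra k S']
    {n : Type} [Fintype n] [DecidableEq n] (f : S →ₐ[k] S') (M : Matrix n n S)
    (h : IsUnit M.det) : IsUnit (M.map f).det := by
  have h1 : (M.map f).det = f M.det := (AlgHom.map_det f M).symm
  rw [h1]
  exact h.map f

/-- invertible symmetric matrices with zeros outside `E` -/
def SymU (k : Type) [CommRing k] (V : Type) [Fintype V] [DecidableEq V] (E : V → V → Prop) :
    Fn k where
  obj S _ _ := {M : Matrix V V S // (∀ i j, M i j = M j i) ∧ (∀ i j, ¬ E i j → M i j = 0) ∧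
    IsUnit M.det}
  map f M := ⟨M.1.map f, fun i j => congrArg f (M.2.1 i j), fun i j h => by
    rw [map_apply, M.2.2.1 i j h, map_zero], isUnit_det_map f _ M.2.2.2⟩
  map_id _ := rfl
  map_comp _ _ _ := rfl

/-- invertible matrices with zeros outside `P` whose entries in `U` are invertible -/
def MatU (k : Type) [CommRing k] (V : Type) [Fintype V] [DecidableEq V] (P U : V → V → Prop) :
    Fn k where
  obj S _ _ := {M : Matrix V V S // (∀ i j, ¬ P i j → M i j = 0) ∧ (∀ i j, U i j → IsUnit (M i j)) ∧
    IsUnit M.det}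
  map f M := ⟨M.1.map f, fun i j h => by rw [map_apply, M.2.1 i j h, map_zero],
    fun i j h => (M.2.2.1 i j h).map f, isUnit_det_map f _ M.2.2.2⟩
  map_id _ := rfl
  map_comp _ _ _ := rfl

/-- Pairs of matrices `V : A × B`, `W : B × C` with zeros outside `PV`, `PW` whose entries in `UV`,
`UW` are invertible. -/
def LVW (k : Type) [CommRing k] {A B C : Type} (PV UV : A → B → Prop) (PW UW : B → C → Prop) :
    Fn k where
  obj S _ _ := {p : Matrix A B S × Matrix B C S // (∀ a b, ¬ PV a b → p.1 a b = 0) ∧
    (∀ a b, UV a b → IsUnit (p.1 a b)) ∧ (∀ b c, ¬ PW b c → p.2 b c = 0) ∧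
    ∀ b c, UW b c → IsUnit (p.2 b c)}
  map f p := ⟨(p.1.1.map f, p.1.2.map f), fun a b h => by
      change f (p.1.1 a b) = 0
      rw [p.2.1 a b h, map_zero], fun a b h => (p.2.2.1 a b h).map f, fun b c h => by
      change f (p.1.2 b c) = 0
      rw [p.2.2.2.1 b c h, map_zero], fun b c h => (p.2.2.2.2 b c h).map f⟩
  map_id _ := rfl
  map_comp _ _ _ := rfl

/-- the entry `-(V W) a c` -/
def gVW {A B C : Type} [Fintype B] (PV UV : A → B → Prop) (PW UW : B → C → Prop) (a : A) (c : C) :
    (LVW k PV UV PW UW).Fu where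
  app p := -(p.1.1 * p.1.2) a c
  nat f p := by
    change -((p.1.1.map f) * (p.1.2.map f)) a c = f (-(p.1.1 * p.1.2) a c)
    rw [map_neg, mul_apply, mul_apply, map_sum]
    simp only [map_apply, map_mul]

/-- points `x` of `F` and invertible matrices `N` with indices in `J ⊕ m` such that `N j j = g_j x`
for `j` in `J` -/
def Phi (F : Fn k) {J : Type} [Fintype J] [DecidableEq J] (g : J → F.Fu) (m : Type) [Fintype m]
    [DecidableEq m] : Fn k where
  obj S _ _ := {p : F.obj S × Matrix (J ⊕ m) (J ⊕ m) S //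
    (∀ j, p.2 (Sum.inl j) (Sum.inl j) = (g j).app p.1) ∧ IsUnit p.2.det}
  map f p := ⟨(F.map f p.1.1, p.1.2.map f), fun j => by
    change f (p.1.2 (Sum.inl j) (Sum.inl j)) = (g j).app (F.map f p.1.1)
    rw [p.2.1 j, (g j).nat], isUnit_det_map f _ p.2.2⟩
  map_id p := Subtype.ext (Prod.ext (F.map_id p.1.1) rfl)
  map_comp f g p := Subtype.ext (Prod.ext (F.map_comp f g p.1.1) rfl)

/-! ### systems of equations -/

/-- a system of equations `z_o = 1`, `z_a = z_b z_c`, `z_a = z_b + z_c` -/
structure Sys (σ : Type) where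
  /-- the index of `1` -/
  o : σ
  /-- `z_a = z_b z_c` -/
  mul : σ → σ → σ → Prop
  /-- `z_a = z_b + z_c` -/
  add : σ → σ → σ → Prop

/-- the solutions -/
def SysF (k : Type) [CommRing k] {σ : Type} (s : Sys σ) : Fn k where
  obj S _ _ := {z : σ → S // z s.o = 1 ∧ (∀ a b c, s.mul a b c → z a = z b * z c) ∧
    ∀ a b c, s.add a b c → z a = z b + z c}
  map f z := ⟨fun i => f (z.1 i), by
      change f (z.1 s.o) = 1
      rw [z.2.1, map_one], fun a b c h => by
      change f (z.1 a) = f (z.1 b) * f (z.1 c)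
      rw [z.2.2.1 a b c h, map_mul], fun a b c h => by
      change f (z.1 a) = f (z.1 b) + f (z.1 c)
      rw [z.2.2.2 a b c h, map_add]⟩
  map_id _ := rfl
  map_comp _ _ _ := rfl

/-- the rows (points) of the configuration of a system -/
inductive Ro (σ : Type) : Type
  | E | D0 | D (i : σ) | U (i : σ) | Q (i : σ) | R (a b c : σ) | R' (a b c : σ)

/-- the columns (lines) of the configuration of a system -/
inductive Co (σ : Type) : Type
  | d | c (i : σ) | h (i : σ) | m (i : σ) | s (i : σ)

/-- the column of `Fin 3` which is normalised in a row -/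
def Ro.b {σ : Type} : Ro σ → Fin 3
  | Ro.D0 => 1
  | _ => 0

/-- the row of `Fin 3` which is normalised in a column -/
def Co.b {σ : Type} : Co σ → Fin 3
  | Co.d => 1
  | Co.c _ => 1
  | _ => 2

/-- the pattern of the rows: `E = (*, *, *)`, `D0 = (0, *, *)`, `D, U = (*, *, *)`, `Q = (*, 0, *)`,
`R, R' = (*, *, *)` for the triples of the system, and `(*, 0, 0)` for the other triples -/
def PVs {σ : Type} (s : Sys σ) : Ro σ → Fin 3 → Prop
  | Ro.E, _ => True
  | Ro.D0, j => j ≠ 0
  | Ro.D _, _ => True
  | Ro.U _, _ => True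
  | Ro.Q _, j => j ≠ 1
  | Ro.R a b c, j => j = 0 ∨ s.mul a b c
  | Ro.R' a b c, j => j = 0 ∨ s.add a b c

/-- the pattern of the columns: `d = (0, *, *)`, `c = (*, *, 0)`, `h = (*, 0, *)`, `m = (0, *, *)`,
`s = (*, *, *)` -/
def PWs {σ : Type} : Fin 3 → Co σ → Prop
  | j, Co.d => j ≠ 0
  | j, Co.c _ => j ≠ 2
  | j, Co.h _ => j ≠ 1
  | j, Co.m _ => j ≠ 0
  | _, Co.s _ => True

/-- the invertible entries of the rows: the normalised ones, and all entries of `E` -/
def UVs {σ : Type} (r : Ro σ) (j : Fin 3) : Prop := j = r.b ∨ r = Ro.E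

/-- the invertible entries of the columns -/
def UWs {σ : Type} (j : Fin 3) (c : Co σ) : Prop := j = c.b

/-- the incidences -/
def Inc {σ : Type} (s : Sys σ) : Ro σ → Co σ → Prop
  | Ro.E, Co.d => True
  | Ro.E, Co.c i => i = s.o
  | Ro.D0, Co.d => True
  | Ro.D0, Co.s _ => True
  | Ro.D i, Co.c j => i = j
  | Ro.D i, Co.h j => i = j
  | Ro.D _, Co.d => True
  | Ro.U _, Co.c j => j = s.o
  | Ro.U i, Co.h j => i = j
  | Ro.U i, Co.m j => i = j
  | Ro.Q i, Co.h j => i = j
  | Ro.Q i, Co.s j => i = j
  | Ro.R a b c, Co.c j => s.mul a b c ∧ j = b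
  | Ro.R a b c, Co.m j => s.mul a b c ∧ j = c
  | Ro.R a b c, Co.h j => s.mul a b c ∧ j = a
  | Ro.R' a b c, Co.c j => s.add a b c ∧ j = b
  | Ro.R' a b c, Co.s j => s.add a b c ∧ j = c
  | Ro.R' a b c, Co.h j => s.add a b c ∧ j = a
  | _, _ => False

/-- the incidence configurations of a system -/
def IncF (k : Type) [CommRing k] {σ : Type} (s : Sys σ) : Fn k :=
  (LVW k (PVs s) UVs PWs UWs).zers
    (fun j : {p : Ro σ × Co σ // Inc s p.1 p.2} => gVW (PVs s) UVs PWs UWs j.1.1 j.1.2)

/-! ### the rings of the theorem -/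

/-- the generic matrix with zeros outside `P` -/
def genM (k : Type) [CommRing k] {n : ℕ} (P : Finset (Fin n × Fin n)) :
    Matrix (Fin n) (Fin n) (MvPolynomial P k) := fun i j =>
  if h : (i, j) ∈ P then MvPolynomial.X ⟨(i, j), h⟩ else 0

open Classical in
/-- The reduced Laplacian matrix of a graph with vertices `0, …, n`: the variable `x_e` is the weight
of the edge `e`, the row and the column of the vertex `0` are deleted. -/
def lap (k : Type) [CommRing k] {n : ℕ} (Γ : SimpleGraph (Fin (n + 1))) :
    Matrix (Fin n) (Fin n) (MvPolynomial Γ.edgeSet k) := fun i j =>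
  if i = j then ∑ e : Γ.edgeSet, if i.succ ∈ e.1 then MvPolynomial.X e else 0
  else if h : Γ.Adj i.succ j.succ then -MvPolynomial.X ⟨s(i.succ, j.succ), h⟩ else 0

end Pool.Agent.KGR
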