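import Pool.Agent.KGR.Defs

/-!
# KGR: more definitions
-/

set_option autoImplicit false

noncomputable section

namespace Pool.Agent.KGR

open Function Matrix

variable {k : Type} [CommRing k]

/-- the matrix `(A, (T, T'); (T, T')ᵀ, diag (δ, 0))` -/
def bmat {I K K' S : Type} [CommRing S] [DecidableEq K] (A : Matrix I I S) (T : Matrix I K S)
    (T' : Matrix I K' S) (δ : K → S) : Matrix (I ⊕ K ⊕ K') (I ⊕ K ⊕ K') S :=
  fromBlocks A (fromCols T T') (fromRows Tᵀ T'ᵀ) (fromBlocks (diagonal δ) 0 0 0)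

theorem bmat_map {I K K' S S' : Type} [CommRing S] [CommRing S'] [DecidableEq K]
    [Algebra k S] [Algebra k S'] (f : S →ₐ[k] S') (A : Matrix I I S) (T : Matrix I K S)
    (T' : Matrix I K' S) (δ : K → S) :
    (bmat A T T' δ).map f = bmat (A.map f) (T.map f) (T'.map f) fun i => f (δ i) := by
  ext (i | i | i) (j | j | j) <;> try rfl
  · change f (diagonal δ i j) = diagonal (fun i => f (δ i)) i j
    rw [diagonal_apply, diagonal_apply]
    split_ifs
    · rfl
    · exact map_zero f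
  · exact map_zero f
  · exact map_zero f
  · exact map_zero f

/-- Symmetric `A`, `T` and `T'` with zeros outside `P` and `P'`, and `δ`, such that
`(A, (T, T'); (T, T')ᵀ, diag (δ, 0))` is invertible. -/
def BF (k : Type) [CommRing k] (I K K' : Type) [Fintype I] [DecidableEq I] [Fintype K]
    [DecidableEq K] [Fintype K'] [DecidableEq K'] (P : I → K → Prop) (P' : I → K' → Prop) :
    Fn k where
  obj S _ _ := {p : (Matrix I I S × Matrix I K S) × Matrix I K' S × (K → S) //
    (∀ i j, p.1.1 i j = p.1.1 j i) ∧ (∀ i l, ¬ P i l → p.1.2 i l = 0) ∧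
    (∀ i l, ¬ P' i l → p.2.1 i l = 0) ∧ IsUnit (bmat p.1.1 p.1.2 p.2.1 p.2.2).det}
  map f p := ⟨((p.1.1.1.map f, p.1.1.2.map f), p.1.2.1.map f, fun i => f (p.1.2.2 i)),
    fun i j => congrArg f (p.2.1 i j), fun i l h => by
      change f (p.1.1.2 i l) = 0
      rw [p.2.2.1 i l h, map_zero], fun i l h => by
      change f (p.1.2.1 i l) = 0
      rw [p.2.2.2.1 i l h, map_zero], by
      change IsUnit (bmat (p.1.1.1.map f) (p.1.1.2.map f) (p.1.2.1.map f)
        fun i => f (p.1.2.2 i)).det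
      rw [← bmat_map]
      exact isUnit_det_map f _ p.2.2.2.2⟩
  map_id _ := rfl
  map_comp _ _ _ := rfl

/-- the function `δ_i` -/
def BF.dl {I K K' : Type} [Fintype I] [DecidableEq I] [Fintype K]
    [DecidableEq K] [Fintype K'] [DecidableEq K'] (P : I → K → Prop) (P' : I → K' → Prop) (i : K) :
    (BF k I K K' P P').Fu where
  app p := p.1.2.2 i
  nat _ _ := rfl

/-- points of `F` and invertible bordered matrices `(N, c; ρ, t)` -/
def Bor (F : Fn k) {J : Type} [Fintype J] [DecidableEq J] (g : J → F.Fu) (m : Type) [Fintype m]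
    [DecidableEq m] : Fn k where
  obj S _ _ := {p : (F.obj S × Matrix (J ⊕ m) (J ⊕ m) S) × (J ⊕ m → S) × (J ⊕ m → S) × S //
    (∀ j, p.1.2 (Sum.inl j) (Sum.inl j) = (g j).app p.1.1) ∧
    IsUnit (fromBlocks p.1.2 (replicateCol Unit p.2.1) (replicateRow Unit p.2.2.1)
      (of fun _ _ => p.2.2.2)).det}
  map f p := ⟨((F.map f p.1.1.1, p.1.1.2.map f), (fun i => f (p.1.2.1 i)),
    (fun i => f (p.1.2.2.1 i)), f p.1.2.2.2), fun j => by
      change f (p.1.1.2 (Sum.inl j) (Sum.inl j)) = (g j).app (F.map f p.1.1.1)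
      rw [p.2.1 j, (g j).nat], by
      have h := isUnit_det_map f _ p.2.2
      have e : (fromBlocks p.1.1.2 (replicateCol Unit p.1.2.1) (replicateRow Unit p.1.2.2.1)
          (of fun (_ : Unit) (_ : Unit) => p.1.2.2.2)).map f =
          fromBlocks (p.1.1.2.map f) (replicateCol Unit fun i => f (p.1.2.1 i))
          (replicateRow Unit fun i => f (p.1.2.2.1 i))
          (of fun (_ : Unit) (_ : Unit) => f p.1.2.2.2) := by
        ext (i | i) (j | j) <;> rfl
      rw [e] at h
      exact h⟩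
  map_id p := Subtype.ext (Prod.ext (Prod.ext (F.map_id p.1.1.1) rfl) rfl)
  map_comp f g p := Subtype.ext (Prod.ext (Prod.ext (F.map_comp f g p.1.1.1) rfl) rfl)

/-- the function `t` -/
def Bor.t (F : Fn k) {J : Type} [Fintype J] [DecidableEq J] (g : J → F.Fu) (m : Type) [Fintype m]
    [DecidableEq m] : (Bor F g m).Fu where
  app p := p.1.2.2.2
  nat _ _ := rfl

/-- the functions `g` on a product -/
def Fn.Fu.fst {F : Fn k} (g : F.Fu) (σ : Type) : (F.aff σ).Fu where
  app p := g.app p.1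
  nat f p := g.nat f p.1

/-- functions on a subfunctor -/
def Fn.Fu.res {F : Fn k} (g : F.Fu) (P : ∀ {S : Type} [CommRing S] [Algebra k S], F.obj S → Prop)
    (h : ∀ {S S' : Type} [CommRing S] [Algebra k S] [CommRing S'] [Algebra k S']
      (f : S →ₐ[k] S') (x : F.obj S), P x → P (F.map f x)) : (F.sub P h).Fu where
  app p := g.app p.1
  nat f p := g.nat f p.1

/-- the functions `ρ · c - g` on `F × 𝔸^d × 𝔸^d` -/
def hyp {F : Fn k} (g : F.Fu) (d : Type) [Fintype d] : (F.aff (d ⊕ d)).Fu where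
  app p := ∑ i, p.2 (Sum.inl i) * p.2 (Sum.inr i) - g.app p.1
  nat f p := by
    change ∑ i, f (p.2 (Sum.inl i)) * f (p.2 (Sum.inr i)) - g.app (F.map f p.1) = _
    rw [g.nat, map_sub, map_sum]
    simp only [map_mul]

/-- the normalised incidence configurations of a system -/
def IncN (k : Type) [CommRing k] {σ : Type} (s : Sys σ) : Fn k where
  obj S _ _ := {p : Matrix (Ro σ) (Fin 3) S × Matrix (Fin 3) (Co σ) S //
    ((∀ a b, ¬ PVs s a b → p.1 a b = 0) ∧ (∀ b c, ¬ PWs b c → p.2 b c = 0)) ∧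
    ((∀ a, p.1 a a.b = 1) ∧ (∀ b, p.1 Ro.E b = 1) ∧ ∀ c : Co σ, p.2 c.b c = 1) ∧
    ∀ a c, Inc s a c → (p.1 * p.2) a c = 0}
  map f p := ⟨(p.1.1.map f, p.1.2.map f), ⟨fun a b h => by
      change f (p.1.1 a b) = 0
      rw [p.2.1.1 a b h, map_zero], fun b c h => by
      change f (p.1.2 b c) = 0
      rw [p.2.1.2 b c h, map_zero]⟩, ⟨fun a => by
      change f (p.1.1 a a.b) = 1
      rw [p.2.2.1.1 a, map_one], fun b => by
      change f (p.1.1 Ro.E b) = 1
      rw [p.2.2.1.2.1 b, map_one], fun c => by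
      change f (p.1.2 c.b c) = 1
      rw [p.2.2.1.2.2 c, map_one]⟩, fun a c h => by
      have h1 := p.2.2.2 a c h
      change ((p.1.1.map f) * (p.1.2.map f)) a c = 0
      rw [mul_apply] at h1 ⊢
      have h2 := congrArg f h1
      rw [map_sum, map_zero] at h2
      rw [← h2]
      simp only [map_apply, map_mul]⟩
  map_id _ := rfl
  map_comp _ _ _ := rfl

end Pool.Agent.KGR
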