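import Pool.Agent.KGR.Defs2

/-!
# KGR: multigraphs and graph polynomials (architect helper71)

A multigraph is given by the type `ι` of the edges, the type `Option V` of the vertices (`none` is the
vertex which is deleted in the matrices) and the ends `a e`, `b e` of the edges.
-/

set_option autoImplicit false

noncomputable section

namespace Pool.Agent.KGR

open Function Matrix

variable {k : Type} [CommRing k]

/-- the incidence matrix without the column of the vertex `none` -/
def inc (S : Type) [CommRing S] {ι V : Type} [DecidableEq V] (a b : ι → Option V) :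
    Matrix ι V S := fun e v =>
  (if a e = some v then 1 else 0) - if b e = some v then 1 else 0

theorem inc_map {S S' : Type} [CommRing S] [CommRing S'] {ι V : Type} [DecidableEq V]
    (a b : ι → Option V) (f : S →+* S') : (inc S a b).map f = inc S' a b := by
  ext e v
  change f ((if a e = some v then 1 else 0) - if b e = some v then 1 else 0) =
    (if a e = some v then 1 else 0) - if b e = some v then 1 else 0
  rw [map_sub, apply_ite f, apply_ite f, map_one, map_zero]

/-- the reduced Laplacian matrix for the weights `x` -/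
def lpm {ι V : Type} [Fintype ι] [DecidableEq ι] [DecidableEq V] (a b : ι → Option V) {S : Type}
    [CommRing S] (x : ι → S) : Matrix V V S :=
  (inc S a b)ᵀ * diagonal x * inc S a b

/-- the graph matrix `(diag x, B; -Bᵀ, 0)`, `B` the incidence matrix -/
def grm {ι V : Type} [DecidableEq ι] [DecidableEq V] (a b : ι → Option V) {S : Type}
    [CommRing S] (x : ι → S) : Matrix (ι ⊕ V) (ι ⊕ V) S :=
  fromBlocks (diagonal x) (inc S a b) (-(inc S a b)ᵀ) 0

theorem lpm_map {ι V : Type} [Fintype ι] [DecidableEq ι] [DecidableEq V] (a b : ι → Option V)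
    {S S' : Type} [CommRing S] [CommRing S'] (f : S →+* S') (x : ι → S) :
    (lpm a b x).map f = lpm a b fun e => f (x e) := by
  unfold lpm
  rw [← inc_map a b f, Matrix.map_mul, Matrix.map_mul, diagonal_map (map_zero f)]
  rfl

theorem grm_map {ι V : Type} [DecidableEq ι] [DecidableEq V] (a b : ι → Option V)
    {S S' : Type} [CommRing S] [CommRing S'] (f : S →+* S') (x : ι → S) :
    (grm a b x).map f = grm a b fun e => f (x e) := by
  unfold grm
  rw [fromBlocks_map, diagonal_map (map_zero f), inc_map, ← inc_map a b f]
  congr 1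
  · ext v e
    exact map_neg f _
  · ext v w
    exact map_zero f

/-- weights of the edges, invertible for the edges in `U`, with an invertible reduced Laplacian
matrix -/
def KirF (k : Type) [CommRing k] {ι V : Type} [Fintype ι] [DecidableEq ι] [Fintype V]
    [DecidableEq V] (a b : ι → Option V) (U : ι → Prop) : Fn k where
  obj S _ _ := {x : ι → S // (∀ e, U e → IsUnit (x e)) ∧ IsUnit (lpm a b x).det}
  map f x := ⟨fun e => f (x.1 e), fun e h => (x.2.1 e h).map f, by
    have h := isUnit_det_map f _ x.2.2
    have h1 : (lpm a b x.1).map f = lpm a b fun e => f (x.1 e) := lpm_map a b f.toRingHom x.1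
    rwa [h1] at h⟩
  map_id _ := rfl
  map_comp _ _ _ := rfl

/-- the weight of the edge `e` -/
def KirF.x {ι V : Type} [Fintype ι] [DecidableEq ι] [Fintype V] [DecidableEq V]
    (a b : ι → Option V) (U : ι → Prop) (e : ι) : (KirF k a b U).Fu where
  app x := x.1 e
  nat _ _ := rfl

/-- weights of the edges, invertible for the edges in `U`, with an invertible graph matrix -/
def SymF (k : Type) [CommRing k] {ι V : Type} [Fintype ι] [DecidableEq ι] [Fintype V]
    [DecidableEq V] (a b : ι → Option V) (U : ι → Prop) : Fn k where
  obj S _ _ := {x : ι → S // (∀ e, U e → IsUnit (x e)) ∧ IsUnit (grm a b x).det}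
  map f x := ⟨fun e => f (x.1 e), fun e h => (x.2.1 e h).map f, by
    have h := isUnit_det_map f _ x.2.2
    have h1 : (grm a b x.1).map f = grm a b fun e => f (x.1 e) := grm_map a b f.toRingHom x.1
    rwa [h1] at h⟩
  map_id _ := rfl
  map_comp _ _ _ := rfl

/-- the weight of the edge `e` -/
def SymF.x {ι V : Type} [Fintype ι] [DecidableEq ι] [Fintype V] [DecidableEq V]
    (a b : ι → Option V) (U : ι → Prop) (e : ι) : (SymF k a b U).Fu where
  app x := x.1 e
  nat _ _ := rfl

/-- no loops and no multiple edges -/
def Simp {ι V : Type} (a b : ι → Option V) : Prop :=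
  (∀ e, a e ≠ b e) ∧ ∀ e f, s(a e, b e) = s(a f, b f) → e = f

/-- the vertex `0` is `none` -/
def op {n : ℕ} : Fin (n + 1) → Option (Fin n) := Fin.cases none some

/-- the larger end of an edge -/
def ga {n : ℕ} (Γ : SimpleGraph (Fin (n + 1))) (e : Γ.edgeSet) : Option (Fin n) := op e.1.sup

/-- the smaller end of an edge -/
def gb {n : ℕ} (Γ : SimpleGraph (Fin (n + 1))) (e : Γ.edgeSet) : Option (Fin n) := op e.1.inf

open Classical in
/-- the graph matrix of a graph, the weight of the edge `e` is the variable `x_e` -/
def gmat (k : Type) [CommRing k] {n : ℕ} (Γ : SimpleGraph (Fin (n + 1))) :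
    Matrix (Γ.edgeSet ⊕ Fin n) (Γ.edgeSet ⊕ Fin n) (MvPolynomial Γ.edgeSet k) :=
  grm (ga Γ) (gb Γ) MvPolynomial.X

open Classical in
/-- the determinant of the graph matrix -/
def gdet (k : Type) [CommRing k] {n : ℕ} (Γ : SimpleGraph (Fin (n + 1))) :
    MvPolynomial Γ.edgeSet k := (gmat k Γ).det

/-- the generic symmetric matrix with zeros outside `E` -/
def genS (k : Type) [CommRing k] {n : ℕ} (E : Finset (Sym2 (Fin n))) :
    Matrix (Fin n) (Fin n) (MvPolynomial E k) := fun i j =>
  if h : s(i, j) ∈ E then MvPolynomial.X ⟨s(i, j), h⟩ else 0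

/-- one more closure property of a class of noetherian rings -/
def ExtQ (G : (R : Type) → [CommRing R] → Prop) : Prop :=
  ∀ (R V : Type) [CommRing R] [IsNoetherianRing R] [CommRing V] [Algebra R V] (s : R)
    [IsLocalization.Away s V], G (R ⧸ Ideal.span {s}) → G V → G R

/-- `F` is represented by a noetherian ring. -/
def Fn.Noe (F : Fn k) : Prop := F.Good fun _ _ => True

open Classical in
/-- the spanning trees of a graph, as sets of edges -/
def trees {n : ℕ} (Γ : SimpleGraph (Fin n)) : Finset (Finset Γ.edgeSet) :=
  Finset.univ.filter fun T => (SimpleGraph.fromEdgeSet (T.map (Embedding.subtype _) :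
    Set (Sym2 (Fin n)))).IsTree

/-- the Kirchhoff polynomial: the sum over the spanning trees `T` of the products of the `x_e`, `e` in
`T` -/
def kir (k : Type) [CommRing k] {n : ℕ} (Γ : SimpleGraph (Fin n)) : MvPolynomial Γ.edgeSet k :=
  ∑ T ∈ trees Γ, ∏ e ∈ T, MvPolynomial.X e

open Classical in
/-- the graph polynomial (first Symanzik polynomial): the sum over the spanning trees `T` of the
products of the `x_e`, `e` not in `T` -/
def smz (k : Type) [CommRing k] {n : ℕ} (Γ : SimpleGraph (Fin n)) : MvPolynomial Γ.edgeSet k :=
  ∑ T ∈ trees Γ, ∏ e ∈ Tᶜ, MvPolynomial.X e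

end Pool.Agent.KGR
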