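import Pool.Agent.KGR.StF

/-!
# KGR: the final theorem for Quillen's groups `K'_n`
-/

set_option autoImplicit false

noncomputable section

namespace Pool.Agent.KGR

open CategoryTheory AlgebraicGeometry Function Pool.Agent.KQ Pool.Agent.KQG Pool.Agent.KTX
open Pool.Agent.KPR Pool.Agent.GTH Pool.Agent.KGT

/-- localizations of polynomial rings are finitely generated algebras -/
theorem f_finiteType (k : Type) [CommRing k] (σ : Type) [Finite σ] (f : MvPolynomial σ k) :
    Algebra.FiniteType k (Localization.Away f) :=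
  Algebra.FiniteType.trans (R := k) (S := MvPolynomial σ k) (A := Localization.Away f)
    inferInstance
    (IsLocalization.finiteType_of_monoid_fg (Submonoid.powers f) (Localization.Away f))

/-- localizations of polynomial rings are noetherian -/
theorem f_noeth (k : Type) [CommRing k] [IsNoetherianRing k] (σ : Type) [Finite σ]
    (f : MvPolynomial σ k) : IsNoetherianRing (Localization.Away f) :=
  IsLocalization.isNoetherianRing (Submonoid.powers f) (Localization.Away f) inferInstance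

/-- descending induction -/
theorem f_desc {p : ℕ → Prop} (h : ∀ M, p (M + 1) → p M) (h1 : ∀ N : ℕ, ∃ M, N ≤ M ∧ p M) :
    ∀ M, p M := by
  have h2 : ∀ d N : ℕ, p (N + d) → p N := by
    intro d
    induction d with
    | zero => exact fun N hN => hN
    | succ d ih => exact fun N hN => ih N (h (N + d) hN)
  intro N
  obtain ⟨M, hM, hp⟩ := h1 N
  obtain ⟨d, rfl⟩ := Nat.exists_eq_add_of_le hM
  exact h2 d N hp

/-- the class of the rings with good groups -/
theorem f_cls (hCQ : St_CQ) (hH : St_HOMK) (𝒮 : (G : Type 1) → [AddCommGroup G] → Prop)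
    (h𝒮 : Serre 𝒮) : ClsQ (fun R _ => ∀ n : ℕ, 𝒮 (KX n (Sp R))) := by
  obtain ⟨G, key⟩ := real_PA hH h𝒮
  rw [key]
  exact hCQ G 𝒮 h𝒮

/-- **F** -/
theorem thm_F (hCQ : St_CQ) (hLAU : St_LAU) (hGRL : St_GRL) (hASM : St_ASM) : St_F := by
  intro hH 𝒮 h𝒮 k _ hk
  have hN : IsNoetherianRing k := isNoetherianRing_of_surjective ℤ k _ hk
  have hG := f_cls hCQ hH 𝒮 h𝒮
  obtain ⟨g1, g2, g3, g4⟩ := hGRL k
  obtain ⟨a1, a2⟩ := hASM k _ hG hk
  have s1 : HP k (fun R _ => ∀ n : ℕ, 𝒮 (KX n (Sp R))) → SchG 𝒮 k := fun hP =>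
    sch_of_aff hH h𝒮 k fun a I => a2 hP _
  have s2 : (∀ M, PaG 𝒮 k M) → SchG 𝒮 k := fun h => s1 fun n P => by
    obtain ⟨Q, u, hu⟩ := g2 n P
    exact ⟨_, inferInstance, inferInstance, u, f_noeth k _ _, hu, fun M => h M n Q⟩
  have s3 : (∀ M, GrG 𝒮 k M) → SchG 𝒮 k := fun h => s1 <| a1 fun n E h1 h2 => by
    obtain ⟨Γ, u, hu⟩ := g1 n E h1 h2
    exact ⟨_, inferInstance, inferInstance, u, f_noeth k _ _, hu, fun M => h M n Γ⟩
  have s4 : ∀ M, GrG 𝒮 k (M + 1) → GrG 𝒮 k M := fun M h n Γ => by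
    have := f_noeth k _ (lap k Γ).det
    obtain ⟨Γ', ⟨e⟩⟩ := g3 n Γ
    have := f_noeth k _ (lap k Γ').det
    have := IsLocalization.isNoetherianRing (Submonoid.powers (Polynomial.X : Polynomial (GrR k Γ)))
      (Localization.Away (Polynomial.X : Polynomial (GrR k Γ))) inferInstance
    exact hLAU hH 𝒮 h𝒮 (GrR k Γ) M (kx_iso hH h𝒮 (M + 1) e (h (n + 1) Γ'))
  have s5 : ∀ M, PaG 𝒮 k (M + 1) → PaG 𝒮 k M := fun M h n P => by
    have := f_noeth k _ (genM k P).det
    obtain ⟨P', ⟨e⟩⟩ := g4 n P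
    have := f_noeth k _ (genM k P').det
    have := IsLocalization.isNoetherianRing (Submonoid.powers (Polynomial.X : Polynomial (PaR k P)))
      (Localization.Away (Polynomial.X : Polynomial (PaR k P))) inferInstance
    exact hLAU hH 𝒮 h𝒮 (PaR k P) M (kx_iso hH h𝒮 (M + 1) e (h (n + 1) P'))
  have key : List.TFAE [SchG 𝒮 k, ∀ M, GrG 𝒮 k M, ∀ N : ℕ, ∃ M, N ≤ M ∧ GrG 𝒮 k M,
      ∀ M, PaG 𝒮 k M, ∀ N : ℕ, ∃ M, N ≤ M ∧ PaG 𝒮 k M] := by
    tfae_have 1 → 2 := fun h M n Γ => by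
      have := f_finiteType k _ (lap k Γ).det
      exact ft_of_sch h _ M
    tfae_have 2 → 3 := fun h N => ⟨N, le_rfl, h N⟩
    tfae_have 3 → 2 := fun h => f_desc s4 h
    tfae_have 1 → 4 := fun h M n P => by
      have := f_finiteType k _ (genM k P).det
      exact ft_of_sch h _ M
    tfae_have 4 → 5 := fun h N => ⟨N, le_rfl, h N⟩
    tfae_have 5 → 4 := fun h => f_desc s5 h
    tfae_have 4 → 1 := s2
    tfae_have 2 → 1 := s3
    tfae_finish
  refine ⟨key, fun hd hr => ?_⟩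
  exact (reg_iff hH h𝒮 k).trans (key.out 0 1 rfl rfl)

end Pool.Agent.KGR
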