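import Pool.Agent.KGR.St

/-!
# KGR / FNA: representing rings (module by helper18)
-/

set_option autoImplicit false

noncomputable section

namespace Pool.Agent.KGR

open Function Matrix

namespace FNA

variable {k : Type} [CommRing k]

theorem fna_iso (F : Fn k) (R R' : Type) [CommRing R] [Algebra k R] [CommRing R'] [Algebra k R']
    (u : F.obj R) (u' : F.obj R') (h : F.Rep R u) (h' : F.Rep R' u') : Nonempty (R ≃ₐ[k] R') := by
  obtain ⟨f, hf, -⟩ := h R' u'
  obtain ⟨g, hg, -⟩ := h' R u
  refine ⟨AlgEquiv.ofAlgHom f g ?_ ?_⟩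
  · refine (h' R' u').unique ?_ (F.map_id u')
    change F.map (f.comp g) u' = u'
    rw [F.map_comp, hg, hf]
  · refine (h R u).unique ?_ (F.map_id u)
    change F.map (g.comp f) u = u
    rw [F.map_comp, hf, hg]

theorem fna_fwd (F F' : Fn k) (e : F.Iso F') (R : Type) [CommRing R] [Algebra k R] (u : F.obj R)
    (h : F.Rep R u) : F'.Rep R (e.fwd u) := by
  intro S _ _ y
  obtain ⟨f, hf, huniq⟩ := h S (e.inv y)
  refine ⟨f, ?_, fun g hg => huniq g ?_⟩
  · change F'.map f (e.fwd u) = y
    rw [← e.nat, hf, e.right]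
  · change F.map g u = e.inv y
    have hg' : F'.map g (e.fwd u) = y := hg
    rw [← hg', ← e.nat, e.left]

theorem fna_zer (F : Fn k) (s : F.Fu) (R : Type) [CommRing R] [Algebra k R] (u : F.obj R)
    (h : F.Rep R u) :
    ∃ u' : (F.zer s).obj (R ⧸ Ideal.span {s.app u}), (F.zer s).Rep _ u' := by
  set I : Ideal R := Ideal.span {s.app u} with hI
  have h0 : s.app (F.map (Ideal.Quotient.mkₐ k I) u) = 0 := by
    rw [s.nat]
    exact Ideal.Quotient.eq_zero_iff_mem.2 (Ideal.subset_span rfl)
  refine ⟨⟨F.map (Ideal.Quotient.mkₐ k I) u, h0⟩, fun S _ _ y => ?_⟩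
  obtain ⟨f, hf, huniq⟩ := h S y.1
  have hf' : F.map f u = y.1 := hf
  have hfI : ∀ a ∈ I, f a = 0 := by
    intro a ha
    obtain ⟨b, rfl⟩ := Ideal.mem_span_singleton'.1 ha
    rw [map_mul, ← s.nat, hf']
    have hy : s.app y.1 = 0 := y.2
    rw [hy, mul_zero]
  have hcomp : (Ideal.Quotient.liftₐ I f hfI).comp (Ideal.Quotient.mkₐ k I) = f := by
    ext a
    rfl
  refine ⟨Ideal.Quotient.liftₐ I f hfI, ?_, fun g hg => ?_⟩
  · apply Subtype.ext
    change F.map (Ideal.Quotient.liftₐ I f hfI) (F.map (Ideal.Quotient.mkₐ k I) u) = y.1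
    rw [← F.map_comp, hcomp, hf']
  · have hg' : F.map g (F.map (Ideal.Quotient.mkₐ k I) u) = y.1 := congrArg Subtype.val hg
    rw [← F.map_comp] at hg'
    have h1 := huniq _ hg'
    apply Ideal.Quotient.algHom_ext
    rw [hcomp]
    exact h1

theorem fna_unt (F : Fn k) (s : F.Fu) (R : Type) [CommRing R] [Algebra k R] (u : F.obj R)
    (h : F.Rep R u) :
    ∃ u' : (F.unt s).obj (Localization.Away (s.app u)), (F.unt s).Rep _ u' := by
  have h0 : IsUnit (s.app (F.map (IsScalarTower.toAlgHom k R (Localization.Away (s.app u))) u)) := by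
    rw [s.nat]
    exact IsLocalization.Away.algebraMap_isUnit (s.app u)
  refine ⟨⟨F.map (IsScalarTower.toAlgHom k R (Localization.Away (s.app u))) u, h0⟩,
    fun S _ _ y => ?_⟩
  obtain ⟨f, hf, huniq⟩ := h S y.1
  have hf' : F.map f u = y.1 := hf
  have hfM : ∀ a : Submonoid.powers (s.app u), IsUnit (f a) := by
    rintro ⟨a, n, rfl⟩
    change IsUnit (f (s.app u ^ n))
    rw [map_pow, ← s.nat, hf']
    exact y.2.pow n
  let φ : Localization.Away (s.app u) →ₐ[k] S :=
    IsLocalization.liftAlgHom (M := Submonoid.powers (s.app u)) (f := f) hfM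
  have hcomp : φ.comp (IsScalarTower.toAlgHom k R (Localization.Away (s.app u))) = f := by
    ext a
    exact IsLocalization.lift_eq _ a
  refine ⟨φ, ?_, fun g hg => ?_⟩
  · apply Subtype.ext
    change F.map φ (F.map (IsScalarTower.toAlgHom k R (Localization.Away (s.app u))) u) = y.1
    rw [← F.map_comp, hcomp, hf']
  · have hg' : F.map g (F.map (IsScalarTower.toAlgHom k R (Localization.Away (s.app u))) u) = y.1 :=
      congrArg Subtype.val hg
    rw [← F.map_comp] at hg'
    have h1 := huniq _ hg'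
    have h2 : g.comp (IsScalarTower.toAlgHom k R (Localization.Away (s.app u))) =
        φ.comp (IsScalarTower.toAlgHom k R (Localization.Away (s.app u))) := by
      rw [hcomp]
      exact h1
    have h3 : (g : Localization.Away (s.app u) →+* S) = (φ : Localization.Away (s.app u) →+* S) := by
      apply IsLocalization.ringHom_ext (Submonoid.powers (s.app u))
      ext a
      exact DFunLike.congr_fun h2 a
    exact AlgHom.ext fun a => DFunLike.congr_fun h3 a

/-- the homomorphism of the polynomial ring -/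
def mvHom {R S σ : Type} [CommRing R] [Algebra k R] [CommRing S] [Algebra k S] (f : R →ₐ[k] S)
    (y : σ → S) : MvPolynomial σ R →ₐ[k] S where
  toRingHom := MvPolynomial.eval₂Hom (f : R →+* S) y
  commutes' c := by
    change MvPolynomial.eval₂Hom (f : R →+* S) y (algebraMap k (MvPolynomial σ R) c) = _
    rw [MvPolynomial.algebraMap_apply, MvPolynomial.eval₂Hom_C]
    exact f.commutes c

theorem fna_aff (F : Fn k) (σ : Type) (R : Type) [CommRing R] [Algebra k R] (u : F.obj R)
    (h : F.Rep R u) :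
    ∃ u' : (F.aff σ).obj (MvPolynomial σ R), (F.aff σ).Rep _ u' := by
  refine ⟨(F.map (IsScalarTower.toAlgHom k R (MvPolynomial σ R)) u, fun i => MvPolynomial.X i),
    fun S _ _ y => ?_⟩
  obtain ⟨f, hf, huniq⟩ := h S y.1
  have hf' : F.map f u = y.1 := hf
  have hcomp : (mvHom f y.2).comp (IsScalarTower.toAlgHom k R (MvPolynomial σ R)) = f := by
    ext a
    exact MvPolynomial.eval₂Hom_C (f : R →+* S) y.2 a
  refine ⟨mvHom f y.2, ?_, fun g hg => ?_⟩
  · refine Prod.ext ?_ (funext fun i => ?_)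
    · change F.map (mvHom f y.2) (F.map (IsScalarTower.toAlgHom k R (MvPolynomial σ R)) u) = y.1
      rw [← F.map_comp, hcomp, hf']
    · exact MvPolynomial.eval₂Hom_X' (f : R →+* S) y.2 i
  · have hg1 : F.map g (F.map (IsScalarTower.toAlgHom k R (MvPolynomial σ R)) u) = y.1 :=
      congrArg Prod.fst hg
    have hg2 : (fun i => g (MvPolynomial.X i)) = y.2 := congrArg Prod.snd hg
    rw [← F.map_comp] at hg1
    have h1 := huniq _ hg1
    have h3 : (g : MvPolynomial σ R →+* S) = (mvHom f y.2 : MvPolynomial σ R →+* S) := by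
      apply MvPolynomial.ringHom_ext
      · intro a
        have h4 : g (MvPolynomial.C a) = f a := DFunLike.congr_fun h1 a
        have h5 : mvHom f y.2 (MvPolynomial.C a) = f a := DFunLike.congr_fun hcomp a
        exact h4.trans h5.symm
      · intro i
        have h4 : g (MvPolynomial.X i) = y.2 i := congrFun hg2 i
        have h5 : mvHom f y.2 (MvPolynomial.X i) = y.2 i :=
          MvPolynomial.eval₂Hom_X' (f : R →+* S) y.2 i
        exact h4.trans h5.symm
    exact AlgHom.ext fun a => DFunLike.congr_fun h3 a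

end FNA

theorem thm_FNA : St_FNA := by
  intro k _
  refine ⟨fun F R R' _ _ _ _ u u' h h' => FNA.fna_iso F R R' u u' h h',
    fun F F' e R _ _ u h => ⟨e.fwd u, FNA.fna_fwd F F' e R u h⟩,
    fun F s R _ _ u h => FNA.fna_zer F s R u h, fun F s R _ _ u h => FNA.fna_unt F s R u h,
    fun F σ R _ _ u h => FNA.fna_aff F σ R u h, fun B _ _ => ⟨AlgHom.id k B, fun S _ _ y => ?_⟩,
    ⟨(), fun S _ _ y => ?_⟩⟩
  · refine ⟨y, rfl, fun g hg => ?_⟩
    exact hg
  · exact ⟨Algebra.ofId k S, rfl, fun g _ => Subsingleton.elim _ _⟩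

end Pool.Agent.KGR
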