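import Pool.Agent.KGR.St

/-!
# KGR: good functors (helper60)
-/

set_option autoImplicit false

noncomputable section

namespace Pool.Agent.KGR

open Function Matrix

section

variable {k : Type} [CommRing k] {G : (R : Type) → [CommRing R] → Prop}

theorem fnb_uniq (hA : St_FNA) (hG : ClsQ G) {F : Fn k} (hF : F.Good G) (R : Type) [CommRing R]
    [Algebra k R] [IsNoetherianRing R] (u : F.obj R) (hu : F.Rep R u) : G R := by
  obtain ⟨R0, _, _, u0, hN, h0, hG0⟩ := hF
  obtain ⟨e⟩ := (hA k).1 F R0 R u0 u h0 hu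
  exact hG.iso R0 R e.toRingEquiv hG0

theorem fnb_iso (hA : St_FNA) {F F' : Fn k} (e : F.Iso F') (hF : F.Good G) : F'.Good G := by
  obtain ⟨R0, _, _, u0, hN, h0, hG0⟩ := hF
  obtain ⟨u, hu⟩ := (hA k).2.1 F F' e R0 u0 h0
  exact ⟨R0, _, _, u, hN, hu, hG0⟩

theorem fnb_zer (hA : St_FNA) (hG : ClsQ G) (F : Fn k) (s : F.Fu) (hF : F.Good G)
    (h : (F.unt s).Good G) : (F.zer s).Good G := by
  obtain ⟨R, _, _, u, hN, hu, hR⟩ := hF
  obtain ⟨u1, h1⟩ := (hA k).2.2.2.1 F s R u hu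
  obtain ⟨u2, h2⟩ := (hA k).2.2.1 F s R u hu
  have hNL : IsNoetherianRing (Localization.Away (s.app u)) :=
    IsLocalization.isNoetherianRing (Submonoid.powers (s.app u)) _ hN
  have hV : G (Localization.Away (s.app u)) := fnb_uniq hA hG h _ u1 h1
  exact ⟨_, _, _, u2, inferInstance, h2, hG.quot R (Localization.Away (s.app u)) (s.app u) hR hV⟩

theorem fnb_unt (hA : St_FNA) (hG : ClsQ G) (F : Fn k) (s : F.Fu) (hF : F.Good G)
    (h : (F.zer s).Good G) : (F.unt s).Good G := by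
  obtain ⟨R, _, _, u, hN, hu, hR⟩ := hF
  obtain ⟨u1, h1⟩ := (hA k).2.2.2.1 F s R u hu
  obtain ⟨u2, h2⟩ := (hA k).2.2.1 F s R u hu
  have hNL : IsNoetherianRing (Localization.Away (s.app u)) :=
    IsLocalization.isNoetherianRing (Submonoid.powers (s.app u)) _ hN
  have hV : G (R ⧸ Ideal.span {s.app u}) := fnb_uniq hA hG h _ u2 h2
  exact ⟨_, _, _, u1, hNL, h1, hG.away R (Localization.Away (s.app u)) (s.app u) hR hV⟩

/-- zeros of a family of functions -/
theorem fnb_zers_rep (F : Fn k) {J : Type} (s : J → F.Fu) (R : Type) [CommRing R] [Algebra k R]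
    (u : F.obj R) (hu : F.Rep R u) :
    ∃ u' : (F.zers s).obj (R ⧸ Ideal.span (Set.range fun j => (s j).app u)),
      (F.zers s).Rep _ u' := by
  set I : Ideal R := Ideal.span (Set.range fun j => (s j).app u) with hI
  refine ⟨⟨F.map (Ideal.Quotient.mkₐ k I) u, fun j => ?_⟩, ?_⟩
  · rw [(s j).nat]
    exact Ideal.Quotient.eq_zero_iff_mem.2 (Ideal.subset_span ⟨j, rfl⟩)
  · intro S _ _ y
    obtain ⟨f, hf, huniq⟩ := hu S y.1
    have hk : ∀ a : R, a ∈ I → f a = 0 := by
      intro a ha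
      have h1 : I ≤ RingHom.ker (f : R →+* S) := by
        rw [hI, Ideal.span_le]
        rintro _ ⟨j, rfl⟩
        change f ((s j).app u) = 0
        rw [← (s j).nat, hf]
        exact y.2 j
      exact h1 ha
    have hc : (Ideal.Quotient.liftₐ I f hk).comp (Ideal.Quotient.mkₐ k I) = f :=
      AlgHom.ext fun a => rfl
    refine ⟨Ideal.Quotient.liftₐ I f hk, Subtype.ext ?_, fun g hg => ?_⟩
    · change F.map _ (F.map _ u) = y.1
      rw [← F.map_comp, hc, hf]
    · have h2 : F.map (g.comp (Ideal.Quotient.mkₐ k I)) u = y.1 := by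
        rw [F.map_comp]
        exact congrArg Subtype.val hg
      have h3 := huniq _ h2
      apply Ideal.Quotient.algHom_ext
      rw [hc]
      exact h3

/-- a coordinate -/
def fnb_co (F : Fn k) (σ : Type) (i : σ) : (F.aff σ).Fu where
  app p := p.2 i
  nat _ _ := rfl

/-- the zeros of all coordinates -/
def fnb_aff0 (F : Fn k) (σ : Type) : ((F.aff σ).zers (fnb_co F σ)).Iso F where
  fwd x := x.1.1
  inv x := ⟨(x, fun _ => 0), fun _ => rfl⟩
  left x := Subtype.ext (Prod.ext rfl (funext fun j => (x.2 j).symm))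
  right _ := rfl
  nat _ _ := rfl

theorem fnb_aff_rep (hA : St_FNA) (F : Fn k) (σ : Type) (R : Type) [CommRing R] [Algebra k R]
    [IsNoetherianRing R] (u : (F.aff σ).obj R) (hu : (F.aff σ).Rep R u) :
    ∃ (R' : Type) (_ : CommRing R') (_ : Algebra k R') (u' : F.obj R'),
      IsNoetherianRing R' ∧ F.Rep R' u' := by
  obtain ⟨u1, h1⟩ := fnb_zers_rep (F.aff σ) (fnb_co F σ) R u hu
  obtain ⟨u2, h2⟩ := (hA k).2.1 _ _ (fnb_aff0 F σ) _ u1 h1
  exact ⟨_, _, _, u2, inferInstance, h2⟩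

theorem fnb_aff (hA : St_FNA) (hG : ClsQ G) (F : Fn k) (σ : Type) [Finite σ] :
    (F.aff σ).Good G ↔ F.Good G := by
  constructor
  · intro h
    obtain ⟨R, _, _, u, hN, hu, hR⟩ := id h
    obtain ⟨R', _, _, u', hN', hu'⟩ := fnb_aff_rep hA F σ R u hu
    obtain ⟨u3, h3⟩ := (hA k).2.2.2.2.1 F σ R' u' hu'
    have h4 : G (MvPolynomial σ R') := fnb_uniq hA hG h _ u3 h3
    exact ⟨R', _, _, u', hN', hu', (hG.mv R' σ).1 h4⟩
  · rintro ⟨R, _, _, u, hN, hu, hR⟩
    obtain ⟨u3, h3⟩ := (hA k).2.2.2.2.1 F σ R u hu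
    exact ⟨_, _, _, u3, inferInstance, h3, (hG.mv R σ).2 hR⟩

/-- the zeros of one coordinate -/
def fnb_aff1 (F : Fn k) : ((F.aff Unit).zer (fnb_co F Unit ())).Iso F where
  fwd x := x.1.1
  inv x := ⟨(x, fun _ => 0), rfl⟩
  left x := Subtype.ext (Prod.ext rfl (funext fun j => x.2.symm))
  right _ := rfl
  nat _ _ := rfl

/-- the part where the coordinate is invertible -/
def fnb_gm1 (F : Fn k) : ((F.aff Unit).unt (fnb_co F Unit ())).Iso (F.gm Unit) where
  fwd x := (x.1.1, fun _ => x.2.unit)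
  inv x := ⟨(x.1, fun i => (x.2 i : _)), (x.2 ()).isUnit⟩
  left x := Subtype.ext (Prod.ext rfl (funext fun j => rfl))
  right x := Prod.ext rfl (funext fun j => Units.ext rfl)
  nat f x := Prod.ext rfl (funext fun j => Units.ext rfl)

/-- the inverse isomorphism -/
def fnb_symm {F F' : Fn k} (e : F.Iso F') : F'.Iso F where
  fwd := e.inv
  inv := e.fwd
  left := e.right
  right := e.left
  nat f x := by
    have h1 := e.nat f (e.inv x)
    rw [e.right] at h1
    rw [← h1, e.left]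

/-- the function `t - 1` -/
def fnb_t1 (F : Fn k) : (F.gm Unit).Fu where
  app p := (p.2 () : _) - 1
  nat f p := by
    change f (p.2 () : _) - 1 = f ((p.2 () : _) - 1)
    rw [map_sub, map_one]

def fnb_gm0 (F : Fn k) : ((F.gm Unit).zer (fnb_t1 F)).Iso F where
  fwd x := x.1.1
  inv x := ⟨(x, fun _ => 1), sub_self _⟩
  left x := Subtype.ext (Prod.ext rfl (funext fun j => Units.ext (sub_eq_zero.1 x.2).symm))
  right _ := rfl
  nat _ _ := rfl

/-- the affine line over a representing ring -/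
theorem fnb_poly_rep (F : Fn k) (R : Type) [CommRing R] [Algebra k R] (u : F.obj R)
    (hu : F.Rep R u) : (F.aff Unit).Rep (Polynomial R)
      (F.map (Polynomial.CAlgHom (R := k) (A := R)) u, fun _ => Polynomial.X) := by
  intro S _ _ y
  obtain ⟨f, hf, huniq⟩ := hu S y.1
  have hc : (Polynomial.eval₂AlgHom f (y.2 ()) (fun a => Commute.all _ _)).comp
      (Polynomial.CAlgHom (R := k) (A := R)) = f := by
    apply AlgHom.ext
    intro a
    change Polynomial.eval₂ (f : R →+* S) (y.2 ()) (Polynomial.C a) = f a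
    rw [Polynomial.eval₂_C]
    rfl
  have hX : (Polynomial.eval₂AlgHom f (y.2 ()) (fun a => Commute.all _ _)) Polynomial.X =
      y.2 () := by
    change Polynomial.eval₂ (f : R →+* S) (y.2 ()) Polynomial.X = y.2 ()
    rw [Polynomial.eval₂_X]
  refine ⟨Polynomial.eval₂AlgHom f (y.2 ()) (fun a => Commute.all _ _),
    Prod.ext ?_ (funext fun i => hX), fun g hg => ?_⟩
  · change F.map _ (F.map _ u) = y.1
    rw [← F.map_comp, hc, hf]
  · have h1 : F.map (g.comp (Polynomial.CAlgHom (R := k) (A := R))) u = y.1 := by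
      rw [F.map_comp]
      exact congrArg Prod.fst hg
    have h2 : g Polynomial.X = y.2 () := congrFun (congrArg Prod.snd hg) ()
    apply Polynomial.algHom_ext'
    · rw [hc]
      exact huniq _ h1
    · rw [hX, h2]

theorem fnb_gmU (hA : St_FNA) (hG : ClsQ G) (F : Fn k) : (F.gm Unit).Good G ↔ F.Good G := by
  constructor
  · intro h
    obtain ⟨R, _, _, u, hN, hu, hR⟩ := id h
    obtain ⟨u1, h1⟩ := (hA k).2.2.1 (F.gm Unit) (fnb_t1 F) R u hu
    obtain ⟨u2, h2⟩ := (hA k).2.1 _ _ (fnb_gm0 F) _ u1 h1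
    -- `F` is represented by `R' = R / (t - 1)`
    have h3 := fnb_poly_rep F _ u2 h2
    obtain ⟨u4, h4⟩ := (hA k).2.2.2.1 (F.aff Unit) (fnb_co F Unit ()) _ _ h3
    have h5 : ((F.aff Unit).unt (fnb_co F Unit ())).Good G := fnb_iso hA (fnb_symm (fnb_gm1 F)) h
    have hNL : IsNoetherianRing (Localization.Away
        (Polynomial.X : Polynomial (R ⧸ Ideal.span {(fnb_t1 F).app u}))) :=
      IsLocalization.isNoetherianRing (Submonoid.powers (Polynomial.X : Polynomial (R ⧸ Ideal.span {(fnb_t1 F).app u}))) _ inferInstance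
    have h6 : G (Localization.Away
        (Polynomial.X : Polynomial (R ⧸ Ideal.span {(fnb_t1 F).app u}))) :=
      fnb_uniq hA hG h5 _ u4 h4
    exact ⟨_, _, _, u2, inferInstance, h2, hG.of_lau _ _ h6⟩
  · intro h
    refine fnb_iso hA (fnb_gm1 F) (fnb_unt hA hG _ _ ((fnb_aff hA hG F Unit).2 h) ?_)
    exact fnb_iso hA (fnb_symm (fnb_aff1 F)) h

/-- reindexing -/
def fnb_re (F : Fn k) {σ τ : Type} (e : σ ≃ τ) : (F.gm σ).Iso (F.gm τ) where
  fwd x := (x.1, fun i => x.2 (e.symm i))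
  inv x := (x.1, fun i => x.2 (e i))
  left x := Prod.ext rfl (funext fun i => congrArg x.2 (e.symm_apply_apply i))
  right x := Prod.ext rfl (funext fun i => congrArg x.2 (e.apply_symm_apply i))
  nat _ _ := rfl

def fnb_em (F : Fn k) : (F.gm PEmpty).Iso F where
  fwd x := x.1
  inv x := (x, fun i => i.elim)
  left x := Prod.ext rfl (funext fun i => i.elim)
  right _ := rfl
  nat _ _ := rfl

def fnb_op (F : Fn k) (σ : Type) : (F.gm (Option σ)).Iso ((F.gm σ).gm Unit) where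
  fwd x := ((x.1, fun i => x.2 (some i)), fun _ => x.2 none)
  inv x := (x.1.1, fun i => i.elim (x.2 ()) x.1.2)
  left x := Prod.ext rfl (funext fun i => by cases i <;> rfl)
  right _ := rfl
  nat _ _ := rfl

theorem fnb_gm (hA : St_FNA) (hG : ClsQ G) (σ : Type) [Finite σ] :
    ∀ F : Fn k, (F.gm σ).Good G ↔ F.Good G := by
  refine Finite.induction_empty_option (P := fun σ => ∀ F : Fn k, (F.gm σ).Good G ↔ F.Good G)
    ?_ ?_ ?_ σ
  · intro σ τ e h F
    rw [← h F]
    exact ⟨fnb_iso hA (fnb_symm (fnb_re F e)), fnb_iso hA (fnb_re F e)⟩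
  · intro F
    exact ⟨fnb_iso hA (fnb_em F), fnb_iso hA (fnb_symm (fnb_em F))⟩
  · intro σ _ h F
    rw [← h F, ← fnb_gmU hA hG (F.gm σ)]
    exact ⟨fnb_iso hA (fnb_op F σ), fnb_iso hA (fnb_symm (fnb_op F σ))⟩

end

theorem thm_FNB (hA : St_FNA) : St_FNB := by
  intro k _ G hG
  refine ⟨fun F F' e h => fnb_iso hA e h, fun F s h h' => fnb_zer hA hG F s h h',
    fun F s h h' => fnb_unt hA hG F s h h', fun F σ _ => fnb_aff hA hG F σ,
    fun F σ _ => fnb_gm hA hG σ F, ?_⟩
  intro B _ _ _ h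
  obtain ⟨u, hu⟩ := (hA k).2.2.2.2.2.1 B
  exact fnb_uniq hA hG h B u hu

end Pool.Agent.KGR
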