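import Pool.Agent.KGR.St

/-!
# KGR: normalisation of a configuration (GAU)
-/

set_option autoImplicit false

noncomputable section

namespace Pool.Agent.KGR

open Function Matrix

section scale

variable {A B C S : Type} [CommRing S]

theorem gau_grp {G : Type} [CommGroup G] (x y z : G) :
    (x⁻¹ * y⁻¹ * (z⁻¹)⁻¹) * (x * y * z⁻¹) = 1 := by
  calc (x⁻¹ * y⁻¹ * (z⁻¹)⁻¹) * (x * y * z⁻¹) = (x⁻¹ * x) * (y⁻¹ * y) * (z * z⁻¹) := by
        rw [inv_inv]
        ac_rfl
    _ = 1 := by simp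

theorem gau_grp' {G : Type} [CommGroup G] (r t x y z : G) :
    (r * z * x⁻¹) * (t * y * z⁻¹) = r * t * y * x⁻¹ := by
  calc (r * z * x⁻¹) * (t * y * z⁻¹) = (r * t * y * x⁻¹) * (z * z⁻¹) := by ac_rfl
    _ = _ := by rw [mul_inv_cancel, mul_one]

/-- scaled rows -/
def gau_sc (r : A → Sˣ) (u : B → Sˣ) (β : A → B) (V : Matrix A B S) : Matrix A B S :=
  fun a b => (r a * u b * (u (β a))⁻¹ : Sˣ) * V a b

/-- scaled columns -/
def gau_sd (t : C → Sˣ) (u : B → Sˣ) (β : C → B) (W : Matrix B C S) : Matrix B C S :=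
  fun b c => (t c * u (β c) * (u b)⁻¹ : Sˣ) * W b c

theorem gau_sc_inv (r : A → Sˣ) (u : B → Sˣ) (β : A → B) (V : Matrix A B S) :
    gau_sc r⁻¹ u⁻¹ β (gau_sc r u β V) = V := by
  ext a b
  change ((r a)⁻¹ * (u b)⁻¹ * ((u (β a))⁻¹)⁻¹ : Sˣ) * ((r a * u b * (u (β a))⁻¹ : Sˣ) * V a b) = _
  rw [← mul_assoc, ← Units.val_mul, gau_grp, Units.val_one, one_mul]

theorem gau_sc_inv' (r : A → Sˣ) (u : B → Sˣ) (β : A → B) (V : Matrix A B S) :
    gau_sc r u β (gau_sc r⁻¹ u⁻¹ β V) = V := by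
  have h := gau_sc_inv r⁻¹ u⁻¹ β V
  rwa [inv_inv, inv_inv] at h

theorem gau_sd_inv (t : C → Sˣ) (u : B → Sˣ) (β : C → B) (W : Matrix B C S) :
    gau_sd t⁻¹ u⁻¹ β (gau_sd t u β W) = W := by
  ext b c
  change ((t c)⁻¹ * (u (β c))⁻¹ * ((u b)⁻¹)⁻¹ : Sˣ) * ((t c * u (β c) * (u b)⁻¹ : Sˣ) * W b c) = _
  rw [← mul_assoc, ← Units.val_mul, gau_grp, Units.val_one, one_mul]

theorem gau_sd_inv' (t : C → Sˣ) (u : B → Sˣ) (β : C → B) (W : Matrix B C S) :
    gau_sd t u β (gau_sd t⁻¹ u⁻¹ β W) = W := by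
  have h := gau_sd_inv t⁻¹ u⁻¹ β W
  rwa [inv_inv, inv_inv] at h

theorem gau_prod [Fintype B] (r : A → Sˣ) (t : C → Sˣ) (u : B → Sˣ) (β : A → B) (γ : C → B)
    (V : Matrix A B S) (W : Matrix B C S) (a : A) (c : C) (h : (V * W) a c = 0) :
    (gau_sc r u β V * gau_sd t u γ W) a c = 0 := by
  have e : (gau_sc r u β V * gau_sd t u γ W) a c =
      (r a * t c * u (γ c) * (u (β a))⁻¹ : Sˣ) * (V * W) a c := by
    rw [mul_apply, mul_apply, Finset.mul_sum]
    refine Finset.sum_congr rfl fun b _ => ?_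
    change ((r a * u b * (u (β a))⁻¹ : Sˣ) * V a b) * ((t c * u (γ c) * (u b)⁻¹ : Sˣ) * W b c) = _
    rw [mul_mul_mul_comm, ← Units.val_mul, gau_grp']
  rw [e, h, mul_zero]

variable {k S' : Type} [CommRing k] [CommRing S'] [Algebra k S] [Algebra k S']

theorem gau_sc_map (f : S →ₐ[k] S') (r : A → Sˣ) (u : B → Sˣ) (β : A → B) (V : Matrix A B S) :
    (gau_sc r u β V).map f = gau_sc (fun a => Units.map (f : S →* S') (r a))
      (fun b => Units.map (f : S →* S') (u b)) β (V.map f) := by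
  ext a b
  change f ((r a * u b * (u (β a))⁻¹ : Sˣ) * V a b) = (Units.map (f : S →* S') (r a) *
    Units.map (f : S →* S') (u b) * (Units.map (f : S →* S') (u (β a)))⁻¹ : S'ˣ) * f (V a b)
  rw [map_mul, ← map_mul (Units.map (f : S →* S')), ← map_inv, ← map_mul (Units.map (f : S →* S'))]
  rfl

theorem gau_sd_map (f : S →ₐ[k] S') (t : C → Sˣ) (u : B → Sˣ) (β : C → B) (W : Matrix B C S) :
    (gau_sd t u β W).map f = gau_sd (fun a => Units.map (f : S →* S') (t a))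
      (fun b => Units.map (f : S →* S') (u b)) β (W.map f) := by
  ext b c
  change f ((t c * u (β c) * (u b)⁻¹ : Sˣ) * W b c) = (Units.map (f : S →* S') (t c) *
    Units.map (f : S →* S') (u (β c)) * (Units.map (f : S →* S') (u b))⁻¹ : S'ˣ) * f (W b c)
  rw [map_mul, ← map_mul (Units.map (f : S →* S')), ← map_inv, ← map_mul (Units.map (f : S →* S'))]
  rfl

end scale

section

variable {k : Type} [CommRing k] {σ : Type} {s : Sys σ} {S : Type} [CommRing S] [Algebra k S]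

/-- the invertible entries of the rows -/
def gau_r (x : (IncF k s).obj S) (a : Ro σ) : Sˣ :=
  (x.1.2.2.1 a a.b (Or.inl rfl)).unit

/-- the invertible entries of the columns -/
def gau_t (x : (IncF k s).obj S) (c : Co σ) : Sˣ :=
  (x.1.2.2.2.2 c.b c rfl).unit

/-- the entries of `E` -/
def gau_e (x : (IncF k s).obj S) (b : Fin 3) : Sˣ :=
  (x.1.2.2.1 Ro.E b (Or.inr rfl)).unit

/-- the scaling of the coordinates -/
def gau_u (x : (IncF k s).obj S) (b : Fin 3) : Sˣ := gau_e x b * (gau_e x 0)⁻¹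

/-- the scaling of the coordinates, inverse direction -/
def gau_v (z : Ro σ ⊕ Co σ ⊕ Fin 2 → Sˣ) : Fin 3 → Sˣ :=
  Fin.cons (α := fun _ => Sˣ) 1 fun i => z (Sum.inr (Sum.inr i))

theorem gau_r_val (x : (IncF k s).obj S) (a : Ro σ) : (gau_r x a : S) = x.1.1.1 a a.b := rfl
theorem gau_t_val (x : (IncF k s).obj S) (c : Co σ) : (gau_t x c : S) = x.1.1.2 c.b c := rfl
theorem gau_e_val (x : (IncF k s).obj S) (b : Fin 3) : (gau_e x b : S) = x.1.1.1 Ro.E b := rfl

theorem gau_u_zero (x : (IncF k s).obj S) : gau_u x 0 = 1 := mul_inv_cancel _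

/-- the coordinates of the torus -/
def gau_z (x : (IncF k s).obj S) : Ro σ ⊕ Co σ ⊕ Fin 2 → Sˣ :=
  Sum.elim (gau_r x) (Sum.elim (gau_t x) fun i => gau_u x i.succ)

theorem gau_v_z (x : (IncF k s).obj S) : gau_v (gau_z x) = gau_u x := by
  funext b
  refine Fin.cases ?_ (fun i => ?_) b
  · exact (gau_u_zero x).symm
  · rfl

theorem gau_r_E (x : (IncF k s).obj S) : gau_r x Ro.E = gau_e x 0 := Units.ext rfl

/-- the normalised configuration -/
def gau_fwd (x : (IncF k s).obj S) : (IncN k s).obj S :=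
  ⟨(gau_sc (gau_r x)⁻¹ (gau_u x)⁻¹ Ro.b x.1.1.1, gau_sd (gau_t x)⁻¹ (gau_u x)⁻¹ Co.b x.1.1.2),
    ⟨fun a b h => by
        change _ * x.1.1.1 a b = 0
        rw [x.1.2.1 a b h, mul_zero],
      fun b c h => by
        change _ * x.1.1.2 b c = 0
        rw [x.1.2.2.2.1 b c h, mul_zero]⟩,
    ⟨fun a => by
        change (((gau_r x a)⁻¹ * (gau_u x a.b)⁻¹ * ((gau_u x a.b)⁻¹)⁻¹ : Sˣ) : S) *
          x.1.1.1 a a.b = 1
        rw [← gau_r_val, ← Units.val_mul, inv_inv, inv_mul_cancel_right, inv_mul_cancel,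
          Units.val_one],
      fun b => by
        change (((gau_r x Ro.E)⁻¹ * (gau_u x b)⁻¹ * ((gau_u x 0)⁻¹)⁻¹ : Sˣ) : S) *
          x.1.1.1 Ro.E b = 1
        rw [← gau_e_val, ← Units.val_mul, gau_u_zero, gau_r_E, inv_inv, mul_one, gau_u,
          mul_inv, inv_inv, mul_comm (gau_e x b)⁻¹, inv_mul_cancel_left, inv_mul_cancel,
          Units.val_one],
      fun c => by
        change (((gau_t x c)⁻¹ * (gau_u x c.b)⁻¹ * ((gau_u x c.b)⁻¹)⁻¹ : Sˣ) : S) *
          x.1.1.2 c.b c = 1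
        rw [← gau_t_val, ← Units.val_mul, inv_inv, inv_mul_cancel_right, inv_mul_cancel,
          Units.val_one]⟩,
    fun a c h => gau_prod _ _ _ _ _ _ _ a c (neg_eq_zero.1 (x.2 ⟨(a, c), h⟩))⟩

/-- the configuration with a given normalisation -/
def gau_inv (y : ((IncN k s).gm (Ro σ ⊕ Co σ ⊕ Fin 2)).obj S) : (IncF k s).obj S :=
  ⟨⟨(gau_sc (fun a => y.2 (Sum.inl a)) (gau_v y.2) Ro.b y.1.1.1,
      gau_sd (fun c => y.2 (Sum.inr (Sum.inl c))) (gau_v y.2) Co.b y.1.1.2),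
    fun a b h => by
      change _ * y.1.1.1 a b = 0
      rw [y.1.2.1.1 a b h, mul_zero],
    fun a b h => by
      have e : y.1.1.1 a b = 1 := by
        rcases h with rfl | rfl
        · exact y.1.2.2.1.1 a
        · exact y.1.2.2.1.2.1 b
      change IsUnit (_ * y.1.1.1 a b)
      rw [e, mul_one]
      exact Units.isUnit _,
    fun b c h => by
      change _ * y.1.1.2 b c = 0
      rw [y.1.2.1.2 b c h, mul_zero],
    fun b c h => by
      have e : y.1.1.2 b c = 1 := by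
        rcases h with rfl
        exact y.1.2.2.1.2.2 c
      change IsUnit (_ * y.1.1.2 b c)
      rw [e, mul_one]
      exact Units.isUnit _⟩,
    fun j => neg_eq_zero.2 (gau_prod _ _ _ _ _ _ _ j.1.1 j.1.2 (y.1.2.2.2 _ _ j.2))⟩

theorem gau_r_inv (y : ((IncN k s).gm (Ro σ ⊕ Co σ ⊕ Fin 2)).obj S) (a : Ro σ) :
    gau_r (gau_inv y) a = y.2 (Sum.inl a) := by
  refine Units.ext ?_
  change ((y.2 (Sum.inl a) * gau_v y.2 a.b * (gau_v y.2 a.b)⁻¹ : Sˣ) : S) * y.1.1.1 a a.b = _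
  rw [y.1.2.2.1.1 a, mul_one, mul_inv_cancel_right]

theorem gau_t_inv (y : ((IncN k s).gm (Ro σ ⊕ Co σ ⊕ Fin 2)).obj S) (c : Co σ) :
    gau_t (gau_inv y) c = y.2 (Sum.inr (Sum.inl c)) := by
  refine Units.ext ?_
  change ((y.2 (Sum.inr (Sum.inl c)) * gau_v y.2 c.b * (gau_v y.2 c.b)⁻¹ : Sˣ) : S) *
    y.1.1.2 c.b c = _
  rw [y.1.2.2.1.2.2 c, mul_one, mul_inv_cancel_right]

theorem gau_e_inv (y : ((IncN k s).gm (Ro σ ⊕ Co σ ⊕ Fin 2)).obj S) (b : Fin 3) :
    gau_e (gau_inv y) b = y.2 (Sum.inl Ro.E) * gau_v y.2 b := by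
  refine Units.ext ?_
  change ((y.2 (Sum.inl Ro.E) * gau_v y.2 b * (gau_v y.2 0)⁻¹ : Sˣ) : S) * y.1.1.1 Ro.E b = _
  rw [y.1.2.2.1.2.1 b, mul_one]
  have : gau_v y.2 0 = 1 := rfl
  rw [this, inv_one, mul_one]

theorem gau_u_inv (y : ((IncN k s).gm (Ro σ ⊕ Co σ ⊕ Fin 2)).obj S) :
    gau_u (gau_inv y) = gau_v y.2 := by
  funext b
  have : gau_v y.2 0 = 1 := rfl
  rw [gau_u, gau_e_inv, gau_e_inv, this, mul_one, mul_comm (y.2 (Sum.inl Ro.E)),
    mul_inv_cancel_right]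

theorem gau_z_inv (y : ((IncN k s).gm (Ro σ ⊕ Co σ ⊕ Fin 2)).obj S) :
    gau_z (gau_inv y) = y.2 := by
  funext i
  rcases i with a | c | i
  · exact gau_r_inv y a
  · exact gau_t_inv y c
  · change gau_u (gau_inv y) i.succ = _
    rw [gau_u_inv]
    rfl

end

theorem thm_GAU : St_GAU := by
  intro k _ σ s
  exact ⟨{
    fwd := fun x => (gau_fwd x, gau_z x)
    inv := fun y => gau_inv y
    left := fun x => by
      refine Subtype.ext (Subtype.ext (Prod.ext ?_ ?_))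
      · change gau_sc (gau_r x) (gau_v (gau_z x)) Ro.b
          (gau_sc (gau_r x)⁻¹ (gau_u x)⁻¹ Ro.b x.1.1.1) = _
        rw [gau_v_z, gau_sc_inv']
      · change gau_sd (gau_t x) (gau_v (gau_z x)) Co.b
          (gau_sd (gau_t x)⁻¹ (gau_u x)⁻¹ Co.b x.1.1.2) = _
        rw [gau_v_z, gau_sd_inv']
    right := fun y => by
      have hr : gau_r (gau_inv y) = fun a => y.2 (Sum.inl a) := funext fun a => gau_r_inv y a
      have ht : gau_t (gau_inv y) = fun c => y.2 (Sum.inr (Sum.inl c)) :=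
        funext fun c => gau_t_inv y c
      refine Prod.ext (Subtype.ext (Prod.ext ?_ ?_)) (gau_z_inv y)
      · change gau_sc (gau_r (gau_inv y))⁻¹ (gau_u (gau_inv y))⁻¹ Ro.b
          (gau_sc (fun a => y.2 (Sum.inl a)) (gau_v y.2) Ro.b y.1.1.1) = _
        rw [hr, gau_u_inv, gau_sc_inv]
      · change gau_sd (gau_t (gau_inv y))⁻¹ (gau_u (gau_inv y))⁻¹ Co.b
          (gau_sd (fun c => y.2 (Sum.inr (Sum.inl c))) (gau_v y.2) Co.b y.1.1.2) = _
        rw [ht, gau_u_inv, gau_sd_inv]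
    nat := fun {S S'} _ _ _ _ f x => by
      have hr : gau_r ((IncF k s).map f x) =
          fun a => Units.map (f : S →* S') (gau_r x a) := funext fun a => Units.ext rfl
      have ht : gau_t ((IncF k s).map f x) =
          fun a => Units.map (f : S →* S') (gau_t x a) := funext fun a => Units.ext rfl
      have he : gau_e ((IncF k s).map f x) =
          fun a => Units.map (f : S →* S') (gau_e x a) := funext fun a => Units.ext rfl
      have hu : gau_u ((IncF k s).map f x) =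
          fun a => Units.map (f : S →* S') (gau_u x a) := by
        funext a
        rw [gau_u, he, gau_u, map_mul, map_inv]
      refine Prod.ext (Subtype.ext (Prod.ext ?_ ?_)) ?_
      · change gau_sc (gau_r ((IncF k s).map f x))⁻¹ (gau_u ((IncF k s).map f x))⁻¹ Ro.b
          (x.1.1.1.map f) = (gau_sc (gau_r x)⁻¹ (gau_u x)⁻¹ Ro.b x.1.1.1).map f
        rw [gau_sc_map, hr, hu]
        congr 1
      · change gau_sd (gau_t ((IncF k s).map f x))⁻¹ (gau_u ((IncF k s).map f x))⁻¹ Co.b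
          (x.1.1.2.map f) = (gau_sd (gau_t x)⁻¹ (gau_u x)⁻¹ Co.b x.1.1.2).map f
        rw [gau_sd_map, ht, hu]
        congr 1
      · funext i
        rcases i with a | c | i
        · exact congrFun hr a
        · exact congrFun ht c
        · exact congrFun hu i.succ }⟩

end Pool.Agent.KGR
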