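import Pool.Agent.KGR.StF
import Pool.Agent.KGR.Defs3
import Pool.Agent.KGT.WFin

/-!
# KGR: hypersurfaces and their complements (helper71)
-/

set_option autoImplicit false

noncomputable section

namespace Pool.Agent.KGR

open CategoryTheory AlgebraicGeometry Function Pool.Agent.KQ Pool.Agent.KQG Pool.Agent.KTX
open Pool.Agent.KPR Pool.Agent.GTH Pool.Agent.KGT Pool.Agent.KQH

/-- one more closure property of the class of rings with good groups -/
theorem exq (𝒯 : GTheory.{1} ⊤) {𝒮 : (G : Type 1) → [AddCommGroup G] → Prop} (h𝒮 : Serre 𝒮) :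
    ExtQ (fun R _ => PA 𝒯 𝒮 R) := fun R V _ _ _ _ s _ h1 h2 n => by
  have := noeth_away (V := V) s
  exact h𝒮.exact _ _ _ (𝒯.push n _) (𝒯.pull n _) (𝒯.exA n (isLoc_alg (V := V) s)) (h1 n) (h2 n)

section

variable {𝒮 : (G : Type 1) → [AddCommGroup G] → Prop} (h𝒮 : Serre 𝒮) {k : Type} [CommRing k]
  [IsNoetherianRing k] (hk : ∀ n : ℕ, 𝒮 (KX n (Sp k)))

include h𝒮 hk

/-- the complement in degree `n + 1` and the hypersurface in degree `n` -/
theorem hyp_iff (ι : Type) [Finite ι] (f : MvPolynomial ι k) (n : ℕ) :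
    𝒮 (KX (n + 1) (Sp (Localization.Away f))) ↔
      𝒮 (KX n (Sp (MvPolynomial ι k ⧸ Ideal.span {f}))) := by
  obtain ⟨L, G, k1, k2, k3⟩ := real_deg h𝒮
  have h0 : PA G 𝒮 k := (pa_iff G k).2 fun M => by
    rcases M with M | M
    · exact (k3 M k).2 fun n _ => hk n
    · intro n hn
      exact ((k3 0 k).2 fun n _ => hk n) n (hn.trans (by omega))
  have hA : PA G 𝒮 (MvPolynomial ι k) := (cls_PA G h𝒮).mv k ι h0
  have := noeth_away (V := Localization.Away f) f
  have hl := isLoc_alg (V := Localization.Away f) f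
  rw [← k2, ← k2, Nat.cast_succ]
  exact ⟨fun h => h𝒮.exact _ _ _ (G.bd (n + 1) n _ _ _) (G.push n _)
      (G.exC (n + 1) n rfl (WithTop.coe_lt_top _) hl) h (hA n),
    fun h => h𝒮.exact _ _ _ (G.pull (n + 1) _) (G.bd (n + 1) n _ _ _)
      (G.exL (n + 1) n rfl hl) (hA (n + 1)) h⟩

end

end Pool.Agent.KGR
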