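import Pool.Agent.KGR.Defs2

/-!
# KGR: statements (architect helper71)

Project for MP_e17fa799_al: if the `K'`-groups of the complements of all graph hypersurfaces over `ℤ`
are finitely generated, then the `K'`-groups of all schemes of finite type over `ℤ` are finitely
generated. Part 1: rings. Module `X` proves `theorem thm_X : St_X` in `Pool/Agent/KGR/X.lean`,
namespace `Pool.Agent.KGR`; auxiliary lemmas in a sub-namespace with the name of the file.
-/

set_option autoImplicit false

noncomputable section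

namespace Pool.Agent.KGR

open Function Matrix

/-- **FNA** (1 h). Representing rings.

Proof. (1) the usual argument (`∃!` for both, compositions are the identity by uniqueness, `map_id`,
`map_comp`). (2) `u' = e.fwd u`. (3) `u'` = the image of `u` in the quotient; homomorphisms of the
quotient are the homomorphisms of `R` which kill `s.app u` (`Ideal.Quotient.liftₐ`). (4) the image of
`u` in the localization; homomorphisms of the localization are the homomorphisms of `R` for which the
image of `s.app u` is a unit (`IsLocalization.Away.lift`, `IsLocalization.liftAlgHom`,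
`IsLocalization.algHom_ext`; over `k`). (5) `u' = (image of u, X)`, `MvPolynomial.aeval`, `eval₂Hom`; a
`k`-homomorphism `MvPolynomial σ R → S` is a `k`-homomorphism `R → S` and the images of the variables.
(6) for `B` the universal point is the identity; for the point `k` itself. -/
def St_FNA : Prop := ∀ (k : Type) [CommRing k],
  (∀ (F : Fn k) (R R' : Type) [CommRing R] [Algebra k R] [CommRing R'] [Algebra k R'] (u : F.obj R)
    (u' : F.obj R'), F.Rep R u → F.Rep R' u' → Nonempty (R ≃ₐ[k] R')) ∧
  (∀ (F F' : Fn k) (_ : F.Iso F') (R : Type) [CommRing R] [Algebra k R] (u : F.obj R), F.Rep R u →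
    ∃ u' : F'.obj R, F'.Rep R u') ∧
  (∀ (F : Fn k) (s : F.Fu) (R : Type) [CommRing R] [Algebra k R] (u : F.obj R), F.Rep R u →
    ∃ u' : (F.zer s).obj (R ⧸ Ideal.span {s.app u}), (F.zer s).Rep _ u') ∧
  (∀ (F : Fn k) (s : F.Fu) (R : Type) [CommRing R] [Algebra k R] (u : F.obj R), F.Rep R u →
    ∃ u' : (F.unt s).obj (Localization.Away (s.app u)), (F.unt s).Rep _ u') ∧
  (∀ (F : Fn k) (σ : Type) (R : Type) [CommRing R] [Algebra k R] (u : F.obj R), F.Rep R u →
    ∃ u' : (F.aff σ).obj (MvPolynomial σ R), (F.aff σ).Rep _ u') ∧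
  (∀ (B : Type) [CommRing B] [Algebra k B], ∃ u : (Fn.hom (k := k) B).obj B, (Fn.hom B).Rep B u) ∧
  ∃ u : (Fn.pt k).obj k, (Fn.pt k).Rep k u

/-- **FNB** (1 h). Good functors.

Proof. From `St_FNA` and `ClsQ`. (2) `ClsQ.quot`. (3) `ClsQ.away`. (4) `ClsQ.mv`; if `F.aff σ` is represented by
`R`, then `F` (the zeros of the coordinates in `F.aff σ`; for a finite `σ` one coordinate after the
other, or directly) is represented by a noetherian ring `R'`, and `F.aff σ` by `MvPolynomial σ R'`, which
is isomorphic to `R`. (5) For `σ = Unit`: `F.gm Unit` is isomorphic to `(F.aff Unit).unt t`, represented by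
`R[t, 1/t]`; `ClsQ.of_lau` (with `MvPolynomial Unit R ≅ R[X]`) and, for the other direction, (3), (4) and
`(F.aff Unit).zer t ≅ F`; that `F` is representable if `F.gm Unit` is: it is isomorphic to the zeros of
`t - 1`. General `σ`: induction (`Finite.induction_empty_option`), `F.gm (Option σ) ≅ (F.gm σ).gm Unit`. -/
def St_FNB : Prop := ∀ (k : Type) [CommRing k] (G : (R : Type) → [CommRing R] → Prop), ClsQ G →
  (∀ (F F' : Fn k) (_ : F.Iso F'), F.Good G → F'.Good G) ∧
  (∀ (F : Fn k) (s : F.Fu), F.Good G → (F.unt s).Good G → (F.zer s).Good G) ∧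
  (∀ (F : Fn k) (s : F.Fu), F.Good G → (F.zer s).Good G → (F.unt s).Good G) ∧
  (∀ (F : Fn k) (σ : Type) [Finite σ], (F.aff σ).Good G ↔ F.Good G) ∧
  (∀ (F : Fn k) (σ : Type) [Finite σ], (F.gm σ).Good G ↔ F.Good G) ∧
  ∀ (B : Type) [CommRing B] [Algebra k B] [IsNoetherianRing B], (Fn.hom (k := k) B).Good G → G B

/-- all symmetric patterns -/
def HS (k : Type) [CommRing k] (G : (R : Type) → [CommRing R] → Prop) : Prop :=
  ∀ (n : ℕ) (E : Fin n → Fin n → Prop), (∀ i, E i i) → (∀ i j, E i j → E j i) →
    (SymU k (Fin n) E).Good G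

/-- all patterns -/
def HP (k : Type) [CommRing k] (G : (R : Type) → [CommRing R] → Prop) : Prop :=
  ∀ (n : ℕ) (P : Fin n → Fin n → Prop), (MatU k (Fin n) P fun _ _ => False).Good G

/-- **SYA** (1 h). Symmetric block matrices: elimination of a diagonal entry.

Proof. (1) reindex: `(T, T', δ)` with `δ none = 0` is `(T restricted to K, (T none, T'), δ restricted)`; the
matrices `bmat` are obtained from each other by `Matrix.reindex` (`Matrix.det_reindex_self`,
`det_submatrix_equiv_self`). (2) `d = δ none`, `t i = T i none`: `(A, T, T', δ) ↦ ((A - d⁻¹ t tᵀ, T restricted,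
T', δ restricted), t, d)`, the inverse adds `d⁻¹ t tᵀ`; the determinants: `det_fromBlocks₂₂` for the block of
the index `none` after reindexing; the other blocks do not change, as the entries between `none` and
`K ⊕ K'` are `0`. -/
def St_SYA : Prop := ∀ (k : Type) [CommRing k] (I K K' : Type) [Fintype I] [DecidableEq I]
  [Fintype K] [DecidableEq K] [Fintype K'] [DecidableEq K'] ,
  (∀ (P : I → K → Prop) (P' : I → Option K' → Prop), Nonempty (Fn.Iso
    ((BF k I (Option K) K' (fun i l => l.elim (P' i none) (P i)) fun i l => P' i (some l)).zer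
      (BF.dl _ _ none)) (BF k I K (Option K') P P'))) ∧
  ∀ (P : I → Option K → Prop) (P' : I → K' → Prop), Nonempty (Fn.Iso
    ((BF k I (Option K) K' P P').unt (BF.dl _ _ none))
    (((BF k I K K' (fun i l => P i (some l)) P').aff {i // P i none}).gm Unit))

/-- **SYB** (1 h). Symmetric block matrices: the extreme cases.

Proof. (1) `bmat`, reindexed to `I ⊕ K` (`PEmpty` has no elements), is a symmetric matrix with zeros outside
the pattern; conversely the blocks. (2) Here `K` is empty and `K' = I`: the matrix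
`(A, T'; T'ᵀ, 0)` has the determinant `± det T' ^ 2` (multiply by the matrix which exchanges the two blocks,
`det_fromBlocks_zero₂₁`), so it is invertible iff `T'` is; the symmetric matrices `A` are an affine space
with the coordinates `Sym2 I` (`Sym2.lift`), or `A i j` for `i ≤ j`. -/
def St_SYB : Prop := ∀ (k : Type) [CommRing k] (I K : Type) [Fintype I] [DecidableEq I]
  [Fintype K] [DecidableEq K],
  (∀ (P : I → K → Prop) (P' : I → PEmpty → Prop), Nonempty (Fn.Iso
    (SymU k (I ⊕ K) fun x y => match x, y with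
      | Sum.inl _, Sum.inl _ => True
      | Sum.inl i, Sum.inr l => P i l
      | Sum.inr l, Sum.inl i => P i l
      | Sum.inr l, Sum.inr l' => l = l') (BF k I K PEmpty P P'))) ∧
  ∀ (P : I → PEmpty → Prop) (P' : I → I → Prop), Nonempty (Fn.Iso (BF k I PEmpty I P P')
    ((MatU k I P' fun _ _ => False).aff (Sym2 I)))

/-- **SYM** (1 h). From symmetric patterns to patterns.

Proof. `HS` for arbitrary finite index types by reindexing (`Fintype.equivFin`). Then `BF k I K K' P P'` is good for
all finite `I`, `K`, `K'` and all `P`, `P'`: induction on `K'` (`Finite.induction_empty_option`; `K'` isomorphic to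
`PEmpty`: `St_SYB` (1) and reindexing; `Option K'`: `St_SYA` and `St_FNB` (2), (4), (5)). `St_SYB` (2), `St_FNB` (4). -/
def St_SYM : Prop := ∀ (k : Type) [CommRing k] (G : (R : Type) → [CommRing R] → Prop), ClsQ G →
  HS k G → HP k G

/-- **PAT** (0.5 h). Invertible entries.

Proof. Reindex to `Fin n`. Induction on the number of pairs in `U`: `MatU P (insert (i, j) U)` is isomorphic to
`(MatU P U).unt (M ↦ M i j)`, and `(MatU P U).zer (M ↦ M i j)` to `MatU (P without (i, j)) U`; `St_FNB` (3). -/
def St_PAT : Prop := ∀ (k : Type) [CommRing k] (G : (R : Type) → [CommRing R] → Prop), ClsQ G →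
  HP k G → ∀ (V : Type) [Fintype V] [DecidableEq V] (P U : V → V → Prop), (MatU k V P U).Good G

/-- **SPI** (1.5 h). `Phi` for the products `V W` is a space of sparse invertible matrices.

Proof. `V' = A ⊕ (B ⊕ (C ⊕ (J ⊕ m)))`, pattern (row, column): `(a, a), (b, b), (c, c)`; `(a, b)` if `PV a b`; `(b, c)` if
`PW b c`; `(c j, j)`; `(j, a j)`; all of `(J ⊕ m) × (J ⊕ m)` except `(j, j)`, `j ∈ J`. Invertible entries `U`:
`(a, a), (b, b), (c, c), (a, b)` if `UV a b`, `(b, c)` if `UW b c`, `(c j, j)`, `(j, a j)`. Claim: this `MatU` is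
isomorphic to `(Phi (LVW ..) (gVW (a j) (c j)) m).gm (A ⊕ B ⊕ C ⊕ J ⊕ J)`; then `St_FNB` (5), `St_PAT`. The matrix
is `(D, Y; Z, N)`, `D` upper triangular with the blocks `qA, M_AB, 0; 0, qB, M_BC; 0, 0, qC`, so
`det D = ∏ q` is a unit, and the block `(A, C)` of `D⁻¹` is `V W qC⁻¹` for `V = qA⁻¹ M_AB`, `W = qB⁻¹ M_BC`
(check `D * D' = 1`). `det M = det D * det (N - Z D⁻¹ Y)` (`det_fromBlocks₁₁`). With `z j = M (j, a j)`,
`y j = M (c j, j) / qC (c j)` (and `z = y = 1` on `m`): `(N - Z D⁻¹ Y) x x' = z x * N' x x' * y x'` where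
`N' x x' = N x x' / (z x * y x') - [x = j, x' = j'] (V W) (a j) (c j')`; so `N' j j = -(V W) (a j) (c j)`, the other
entries of `N'` are arbitrary, `det N'` is a unit iff `det M` is. The bijection:
`M ↦ ((V, W), N'), (qA, qB, qC, z, M (c j, j))`. -/
def St_SPI : Prop := ∀ (k : Type) [CommRing k] (G : (R : Type) → [CommRing R] → Prop), ClsQ G →
  (∀ (V : Type) [Fintype V] [DecidableEq V] (P U : V → V → Prop), (MatU k V P U).Good G) →
  ∀ (A B C : Type) [Fintype A] [DecidableEq A] [Fintype B] [DecidableEq B] [Fintype C]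
    [DecidableEq C] (PV UV : A → B → Prop) (PW UW : B → C → Prop) (J : Type) [Fintype J]
    [DecidableEq J] (a : J → A) (c : J → C) (m : Type) [Fintype m] [DecidableEq m],
    (Phi (LVW k PV UV PW UW) (fun j => gVW PV UV PW UW (a j) (c j)) m).Good G

/-- **PEEL** (0.7 h). Hyperbolic quadrics.

Proof. `Q d` = `(F.aff (d ⊕ d)).zer (hyp g d)`: `∑ ρ_i c_i = g`. Induction on `d` (`Finite.induction_empty_option`).
`d = ∅`: `F.zer g`. `Option d`: for the function `ρ_none` on `Q (Option d)`, the part where it is invertible is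
isomorphic to `(F.aff ..).gm Unit` (`c_none = ρ_none⁻¹ (g - ∑ ρ_i c_i)`), so it is good; the zeros are
isomorphic to `(Q d).aff Unit`. `St_FNB` (2), (4), (5). -/
def St_PEEL : Prop := ∀ (k : Type) [CommRing k] (G : (R : Type) → [CommRing R] → Prop), ClsQ G →
  ∀ (F : Fn k) (g : F.Fu) (d : Type) [Fintype d], F.Good G →
    ((F.aff (d ⊕ d)).zer (hyp g d)).Good G → (F.zer g).Good G

/-- **BOR** (1 h). Bordered matrices.

Proof. (1) `(N, c; ρ, t)`, the last index is the new element of `Option m`. (2) the new index is the new element of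
`Option J`, the diagonal entry is `t = g₀ x`. (3) For invertible `N` the matrix `(N, c; ρ, t)` is
invertible iff `t - ρ N⁻¹ c` is (`det_fromBlocks₁₁`); `c' = N⁻¹ c`; the first space is `(Phi F g m).aff _` with
the function `t - ∑ ρ_i c'_i` invertible, isomorphic to `((Phi F g m).aff _).gm Unit`. (4) Subspace `t = g₀ x` of (3):
the part of `(Phi F g m).aff (_ ⊕ _)` where `∑ ρ_i c'_i - g₀ x` is invertible. (5) If `det N = 0`, the
determinant of `(N, c; ρ, t)` does not depend on `t` (it is linear in the last row; `det N` is the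
coefficient of `t`: `det_fromBlocks_zero₂₁`); so the zeros of `det N` in `Bor` are isomorphic to the product
with `𝔸¹` of the part where `t = 0`, and the zeros of `det N` in the part `t = g₀ x` are isomorphic to the
part where `t = 0`. Here `β` is the space of all `((x, N), c, ρ, 0)` with `det N = 0`. -/
def St_BOR : Prop := ∀ (k : Type) [CommRing k] (F : Fn k) (J : Type) [Fintype J] [DecidableEq J]
  (g : J → F.Fu) (g₀ : F.Fu) (m : Type) [Fintype m] [DecidableEq m],
  ∃ (X Y : Fn k) (s : X.Fu) (s' : Y.Fu) (β : Fn k),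
    Nonempty (X.Iso (Phi F g (Option m))) ∧
    Nonempty (Y.Iso (Phi F (fun j : Option J => j.elim g₀ g) m)) ∧
    Nonempty ((X.unt s).Iso (((Phi F g m).aff ((J ⊕ m) ⊕ (J ⊕ m))).gm Unit)) ∧
    Nonempty ((Y.unt s').Iso (((Phi F g m).aff ((J ⊕ m) ⊕ (J ⊕ m))).unt
      (hyp (F := Phi F g m) ⟨fun p => g₀.app p.1.1, fun f p => g₀.nat f p.1.1⟩ (J ⊕ m)))) ∧
    Nonempty ((X.zer s).Iso (β.aff Unit)) ∧ Nonempty ((Y.zer s').Iso β)

/-- **LD** (1 h). Prescribed diagonal entries.

Proof. Let `H F` be the hypothesis for `F` and `g` (all `J'`, `e`, `m`). Claim: `H F` implies `H (F.zer (g j₀))` (with the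
functions `g` restricted to the subfunctor), for every `j₀`. Given `J'`, `e`, `m` put `A = Phi F (g ∘ e) m`, good. `St_BOR` for
`g ∘ e` and `g₀ = g j₀`: `X` and `Y` are good by `H F` (for `Option m`, and for `Option J'`). `X.unt s` is good (`A` is,
`St_FNB` (4), (5)), so `X.zer s` is, so `β` is, so `Y.zer s'` is, so `Y.unt s'` is (`St_FNB` (3)), so
`(A.aff _).unt (hyp ..)` is good and by `St_FNB` (2) `(A.aff _).zer (hyp ..)` is; `St_PEEL`: `A.zer (g j₀)` is good, and it
is isomorphic to `Phi (F.zer (g j₀)) (g ∘ e) m`. Now induction over the finite set of the `j₀`: it is convenient to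
prove for all finite lists `l` of elements of `J` that `H` holds for the subfunctor of the `x` with
`g_j x = 0` for `j ∈ l`. At the end `J' = PEmpty`, `m = PEmpty`: `Phi F' _ PEmpty ≅ F'`. -/
def St_LD : Prop := ∀ (k : Type) [CommRing k] (G : (R : Type) → [CommRing R] → Prop), ClsQ G →
  ∀ (F : Fn k) (J : Type) [Finite J] (g : J → F.Fu),
    (∀ (J' : Type) [Fintype J'] [DecidableEq J'] (e : J' → J) (m : Type) [Fintype m]
      [DecidableEq m], (Phi F (fun j => g (e j)) m).Good G) → (F.zers g).Good G

/-- **GAU** (1 h). Normalisation of a configuration.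

Proof. Put `r a = V a a.b`, `t c = W c.b c`, `u 0 = 1`, `u i = V E i / V E 0` for `i = 1, 2` (all units). The normalised
configuration is `V₁ a b = V a b / r a * u a.b / u b`, `W₁ b c = W b c / t c * u b / u c.b`. Then `V₁ a a.b = 1`,
`W₁ c.b c = 1`, `V₁ E b = 1`, `(V W) a c = r a * t c * u c.b / u a.b * (V₁ W₁) a c`. The inverse:
`V a b = r a * V₁ a b * u b / u a.b`, `W b c = t c * W₁ b c * u c.b / u b`. -/
def St_GAU : Prop := ∀ (k : Type) [CommRing k] (σ : Type) (s : Sys σ),
  Nonempty (Fn.Iso (IncF k s) ((IncN k s).gm (Ro σ ⊕ Co σ ⊕ Fin 2)))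

/-- **INC** (1 h). Normalised configurations are solutions of the system.

Proof. `z i = -W 0 (c i)`. All entries are determined by `z`; write rows as `(v 0, v 1, v 2)`: `E = (1, 1, 1)`,
`d = (0, 1, -1)`, `c i = (-z i, 1, 0)`, `h i = (-z i, 0, 1)`, `m i = (0, -z i, 1)`, `s i = (-z i, -1, 1)`, `D0 = (0, 1, 1)`,
`D i = (1, z i, z i)`, `U i = (1, 1, z i)`, `Q i = (1, 0, z i)`, `R a b c = (1, z b, z b * z c)` if `s.mul a b c`,
`R' a b c = (1, z b, z b + z c)` if `s.add a b c`, both are `(1, 0, 0)` otherwise. The incidences in this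
order: `(E, d)`: `d 2 = -1`; `(E, c o)`: `z o = 1`; `(D0, d)`: `D0 2 = 1`; `(D0, s i)`: `s i 1 = -1`; `(D i, c i)`:
`D i 1 = z i`; `(D i, d)`: `D i 2 = z i`; `(D i, h i)`: `h i 0 = -z i`; `(U i, c o)`: `U i 1 = 1`; `(U i, h i)`: `U i 2 = z i`;
`(U i, m i)`: `m i 1 = -z i`; `(Q i, h i)`: `Q i 2 = z i`; `(Q i, s i)`: `s i 0 = -z i`; `(R, c b)`: `R 1 = z b`; `(R, m c)`:
`R 2 = z b * z c`; `(R, h a)`: `R 2 = z a`; `(R', c b)`: `R' 1 = z b`; `(R', s c)`: `R' 2 = z b + z c`; `(R', h a)`:
`R' 2 = z a`. -/
def St_INC : Prop := ∀ (k : Type) [CommRing k] (σ : Type) (s : Sys σ),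
  Nonempty (Fn.Iso (IncN k s) (SysF k s))

/-- **SLP** (1 h). Every finitely generated algebra is given by a system.

Proof. `B` is a finitely generated `ℤ`-algebra (`hk`: `k` is a quotient of `ℤ`, and `k`-algebra homomorphisms are
ring homomorphisms). `KGT.exists_pr`: `σ`, `o`, `z` with `ker (ev2 z)` generated by the `bf T`, `T ∈ R`, and
`x_o - 1`, `v_o - 1`; so the homomorphisms `B → S` are the `(x, v) : σ → S, σ → S` with `x_o = v_o = 1` and
`∑_{(i, l) ∈ T} x_i v_l = 0` for `T ∈ R`. System: indices `one`, `zero`, `x i`, `v i`, `p i l`, and `w T j` for `T ∈ R`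
and `j ≤ N`, where `e : Fin N ≃ σ × σ`. Equations: `one = 1`; `zero = zero + zero`; `x_o = one + zero`,
`v_o = one + zero`; `p i l = x i * v l`; `w T 0 = zero + zero`; `w T (j+1) = w T j + p (e j)` if `e j ∈ T`, otherwise
`w T (j+1) = w T j + zero`; `w T N = zero + zero`. (`w T j` = the sum of the `x_i v_l` over the `(i, l) = e j'`, `j' < j`,
in `T`.) If `k` and the images of `ℤ` in `S` matter: `Algebra k S` and `hk` give
`(B →ₐ[k] S) ≃ (B →+* S)`. -/
def St_SLP : Prop := ∀ (k : Type) [CommRing k], Surjective (Int.castRingHom k) →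
  ∀ (B : Type) [CommRing B] [Algebra k B] [Algebra.FiniteType k B],
  ∃ (σ : Type) (_ : Finite σ) (s : Sys σ), Nonempty (Fn.Iso (SysF k s) (Fn.hom B))

/-- **ASM** (0.5 h). The theorem for rings.

Proof. `St_PAT`, `St_SPI` and `St_LD` for `A = Ro σ`, `B = Fin 3`, `C = Co σ` (finite) give that `IncF k s` is good;
`St_GAU`, `St_INC`, `St_SLP`, `St_FNB`. -/
def St_ASM : Prop := ∀ (k : Type) [CommRing k] [IsNoetherianRing k]
  (G : (R : Type) → [CommRing R] → Prop), ClsQ G → Surjective (Int.castRingHom k) →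
  (HS k G → HP k G) ∧
  (HP k G → ∀ (B : Type) [CommRing B] [Algebra k B] [Algebra.FiniteType k B], G B)

/-- **GRL** (1 h). Reduced Laplacian matrices and symmetric matrices.

Proof. (1) The graph `Γ` on `Fin (n + 1)` in which `0` is joined to all other vertices, and `i.succ`, `j.succ` (`i ≠ j`) are
joined iff `E i j`. Homomorphisms `MvPolynomial Γ.edgeSet k [1 / det (lap k Γ)] → S` are the
`x : Γ.edgeSet → S` such that the determinant of the matrix `lap` with the weights `x` is a unit;
the symmetric matrix `M` with zeros outside `E` corresponds to the weights `x_(i.succ, j.succ) = -M i j`,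
`x_(0, i.succ) = ∑_j M i j` (sum over all `j`, as `M i i = x_(0, i.succ) + ∑_{j ≠ i} x_(i.succ, j.succ)`). (2) similar,
easier (`P` as a finite set: the pairs with `P i j`). (3) For `Γ` add the vertex `n + 1`, joined only to `0`:
then `lap` is block diagonal with the last entry `x`, the weight of the new edge. (4) Add the pair
`(last, last)` to `P`. The rings in (3), (4): with `Localization.Away (X : R[X])` for
`R = Localization.Away ..`. -/
def St_GRL : Prop := ∀ (k : Type) [CommRing k],
  (∀ (n : ℕ) (E : Fin n → Fin n → Prop), (∀ i, E i i) → (∀ i j, E i j → E j i) →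
    ∃ (Γ : SimpleGraph (Fin (n + 1))) (u : (SymU k (Fin n) E).obj
      (Localization.Away (lap k Γ).det)), (SymU k (Fin n) E).Rep _ u) ∧
  (∀ (n : ℕ) (P : Fin n → Fin n → Prop), ∃ (Q : Finset (Fin n × Fin n))
    (u : (MatU k (Fin n) P fun _ _ => False).obj (Localization.Away (genM k Q).det)),
    (MatU k (Fin n) P fun _ _ => False).Rep _ u) ∧
  (∀ (n : ℕ) (Γ : SimpleGraph (Fin (n + 1))), ∃ Γ' : SimpleGraph (Fin (n + 1 + 1)),
    Nonempty (Localization.Away (lap k Γ').det ≃+* Localization.Away
      (Polynomial.X : Polynomial (Localization.Away (lap k Γ).det)))) ∧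
  ∀ (n : ℕ) (Q : Finset (Fin n × Fin n)), ∃ Q' : Finset (Fin (n + 1) × Fin (n + 1)),
    Nonempty (Localization.Away (genM k Q').det ≃+* Localization.Away
      (Polynomial.X : Polynomial (Localization.Away (genM k Q).det)))

end Pool.Agent.KGR
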