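import Pool.Agent.KGR.Defs3
import Pool.Agent.KGR.St

/-!
# KGR: statements, part 3: multigraphs and graph polynomials (architect helper71)

Module `X` proves `theorem thm_X : St_X` in `Pool/Agent/KGR/X.lean`, namespace `Pool.Agent.KGR`;
auxiliary lemmas in a sub-namespace with the name of the file. `grm a b x = (diag x, B; -Bᵀ, 0)` with
`B = inc a b`, `lpm a b x = Bᵀ diag(x) B`.
-/

set_option autoImplicit false

noncomputable section

namespace Pool.Agent.KGR

open Function Matrix

/-- **TOR** (0.7 h). All weights are invertible.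

Proof. `x ↦ x⁻¹` (units). `det (diag x, B; -Bᵀ, 0) = ∏ x_e * det (Bᵀ (diag x)⁻¹ B)` (`det_fromBlocks₁₁`, `diag x` is
invertible with the inverse `diag x⁻¹`). -/
def St_TOR : Prop := ∀ (k : Type) [CommRing k] (ι V : Type) [Fintype ι] [DecidableEq ι] [Fintype V]
  [DecidableEq V] (a b : ι → Option V),
  Nonempty ((SymF k a b fun _ => True).Iso (KirF k a b fun _ => True))

/-- **DEL** (0.7 h). One more invertible weight; deletion of an edge.

Proof. (1), (2) the same points. (3) `x ↦` the restriction of `x`, the inverse is the extension by `0`; the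
matrices `lpm` are equal (`∑_f x_f * inc f v * inc f w`, the term `f = e` is `0`). -/
def St_DEL : Prop := ∀ (k : Type) [CommRing k] (ι V : Type) [Fintype ι] [DecidableEq ι] [Fintype V]
  [DecidableEq V] (a b : ι → Option V) (U : ι → Prop) (e : ι),
  Nonempty (((KirF k a b U).unt (KirF.x a b U e)).Iso (KirF k a b fun f => U f ∨ f = e)) ∧
  Nonempty (((SymF k a b U).unt (SymF.x a b U e)).Iso (SymF k a b fun f => U f ∨ f = e)) ∧
  (¬ U e → Nonempty (((KirF k a b U).zer (KirF.x a b U e)).Iso
    (KirF k (fun f : {f // f ≠ e} => a f.1) (fun f => b f.1) fun f => U f.1)))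

/-- **CON** (1.5 h). Contraction of an edge.

Proof. (1) `a e = b e`: the row `e` of `grm a b x` is `x_e` times a unit vector (`det_updateRow_smul`), so `x_e` is a
unit if the determinant is one. (2) First `a e = some i`, `b e = v ≠ some i`. `V' = {w // w ≠ i}`,
`ρ : Option V → Option V'` with `ρ (some i) = ρ v`, `ρ (some w) = some w` for `w ≠ i`, `ρ none = none`; `a' f = ρ (a f)`,
`b' f = ρ (b f)`. Points: restriction, and extension by `x_e = 0`. Claim: `det (grm a b x) = det (grm a' b' x')`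
if `x_e = 0`. `C = 1` if `v = none`, `C = 1 + E_{i v}` (transvection) otherwise. `B C`, `B = inc a b`, is `inc a' b'` in
the rows `f ≠ e` and columns `w ≠ i`; its row `e` is the unit vector of `i`. `Q = (1, 0; 0, C)`, `det Q = 1`,
`Qᵀ (grm a b x) Q = (diag x, B C; -(B C)ᵀ, 0)`. Reindex by `(ι ⊕ V) ≃ ({f ≠ e} ⊕ V') ⊕ (Unit ⊕ Unit)`, the last two
are `e`, `i`: the matrix is `(N, R; R', D)` with `N = grm a' b' x'`, `D = (0, 1; -1, 0)`, `R = (0 | r)`, `R' = (0; r')`,
so `R D⁻¹ R' = 0`; `det_fromBlocks₂₂`. If `a e = none`, then `b e = some i`: the determinant of `grm` does not change if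
`a` and `b` are exchanged (multiply by `(1, 0; 0, -1)` on both sides). -/
def St_CON : Prop := ∀ (k : Type) [CommRing k] (ι V : Type) [Fintype ι] [DecidableEq ι] [Fintype V]
  [DecidableEq V] (a b : ι → Option V) (U : ι → Prop) (e : ι),
  (a e = b e → Nonempty ((SymF k a b fun f => U f ∨ f = e).Iso (SymF k a b U))) ∧
  (a e ≠ b e → ¬ U e → ∃ (V' : Type) (_ : Fintype V') (_ : DecidableEq V')
    (a' b' : {f // f ≠ e} → Option V'),
    Nonempty (((SymF k a b U).zer (SymF.x a b U e)).Iso (SymF k a' b' fun f => U f.1)))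

/-- **SER** (1.5 h). Subdivision of all edges.

Proof. `ι' = ι × Fin 3`, `V' = V ⊕ ι × Fin 2`; `(e, 0)` joins `a e` and `w (e, 0)`, `(e, 1)` joins `w (e, 0)` and `w (e, 1)`, `(e, 2)`
joins `w (e, 1)` and `b e` (first end `a'`, second end `b'`; `Option.map Sum.inl`). `Simp`: clear. The isomorphism:
`x' ↦ (x, (x' (e, 1), x' (e, 2)))`, `x e = x' (e, 0) + x' (e, 1) + x' (e, 2)`. To show: `det (grm a' b' x')` is a unit iff
`det (grm a b x)` is. Add the rows `(e, 1)`, `(e, 2)` to the row `(e, 0)`, and the same for the columns (`P M' Pᵀ`,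
`det P = 1`, unitriangular). Reindex `ι' ⊕ V'` to `(ι ⊕ V) ⊕ ((ι × Fin 2) ⊕ (ι × Fin 2))` (`(e, 0)`, `v`, `(e, 1), (e, 2)`, `w`): the
matrix is `(N, R; R', D)` with `N = grm a b x`, `D = (diag, T; -Tᵀ, 0)`, where `T` has the rows `(e, 1) : (1, -1)`,
`(e, 2) : (0, 1)` in the columns `w (e, 0)`, `w (e, 1)`, `R = (R1 | 0)`, `R' = (R1'; 0)` (zero for the columns, rows `w`). `T` is
invertible and `D⁻¹ = (0, -(T⁻¹)ᵀ; T⁻¹, T⁻¹ diag (T⁻¹)ᵀ)`, so `R D⁻¹ R' = 0`; `det_fromBlocks₂₂`. -/
def St_SER : Prop := ∀ (k : Type) [CommRing k] (ι V : Type) [Fintype ι] [DecidableEq ι] [Fintype V]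
  [DecidableEq V] (a b : ι → Option V), ∃ (ι' V' : Type) (_ : Fintype ι') (_ : DecidableEq ι')
  (_ : Fintype V') (_ : DecidableEq V') (a' b' : ι' → Option V') (σ : Type) (_ : Finite σ),
  Simp a' b' ∧ Nonempty ((SymF k a' b' fun _ => False).Iso ((SymF k a b fun _ => False).aff σ))

/-- **LOO** (0.5 h). A loop at the deleted vertex.

Proof. `inc` has a zero row at `none`, so `grm` is block diagonal with the blocks `x_none` and `grm a b x`. -/
def St_LOO : Prop := ∀ (k : Type) [CommRing k] (ι V : Type) [Fintype ι] [DecidableEq ι] [Fintype V]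
  [DecidableEq V] (a b : ι → Option V),
  Nonempty ((SymF k (fun e : Option ι => e.elim none a) (fun e : Option ι => e.elim none b)
    fun _ => False).Iso ((SymF k a b fun _ => False).gm Unit))

/-- **SIM** (1 h). Simple multigraphs and graphs.

Proof. `n = Fintype.card V`, `φ : Option V ≃ Fin (n + 1)` with `op (φ x) = Option.map e x`, `e : V ≃ Fin n` (`op` is
`finSuccEquiv n`). `Γ = SimpleGraph.fromEdgeSet {s(φ (a f), φ (b f))}`. `ψ : ι ≃ Γ.edgeSet` by `Simp`. For every `f` the
pair `(ga (ψ f), gb (ψ f))` is the image of `(a f, b f)` or of `(b f, a f)`, so the row `ψ f` of `inc` is `ε_f` times the row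
`f`, `ε_f = ± 1`. Reindexed `grm` is `D (grm a b x) D` for `D = (diag ε, 0; 0, 1)`. -/
def St_SIM : Prop := ∀ (k : Type) [CommRing k] (ι V : Type) [Fintype ι] [DecidableEq ι] [Fintype V]
  [DecidableEq V] (a b : ι → Option V), Simp a b →
  ∃ (n : ℕ) (Γ : SimpleGraph (Fin (n + 1))) (_ : Fintype Γ.edgeSet) (_ : DecidableEq Γ.edgeSet),
    Nonempty ((SymF k (ga Γ) (gb Γ) fun _ => False).Iso (SymF k a b fun _ => False))

/-- **REP** (1 h). Representing rings.

Proof. (1), (2) homomorphisms `MvPolynomial ι k [1 / d] → S` are the `x : ι → S` such that the image of `d` is a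
unit (`MvPolynomial.aeval`, `lpm_map`, `grm_map`, `IsLocalization.Away.lift`; as in `KGR/GRL.lean`). (3) entrywise:
`∑_e x_e * inc e i * inc e j`; `inc e i` is `± 1` if `i.succ ∈ e` and `0` otherwise (an edge has two different ends),
and for `i ≠ j` the product is `-1` iff `e = s(i.succ, j.succ)`. -/
def St_REP : Prop := ∀ (k : Type) [CommRing k],
  (∀ (ι V : Type) [Fintype ι] [DecidableEq ι] [Fintype V] [DecidableEq V] (a b : ι → Option V),
    (∃ u, (KirF k a b fun _ => False).Rep
      (Localization.Away (lpm a b (MvPolynomial.X : ι → MvPolynomial ι k)).det) u) ∧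
    ∃ u, (SymF k a b fun _ => False).Rep
      (Localization.Away (grm a b (MvPolynomial.X : ι → MvPolynomial ι k)).det) u) ∧
  ∀ (n : ℕ) (Γ : SimpleGraph (Fin (n + 1))) [Fintype Γ.edgeSet] [DecidableEq Γ.edgeSet],
    lpm (ga Γ) (gb Γ) (MvPolynomial.X : Γ.edgeSet → MvPolynomial Γ.edgeSet k) = lap k Γ

/-- **NOE** (0.5 h). Representable by noetherian rings; one more closure property.

Proof. (1) For `U = ∅`: `St_REP`. Induction on the finite set of the `e` with `U e`: `St_DEL` (1), `St_FNA` (4), (2).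
(2) `F` is represented by a noetherian `(R, u)`, then `F.zer s`, `F.unt s` by `R ⧸ (s u)` and `R[1 / s u]` (`St_FNA` (3), (4)), which
are isomorphic to good rings (`St_FNA` (1), `ClsQ.iso`), so they are good; `ExtQ`. -/
def St_NOE : Prop :=
  (∀ (k : Type) [CommRing k] [IsNoetherianRing k] (ι V : Type) [Fintype ι] [DecidableEq ι]
    [Fintype V] [DecidableEq V] (a b : ι → Option V) (U : ι → Prop), (KirF k a b U).Noe) ∧
  ∀ (k : Type) [CommRing k] (G : (R : Type) → [CommRing R] → Prop), ClsQ G → ExtQ G →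
    ∀ (F : Fn k) (s : F.Fu), F.Noe → (F.unt s).Good G → (F.zer s).Good G → F.Good G

/-- **TOP** (1 h). From graph matrices to Laplacian matrices.

Proof. (1) Induction on the number of the `e` with `U e`, for all `ι`, `V`. `U` nonempty: `U f ↔ U' f ∨ f = e`, `¬ U' e`.
If `a e = b e`: `St_CON` (1). Otherwise `(SymF k a b U').unt x_e` is `SymF k a b U` (`St_DEL` (2)), `SymF k a b U'` is good by
induction and `(SymF k a b U').zer x_e` is good by `St_CON` (2) and induction; `St_FNB` (3). (2) Induction on the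
number of the `e` with `¬ U e`, for all `ι`, `V`. If there is none: `St_TOR` and (1). Otherwise take such an `e`:
`(KirF k a b U).unt x_e` and `.zer x_e` are good by `St_DEL` and induction (in both cases there is one `e` with
`¬ U e` less), `St_NOE`. -/
def St_TOP : Prop := ∀ (k : Type) [CommRing k] [IsNoetherianRing k]
  (G : (R : Type) → [CommRing R] → Prop), ClsQ G → ExtQ G →
  (∀ (ι V : Type) [Fintype ι] [DecidableEq ι] [Fintype V] [DecidableEq V] (a b : ι → Option V),
    (SymF k a b fun _ => False).Good G) →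
  (∀ (ι V : Type) [Fintype ι] [DecidableEq ι] [Fintype V] [DecidableEq V] (a b : ι → Option V)
    (U : ι → Prop), (SymF k a b U).Good G) ∧
  ∀ (ι V : Type) [Fintype ι] [DecidableEq ι] [Fintype V] [DecidableEq V] (a b : ι → Option V)
    (U : ι → Prop), (KirF k a b U).Good G

/-- **GML** (0.7 h). The ring of `F × 𝔾_m × 𝔸^σ`.

Proof. `F.gm Unit` is isomorphic to `(F.aff Unit).unt t`; `St_FNA` (5), (4), (2), (1);
`MvPolynomial Unit R ≅ R[X]` (`MvPolynomial.pUnitAlgEquiv`) and localizations. -/
def St_GML : Prop := ∀ (k : Type) [CommRing k] (F : Fn k) (R : Type) [CommRing R] [Algebra k R]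
  (u : F.obj R), F.Rep R u → ∀ (σ : Type) [Finite σ] (R' : Type) [CommRing R'] [Algebra k R']
  (u' : ((F.gm Unit).aff σ).obj R'), ((F.gm Unit).aff σ).Rep R' u' →
  Nonempty (R' ≃+* MvPolynomial σ (Localization.Away (Polynomial.X : Polynomial R)))

/-- **SYF** (0.7 h). Graph polynomials: the theorem for rings.

Proof. (1) By `St_SER` and `St_SIM` (with `St_FNB` (4), (1)) and `St_REP` (the instances `Fintype`, `DecidableEq` are
subsingletons: `Subsingleton.elim`) all `SymF k a b ∅` are good; `St_TOP`: all `KirF k a b ∅` are good; `St_REP` (1), (3) and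
`St_FNA` (1), `ClsQ.iso`. (2) `St_LOO`, `St_SER`, `St_SIM` give `Γ'` and `σ` with `SymF` of `Γ'` isomorphic to
`((SymF k (ga Γ) (gb Γ) ∅).gm Unit).aff σ`; `St_REP`, `St_FNA` (2), `St_GML`. -/
def St_SYF : Prop :=
  (∀ (k : Type) [CommRing k] [IsNoetherianRing k] (G : (R : Type) → [CommRing R] → Prop),
    ClsQ G → ExtQ G →
    (∀ (n : ℕ) (Γ : SimpleGraph (Fin (n + 1))), G (Localization.Away (gdet k Γ))) →
    ∀ (n : ℕ) (Γ : SimpleGraph (Fin (n + 1))), G (Localization.Away (lap k Γ).det)) ∧
  ∀ (k : Type) [CommRing k] (n : ℕ) (Γ : SimpleGraph (Fin (n + 1))),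
    ∃ (n' : ℕ) (Γ' : SimpleGraph (Fin (n' + 1))) (σ : Type) (_ : Finite σ),
      Nonempty (Localization.Away (gdet k Γ') ≃+* MvPolynomial σ
        (Localization.Away (Polynomial.X : Polynomial (Localization.Away (gdet k Γ)))))

/-- **GRS** (1 h). Generic symmetric matrices.

Proof. As in `KGR/GRL.lean` for `genM`. (1) `Q` = the `s(i, j)` with `E i j`. (2) add `s(last, last)` to the image of `Q`
under `Sym2.map Fin.castSucc`; the matrix is block diagonal. -/
def St_GRS : Prop := ∀ (k : Type) [CommRing k],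
  (∀ (n : ℕ) (E : Fin n → Fin n → Prop), (∀ i j, E i j → E j i) →
    ∃ (Q : Finset (Sym2 (Fin n))) (u : (SymU k (Fin n) E).obj
      (Localization.Away (genS k Q).det)), (SymU k (Fin n) E).Rep _ u) ∧
  ∀ (n : ℕ) (Q : Finset (Sym2 (Fin n))), ∃ Q' : Finset (Sym2 (Fin (n + 1))),
    Nonempty (Localization.Away (genS k Q').det ≃+* Localization.Away
      (Polynomial.X : Polynomial (Localization.Away (genS k Q).det)))

/-- **MTA** (1 h). Cauchy–Binet for `Bᵀ diag(x) B`.

Proof. Row `v` of `lpm a b x` is `∑_e (B e v * x_e) • B_e` (`B_e` the row `e` of `B = inc a b`). By multilinearity in the rows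
(`Matrix.detRowAlternating`, `MultilinearMap.map_sum`, `map_smul_univ`) the determinant is
`∑_{f : V → ι} (∏_v B (f v) v) * (∏_v x_(f v)) * det (B_(f v))_v`; the terms for noninjective `f` are `0` (two equal rows).
So `det (lpm a b X) = ∑_{f injective} C c_f * ∏_{e ∈ im f} X_e = ∑_{T, |T| = |V|} C c_T * ∏_{e ∈ T} X_e`. The value at the
indicator function of `T₀`, `|T₀| = |V|`, is `c_{T₀}` (`T ⊆ T₀` and `|T| = |T₀|` imply `T = T₀`); use `lpm_map`. -/
def St_MTA : Prop := ∀ (k : Type) [CommRing k] (ι V : Type) [Fintype ι] [DecidableEq ι] [Fintype V]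
  [DecidableEq V] (a b : ι → Option V),
  (lpm a b (MvPolynomial.X : ι → MvPolynomial ι k)).det =
    ∑ T : Finset ι, if T.card = Fintype.card V then
      MvPolynomial.C (lpm a b fun e => if e ∈ T then (1 : k) else 0).det *
        ∏ e ∈ T, MvPolynomial.X e else 0

/-- **MTB** (1.5 h). The determinants of trees.

Proof. (1) `SimpleGraph.IsTree.card_edgeFinset`. (2) It is enough to treat `k = ℤ` (`lpm_map`). `lpm` for the indicator
of `T` is `B_Tᵀ B_T`, `B_T` the matrix of the rows `e ∈ T`, a square matrix after reindexing (`|T| = n`), so the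
determinant is `(det B_T) ^ 2`. If the graph of `T` is a tree: for every walk from `u` to `w` in it there is
an integer row vector `p` with `p * B_T = χ u - χ w` (`χ v` the unit vector of `v`, `χ 0 = 0`; induction on the walk); so
for the walks to `0` there is `P` with `P * B_T = 1`, `det B_T` is a unit of `ℤ` and its square is `1`. If it is not a
tree, it is not connected (`SimpleGraph.isTree_iff_connected_and_card`), so there is a component which does
not contain `0`, and its indicator vector is a nonzero vector in the kernel of `B_T`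
(`Matrix.exists_mulVec_eq_zero_iff`). -/
def St_MTB : Prop := ∀ (n : ℕ) (Γ : SimpleGraph (Fin (n + 1))) [Fintype Γ.edgeSet]
  [DecidableEq Γ.edgeSet] (T : Finset Γ.edgeSet), (T ∈ trees Γ → T.card = n) ∧
  ∀ (k : Type) [CommRing k], T.card = n →
    (T ∈ trees Γ → (lpm (ga Γ) (gb Γ) fun e => if e ∈ T then (1 : k) else 0).det = 1) ∧
    (T ∉ trees Γ → (lpm (ga Γ) (gb Γ) fun e => if e ∈ T then (1 : k) else 0).det = 0)

/-- **MTC** (1 h). The matrix-tree theorem.

Proof. (1) `St_REP` (3), `St_MTA`, `St_MTB`. (2) In the field of fractions `K` of `MvPolynomial Γ.edgeSet k`, `y` = the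
images of the variables: `det (grm a b y) = ∏ y_e * det (lpm a b y⁻¹)` (`det_fromBlocks₁₁`), and `det (lpm a b y⁻¹)` is the value
of (1) at `y⁻¹` (`MvPolynomial.eval₂`, `lpm_map`): `∑_T ∏_{e ∈ T} y_e⁻¹`. -/
def St_MTC : Prop := ∀ (k : Type) [CommRing k] [IsDomain k] (n : ℕ)
  (Γ : SimpleGraph (Fin (n + 1))), (lap k Γ).det = kir k Γ ∧ gdet k Γ = smz k Γ

end Pool.Agent.KGR
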