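import Pool.Agent.KGR.GDefs
import Pool.Agent.KGR.HYP
import Pool.Agent.KGR.F
import Pool.Agent.KGR.St3

/-!
# KGR: the theorem on graph hypersurfaces and Bass's question (helper71)
-/

set_option autoImplicit false

noncomputable section

namespace Pool.Agent.KGR

open CategoryTheory AlgebraicGeometry Function Pool.Agent.KQ Pool.Agent.KQG Pool.Agent.KTX
open Pool.Agent.KPR Pool.Agent.GTH Pool.Agent.KGT Pool.Agent.KQH

/-- the equivalences for one family -/
theorem fam_tfae {𝒮 : (G : Type 1) → [AddCommGroup G] → Prop} (h𝒮 : Serre 𝒮) {k : Type}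
    [CommRing k] [IsDomain k] [IsRegularRing k]
    (hk : ∀ n : ℕ, 𝒮 (KX n (Sp k))) (F : G.Family k) (hfin : ∀ j, Finite (F.ι j))
    (desc : ∀ M, (∀ j, 𝒮 (KX (M + 1) (Sp (Localization.Away (F.f j))))) →
      ∀ j, 𝒮 (KX M (Sp (Localization.Away (F.f j)))))
    (main : (∀ n : ℕ, ∀ j, 𝒮 (KX n (Sp (Localization.Away (F.f j))))) → SchG 𝒮 k) :
    (G.Statements 𝒮 F).TFAE := by
  have e1 : (∀ X : Scheme.{0}, W.FinType k X → ∀ n : ℕ, 𝒮 (KX n X)) ↔ SchG 𝒮 k :=
    ⟨fun h X f i j n => h X ⟨f, i, j⟩ n, fun h X ⟨f, i, j⟩ n => h X f n⟩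
  have e2 : (∀ X : Scheme.{0}, W.FinType k X → W.Regular X → ∀ n : ℕ, 𝒮 (KX n X)) ↔ RegG 𝒮 k :=
    ⟨fun h X f i j h1 n => h X ⟨f, i, j⟩ h1 n, fun h X ⟨f, i, j⟩ h1 n => h X f h1 n⟩
  unfold G.Statements
  tfae_have 1 ↔ 2 := e2.trans ((reg_iff all_HOMK h𝒮 k).trans e1.symm)
  tfae_have 2 → 3 := fun h n j => by
    have := hfin j
    have := f_finiteType k (F.ι j) (F.f j)
    exact h _ w_ft n
  tfae_have 3 → 4 := fun h N => ⟨N, le_rfl, h N⟩
  tfae_have 4 → 3 := fun h n => f_desc desc h n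
  tfae_have 3 → 2 := fun h => e1.2 (main h)
  tfae_have 2 → 5 := fun h n j => by
    have := hfin j
    exact h _ w_ft n
  tfae_have 5 → 6 := fun h N => ⟨N, le_rfl, h N⟩
  tfae_have 6 → 4 := fun h N => by
    obtain ⟨n, hn, h1⟩ := h N
    refine ⟨n + 1, hn.trans n.le_succ, fun j => ?_⟩
    have := hfin j
    exact (hyp_iff h𝒮 hk (F.ι j) (F.f j) n).2 (h1 j)
  tfae_finish

theorem trees_eq {m : ℕ} (Γ : SimpleGraph (Fin (m + 1))) : G.trees Γ = trees Γ := by
  classical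
  exact Finset.filter_congr fun T _ => by rw [Finset.coe_map, Embedding.coe_subtype]

theorem kirchhoff_eq (k : Type) [CommRing k] {m : ℕ} (Γ : SimpleGraph (Fin (m + 1))) :
    G.kirchhoff k Γ = kir k Γ := by
  unfold G.kirchhoff kir
  rw [trees_eq]

theorem symanzik_eq (k : Type) [CommRing k] {m : ℕ} (Γ : SimpleGraph (Fin (m + 1))) :
    G.symanzik k Γ = smz k Γ := by
  unfold G.symanzik smz
  rw [trees_eq]

/-- **The theorem**, from the statements of the project. -/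
theorem g_main (hF : St_F) (hCQ : St_CQ) (hLAU : St_LAU) (hGRL : St_GRL) (hASM : St_ASM)
    (hSYF : St_SYF) (hGRS : St_GRS) (hMTC : St_MTC)
    {𝒮 : (G : Type 1) → [AddCommGroup G] → Prop} (h𝒮 : Serre 𝒮) (k : Type)
    [CommRing k] [IsDomain k] [IsRegularRing k]
    (hs : Surjective (Int.castRingHom k)) (hk : ∀ n : ℕ, 𝒮 (KX n (Sp k))) :
    ∀ F ∈ [G.Kirchhoff k, G.Symanzik k, G.Generic k, G.GenericSym k],
      (G.Statements 𝒮 F).TFAE := by
  classical
  obtain ⟨key, -⟩ := hF all_HOMK 𝒮 h𝒮 k hs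
  have hcls := f_cls hCQ all_HOMK 𝒮 h𝒮
  have hext : ExtQ (fun R _ => ∀ n : ℕ, 𝒮 (KX n (Sp R))) := by
    obtain ⟨G, key⟩ := real_PA all_HOMK h𝒮
    rw [key]
    exact exq G h𝒮
  obtain ⟨g1, g2, g3, g4⟩ := hGRL k
  obtain ⟨a1, a2⟩ := hASM k _ hcls hs
  obtain ⟨y1, y2⟩ := hSYF
  obtain ⟨r1, r2⟩ := hGRS k
  -- one degree less
  have lau : ∀ (R R' : Type) [CommRing R] [CommRing R'] [IsNoetherianRing R]
      [IsNoetherianRing R'] (σ : Type) [Finite σ]
      (_ : R' ≃+* MvPolynomial σ (Localization.Away (Polynomial.X : Polynomial R))) (M : ℕ),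
      𝒮 (KX (M + 1) (Sp R')) → 𝒮 (KX M (Sp R)) := by
    intro R R' _ _ _ _ σ _ e M h
    have := IsLocalization.isNoetherianRing (Submonoid.powers (Polynomial.X : Polynomial R))
      (Localization.Away (Polynomial.X : Polynomial R)) inferInstance
    obtain ⟨L, G, k1, k2, k3⟩ := real_deg h𝒮
    have h1 := kx_iso all_HOMK h𝒮 (M + 1) e h
    refine hLAU all_HOMK 𝒮 h𝒮 R M ?_
    rw [← k2] at h1 ⊢
    exact (h𝒮.of_bij _ ((GTheory.HI.mvPolynomial (𝒯 := G) σ _).2 _)).2 h1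
  have lau' : ∀ (R R' : Type) [CommRing R] [CommRing R'] [IsNoetherianRing R]
      [IsNoetherianRing R']
      (_ : R' ≃+* Localization.Away (Polynomial.X : Polynomial R)) (M : ℕ),
      𝒮 (KX (M + 1) (Sp R')) → 𝒮 (KX M (Sp R)) := by
    intro R R' _ _ _ _ e M h
    have := IsLocalization.isNoetherianRing (Submonoid.powers (Polynomial.X : Polynomial R))
      (Localization.Away (Polynomial.X : Polynomial R)) inferInstance
    exact hLAU all_HOMK 𝒮 h𝒮 R M (kx_iso all_HOMK h𝒮 (M + 1) e h)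
  have sch_HP : HP k (fun R _ => ∀ n : ℕ, 𝒮 (KX n (Sp R))) → SchG 𝒮 k := fun hP =>
    sch_of_aff all_HOMK h𝒮 k fun a I => a2 hP _
  have sch_Gr : (∀ (n : ℕ) (Γ : SimpleGraph (Fin (n + 1))) (M : ℕ),
      𝒮 (KX M (Sp (Localization.Away (lap k Γ).det)))) → SchG 𝒮 k := fun h =>
    (key.out 1 0 rfl rfl).1 fun M n Γ => h n Γ M
  intro F hF'
  simp only [List.mem_cons, List.mem_nil_iff, or_false] at hF'
  rcases hF' with rfl | rfl | rfl | rfl
  · have e : ∀ j, (G.Kirchhoff k).f j = (lap k j.2).det := fun j =>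
      (kirchhoff_eq k j.2).trans (hMTC k j.1 j.2).1.symm
    refine fam_tfae h𝒮 hk _ (fun j => inferInstanceAs (Finite j.2.edgeSet)) (fun M h j => ?_)
      fun h => sch_Gr fun n Γ M => ?_
    · obtain ⟨Γ', ⟨c⟩⟩ := g3 j.1 j.2
      have h1 := h ⟨_, Γ'⟩
      rw [e] at h1 ⊢
      have := f_noeth k _ (lap k j.2).det
      have := f_noeth k _ (lap k Γ').det
      exact lau' _ _ c M h1
    · have h1 := h M ⟨n, Γ⟩
      rw [e] at h1
      exact h1
  · have e : ∀ j, (G.Symanzik k).f j = gdet k j.2 := fun j =>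
      (symanzik_eq k j.2).trans (hMTC k j.1 j.2).2.symm
    refine fam_tfae h𝒮 hk _ (fun j => inferInstanceAs (Finite j.2.edgeSet)) (fun M h j => ?_)
      fun h => sch_Gr (y1 k _ hcls hext fun n Γ M => ?_)
    · obtain ⟨n', Γ', σ, hσ, ⟨c⟩⟩ := y2 k j.1 j.2
      have h1 := h ⟨_, Γ'⟩
      rw [e] at h1 ⊢
      have := f_noeth k _ (gdet k j.2)
      have := f_noeth k _ (gdet k Γ')
      exact lau _ _ σ c M h1
    · have h1 := h M ⟨n, Γ⟩
      rw [e] at h1
      exact h1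
  · have e : ∀ j, (G.Generic k).f j = (genM k j.2).det := fun j => rfl
    refine fam_tfae h𝒮 hk _ (fun j => inferInstanceAs (Finite j.2)) (fun M h j => ?_)
      fun h => sch_HP fun n P => ?_
    · obtain ⟨P', ⟨c⟩⟩ := g4 j.1 j.2
      have h1 := h ⟨_, P'⟩
      rw [e] at h1 ⊢
      have := f_noeth k _ (genM k j.2).det
      have := f_noeth k _ (genM k P').det
      exact lau' _ _ c M h1
    · obtain ⟨Q, u, hu⟩ := g2 n P
      refine ⟨_, inferInstance, inferInstance, u, f_noeth k _ _, hu, fun M => ?_⟩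
      have h1 := h M ⟨n, Q⟩
      rw [e] at h1
      exact h1
  · have e : ∀ j, (G.GenericSym k).f j = (genS k j.2).det := fun j => rfl
    refine fam_tfae h𝒮 hk _ (fun j => inferInstanceAs (Finite j.2)) (fun M h j => ?_)
      fun h => sch_HP (a1 fun n E _ hE => ?_)
    · obtain ⟨P', ⟨c⟩⟩ := r2 j.1 j.2
      have h1 := h ⟨_, P'⟩
      rw [e] at h1 ⊢
      have := f_noeth k _ (genS k j.2).det
      have := f_noeth k _ (genS k P').det
      exact lau' _ _ c M h1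
    · obtain ⟨Q, u, hu⟩ := r1 n E hE
      refine ⟨_, inferInstance, inferInstance, u, f_noeth k _ _, hu, fun M => ?_⟩
      have h1 := h M ⟨n, Q⟩
      rw [e] at h1
      exact h1

end Pool.Agent.KGR
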