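import Pool.Agent.KGR.St3

/-!
# KGR / GML: the ring of `F × 𝔾_m × 𝔸^σ` (module by helper13)
-/

set_option autoImplicit false

noncomputable section

namespace Pool.Agent.KGR

open Function Matrix

variable {k : Type} [CommRing k]

/-- the homomorphism of the polynomial ring -/
def gml_hom {R S : Type} [CommRing R] [Algebra k R] [CommRing S] [Algebra k S] (f : R →ₐ[k] S)
    (y : S) : Polynomial R →ₐ[k] S where
  toRingHom := Polynomial.eval₂RingHom (f : R →+* S) y
  commutes' c := by
    change Polynomial.eval₂ (f : R →+* S) y (algebraMap k (Polynomial R) c) = _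
    rw [Polynomial.algebraMap_apply, Polynomial.eval₂_C]
    exact f.commutes c

theorem gml_hom_C {R S : Type} [CommRing R] [Algebra k R] [CommRing S] [Algebra k S]
    (f : R →ₐ[k] S) (y : S) (a : R) : gml_hom f y (Polynomial.C a) = f a := by
  change Polynomial.eval₂ (f : R →+* S) y (Polynomial.C a) = _
  rw [Polynomial.eval₂_C]
  rfl

theorem gml_hom_X {R S : Type} [CommRing R] [Algebra k R] [CommRing S] [Algebra k S]
    (f : R →ₐ[k] S) (y : S) : gml_hom f y Polynomial.X = y := by
  change Polynomial.eval₂ (f : R →+* S) y Polynomial.X = _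
  rw [Polynomial.eval₂_X]

/-- the ring of Laurent polynomials -/
abbrev GmlB (R : Type) [CommRing R] : Type := Localization.Away (Polynomial.X : Polynomial R)

/-- the inclusion of the constants -/
def gml_inc (k : Type) [CommRing k] (R : Type) [CommRing R] [Algebra k R] : R →ₐ[k] GmlB R :=
  (IsScalarTower.toAlgHom k (Polynomial R) (GmlB R)).comp (IsScalarTower.toAlgHom k R (Polynomial R))

theorem gml_inc_apply (R : Type) [CommRing R] [Algebra k R] (a : R) :
    gml_inc k R a = algebraMap (Polynomial R) (GmlB R) (Polynomial.C a) := rfl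

/-- the unit `t` -/
def gml_t (R : Type) [CommRing R] : (GmlB R)ˣ :=
  (IsLocalization.Away.algebraMap_isUnit (S := GmlB R) (Polynomial.X : Polynomial R)).unit

theorem gml_t_val (R : Type) [CommRing R] :
    ((gml_t R : (GmlB R)ˣ) : GmlB R) = algebraMap (Polynomial R) (GmlB R) Polynomial.X := rfl

theorem gml_rep (F : Fn k) (R : Type) [CommRing R] [Algebra k R] (u : F.obj R) (h : F.Rep R u) :
    (F.gm Unit).Rep (GmlB R) (F.map (gml_inc k R) u, fun _ => gml_t R) := by
  intro S _ _ y
  obtain ⟨f, hf, huniq⟩ := h S y.1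
  have hf' : F.map f u = y.1 := hf
  have hM : ∀ a : Submonoid.powers (Polynomial.X : Polynomial R),
      IsUnit (gml_hom f ((y.2 () : Sˣ) : S) a) := by
    rintro ⟨a, n, rfl⟩
    change IsUnit (gml_hom f ((y.2 () : Sˣ) : S) (Polynomial.X ^ n))
    rw [map_pow, gml_hom_X]
    exact (Units.isUnit _).pow n
  let φ : GmlB R →ₐ[k] S :=
    IsLocalization.liftAlgHom (M := Submonoid.powers (Polynomial.X : Polynomial R))
      (f := gml_hom f ((y.2 () : Sˣ) : S)) hM
  have hφ : ∀ a : Polynomial R, φ (algebraMap (Polynomial R) (GmlB R) a) =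
      gml_hom f ((y.2 () : Sˣ) : S) a := fun a => IsLocalization.lift_eq _ a
  have hcomp : φ.comp (gml_inc k R) = f := by
    ext a
    change φ (gml_inc k R a) = f a
    rw [gml_inc_apply, hφ, gml_hom_C]
  refine ⟨φ, ?_, fun g hg => ?_⟩
  · refine Prod.ext ?_ (funext fun i => Units.ext ?_)
    · change F.map φ (F.map (gml_inc k R) u) = y.1
      rw [← F.map_comp, hcomp, hf']
    · change φ ((gml_t R : (GmlB R)ˣ) : GmlB R) = ((y.2 i : Sˣ) : S)
      rw [gml_t_val, hφ, gml_hom_X]
  · have hg1 : F.map g (F.map (gml_inc k R) u) = y.1 := congrArg Prod.fst hg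
    have hg2 : g ((gml_t R : (GmlB R)ˣ) : GmlB R) = ((y.2 () : Sˣ) : S) :=
      congrArg Units.val (congrFun (congrArg Prod.snd hg) ())
    rw [← F.map_comp] at hg1
    have h1 : g.comp (gml_inc k R) = f := huniq _ hg1
    have h3 : (g : GmlB R →+* S) = (φ : GmlB R →+* S) := by
      apply IsLocalization.ringHom_ext (Submonoid.powers (Polynomial.X : Polynomial R))
      apply Polynomial.ringHom_ext
      · intro a
        have h4 : g (gml_inc k R a) = f a := DFunLike.congr_fun h1 a
        have h5 : φ (gml_inc k R a) = f a := DFunLike.congr_fun hcomp a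
        exact h4.trans h5.symm
      · have h5 : φ (algebraMap (Polynomial R) (GmlB R) Polynomial.X) = ((y.2 () : Sˣ) : S) := by
          rw [hφ, gml_hom_X]
        exact hg2.trans h5.symm
    exact AlgHom.ext fun a => DFunLike.congr_fun h3 a

theorem thm_GML (h : St_FNA) : St_GML := by
  intro k _ F R _ _ u hu σ _ R' _ _ u' hu'
  obtain ⟨h1, -, -, -, h5, -, -⟩ := h k
  obtain ⟨u'', hu''⟩ := h5 (F.gm Unit) σ (GmlB R) _ (gml_rep F R u hu)
  obtain ⟨e⟩ := h1 _ R' (MvPolynomial σ (GmlB R)) u' u'' hu' hu''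
  exact ⟨e.toRingEquiv⟩

end Pool.Agent.KGR
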