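import Pool.Agent.KGR.St

/-!
# KGR GRL: reduced Laplacian matrices and symmetric matrices
-/

set_option autoImplicit false

noncomputable section

namespace Pool.Agent.KGR

open Function Matrix

variable {k : Type} [CommRing k]

/-- representing rings, from the values on the variables -/
theorem grl_rep (F : Fn k) (τ : Type) (d : MvPolynomial τ k) (u : F.obj (Localization.Away d))
    (h : ∀ (S : Type) [CommRing S] [Algebra k S] (y : F.obj S), ∃ x : τ → S,
      IsUnit (MvPolynomial.aeval (R := k) x d) ∧ ∀ f : Localization.Away d →ₐ[k] S,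
        F.map f u = y ↔ ∀ i, f (algebraMap (MvPolynomial τ k) (Localization.Away d)
          (MvPolynomial.X i)) = x i) : F.Rep _ u := by
  intro S _ _ y
  obtain ⟨x, hx, hf⟩ := h S y
  let f : Localization.Away d →ₐ[k] S := IsLocalization.liftAlgHom (M := Submonoid.powers d)
    (f := (MvPolynomial.aeval x : MvPolynomial τ k →ₐ[k] S)) (by
      rintro ⟨_, n, rfl⟩
      change IsUnit (MvPolynomial.aeval x (d ^ n))
      rw [map_pow]
      exact hx.pow n)
  have hfa : ∀ a, f (algebraMap _ _ a) = MvPolynomial.aeval x a := fun a =>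
    IsLocalization.lift_eq _ a
  refine ⟨f, (hf f).2 fun i => ?_, fun g hg => ?_⟩
  · rw [hfa, MvPolynomial.aeval_X]
  · have h1 := (hf g).1 hg
    refine IsLocalization.algHom_ext (Submonoid.powers d) ?_
    refine MvPolynomial.algHom_ext fun i => ?_
    change g (algebraMap _ _ (MvPolynomial.X i)) = f (algebraMap _ _ (MvPolynomial.X i))
    rw [h1, hfa, MvPolynomial.aeval_X]

/-- the determinant is invertible -/
theorem grl_unit {A : Type} [CommRing A] {n : ℕ} (N : Matrix (Fin n) (Fin n) A) :
    IsUnit (N.map (algebraMap A (Localization.Away N.det))).det := by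
  have h1 : (N.map (algebraMap A (Localization.Away N.det))).det =
      algebraMap A (Localization.Away N.det) N.det := (RingHom.map_det _ _).symm
  rw [h1]
  exact IsLocalization.Away.algebraMap_isUnit _

/-- sums over the edges at a vertex -/
theorem grl_sum {V A : Type} [Fintype V] [AddCommMonoid A] (Γ : SimpleGraph V)
    [Fintype Γ.edgeSet] [∀ (v : V) (z : Sym2 V), Decidable (v ∈ z)] [DecidableRel Γ.Adj] (v : V)
    (g : Γ.edgeSet → A) :
    (∑ e : Γ.edgeSet, if v ∈ e.1 then g e else 0) =
      ∑ b, if h : Γ.Adj v b then g ⟨s(v, b), h⟩ else 0 := by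
  classical
  let G : Sym2 V → A := fun z => if h : z ∈ Γ.edgeSet then g ⟨z, h⟩ else 0
  have h1 : (∑ e : Γ.edgeSet, if v ∈ e.1 then g e else 0) =
      ∑ z : Sym2 V, if v ∈ z then G z else 0 := by
    refine Fintype.sum_of_injective (fun e : Γ.edgeSet => e.1) Subtype.val_injective _ _ ?_ ?_
    · intro z hz
      have h2 : z ∉ Γ.edgeSet := fun h => hz ⟨⟨z, h⟩, rfl⟩
      rw [show G z = 0 from dif_neg h2, ite_self]
    · intro e
      rw [show G e.1 = g e from dif_pos e.2]
  rw [h1]
  symm
  refine Fintype.sum_of_injective (fun b => s(v, b)) ?_ _ _ ?_ ?_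
  · intro b c h
    exact Sym2.congr_right.1 h
  · intro z hz
    rw [if_neg]
    rintro ⟨b, rfl⟩
    exact hz ⟨b, rfl⟩
  · intro b
    rw [if_pos (Sym2.mem_mk_left v b)]
    rfl

/-- the graph of a symmetric pattern -/
def grl_gr {n : ℕ} (E : Fin n → Fin n → Prop) (hE : ∀ i j, E i j → E j i) :
    SimpleGraph (Fin (n + 1)) where
  Adj a b := a ≠ b ∧ ∀ i j : Fin n, a = i.succ → b = j.succ → E i j
  symm := ⟨fun _ _ h => ⟨h.1.symm, fun i j h1 h2 => hE _ _ (h.2 j i h2 h1)⟩⟩
  loopless := ⟨fun _ h => h.1 rfl⟩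

theorem grl_lap {n : ℕ} (E : Fin n → Fin n → Prop) (hE : ∀ i j, E i j → E j i)
    {B : Type} [CommRing B] (M : Matrix (Fin n) (Fin n) B) (hM : ∀ i j, M i j = M j i)
    (hM0 : ∀ i j, ¬ E i j → M i j = 0) :
    ∃ x : (grl_gr E hE).edgeSet → B,
      ∀ φ : MvPolynomial (grl_gr E hE).edgeSet k →+* B,
        (∀ i j, φ (lap k (grl_gr E hE) i j) = M i j) ↔ ∀ e, φ (MvPolynomial.X e) = x e := by
  classical
  let w : Fin (n + 1) → Fin (n + 1) → B := fun a b =>
    Fin.cases (Fin.cases 0 (fun i => ∑ j, M i j) b)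
      (fun i => Fin.cases (∑ j, M i j) (fun j => -M i j) b) a
  have hw : ∀ a b, w a b = w b a := by
    intro a b
    refine Fin.cases ?_ (fun i => ?_) a <;> refine Fin.cases ?_ (fun j => ?_) b
    · rfl
    · rfl
    · rfl
    · change -M i j = -M j i
      rw [hM]
  refine ⟨fun e => Sym2.lift ⟨w, hw⟩ e.1, fun φ => ?_⟩
  have ha0 : ∀ i : Fin n, (grl_gr E hE).Adj i.succ 0 := fun i =>
    ⟨Fin.succ_ne_zero i, fun _ j _ h => absurd h.symm (Fin.succ_ne_zero j)⟩
  let b : Fin n → Fin n → B := fun i j =>
    if h : (grl_gr E hE).Adj i.succ j.succ then φ (MvPolynomial.X ⟨s(i.succ, j.succ), h⟩) else 0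
  have hd : ∀ i, φ (lap k (grl_gr E hE) i i) =
      φ (MvPolynomial.X ⟨s(i.succ, 0), ha0 i⟩) + ∑ j, b i j := by
    intro i
    unfold lap
    rw [if_pos rfl, map_sum]
    have h1 := grl_sum (grl_gr E hE) i.succ (fun e => φ (MvPolynomial.X e))
    rw [Fin.sum_univ_succ, dif_pos (ha0 i)] at h1
    rw [← h1]
    refine Finset.sum_congr ?_ fun e _ => ?_
    · ext e
      simp
    · split_ifs
      · rfl
      · exact map_zero φ
  have ho : ∀ i j, i ≠ j → φ (lap k (grl_gr E hE) i j) = -b i j := by
    intro i j hij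
    unfold lap
    rw [if_neg hij]
    by_cases h : (grl_gr E hE).Adj i.succ j.succ
    · rw [dif_pos h, map_neg]
      change _ = -(dite _ _ _)
      rw [dif_pos h]
    · rw [dif_neg h, map_zero]
      change _ = -(dite _ _ _)
      rw [dif_neg h, neg_zero]
  have hs : (∀ i j, b i j = (if j = i then M i i else 0) - M i j) → ∀ i,
      ∑ j, b i j = M i i - ∑ j, M i j := by
    intro h i
    rw [Finset.sum_congr rfl fun j _ => h i j, Finset.sum_sub_distrib, Finset.sum_ite_eq']
    rw [if_pos (Finset.mem_univ i)]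
  have hb0 : ∀ i, b i i = 0 := fun i => dif_neg fun h => h.1 rfl
  constructor
  · intro h
    have hb : ∀ i j, b i j = (if j = i then M i i else 0) - M i j := by
      intro i j
      by_cases hij : j = i
      · subst hij
        rw [hb0, if_pos rfl, sub_self]
      · rw [if_neg hij, ← h i j, ho i j fun e => hij e.symm]
        ring
    have h0 : ∀ i : Fin n, φ (MvPolynomial.X ⟨s(i.succ, 0), ha0 i⟩) = ∑ j, M i j := by
      intro i
      have h1 := h i i
      rw [hd, hs hb] at h1
      linear_combination h1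
    rintro ⟨z, hz⟩
    induction z using Sym2.ind with
    | _ a c =>
      revert hz
      refine Fin.cases ?_ (fun i => ?_) a <;> refine Fin.cases ?_ (fun j => ?_) c
      · intro hz
        exact absurd rfl (show (grl_gr E hE).Adj 0 0 from hz).ne
      · intro hz
        have h1 : (⟨s(0, j.succ), hz⟩ : (grl_gr E hE).edgeSet) = ⟨s(j.succ, 0), ha0 j⟩ :=
          Subtype.ext Sym2.eq_swap
        rw [h1]
        exact h0 j
      · intro hz
        exact h0 i
      · intro hz
        have h1 : b i j = φ (MvPolynomial.X ⟨s(i.succ, j.succ), hz⟩) := dif_pos hz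
        have hij : j ≠ i := fun e => (show (grl_gr E hE).Adj i.succ j.succ from hz).ne (by rw [e])
        rw [← h1, hb, if_neg hij, zero_sub]
        rfl
  · intro h
    have hb : ∀ i j, b i j = (if j = i then M i i else 0) - M i j := by
      intro i j
      by_cases hij : j = i
      · subst hij
        rw [hb0, if_pos rfl, sub_self]
      · rw [if_neg hij, zero_sub]
        by_cases ha : (grl_gr E hE).Adj i.succ j.succ
        · have h1 : b i j = φ (MvPolynomial.X ⟨s(i.succ, j.succ), ha⟩) := dif_pos ha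
          rw [h1, h]
          rfl
        · have h1 : b i j = 0 := dif_neg ha
          have h2 : ¬ E i j := fun e => ha ⟨fun e' => hij (Fin.succ_injective _ e').symm,
            fun i' j' h1 h2 => by
              rw [← Fin.succ_injective _ h1, ← Fin.succ_injective _ h2]
              exact e⟩
          rw [h1, hM0 i j h2, neg_zero]
    intro i j
    by_cases hij : j = i
    · subst hij
      rw [hd, hs hb, h]
      change (∑ l, M j l) + _ = _
      ring
    · rw [ho i j fun e => hij e.symm, hb, if_neg hij]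
      ring

theorem grl_1 (n : ℕ) (E : Fin n → Fin n → Prop) (hr : ∀ i, E i i) (hE : ∀ i j, E i j → E j i) :
    ∃ (Γ : SimpleGraph (Fin (n + 1))) (u : (SymU k (Fin n) E).obj
      (Localization.Away (lap k Γ).det)), (SymU k (Fin n) E).Rep _ u := by
  classical
  have hsym : ∀ i j, lap k (grl_gr E hE) i j = lap k (grl_gr E hE) j i := by
    intro i j
    by_cases hij : i = j
    · rw [hij]
    · unfold lap
      rw [if_neg hij, if_neg fun e => hij e.symm]
      by_cases h : (grl_gr E hE).Adj i.succ j.succ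
      · rw [dif_pos h, dif_pos h.symm]
        congr 2
        exact Subtype.ext Sym2.eq_swap
      · rw [dif_neg h, dif_neg fun h' => h h'.symm]
  have hzer : ∀ i j, ¬ E i j → lap k (grl_gr E hE) i j = 0 := by
    intro i j hij
    have h1 : i ≠ j := by
      rintro rfl
      exact hij (hr i)
    unfold lap
    rw [if_neg h1, dif_neg fun h => hij (h.2 i j rfl rfl)]
  refine ⟨grl_gr E hE, ⟨(lap k (grl_gr E hE)).map (algebraMap _ _), fun i j => ?_, fun i j h => ?_,
    grl_unit _⟩, ?_⟩
  · rw [map_apply, map_apply, hsym]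
  · rw [map_apply, hzer i j h, map_zero]
  · refine grl_rep _ _ _ _ ?_
    intro S _ _ y
    obtain ⟨x, hx⟩ := grl_lap (k := k) E hE y.1 y.2.1 y.2.2.1
    refine ⟨x, ?_, fun f => ?_⟩
    · have h1 := (hx (MvPolynomial.aeval (R := k) x : _ →ₐ[k] S).toRingHom).2
        fun e => MvPolynomial.aeval_X x e
      have h2 : MvPolynomial.aeval (R := k) x (lap k (grl_gr E hE)).det = y.1.det := by
        rw [AlgHom.map_det]
        congr 1
        ext i j
        exact h1 i j
      rw [h2]
      exact y.2.2.2
    · have h1 := hx (f.toRingHom.comp (algebraMap _ _))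
      refine Iff.trans ?_ h1
      constructor
      · intro h i j
        rw [← h]
        rfl
      · intro h
        refine Subtype.ext ?_
        ext i j
        exact h i j

theorem grl_2 (n : ℕ) (P : Fin n → Fin n → Prop) : ∃ (Q : Finset (Fin n × Fin n))
    (u : (MatU k (Fin n) P fun _ _ => False).obj (Localization.Away (genM k Q).det)),
    (MatU k (Fin n) P fun _ _ => False).Rep _ u := by
  classical
  have hQ : ∀ i j, (i, j) ∈ Finset.univ.filter (fun p : Fin n × Fin n => P p.1 p.2) ↔ P i j := by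
    intro i j
    rw [Finset.mem_filter]
    exact ⟨fun h => h.2, fun h => ⟨Finset.mem_univ _, h⟩⟩
  generalize Finset.univ.filter (fun p : Fin n × Fin n => P p.1 p.2) = Q at hQ
  refine ⟨Q, ⟨(genM k Q).map (algebraMap _ _), fun i j h => ?_, fun _ _ h => h.elim,
    grl_unit _⟩, ?_⟩
  · rw [map_apply]
    unfold genM
    rw [dif_neg fun h' => h ((hQ i j).1 h'), map_zero]
  · refine grl_rep _ _ _ _ ?_
    intro S _ _ y
    have key : ∀ φ : MvPolynomial Q k →+* S, (∀ i j, φ (genM k Q i j) = y.1 i j) ↔
        ∀ q : Q, φ (MvPolynomial.X q) = y.1 q.1.1 q.1.2 := by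
      intro φ
      constructor
      · rintro h ⟨⟨i, j⟩, hq⟩
        have h1 := h i j
        unfold genM at h1
        rw [dif_pos hq] at h1
        exact h1
      · intro h i j
        unfold genM
        by_cases hq : (i, j) ∈ Q
        · rw [dif_pos hq]
          exact h ⟨(i, j), hq⟩
        · rw [dif_neg hq, map_zero, y.2.1 i j fun h' => hq ((hQ i j).2 h')]
    refine ⟨fun q => y.1 q.1.1 q.1.2, ?_, fun f => ?_⟩
    · have h1 := (key (MvPolynomial.aeval (R := k) (fun q : Q => y.1 q.1.1 q.1.2) :
        _ →ₐ[k] S).toRingHom).2 fun e => MvPolynomial.aeval_X _ e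
      have h2 : MvPolynomial.aeval (R := k) (fun q : Q => y.1 q.1.1 q.1.2) (genM k Q).det =
          y.1.det := by
        rw [AlgHom.map_det]
        congr 1
        ext i j
        exact h1 i j
      rw [h2]
      exact y.2.2.2
    · have h1 := key (f.toRingHom.comp (algebraMap _ _))
      refine Iff.trans ?_ h1
      constructor
      · intro h i j
        rw [← h]
        rfl
      · intro h
        refine Subtype.ext ?_
        ext i j
        exact h i j

attribute [local instance] Polynomial.algebra Polynomial.isLocalization in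
/-- the localization of `A[X]` at `d X` -/
theorem grl_loc0 (A : Type) [CommRing A] (d : A) : Nonempty
    (Localization.Away (Polynomial.C d * Polynomial.X : Polynomial A) ≃+*
      Localization.Away (Polynomial.X : Polynomial (Localization.Away d))) := by
  have h1 : IsLocalization.Away (Polynomial.C d : Polynomial A)
      (Polynomial (Localization.Away d)) := by
    have h2 := Polynomial.isLocalization (Submonoid.powers d) (Localization.Away d)
    rw [Submonoid.map_powers] at h2
    exact h2
  have h3 : algebraMap (Polynomial A) (Polynomial (Localization.Away d)) Polynomial.X =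
      Polynomial.X := by
    change Polynomial.map _ _ = _
    exact Polynomial.map_X _
  have h4 : IsLocalization.Away (algebraMap (Polynomial A) (Polynomial (Localization.Away d))
      Polynomial.X) (Localization.Away (Polynomial.X : Polynomial (Localization.Away d))) := by
    rw [h3]
    infer_instance
  have h5 : IsLocalization.Away (Polynomial.C d * Polynomial.X : Polynomial A)
      (Localization.Away (Polynomial.X : Polynomial (Localization.Away d))) :=
    IsLocalization.Away.mul' (Polynomial (Localization.Away d)) _ _ _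
  exact ⟨(IsLocalization.algEquiv (Submonoid.powers (Polynomial.C d * Polynomial.X :
    Polynomial A)) _ _).toRingEquiv⟩

theorem grl_loc (τ τ' : Type) (e : Option τ ≃ τ') (d : MvPolynomial τ k) (d' : MvPolynomial τ' k)
    (h : d' = MvPolynomial.rename (fun i => e (some i)) d * MvPolynomial.X (e none)) :
    Nonempty (Localization.Away d' ≃+*
      Localization.Away (Polynomial.X : Polynomial (Localization.Away d))) := by
  obtain ⟨ψ⟩ := grl_loc0 (MvPolynomial τ k) d
  let φ : MvPolynomial τ' k ≃ₐ[k] Polynomial (MvPolynomial τ k) :=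
    (MvPolynomial.renameEquiv k e.symm).trans (MvPolynomial.optionEquivLeft k τ)
  have h1 : ∀ p : MvPolynomial τ k, φ (MvPolynomial.rename (fun i => e (some i)) p) =
      Polynomial.C p := by
    intro p
    change MvPolynomial.optionEquivLeft k τ (MvPolynomial.rename e.symm
      (MvPolynomial.rename (fun i => e (some i)) p)) = _
    rw [MvPolynomial.rename_rename]
    have h2 : (e.symm ∘ fun i : τ => e (some i)) = some := by
      funext i
      exact e.symm_apply_apply _
    rw [h2]
    induction p using MvPolynomial.induction_on with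
    | C a => rw [MvPolynomial.rename_C, MvPolynomial.optionEquivLeft_C]
    | add p q hp hq => rw [map_add, map_add, hp, hq, Polynomial.C_add]
    | mul_X p i hp => rw [map_mul, map_mul, hp, MvPolynomial.rename_X,
        MvPolynomial.optionEquivLeft_X_some, Polynomial.C_mul]
  have h2 : φ (MvPolynomial.X (e none)) = Polynomial.X := by
    change MvPolynomial.optionEquivLeft k τ (MvPolynomial.rename e.symm (MvPolynomial.X (e none))) =
      _
    rw [MvPolynomial.rename_X, e.symm_apply_apply, MvPolynomial.optionEquivLeft_X_none]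
  have h3 : φ d' = Polynomial.C d * Polynomial.X := by
    rw [h, map_mul, h1, h2]
  have h4 : Submonoid.map (φ.toRingEquiv : MvPolynomial τ' k ≃+* Polynomial (MvPolynomial τ k))
      (Submonoid.powers d') =
      Submonoid.powers (Polynomial.C d * Polynomial.X : Polynomial (MvPolynomial τ k)) := by
    rw [Submonoid.map_powers]
    congr 1
  exact ⟨(IsLocalization.ringEquivOfRingEquiv (Localization.Away d')
    (Localization.Away (Polynomial.C d * Polynomial.X : Polynomial (MvPolynomial τ k)))
    φ.toRingEquiv h4).trans ψ⟩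

theorem grl_det {n : ℕ} {R : Type} [CommRing R] (M : Matrix (Fin (n + 1)) (Fin (n + 1)) R)
    (h : ∀ j : Fin n, M (Fin.last n) j.castSucc = 0) :
    M.det = (M.submatrix Fin.castSucc Fin.castSucc).det * M (Fin.last n) (Fin.last n) := by
  rw [det_succ_row M (Fin.last n), Fin.sum_univ_castSucc]
  rw [Finset.sum_eq_zero fun j _ => by rw [h j, mul_zero, zero_mul], zero_add]
  rw [show (Fin.last n).succAbove = Fin.castSucc from funext fun i => Fin.succAbove_last_apply i]
  rw [Even.neg_one_pow ⟨_, rfl⟩]
  ring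

/-- the graph with an additional vertex joined to `0` -/
def grl_gr' {n : ℕ} (Γ : SimpleGraph (Fin (n + 1))) : SimpleGraph (Fin (n + 1 + 1)) where
  Adj a b := (∃ i j, a = Fin.castSucc i ∧ b = Fin.castSucc j ∧ Γ.Adj i j) ∨
    (a = 0 ∧ b = Fin.last (n + 1)) ∨ (a = Fin.last (n + 1) ∧ b = 0)
  symm := ⟨by
    rintro a b (⟨i, j, h1, h2, h3⟩ | h | h)
    · exact Or.inl ⟨j, i, h2, h1, h3.symm⟩
    · exact Or.inr (Or.inr ⟨h.2, h.1⟩)
    · exact Or.inr (Or.inl ⟨h.2, h.1⟩)⟩
  loopless := ⟨by
    rintro a (⟨i, j, h1, h2, h3⟩ | h | h)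
    · rw [h1] at h2
      rw [Fin.castSucc_injective _ h2] at h3
      exact h3.ne rfl
    · exact absurd (h.2.symm.trans h.1) (Fin.last_pos).ne'
    · exact absurd (h.1.symm.trans h.2) (Fin.last_pos).ne'⟩

theorem grl_adj {n : ℕ} (Γ : SimpleGraph (Fin (n + 1))) (i j : Fin (n + 1)) :
    (grl_gr' Γ).Adj i.castSucc j.castSucc ↔ Γ.Adj i j := by
  constructor
  · rintro (⟨i', j', h1, h2, h3⟩ | h | h)
    · rw [Fin.castSucc_injective _ h1, Fin.castSucc_injective _ h2]
      exact h3
    · exact absurd h.2 (Fin.castSucc_lt_last j).ne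
    · exact absurd h.1 (Fin.castSucc_lt_last i).ne
  · intro h
    exact Or.inl ⟨i, j, rfl, rfl, h⟩

theorem grl_mem {n : ℕ} (Γ : SimpleGraph (Fin (n + 1))) (z : Sym2 (Fin (n + 1)))
    (hz : z ∈ Γ.edgeSet) : Sym2.map Fin.castSucc z ∈ (grl_gr' Γ).edgeSet := by
  induction z using Sym2.ind with
  | _ a b => exact (grl_adj Γ a b).2 hz

/-- the edges -/
def grl_f {n : ℕ} (Γ : SimpleGraph (Fin (n + 1))) : Option Γ.edgeSet → (grl_gr' Γ).edgeSet
  | none => ⟨s(0, Fin.last (n + 1)), Or.inr (Or.inl ⟨rfl, rfl⟩)⟩
  | some e => ⟨Sym2.map Fin.castSucc e.1, grl_mem Γ e.1 e.2⟩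

theorem grl_last {n : ℕ} (z : Sym2 (Fin (n + 1))) : Fin.last (n + 1) ∉ Sym2.map Fin.castSucc z := by
  intro h
  rw [Sym2.mem_map] at h
  obtain ⟨a, _, ha⟩ := h
  exact (Fin.castSucc_lt_last a).ne ha

theorem grl_bij {n : ℕ} (Γ : SimpleGraph (Fin (n + 1))) : Bijective (grl_f Γ) := by
  constructor
  · rintro (_ | e) (_ | e') h
    · rfl
    · have h1 : s(0, Fin.last (n + 1)) = Sym2.map Fin.castSucc e'.1 := congrArg Subtype.val h
      exact absurd (h1 ▸ Sym2.mem_mk_right _ _) (grl_last e'.1)
    · have h1 : Sym2.map Fin.castSucc e.1 = s(0, Fin.last (n + 1)) := congrArg Subtype.val h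
      exact absurd (h1.symm ▸ Sym2.mem_mk_right _ _) (grl_last e.1)
    · have h1 : Sym2.map Fin.castSucc e.1 = Sym2.map Fin.castSucc e'.1 := congrArg Subtype.val h
      rw [Subtype.ext (Sym2.map.injective (Fin.castSucc_injective _) h1)]
  · rintro ⟨z, hz⟩
    induction z using Sym2.ind with
    | _ a b =>
      have hz' : (grl_gr' Γ).Adj a b := hz
      rcases hz' with ⟨i, j, h1, h2, h3⟩ | ⟨h1, h2⟩ | ⟨h1, h2⟩
      · subst h1 h2
        exact ⟨some ⟨s(i, j), h3⟩, rfl⟩
      · subst h1 h2
        exact ⟨none, rfl⟩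
      · subst h1 h2
        exact ⟨none, Subtype.ext Sym2.eq_swap⟩

theorem grl_3 (n : ℕ) (Γ : SimpleGraph (Fin (n + 1))) : ∃ Γ' : SimpleGraph (Fin (n + 1 + 1)),
    Nonempty (Localization.Away (lap k Γ').det ≃+* Localization.Away
      (Polynomial.X : Polynomial (Localization.Away (lap k Γ).det))) := by
  classical
  refine ⟨grl_gr' Γ, grl_loc _ _ (Equiv.ofBijective _ (grl_bij Γ)) _ _ ?_⟩
  have hsum : ∀ (v : Fin (n + 1 + 1)) (I : Fintype (grl_gr' Γ).edgeSet),
      (∑ e : (grl_gr' Γ).edgeSet, if v ∈ e.1 then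
        (MvPolynomial.X e : MvPolynomial (grl_gr' Γ).edgeSet k) else 0) =
      (if v ∈ s(0, Fin.last (n + 1)) then MvPolynomial.X (grl_f Γ none) else 0) +
      ∑ e : Γ.edgeSet, if v ∈ Sym2.map Fin.castSucc e.1 then MvPolynomial.X (grl_f Γ (some e))
        else 0 := by
    intro v I
    rw [← (Equiv.ofBijective _ (grl_bij Γ)).sum_comp, Fintype.sum_option]
    rfl
  rw [grl_det]
  · congr 1
    · rw [AlgHom.map_det]
      congr 1
      ext1 i j
      change lap k (grl_gr' Γ) i.castSucc j.castSucc = MvPolynomial.rename _ (lap k Γ i j)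
      unfold lap
      by_cases hij : i = j
      · subst hij
        rw [if_pos rfl, if_pos rfl, hsum, if_neg, zero_add, map_sum]
        · refine Finset.sum_congr ?_ fun e _ => ?_
          · ext e
            simp
          · have h1 : (i.castSucc.succ ∈ Sym2.map Fin.castSucc e.1) ↔ i.succ ∈ e.1 := by
              rw [← Fin.castSucc_succ, Sym2.mem_map]
              constructor
              · rintro ⟨a, ha, hb⟩
                rw [← Fin.castSucc_injective _ hb]
                exact ha
              · intro h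
                exact ⟨_, h, rfl⟩
            by_cases h2 : i.succ ∈ e.1
            · rw [if_pos h2, if_pos (h1.2 h2), MvPolynomial.rename_X]
              rfl
            · rw [if_neg h2, if_neg fun h => h2 (h1.1 h), map_zero]
        · rw [Sym2.mem_iff]
          rintro (h | h)
          · exact Fin.succ_ne_zero _ h
          · rw [← Fin.castSucc_succ] at h
            exact (Fin.castSucc_lt_last _).ne h
      · rw [if_neg hij, if_neg fun h => hij (Fin.castSucc_injective _ h)]
        have h0 : (grl_gr' Γ).Adj i.castSucc.succ j.castSucc.succ ↔ Γ.Adj i.succ j.succ := by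
          rw [← Fin.castSucc_succ, ← Fin.castSucc_succ]
          exact grl_adj Γ _ _
        by_cases h : Γ.Adj i.succ j.succ
        · rw [dif_pos h, dif_pos (h0.2 h), map_neg, MvPolynomial.rename_X]
          congr 2
        · rw [dif_neg h, dif_neg fun h' => h (h0.1 h'), map_zero]
    · unfold lap
      rw [if_pos rfl, hsum, if_pos, Finset.sum_eq_zero, add_zero]
      · rfl
      · intro e _
        rw [if_neg]
        rw [Fin.succ_last]
        exact grl_last e.1
      · rw [Fin.succ_last]
        exact Sym2.mem_mk_right _ _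
  · intro j
    unfold lap
    rw [if_neg (Fin.castSucc_lt_last j).ne', dif_neg]
    rintro (⟨i', j', h1, h2, h3⟩ | h | h)
    · rw [Fin.succ_last] at h1
      exact (Fin.castSucc_lt_last i').ne h1.symm
    · exact Fin.succ_ne_zero _ h.1
    · exact Fin.succ_ne_zero _ h.2

/-- the additional entry -/
def grl_Q {n : ℕ} (Q : Finset (Fin n × Fin n)) : Finset (Fin (n + 1) × Fin (n + 1)) :=
  insert (Fin.last n, Fin.last n)
    (Q.map ⟨fun p => (p.1.castSucc, p.2.castSucc), fun p q h => by
      obtain ⟨h1, h2⟩ := Prod.ext_iff.1 h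
      exact Prod.ext (Fin.castSucc_injective _ h1) (Fin.castSucc_injective _ h2)⟩)

theorem grl_Q1 {n : ℕ} (Q : Finset (Fin n × Fin n)) (i j : Fin n) :
    (i.castSucc, j.castSucc) ∈ grl_Q Q ↔ (i, j) ∈ Q := by
  unfold grl_Q
  rw [Finset.mem_insert, Finset.mem_map]
  constructor
  · rintro (h | ⟨p, hp, h⟩)
    · exact absurd (Prod.ext_iff.1 h).1 (Fin.castSucc_lt_last i).ne
    · obtain ⟨h1, h2⟩ := Prod.ext_iff.1 h
      have h3 : p = (i, j) := Prod.ext (Fin.castSucc_injective _ h1) (Fin.castSucc_injective _ h2)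
      rw [← h3]
      exact hp
  · intro h
    exact Or.inr ⟨_, h, rfl⟩

theorem grl_Q2 {n : ℕ} (Q : Finset (Fin n × Fin n)) : (Fin.last n, Fin.last n) ∈ grl_Q Q :=
  Finset.mem_insert_self _ _

theorem grl_Q3 {n : ℕ} (Q : Finset (Fin n × Fin n)) (j : Fin n) :
    (Fin.last n, j.castSucc) ∉ grl_Q Q := by
  unfold grl_Q
  rw [Finset.mem_insert, Finset.mem_map]
  rintro (h | ⟨p, hp, h⟩)
  · exact absurd (Prod.ext_iff.1 h).2 (Fin.castSucc_lt_last j).ne
  · exact absurd (Prod.ext_iff.1 h).1 (Fin.castSucc_lt_last p.1).ne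

/-- the entries -/
def grl_g {n : ℕ} (Q : Finset (Fin n × Fin n)) : Option Q → grl_Q Q
  | none => ⟨_, grl_Q2 Q⟩
  | some q => ⟨(q.1.1.castSucc, q.1.2.castSucc), (grl_Q1 Q _ _).2 q.2⟩

theorem grl_bij2 {n : ℕ} (Q : Finset (Fin n × Fin n)) : Bijective (grl_g Q) := by
  constructor
  · rintro (_ | e) (_ | e') h
    · rfl
    · exact absurd (Prod.ext_iff.1 (congrArg Subtype.val h)).1 (Fin.castSucc_lt_last _).ne'
    · exact absurd (Prod.ext_iff.1 (congrArg Subtype.val h)).1 (Fin.castSucc_lt_last _).ne
    · obtain ⟨h1, h2⟩ := Prod.ext_iff.1 (congrArg Subtype.val h)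
      have h3 : e = e' := Subtype.ext (Prod.ext (Fin.castSucc_injective _ h1)
        (Fin.castSucc_injective _ h2))
      rw [h3]
  · rintro ⟨z, hz⟩
    have hz' := hz
    unfold grl_Q at hz
    rw [Finset.mem_insert, Finset.mem_map] at hz
    rcases hz with h | ⟨p, hp, h⟩
    · exact ⟨none, Subtype.ext h.symm⟩
    · exact ⟨some ⟨p, hp⟩, Subtype.ext h⟩

theorem grl_4 (n : ℕ) (Q : Finset (Fin n × Fin n)) : ∃ Q' : Finset (Fin (n + 1) × Fin (n + 1)),
    Nonempty (Localization.Away (genM k Q').det ≃+* Localization.Away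
      (Polynomial.X : Polynomial (Localization.Away (genM k Q).det))) := by
  refine ⟨grl_Q Q, grl_loc _ _ (Equiv.ofBijective _ (grl_bij2 Q)) _ _ ?_⟩
  rw [grl_det]
  · congr 1
    · rw [AlgHom.map_det]
      congr 1
      ext1 i j
      change genM k (grl_Q Q) i.castSucc j.castSucc = MvPolynomial.rename _ (genM k Q i j)
      unfold genM
      by_cases h : (i, j) ∈ Q
      · rw [dif_pos h, dif_pos ((grl_Q1 Q i j).2 h), MvPolynomial.rename_X]
        rfl
      · rw [dif_neg h, dif_neg fun h' => h ((grl_Q1 Q i j).1 h'), map_zero]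
    · unfold genM
      rw [dif_pos (grl_Q2 Q)]
      rfl
  · intro j
    unfold genM
    rw [dif_neg (grl_Q3 Q j)]

theorem thm_GRL : St_GRL := fun _ _ => ⟨grl_1, grl_2, grl_3, grl_4⟩

end Pool.Agent.KGR
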