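import Pool.Agent.KGR.St3
import Pool.Agent.KGR.GRL

/-!
# KGR GRS: generic symmetric matrices (helper27)
-/

set_option autoImplicit false

noncomputable section

namespace Pool.Agent.KGR

open Function Matrix

variable {k : Type} [CommRing k]

theorem grs_Q {n : ℕ} (E : Fin n → Fin n → Prop) (hE : ∀ i j, E i j → E j i) :
    ∃ Q : Finset (Sym2 (Fin n)), ∀ i j, s(i, j) ∈ Q ↔ E i j := by
  classical
  refine ⟨Finset.univ.filter (fun z => ∃ i j, z = s(i, j) ∧ E i j), fun i j => ?_⟩
  rw [Finset.mem_filter]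
  constructor
  · rintro ⟨_, i', j', h1, h2⟩
    rcases Sym2.eq_iff.1 h1 with h | h
    · rw [h.1, h.2]
      exact h2
    · rw [h.1, h.2]
      exact hE _ _ h2
  · intro h
    exact ⟨Finset.mem_univ _, i, j, rfl, h⟩

theorem grs_sym {n : ℕ} (Q : Finset (Sym2 (Fin n))) (i j : Fin n) :
    genS k Q i j = genS k Q j i := by
  unfold genS
  by_cases h : s(i, j) ∈ Q
  · have h' : s(j, i) ∈ Q := by
      rw [Sym2.eq_swap]
      exact h
    rw [dif_pos h, dif_pos h']
    congr 1
    exact Subtype.ext Sym2.eq_swap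
  · have h' : s(j, i) ∉ Q := by
      rw [Sym2.eq_swap]
      exact h
    rw [dif_neg h, dif_neg h']

theorem grs_1 (n : ℕ) (E : Fin n → Fin n → Prop) (hE : ∀ i j, E i j → E j i) :
    ∃ (Q : Finset (Sym2 (Fin n))) (u : (SymU k (Fin n) E).obj
      (Localization.Away (genS k Q).det)), (SymU k (Fin n) E).Rep _ u := by
  obtain ⟨Q, hQ⟩ := grs_Q E hE
  refine ⟨Q, ⟨(genS k Q).map (algebraMap _ _), fun i j => ?_, fun i j h => ?_, grl_unit _⟩, ?_⟩
  · rw [map_apply, map_apply, grs_sym]
  · rw [map_apply]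
    unfold genS
    rw [dif_neg fun h' => h ((hQ i j).1 h'), map_zero]
  · refine grl_rep _ _ _ _ ?_
    intro S _ _ y
    obtain ⟨x, hx⟩ : ∃ x : Q → S, ∀ (i j : Fin n) (h : s(i, j) ∈ Q), x ⟨s(i, j), h⟩ = y.1 i j :=
      ⟨fun q => Sym2.lift ⟨fun i j => y.1 i j, fun i j => y.2.1 i j⟩ q.1, fun i j h => rfl⟩
    have key : ∀ φ : MvPolynomial Q k →+* S, (∀ i j, φ (genS k Q i j) = y.1 i j) ↔
        ∀ q : Q, φ (MvPolynomial.X q) = x q := by
      intro φ
      constructor
      · rintro h ⟨z, hz⟩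
        induction z using Sym2.ind with
        | _ i j =>
          have h1 := h i j
          unfold genS at h1
          rw [dif_pos hz] at h1
          rw [h1, hx]
      · intro h i j
        unfold genS
        by_cases hq : s(i, j) ∈ Q
        · rw [dif_pos hq, h, hx]
        · rw [dif_neg hq, map_zero, y.2.2.1 i j fun h' => hq ((hQ i j).2 h')]
    refine ⟨x, ?_, fun f => ?_⟩
    · have h1 := (key (MvPolynomial.aeval (R := k) x : _ →ₐ[k] S).toRingHom).2
        fun e => MvPolynomial.aeval_X _ e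
      have h2 : MvPolynomial.aeval (R := k) x (genS k Q).det = y.1.det := by
        rw [AlgHom.map_det]
        congr 1
        ext i j
        exact h1 i j
      rw [h2]
      exact y.2.2.2
    · have h1 := key (f.toRingHom.comp (algebraMap _ _))
      refine Iff.trans ?_ h1
      constructor
      · intro h i j
        rw [← h]
        rfl
      · intro h
        refine Subtype.ext ?_
        ext i j
        exact h i j

/-- the additional entry -/
def grs_R {n : ℕ} (Q : Finset (Sym2 (Fin n))) : Finset (Sym2 (Fin (n + 1))) :=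
  insert s(Fin.last n, Fin.last n) (Q.image (Sym2.map Fin.castSucc))

theorem grs_R1 {n : ℕ} (Q : Finset (Sym2 (Fin n))) (i j : Fin n) :
    s(i.castSucc, j.castSucc) ∈ grs_R Q ↔ s(i, j) ∈ Q := by
  unfold grs_R
  rw [Finset.mem_insert, Finset.mem_image]
  constructor
  · rintro (h | ⟨p, hp, h⟩)
    · rcases Sym2.eq_iff.1 h with h' | h'
      · exact absurd h'.1 (Fin.castSucc_lt_last i).ne
      · exact absurd h'.1 (Fin.castSucc_lt_last i).ne
    · have h3 : p = s(i, j) := by
        refine Sym2.map.injective (Fin.castSucc_injective n) ?_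
        rw [h]
        rfl
      rw [← h3]
      exact hp
  · intro h
    exact Or.inr ⟨_, h, rfl⟩

theorem grs_R2 {n : ℕ} (Q : Finset (Sym2 (Fin n))) : s(Fin.last n, Fin.last n) ∈ grs_R Q :=
  Finset.mem_insert_self _ _

theorem grs_R3 {n : ℕ} (Q : Finset (Sym2 (Fin n))) (j : Fin n) :
    s(Fin.last n, j.castSucc) ∉ grs_R Q := by
  unfold grs_R
  rw [Finset.mem_insert, Finset.mem_image]
  rintro (h | ⟨p, hp, h⟩)
  · rcases Sym2.eq_iff.1 h with h' | h'
    · exact absurd h'.2 (Fin.castSucc_lt_last j).ne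
    · exact absurd h'.2 (Fin.castSucc_lt_last j).ne
  · have h1 : Fin.last n ∈ Sym2.map Fin.castSucc p := by
      rw [h]
      exact Sym2.mem_mk_left _ _
    rw [Sym2.mem_map] at h1
    obtain ⟨c, _, hc⟩ := h1
    exact absurd hc (Fin.castSucc_lt_last c).ne

theorem grs_R4 {n : ℕ} (Q : Finset (Sym2 (Fin n))) (q : Q) :
    Sym2.map Fin.castSucc q.1 ∈ grs_R Q := by
  unfold grs_R
  exact Finset.mem_insert_of_mem (Finset.mem_image_of_mem _ q.2)

/-- the entries -/
def grs_g {n : ℕ} (Q : Finset (Sym2 (Fin n))) : Option Q → grs_R Q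
  | none => ⟨_, grs_R2 Q⟩
  | some q => ⟨Sym2.map Fin.castSucc q.1, grs_R4 Q q⟩

theorem grs_ne {n : ℕ} (z : Sym2 (Fin n)) :
    s(Fin.last n, Fin.last n) ≠ Sym2.map Fin.castSucc z := by
  intro h
  have h1 : Fin.last n ∈ Sym2.map Fin.castSucc z := by
    rw [← h]
    exact Sym2.mem_mk_left _ _
  rw [Sym2.mem_map] at h1
  obtain ⟨c, _, hc⟩ := h1
  exact absurd hc (Fin.castSucc_lt_last c).ne

theorem grs_bij {n : ℕ} (Q : Finset (Sym2 (Fin n))) : Bijective (grs_g Q) := by
  constructor
  · rintro (_ | e) (_ | e') h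
    · rfl
    · exact absurd (congrArg Subtype.val h) (grs_ne e'.1)
    · exact absurd (congrArg Subtype.val h).symm (grs_ne e.1)
    · have h1 : Sym2.map Fin.castSucc e.1 = Sym2.map Fin.castSucc e'.1 := congrArg Subtype.val h
      rw [Subtype.ext (Sym2.map.injective (Fin.castSucc_injective _) h1)]
  · rintro ⟨z, hz⟩
    have hz' := hz
    unfold grs_R at hz
    rw [Finset.mem_insert, Finset.mem_image] at hz
    rcases hz with h | ⟨p, hp, h⟩
    · exact ⟨none, Subtype.ext h.symm⟩
    · exact ⟨some ⟨p, hp⟩, Subtype.ext h⟩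

theorem grs_2 (n : ℕ) (Q : Finset (Sym2 (Fin n))) : ∃ Q' : Finset (Sym2 (Fin (n + 1))),
    Nonempty (Localization.Away (genS k Q').det ≃+* Localization.Away
      (Polynomial.X : Polynomial (Localization.Away (genS k Q).det))) := by
  refine ⟨grs_R Q, grl_loc _ _ (Equiv.ofBijective _ (grs_bij Q)) _ _ ?_⟩
  rw [grl_det]
  · congr 1
    · rw [AlgHom.map_det]
      congr 1
      ext1 i j
      change genS k (grs_R Q) i.castSucc j.castSucc = MvPolynomial.rename _ (genS k Q i j)
      unfold genS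
      by_cases h : s(i, j) ∈ Q
      · rw [dif_pos h, dif_pos ((grs_R1 Q i j).2 h), MvPolynomial.rename_X]
        rfl
      · rw [dif_neg h, dif_neg fun h' => h ((grs_R1 Q i j).1 h'), map_zero]
    · unfold genS
      rw [dif_pos (grs_R2 Q)]
      rfl
  · intro j
    unfold genS
    rw [dif_neg (grs_R3 Q j)]

theorem thm_GRS : St_GRS := fun _ _ => ⟨grs_1, grs_2⟩

end Pool.Agent.KGR
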