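import Pool.Agent.KGR.St

/-!
# KGR: INC, normalised configurations are solutions of the system (helper77)
-/

set_option autoImplicit false
set_option linter.unusedVariables false

noncomputable section

namespace Pool.Agent.KGR

open Function Matrix

section inc

variable {σ S : Type} [CommRing S]

open Classical in
/-- the rows -/
def inc_V (s : Sys σ) (z : σ → S) : Matrix (Ro σ) (Fin 3) S := fun r => match r with
  | Ro.E => ![1, 1, 1]
  | Ro.D0 => ![0, 1, 1]
  | Ro.D i => ![1, z i, z i]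
  | Ro.U i => ![1, 1, z i]
  | Ro.Q i => ![1, 0, z i]
  | Ro.R a b c => ![1, if s.mul a b c then z b else 0, if s.mul a b c then z b * z c else 0]
  | Ro.R' a b c => ![1, if s.add a b c then z b else 0, if s.add a b c then z b + z c else 0]

/-- the columns -/
def inc_W (z : σ → S) : Matrix (Fin 3) (Co σ) S := fun j c => match c with
  | Co.d => ![0, 1, -1] j
  | Co.c i => ![-z i, 1, 0] j
  | Co.h i => ![-z i, 0, 1] j
  | Co.m i => ![0, -z i, 1] j
  | Co.s i => ![-z i, -1, 1] j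

theorem inc_mul (V : Matrix (Ro σ) (Fin 3) S) (W : Matrix (Fin 3) (Co σ) S) (a : Ro σ) (c : Co σ) :
    (V * W) a c = V a 0 * W 0 c + V a 1 * W 1 c + V a 2 * W 2 c := by
  rw [mul_apply, Fin.sum_univ_three]

/-- the conditions -/
structure inc_C (s : Sys σ) (V : Matrix (Ro σ) (Fin 3) S) (W : Matrix (Fin 3) (Co σ) S) : Prop where
  pv : ∀ a b, ¬ PVs s a b → V a b = 0
  pw : ∀ b c, ¬ PWs b c → W b c = 0
  nv : ∀ a : Ro σ, V a a.b = 1
  ne : ∀ b, V Ro.E b = 1
  nw : ∀ c : Co σ, W c.b c = 1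
  inc : ∀ a c, Inc s a c → V a 0 * W 0 c + V a 1 * W 1 c + V a 2 * W 2 c = 0

variable {s : Sys σ} {V : Matrix (Ro σ) (Fin 3) S} {W : Matrix (Fin 3) (Co σ) S}

theorem inc_d (h : inc_C s V W) : W 0 Co.d = 0 ∧ W 1 Co.d = 1 ∧ W 2 Co.d = -1 := by
  have h0 : W 0 Co.d = 0 := h.pw 0 Co.d fun h => h rfl
  have h1 : W 1 Co.d = 1 := h.nw Co.d
  refine ⟨h0, h1, ?_⟩
  have h2 := h.inc Ro.E Co.d trivial
  rw [h.ne, h.ne, h.ne, h0, h1] at h2
  linear_combination h2

theorem inc_c (h : inc_C s V W) (i : σ) : W 1 (Co.c i) = 1 ∧ W 2 (Co.c i) = 0 :=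
  ⟨h.nw (Co.c i), h.pw 2 (Co.c i) fun h => h rfl⟩

theorem inc_o (h : inc_C s V W) : W 0 (Co.c s.o) = -1 := by
  have h2 := h.inc Ro.E (Co.c s.o) rfl
  rw [h.ne, h.ne, h.ne, (inc_c h _).1, (inc_c h _).2] at h2
  linear_combination h2

theorem inc_D0 (h : inc_C s V W) : V Ro.D0 0 = 0 ∧ V Ro.D0 1 = 1 ∧ V Ro.D0 2 = 1 := by
  have h0 : V Ro.D0 0 = 0 := h.pv Ro.D0 0 fun h => h rfl
  have h1 : V Ro.D0 1 = 1 := h.nv Ro.D0
  refine ⟨h0, h1, ?_⟩
  have h2 := h.inc Ro.D0 Co.d trivial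
  obtain ⟨e0, e1, e2⟩ := inc_d h
  rw [h0, h1, e0, e1, e2] at h2
  linear_combination -h2

theorem inc_s1 (h : inc_C s V W) (i : σ) : W 1 (Co.s i) = -1 ∧ W 2 (Co.s i) = 1 := by
  have h1 : W 2 (Co.s i) = 1 := h.nw (Co.s i)
  refine ⟨?_, h1⟩
  have h2 := h.inc Ro.D0 (Co.s i) trivial
  obtain ⟨e0, e1, e2⟩ := inc_D0 h
  rw [h1, e0, e1, e2] at h2
  linear_combination h2

theorem inc_D (h : inc_C s V W) (i : σ) : V (Ro.D i) 0 = 1 ∧ V (Ro.D i) 1 = -W 0 (Co.c i) ∧
    V (Ro.D i) 2 = -W 0 (Co.c i) := by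
  have h0 : V (Ro.D i) 0 = 1 := h.nv (Ro.D i)
  have h1 := h.inc (Ro.D i) (Co.c i) rfl
  have h2 := h.inc (Ro.D i) Co.d trivial
  obtain ⟨e0, e1, e2⟩ := inc_d h
  rw [h0, (inc_c h i).1, (inc_c h i).2] at h1
  rw [e0, e1, e2] at h2
  exact ⟨h0, by linear_combination h1, by linear_combination h1 - h2⟩

theorem inc_h (h : inc_C s V W) (i : σ) : W 0 (Co.h i) = W 0 (Co.c i) ∧ W 1 (Co.h i) = 0 ∧ W 2 (Co.h i) = 1 := by
  have h1 : W 1 (Co.h i) = 0 := h.pw 1 (Co.h i) fun h => h rfl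
  have h2 : W 2 (Co.h i) = 1 := h.nw (Co.h i)
  refine ⟨?_, h1, h2⟩
  have h3 := h.inc (Ro.D i) (Co.h i) rfl
  obtain ⟨e0, e1, e2⟩ := inc_D h i
  rw [h1, h2, e0, e1, e2] at h3
  linear_combination h3

theorem inc_U (h : inc_C s V W) (i : σ) : V (Ro.U i) 0 = 1 ∧ V (Ro.U i) 1 = 1 ∧
    V (Ro.U i) 2 = -W 0 (Co.c i) := by
  have h0 : V (Ro.U i) 0 = 1 := h.nv (Ro.U i)
  have h1 := h.inc (Ro.U i) (Co.c s.o) rfl
  have h2 := h.inc (Ro.U i) (Co.h i) rfl
  rw [h0, (inc_c h _).1, (inc_c h _).2, inc_o h] at h1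
  rw [h0, (inc_h h i).1, (inc_h h i).2.1, (inc_h h i).2.2] at h2
  exact ⟨h0, by linear_combination h1, by linear_combination h2⟩

theorem inc_m (h : inc_C s V W) (i : σ) : W 0 (Co.m i) = 0 ∧ W 1 (Co.m i) = W 0 (Co.c i) ∧ W 2 (Co.m i) = 1 := by
  have h0 : W 0 (Co.m i) = 0 := h.pw 0 (Co.m i) fun h => h rfl
  have h2 : W 2 (Co.m i) = 1 := h.nw (Co.m i)
  have h3 := h.inc (Ro.U i) (Co.m i) rfl
  obtain ⟨e0, e1, e2⟩ := inc_U h i
  rw [h0, h2, e0, e1, e2] at h3
  exact ⟨h0, by linear_combination h3, h2⟩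

theorem inc_Q (h : inc_C s V W) (i : σ) : V (Ro.Q i) 0 = 1 ∧ V (Ro.Q i) 1 = 0 ∧
    V (Ro.Q i) 2 = -W 0 (Co.c i) := by
  have h0 : V (Ro.Q i) 0 = 1 := h.nv (Ro.Q i)
  have h1 : V (Ro.Q i) 1 = 0 := h.pv (Ro.Q i) 1 fun h => h rfl
  have h2 := h.inc (Ro.Q i) (Co.h i) rfl
  rw [h0, h1, (inc_h h i).1, (inc_h h i).2.2] at h2
  exact ⟨h0, h1, by linear_combination h2⟩

theorem inc_s0 (h : inc_C s V W) (i : σ) : W 0 (Co.s i) = W 0 (Co.c i) := by
  have h3 := h.inc (Ro.Q i) (Co.s i) rfl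
  obtain ⟨e0, e1, e2⟩ := inc_Q h i
  rw [e0, e1, e2, (inc_s1 h i).2] at h3
  linear_combination h3

theorem inc_R (h : inc_C s V W) {a b c : σ} (hm : s.mul a b c) : V (Ro.R a b c) 0 = 1 ∧
    V (Ro.R a b c) 1 = -W 0 (Co.c b) ∧ V (Ro.R a b c) 2 = -W 0 (Co.c b) * -W 0 (Co.c c) ∧
    V (Ro.R a b c) 2 = -W 0 (Co.c a) := by
  have h0 : V (Ro.R a b c) 0 = 1 := h.nv (Ro.R a b c)
  have h1 := h.inc (Ro.R a b c) (Co.c b) ⟨hm, rfl⟩
  have h2 := h.inc (Ro.R a b c) (Co.m c) ⟨hm, rfl⟩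
  have h3 := h.inc (Ro.R a b c) (Co.h a) ⟨hm, rfl⟩
  rw [h0, (inc_c h _).1, (inc_c h _).2] at h1
  obtain ⟨e0, e1, e2⟩ := inc_m h c
  rw [e0, e1, e2] at h2
  rw [h0, (inc_h h _).1, (inc_h h _).2.1, (inc_h h _).2.2] at h3
  have h4 : V (Ro.R a b c) 1 = -W 0 (Co.c b) := by linear_combination h1
  rw [h4] at h2
  exact ⟨h0, h4, by linear_combination h2, by linear_combination h3⟩

theorem inc_R' (h : inc_C s V W) {a b c : σ} (hm : s.add a b c) : V (Ro.R' a b c) 0 = 1 ∧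
    V (Ro.R' a b c) 1 = -W 0 (Co.c b) ∧ V (Ro.R' a b c) 2 = -W 0 (Co.c b) + -W 0 (Co.c c) ∧
    V (Ro.R' a b c) 2 = -W 0 (Co.c a) := by
  have h0 : V (Ro.R' a b c) 0 = 1 := h.nv (Ro.R' a b c)
  have h1 := h.inc (Ro.R' a b c) (Co.c b) ⟨hm, rfl⟩
  have h2 := h.inc (Ro.R' a b c) (Co.s c) ⟨hm, rfl⟩
  have h3 := h.inc (Ro.R' a b c) (Co.h a) ⟨hm, rfl⟩
  rw [h0, (inc_c h _).1, (inc_c h _).2] at h1
  rw [h0, inc_s0 h, (inc_s1 h c).1, (inc_s1 h c).2] at h2
  rw [h0, (inc_h h _).1, (inc_h h _).2.1, (inc_h h _).2.2] at h3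
  have h4 : V (Ro.R' a b c) 1 = -W 0 (Co.c b) := by linear_combination h1
  rw [h4] at h2
  exact ⟨h0, h4, by linear_combination h2, by linear_combination h3⟩

/-- the rows are determined by `z` -/
theorem inc_eqV (h : inc_C s V W) : inc_V s (fun i => -W 0 (Co.c i)) = V := by
  ext r j
  rcases r with _ | _ | i | i | i | ⟨a, b, c⟩ | ⟨a, b, c⟩
  · fin_cases j
    · exact (h.ne 0).symm
    · exact (h.ne 1).symm
    · exact (h.ne 2).symm
  · obtain ⟨e0, e1, e2⟩ := inc_D0 h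
    fin_cases j
    · exact e0.symm
    · exact e1.symm
    · exact e2.symm
  · obtain ⟨e0, e1, e2⟩ := inc_D h i
    fin_cases j
    · exact e0.symm
    · exact e1.symm
    · exact e2.symm
  · obtain ⟨e0, e1, e2⟩ := inc_U h i
    fin_cases j
    · exact e0.symm
    · exact e1.symm
    · exact e2.symm
  · obtain ⟨e0, e1, e2⟩ := inc_Q h i
    fin_cases j
    · exact e0.symm
    · exact e1.symm
    · exact e2.symm
  · by_cases hm : s.mul a b c
    · obtain ⟨e0, e1, e2, -⟩ := inc_R h hm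
      fin_cases j
      · exact e0.symm
      · exact (if_pos hm).trans e1.symm
      · exact (if_pos hm).trans e2.symm
    · have h1 : ∀ j : Fin 3, j ≠ 0 → V (Ro.R a b c) j = 0 := fun j hj =>
        h.pv _ _ fun h2 => h2.elim hj hm
      fin_cases j
      · exact (h.nv (Ro.R a b c)).symm
      · exact (if_neg hm).trans (h1 1 (by decide)).symm
      · exact (if_neg hm).trans (h1 2 (by decide)).symm
  · by_cases hm : s.add a b c
    · obtain ⟨e0, e1, e2, -⟩ := inc_R' h hm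
      fin_cases j
      · exact e0.symm
      · exact (if_pos hm).trans e1.symm
      · exact (if_pos hm).trans e2.symm
    · have h1 : ∀ j : Fin 3, j ≠ 0 → V (Ro.R' a b c) j = 0 := fun j hj =>
        h.pv _ _ fun h2 => h2.elim hj hm
      fin_cases j
      · exact (h.nv (Ro.R' a b c)).symm
      · exact (if_neg hm).trans (h1 1 (by decide)).symm
      · exact (if_neg hm).trans (h1 2 (by decide)).symm

/-- the columns are determined by `z` -/
theorem inc_eqW (h : inc_C s V W) : inc_W (fun i => -W 0 (Co.c i)) = W := by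
  ext j r
  rcases r with _ | i | i | i | i
  · obtain ⟨e0, e1, e2⟩ := inc_d h
    fin_cases j
    · exact e0.symm
    · exact e1.symm
    · exact e2.symm
  · obtain ⟨e1, e2⟩ := inc_c h i
    fin_cases j
    · exact neg_neg _
    · exact e1.symm
    · exact e2.symm
  · obtain ⟨e0, e1, e2⟩ := inc_h h i
    fin_cases j
    · exact (neg_neg _).trans e0.symm
    · exact e1.symm
    · exact e2.symm
  · obtain ⟨e0, e1, e2⟩ := inc_m h i
    fin_cases j
    · exact e0.symm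
    · exact (neg_neg _).trans e1.symm
    · exact e2.symm
  · obtain ⟨e1, e2⟩ := inc_s1 h i
    fin_cases j
    · exact (neg_neg _).trans (inc_s0 h i).symm
    · exact e1.symm
    · exact e2.symm

/-- the conditions for the configuration of a solution -/
theorem inc_mk {z : σ → S} (ho : z s.o = 1) (hm : ∀ a b c, s.mul a b c → z a = z b * z c)
    (ha : ∀ a b c, s.add a b c → z a = z b + z c) : inc_C s (inc_V s z) (inc_W z) where
  pv r j h := by
    have n10 : (1 : Fin 3) ≠ 0 := by decide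
    have n20 : (2 : Fin 3) ≠ 0 := by decide
    have n01 : (0 : Fin 3) ≠ 1 := by decide
    have n21 : (2 : Fin 3) ≠ 1 := by decide
    rcases r with _ | _ | i | i | i | ⟨a, b, c⟩ | ⟨a, b, c⟩
    · exact absurd trivial h
    · fin_cases j
      · rfl
      · exact absurd n10 h
      · exact absurd n20 h
    · exact absurd trivial h
    · exact absurd trivial h
    · fin_cases j
      · exact absurd n01 h
      · rfl
      · exact absurd n21 h
    · have h2 : ¬ s.mul a b c := fun h3 => h (Or.inr h3)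
      fin_cases j
      · exact absurd (Or.inl rfl) h
      · exact if_neg h2
      · exact if_neg h2
    · have h2 : ¬ s.add a b c := fun h3 => h (Or.inr h3)
      fin_cases j
      · exact absurd (Or.inl rfl) h
      · exact if_neg h2
      · exact if_neg h2
  pw j c h := by
    have n10 : (1 : Fin 3) ≠ 0 := by decide
    have n20 : (2 : Fin 3) ≠ 0 := by decide
    have n01 : (0 : Fin 3) ≠ 1 := by decide
    have n21 : (2 : Fin 3) ≠ 1 := by decide
    have n02 : (0 : Fin 3) ≠ 2 := by decide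
    have n12 : (1 : Fin 3) ≠ 2 := by decide
    rcases c with _ | i | i | i | i
    · fin_cases j
      · rfl
      · exact absurd n10 h
      · exact absurd n20 h
    · fin_cases j
      · exact absurd n02 h
      · exact absurd n12 h
      · rfl
    · fin_cases j
      · exact absurd n01 h
      · rfl
      · exact absurd n21 h
    · fin_cases j
      · rfl
      · exact absurd n10 h
      · exact absurd n20 h
    · exact absurd trivial h
  nv r := by rcases r with _ | _ | i | i | i | ⟨a, b, c⟩ | ⟨a, b, c⟩ <;> rfl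
  ne j := by fin_cases j <;> rfl
  nw c := by rcases c with _ | i | i | i | i <;> rfl
  inc r c h := by
    classical
    rcases r with _ | _ | i | i | i | ⟨a, b, c'⟩ | ⟨a, b, c'⟩ <;> rcases c with _ | l | l | l | l <;>
      first
      | exact absurd h (fun h => h)
      | skip
    · change (1 : S) * 0 + 1 * 1 + 1 * -1 = 0
      ring
    · obtain rfl : l = s.o := h
      change (1 : S) * -z s.o + 1 * 1 + 1 * 0 = 0
      rw [ho]
      ring
    · change (0 : S) * 0 + 1 * 1 + 1 * -1 = 0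
      ring
    · change (0 : S) * -z l + 1 * -1 + 1 * 1 = 0
      ring
    · change (1 : S) * 0 + z i * 1 + z i * -1 = 0
      ring
    · obtain rfl : i = l := h
      change (1 : S) * -z i + z i * 1 + z i * 0 = 0
      ring
    · obtain rfl : i = l := h
      change (1 : S) * -z i + z i * 0 + z i * 1 = 0
      ring
    · obtain rfl : l = s.o := h
      change (1 : S) * -z s.o + 1 * 1 + z i * 0 = 0
      rw [ho]
      ring
    · obtain rfl : i = l := h
      change (1 : S) * -z i + 1 * 0 + z i * 1 = 0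
      ring
    · obtain rfl : i = l := h
      change (1 : S) * 0 + 1 * -z i + z i * 1 = 0
      ring
    · obtain rfl : i = l := h
      change (1 : S) * -z i + 0 * 0 + z i * 1 = 0
      ring
    · obtain rfl : i = l := h
      change (1 : S) * -z i + 0 * -1 + z i * 1 = 0
      ring
    · obtain ⟨h1, rfl⟩ := h
      change (1 : S) * -z l + (ite _ (z l) 0) * 1 + (ite _ (z l * z c') 0) * 0 = 0
      rw [if_pos h1]
      ring
    · obtain ⟨h1, rfl⟩ := h
      change (1 : S) * -z l + (ite _ (z b) 0) * 0 + (ite _ (z b * z c') 0) * 1 = 0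
      rw [if_pos h1, if_pos h1, hm _ _ _ h1]
      ring
    · obtain ⟨h1, rfl⟩ := h
      change (1 : S) * 0 + (ite _ (z b) 0) * -z l + (ite _ (z b * z l) 0) * 1 = 0
      rw [if_pos h1, if_pos h1]
      ring
    · obtain ⟨h1, rfl⟩ := h
      change (1 : S) * -z l + (ite _ (z l) 0) * 1 + (ite _ (z l + z c') 0) * 0 = 0
      rw [if_pos h1]
      ring
    · obtain ⟨h1, rfl⟩ := h
      change (1 : S) * -z l + (ite _ (z b) 0) * 0 + (ite _ (z b + z c') 0) * 1 = 0
      rw [if_pos h1, if_pos h1, ha _ _ _ h1]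
      ring
    · obtain ⟨h1, rfl⟩ := h
      change (1 : S) * -z l + (ite _ (z b) 0) * -1 + (ite _ (z b + z l) 0) * 1 = 0
      rw [if_pos h1, if_pos h1]
      ring

end inc

theorem inc_of {k σ S : Type} [CommRing k] [CommRing S] [Algebra k S] (s : Sys σ) (p : (IncN k s).obj S) :
    inc_C s p.1.1 p.1.2 where
  pv := p.2.1.1
  pw := p.2.1.2
  nv := p.2.2.1.1
  ne := p.2.2.1.2.1
  nw := p.2.2.1.2.2
  inc a c h := by
    rw [← inc_mul]
    exact p.2.2.2 a c h

theorem thm_INC : St_INC := by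
  intro k _ σ s
  refine ⟨⟨fun {S} _ _ p => ⟨fun i => -p.1.2 0 (Co.c i), ?_, ?_, ?_⟩, fun {S} _ _ z =>
    ⟨(inc_V s z.1, inc_W z.1), ?_⟩, ?_, ?_, ?_⟩⟩
  · change -p.1.2 0 (Co.c s.o) = 1
    rw [inc_o (inc_of s p), neg_neg]
  · intro a b c h
    obtain ⟨-, -, h1, h2⟩ := inc_R (inc_of s p) h
    exact h2.symm.trans h1
  · intro a b c h
    obtain ⟨-, -, h1, h2⟩ := inc_R' (inc_of s p) h
    exact h2.symm.trans h1
  · have h := inc_mk (s := s) z.2.1 z.2.2.1 z.2.2.2
    refine ⟨⟨h.pv, h.pw⟩, ⟨h.nv, h.ne, h.nw⟩, fun a c hac => ?_⟩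
    change (inc_V s z.1 * inc_W z.1) a c = 0
    rw [inc_mul]
    exact h.inc a c hac
  · intro S _ _ p
    exact Subtype.ext (Prod.ext (inc_eqV (inc_of s p)) (inc_eqW (inc_of s p)))
  · intro S _ _ z
    exact Subtype.ext (funext fun i => neg_neg _)
  · intro S S' _ _ _ _ f p
    exact Subtype.ext (funext fun i => (map_neg f _).symm)

end Pool.Agent.KGR
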