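import Pool.Agent.KGR.StF

/-!
# KGR, LAU: `K'_M (R)` from `K'_(M+1) (R[X, 1/X])`
-/

set_option autoImplicit false

noncomputable section

namespace Pool.Agent.KGR

open CategoryTheory AlgebraicGeometry Function Pool.Agent.KQ Pool.Agent.KQG Pool.Agent.KTX
open Pool.Agent.KPR Pool.Agent.GTH Pool.Agent.KGT

/-- **LAU.** One degree less. -/
theorem thm_LAU : St_LAU := by
  intro h 𝒮 h𝒮 R _ _ M hM
  obtain ⟨L, G, e1, e2, -⟩ := real h
  have key : ∀ (n : ℕ) (A : Type) [CommRing A], 𝒮 (G.T n A) ↔ 𝒮 (KX n (Sp A)) := fun n A _ => by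
    obtain ⟨b⟩ := e2 n A
    obtain ⟨c⟩ := e1 n (Sp A)
    exact serre_iff h𝒮 (b.trans c)
  have hN : IsNoetherianRing (Localization.Away (Polynomial.X : Polynomial R)) :=
    noeth_away (Polynomial.X : Polynomial R)
  have h1 := (key (M + 1) (Localization.Away (Polynomial.X : Polynomial R))).2 hM
  rw [Nat.cast_succ] at h1
  exact (key M R).1 (SFG.of_lau_succ h𝒮 SFG.isLau_std M (WithTop.coe_lt_top _) h1)

end Pool.Agent.KGR
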