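import Pool.Agent.KGR.St

/-!
# KGR: LD, prescribed diagonal entries
-/

set_option autoImplicit false

noncomputable section

namespace Pool.Agent.KGR

open Function Matrix

variable {k : Type} [CommRing k]

/-- the inverse isomorphism -/
def ld_symm {F F' : Fn k} (e : F.Iso F') : F'.Iso F where
  fwd x := e.inv x
  inv x := e.fwd x
  left x := e.right x
  right x := e.left x
  nat f x := by
    have h1 := e.nat f (e.inv x)
    rw [e.right] at h1
    rw [← h1, e.left]

/-- the functions `g` on the zeros of `s` -/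
def ld_res {F : Fn k} {J : Type} (g : J → F.Fu) (s : F.Fu) (j : J) : (F.zer s).Fu where
  app p := (g j).app p.1
  nat f p := (g j).nat f p.1

/-- the function `s` on `Phi F g m` -/
def ld_fst (F : Fn k) {J : Type} [Fintype J] [DecidableEq J] (g : J → F.Fu) (m : Type) [Fintype m]
    [DecidableEq m] (s : F.Fu) : (Phi F g m).Fu where
  app p := s.app p.1.1
  nat f p := s.nat f p.1.1

/-- the zeros of `s` in `Phi` -/
def ld_phi (F : Fn k) {J J' : Type} [Fintype J'] [DecidableEq J'] (g : J → F.Fu) (e : J' → J) (m : Type)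
    [Fintype m] [DecidableEq m] (s : F.Fu) :
    ((Phi F (fun j => g (e j)) m).zer (ld_fst F (fun j => g (e j)) m s)).Iso
      (Phi (F.zer s) (fun j => ld_res g s (e j)) m) where
  fwd p := ⟨(⟨p.1.1.1, p.2⟩, p.1.1.2), p.1.2⟩
  inv p := ⟨⟨(p.1.1.1, p.1.2), p.2⟩, p.1.1.2⟩
  left _ := rfl
  right _ := rfl
  nat _ _ := rfl

/-- the points with `g_j x = 0` for `j` in `l` -/
def ld_sub (F : Fn k) {J : Type} (g : J → F.Fu) (l : List J) : Fn k :=
  F.sub (fun x => ∀ j ∈ l, (g j).app x = 0) fun f x h j hj => by rw [(g j).nat, h j hj, map_zero]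

def ld_nil (F : Fn k) {J : Type} (g : J → F.Fu) : F.Iso (ld_sub F g []) where
  fwd x := ⟨x, fun _ hj => absurd hj List.not_mem_nil⟩
  inv x := x.1
  left _ := rfl
  right _ := rfl
  nat _ _ := rfl

def ld_cons (F : Fn k) {J : Type} (g : J → F.Fu) (j₀ : J) (l : List J) :
    (ld_sub (F.zer (g j₀)) (ld_res g (g j₀)) l).Iso (ld_sub F g (j₀ :: l)) where
  fwd x := ⟨x.1.1, fun j hj => by
    rcases List.mem_cons.1 hj with rfl | hj
    · exact x.1.2
    · exact x.2 j hj⟩
  inv x := ⟨⟨x.1, x.2 j₀ List.mem_cons_self⟩, fun j hj => x.2 j (List.mem_cons_of_mem _ hj)⟩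
  left _ := rfl
  right _ := rfl
  nat _ _ := rfl

def ld_zers (F : Fn k) {J : Type} (g : J → F.Fu) (l : List J) (hl : ∀ j, j ∈ l) :
    (ld_sub F g l).Iso (F.zers g) where
  fwd x := ⟨x.1, fun j => x.2 j (hl j)⟩
  inv x := ⟨x.1, fun j _ => x.2 j⟩
  left _ := rfl
  right _ := rfl
  nat _ _ := rfl

/-- the empty matrix -/
def ld_empty (F : Fn k) (g : PEmpty.{1} → F.Fu) : (Phi F g PEmpty.{1}).Iso F where
  fwd p := p.1.1
  inv x := ⟨(x, of fun i _ => i.elim PEmpty.elim PEmpty.elim), fun j => j.elim, by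
    rw [det_isEmpty]
    exact isUnit_one⟩
  left p := by
    refine Subtype.ext (Prod.ext rfl ?_)
    funext i
    exact i.elim (fun x => x.elim) fun x => x.elim
  right _ := rfl
  nat _ _ := rfl

/-- the hypothesis -/
def ld_H (G : (R : Type) → [CommRing R] → Prop) (F : Fn k) {J : Type} (g : J → F.Fu) : Prop :=
  ∀ (J' : Type) [Fintype J'] [DecidableEq J'] (e : J' → J) (m : Type) [Fintype m]
      [DecidableEq m], (Phi F (fun j => g (e j)) m).Good G

/-- the step -/
theorem ld_step (hFNB : St_FNB) (hBOR : St_BOR) (hPEEL : St_PEEL)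
    (G : (R : Type) → [CommRing R] → Prop) (hG : ClsQ G) (F : Fn k) {J : Type} (g : J → F.Fu)
    (j₀ : J) (h : ld_H G F g) : ld_H G (F.zer (g j₀)) (ld_res g (g j₀)) := by
  intro J' _ _ e m _ _
  obtain ⟨f1, f2, f3, f4, f5, -⟩ := hFNB k G hG
  have hA : (Phi F (fun j => g (e j)) m).Good G := h J' e m
  obtain ⟨X, Y, s, s', β, ⟨i1⟩, ⟨i2⟩, ⟨i3⟩, ⟨i4⟩, ⟨i5⟩, ⟨i6⟩⟩ :=
    hBOR k F J' (fun j => g (e j)) (g j₀) m
  have hX : X.Good G := f1 _ _ (ld_symm i1) (h J' e (Option m))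
  have hY : Y.Good G := by
    refine f1 _ _ (ld_symm i2) ?_
    have h1 := h (Option J') (fun j => j.elim j₀ e) m
    have e1 : (fun j : Option J' => g (j.elim j₀ e)) =
        fun j : Option J' => j.elim (g j₀) fun j => g (e j) := by
      funext j
      cases j <;> rfl
    rw [e1] at h1
    exact h1
  have hAa : ((Phi F (fun j => g (e j)) m).aff ((J' ⊕ m) ⊕ (J' ⊕ m))).Good G := (f4 _ _).2 hA
  have hXu : (X.unt s).Good G := f1 _ _ (ld_symm i3) ((f5 _ _).2 hAa)
  have hXz : (X.zer s).Good G := f2 X s hX hXu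
  have hβ : β.Good G := (f4 β Unit).1 (f1 _ _ i5 hXz)
  have hYz : (Y.zer s').Good G := f1 _ _ (ld_symm i6) hβ
  have hYu : (Y.unt s').Good G := f3 Y s' hY hYz
  have hAu := f1 _ _ i4 hYu
  have hAz := f2 _ _ hAa hAu
  have hz := hPEEL k G hG _ _ (J' ⊕ m) hA hAz
  exact f1 _ _ (ld_phi F g e m (g j₀)) hz

theorem ld_list (hFNB : St_FNB) (hBOR : St_BOR) (hPEEL : St_PEEL)
    (G : (R : Type) → [CommRing R] → Prop) (hG : ClsQ G) {J : Type} (l : List J) :
    ∀ (F : Fn k) (g : J → F.Fu), ld_H G F g → (ld_sub F g l).Good G := by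
  obtain ⟨f1, -⟩ := hFNB k G hG
  induction l with
  | nil =>
    intro F g h
    refine f1 _ _ (ld_nil F g) ?_
    exact f1 _ _ (ld_empty F _) (h PEmpty.{1} (fun j => j.elim) PEmpty.{1})
  | cons j₀ l ih =>
    intro F g h
    exact f1 _ _ (ld_cons F g j₀ l) (ih _ _ (ld_step hFNB hBOR hPEEL G hG F g j₀ h))

/-- **LD** -/
theorem thm_LD (hFNB : St_FNB) (hBOR : St_BOR) (hPEEL : St_PEEL) : St_LD := by
  intro k _ G hG F J _ g h
  have : Fintype J := Fintype.ofFinite J
  obtain ⟨f1, -⟩ := hFNB k G hG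
  refine f1 _ _ (ld_zers F g Finset.univ.toList fun j => Finset.mem_toList.2 (Finset.mem_univ j)) ?_
  exact ld_list hFNB hBOR hPEEL G hG _ F g h

end Pool.Agent.KGR
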