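import Pool.Agent.KGR.St3

/-!
# KGR [MTB]: the determinants of trees (helper67)
-/

set_option autoImplicit false

noncomputable section

namespace Pool.Agent.KGR

open Function Matrix

/-- the graph of a set of edges -/
private abbrev mtb_G {n : ℕ} {Γ : SimpleGraph (Fin (n + 1))} (T : Finset Γ.edgeSet) :
    SimpleGraph (Fin (n + 1)) :=
  SimpleGraph.fromEdgeSet (T.map (Embedding.subtype _) : Set (Sym2 (Fin (n + 1))))

private lemma mtb_mem {n : ℕ} {Γ : SimpleGraph (Fin (n + 1))} (T : Finset Γ.edgeSet) :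
    T ∈ trees Γ ↔ (mtb_G T).IsTree := by
  classical
  unfold trees
  simp only [Finset.mem_filter, Finset.mem_univ, true_and]

private lemma mtb_card {n : ℕ} {Γ : SimpleGraph (Fin (n + 1))} (T : Finset Γ.edgeSet) :
    Nat.card (mtb_G T).edgeSet = T.card := by
  have h1 : (mtb_G T).edgeSet = ((T.map (Embedding.subtype _) : Finset (Sym2 (Fin (n + 1)))) :
      Set (Sym2 (Fin (n + 1)))) := by
    rw [mtb_G, SimpleGraph.edgeSet_fromEdgeSet]
    refine sdiff_eq_left.2 ?_
    rw [Set.disjoint_left]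
    intro e he hd
    rw [Finset.mem_coe, Finset.mem_map] at he
    obtain ⟨f, _, rfl⟩ := he
    exact Γ.not_isDiag_of_mem_edgeSet f.2 hd
  rw [h1, Nat.card_coe_set_eq, Set.ncard_coe_finset, Finset.card_map]

private lemma mtb_adj {n : ℕ} {Γ : SimpleGraph (Fin (n + 1))} (T : Finset Γ.edgeSet)
    (u w : Fin (n + 1)) : (mtb_G T).Adj u w ↔ ∃ e ∈ T, e.1 = s(u, w) := by
  rw [SimpleGraph.fromEdgeSet_adj, Finset.mem_coe, Finset.mem_map]
  constructor
  · rintro ⟨⟨e, he, h⟩, _⟩
    exact ⟨e, he, h⟩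
  · rintro ⟨e, he, h⟩
    refine ⟨⟨e, he, h⟩, ?_⟩
    intro h2
    have h3 := Γ.not_isDiag_of_mem_edgeSet e.2
    rw [h, h2] at h3
    exact h3 (Sym2.mk_isDiag_iff.2 rfl)

/-- the ends of an edge -/
private lemma mtb_ends {n : ℕ} {Γ : SimpleGraph (Fin (n + 1))} {T : Finset Γ.edgeSet}
    {e : Γ.edgeSet} (he : e ∈ T) : (mtb_G T).Adj e.1.sup e.1.inf := by
  rw [mtb_adj]
  refine ⟨e, he, ?_⟩
  obtain ⟨z, hz⟩ := e
  induction z using Sym2.ind with
  | _ u w =>
    show s(u, w) = s((s(u, w)).sup, (s(u, w)).inf)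
    rw [Sym2.sup_mk, Sym2.inf_mk]
    rcases le_total u w with h | h
    · rw [sup_of_le_right h, inf_of_le_left h, Sym2.eq_swap]
    · rw [sup_of_le_left h, inf_of_le_right h]

/-- the extension of a vector by zero -/
private def mtb_z {n : ℕ} (z : Fin n → ℤ) : Fin (n + 1) → ℤ := Fin.cases 0 z

private lemma mtb_mulVec {n : ℕ} {Γ : SimpleGraph (Fin (n + 1))} (z : Fin n → ℤ)
    (e : Γ.edgeSet) : (inc ℤ (ga Γ) (gb Γ) *ᵥ z) e = mtb_z z e.1.sup - mtb_z z e.1.inf := by
  have h1 : ∀ u : Fin (n + 1), ∑ j, (if op u = some j then (1 : ℤ) else 0) * z j = mtb_z z u := by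
    intro u
    induction u using Fin.cases with
    | zero =>
      show ∑ j, (if (none : Option (Fin n)) = some j then (1 : ℤ) else 0) * z j = 0
      simp
    | succ i =>
      show ∑ j, (if (some i : Option (Fin n)) = some j then (1 : ℤ) else 0) * z j = z i
      simp
  rw [Matrix.mulVec, dotProduct, ← h1, ← h1, ← Finset.sum_sub_distrib]
  refine Finset.sum_congr rfl fun j _ => ?_
  rw [← sub_mul]
  rfl

/-- the unit vector of a vertex -/
private def mtb_x {n : ℕ} (u : Fin (n + 1)) : Fin n → ℤ := fun j => if op u = some j then 1 else 0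

private lemma mtb_row {n : ℕ} {Γ : SimpleGraph (Fin (n + 1))} (e : Γ.edgeSet) :
    inc ℤ (ga Γ) (gb Γ) e = mtb_x e.1.sup - mtb_x e.1.inf := rfl

private lemma mtb_reach {n : ℕ} {Γ : SimpleGraph (Fin (n + 1))} [Fintype Γ.edgeSet]
    (T : Finset Γ.edgeSet) {u w : Fin (n + 1)} (p : (mtb_G T).Walk u w) :
    ∃ p : Γ.edgeSet → ℤ, (∀ e, e ∉ T → p e = 0) ∧
      p ᵥ* inc ℤ (ga Γ) (gb Γ) = mtb_x u - mtb_x w := by
  classical
  induction p with
  | nil =>
    refine ⟨0, fun _ _ => rfl, ?_⟩
    rw [Matrix.zero_vecMul, sub_self]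
  | @cons u v w huv _ ih =>
    obtain ⟨p, hp, h1⟩ := ih
    obtain ⟨e, he, h2⟩ := (mtb_adj T u v).1 huv
    have h3 : ∃ r : ℤ, r • inc ℤ (ga Γ) (gb Γ) e = mtb_x u - mtb_x v := by
      rw [mtb_row, h2, Sym2.sup_mk, Sym2.inf_mk]
      rcases le_total u v with h | h
      · refine ⟨-1, ?_⟩
        rw [sup_of_le_right h, inf_of_le_left h]
        module
      · refine ⟨1, ?_⟩
        rw [sup_of_le_left h, inf_of_le_right h]
        module
    obtain ⟨r, hr⟩ := h3
    refine ⟨p + Pi.single e r, ?_, ?_⟩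
    · intro f hf
      have h4 : f ≠ e := fun h => hf (h ▸ he)
      rw [Pi.add_apply, hp f hf, Pi.single_eq_of_ne h4, add_zero]
    · have h5 : r • (inc ℤ (ga Γ) (gb Γ)).row e = mtb_x u - mtb_x v := hr
      rw [Matrix.add_vecMul, h1, Matrix.single_vecMul, h5]
      abel

private lemma mtb_sub {n : ℕ} {Γ : SimpleGraph (Fin (n + 1))} [Fintype Γ.edgeSet]
    [DecidableEq Γ.edgeSet] (T : Finset Γ.edgeSet) (σ : T ≃ Fin n) :
    lpm (ga Γ) (gb Γ) (fun e => if e ∈ T then (1 : ℤ) else 0) =
      ((inc ℤ (ga Γ) (gb Γ)).submatrix (fun i => (σ.symm i).1) id)ᵀ *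
        (inc ℤ (ga Γ) (gb Γ)).submatrix (fun i => (σ.symm i).1) id := by
  ext v w
  rw [lpm, Matrix.mul_apply, Matrix.mul_apply]
  simp only [Matrix.mul_diagonal, Matrix.transpose_apply, Matrix.submatrix_apply, id_eq, mul_ite,
    mul_one, mul_zero, ite_mul, zero_mul]
  rw [Finset.sum_ite_mem, Finset.univ_inter, ← Finset.sum_coe_sort T]
  exact (Equiv.sum_comp σ.symm fun e : T => inc ℤ (ga Γ) (gb Γ) e.1 v * inc ℤ (ga Γ) (gb Γ) e.1 w).symm

/-- over the integers -/
private lemma mtb_int {n : ℕ} {Γ : SimpleGraph (Fin (n + 1))} [Fintype Γ.edgeSet]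
    [DecidableEq Γ.edgeSet] (T : Finset Γ.edgeSet) (hT : T.card = n) :
    (T ∈ trees Γ → (lpm (ga Γ) (gb Γ) fun e => if e ∈ T then (1 : ℤ) else 0).det = 1) ∧
    (T ∉ trees Γ → (lpm (ga Γ) (gb Γ) fun e => if e ∈ T then (1 : ℤ) else 0).det = 0) := by
  classical
  constructor
  · intro h
    have hc : (mtb_G T).Connected := ((mtb_mem T).1 h).1
    have σ : T ≃ Fin n := Finset.equivFinOfCardEq hT
    rw [mtb_sub T σ, Matrix.det_mul, Matrix.det_transpose]
    have h1 : ∀ i : Fin n, ∃ p : Γ.edgeSet → ℤ, (∀ e, e ∉ T → p e = 0) ∧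
        p ᵥ* inc ℤ (ga Γ) (gb Γ) = mtb_x i.succ - mtb_x 0 := fun i => by
      obtain ⟨q⟩ := hc.preconnected i.succ 0
      exact mtb_reach T q
    choose P hP1 hP2 using h1
    have h2 : (Matrix.of fun i j => P i (σ.symm j).1) *
        (inc ℤ (ga Γ) (gb Γ)).submatrix (fun i => (σ.symm i).1) id = 1 := by
      ext i v
      have h3 := congrFun (hP2 i) v
      have h4 : (mtb_x i.succ - mtb_x (0 : Fin (n + 1))) v = (1 : Matrix (Fin n) (Fin n) ℤ) i v := by
        show (if (some i : Option (Fin n)) = some v then (1 : ℤ) else 0) -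
          (if (none : Option (Fin n)) = some v then (1 : ℤ) else 0) = _
        rw [Matrix.one_apply, if_neg (by simp : ¬ (none : Option (Fin n)) = some v), sub_zero]
        simp only [Option.some.injEq]
      rw [h4] at h3
      rw [← h3, Matrix.mul_apply, Matrix.vecMul, dotProduct]
      simp only [Matrix.of_apply, Matrix.submatrix_apply, id_eq]
      rw [Equiv.sum_comp σ.symm fun e : T => P i e.1 * inc ℤ (ga Γ) (gb Γ) e.1 v,
        Finset.sum_coe_sort T fun e => P i e * inc ℤ (ga Γ) (gb Γ) e v]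
      refine Finset.sum_subset (Finset.subset_univ _) fun e _ he => ?_
      rw [hP1 i e he, zero_mul]
    have h5 := congrArg Matrix.det h2
    rw [Matrix.det_mul, Matrix.det_one] at h5
    rcases Int.isUnit_iff.1 (IsUnit.of_mul_eq_one_right _ h5) with h6 | h6
    · rw [h6, one_mul]
    · rw [h6]; norm_num
  · intro h
    rw [mtb_mem, SimpleGraph.isTree_iff_connected_and_card, mtb_card, hT, Nat.card_eq_fintype_card,
      Fintype.card_fin, and_iff_left rfl, SimpleGraph.connected_iff_exists_forall_reachable] at h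
    push Not at h
    obtain ⟨u, hu⟩ := h 0
    rw [← Matrix.exists_mulVec_eq_zero_iff]
    refine ⟨fun j => if (mtb_G T).Reachable 0 j.succ then 0 else 1, ?_, ?_⟩
    · intro h0
      induction u using Fin.cases with
      | zero => exact hu (SimpleGraph.Reachable.refl _)
      | succ j =>
        have h1 := congrFun h0 j
        simp only [Pi.zero_apply, hu, if_false] at h1
        exact one_ne_zero h1
    · have hz : ∀ w : Fin (n + 1), mtb_z (fun j : Fin n =>
          if (mtb_G T).Reachable 0 j.succ then (0 : ℤ) else 1) w =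
          if (mtb_G T).Reachable 0 w then 0 else 1 := by
        intro w
        induction w using Fin.cases with
        | zero => rw [if_pos (SimpleGraph.Reachable.refl _)]; rfl
        | succ j => rfl
      rw [lpm, ← Matrix.mulVec_mulVec, ← Matrix.mulVec_mulVec]
      have h1 : (diagonal fun e : Γ.edgeSet => if e ∈ T then (1 : ℤ) else 0) *ᵥ
          (inc ℤ (ga Γ) (gb Γ) *ᵥ fun j : Fin n =>
            if (mtb_G T).Reachable 0 j.succ then (0 : ℤ) else 1) = 0 := by
        funext e
        rw [Matrix.mulVec_diagonal, Pi.zero_apply]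
        by_cases he : e ∈ T
        · rw [mtb_mulVec, hz, hz]
          have h2 := mtb_ends he
          have h3 : (mtb_G T).Reachable 0 e.1.sup ↔ (mtb_G T).Reachable 0 e.1.inf :=
            ⟨fun h => h.trans h2.reachable, fun h => h.trans h2.symm.reachable⟩
          rw [if_congr h3 rfl rfl, sub_self, mul_zero]
        · rw [if_neg he, zero_mul]
      rw [h1, Matrix.mulVec_zero]

theorem thm_MTB : St_MTB := by
  intro n Γ _ _ T
  constructor
  · intro h
    have h1 := ((mtb_mem T).1 h)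
    rw [SimpleGraph.isTree_iff_connected_and_card, mtb_card, Nat.card_eq_fintype_card,
      Fintype.card_fin] at h1
    omega
  · intro k _ hT
    have h0 : (lpm (ga Γ) (gb Γ) fun e => if e ∈ T then (1 : k) else 0).det =
        Int.castRingHom k (lpm (ga Γ) (gb Γ) fun e => if e ∈ T then (1 : ℤ) else 0).det := by
      rw [RingHom.map_det, RingHom.mapMatrix_apply, lpm_map]
      congr 2
      funext e
      rw [apply_ite (Int.castRingHom k), map_one, map_zero]
    obtain ⟨h1, h2⟩ := mtb_int T hT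
    constructor
    · intro h
      rw [h0, h1 h, map_one]
    · intro h
      rw [h0, h2 h, map_zero]

end Pool.Agent.KGR
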