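import Pool.Agent.KGR.St3

/-!
# KGR / MTC: the matrix-tree theorem (module by helper13)
-/

set_option autoImplicit false

noncomputable section

namespace Pool.Agent.KGR

open Function Matrix

/-- the determinant of the Laplacian matrix of the variables -/
theorem mtc_gen (hA : St_MTA) (hB : St_MTB) (k : Type) [CommRing k] (n : ℕ)
    (Γ : SimpleGraph (Fin (n + 1))) [Fintype Γ.edgeSet] [DecidableEq Γ.edgeSet] :
    (lpm (ga Γ) (gb Γ) (MvPolynomial.X : Γ.edgeSet → MvPolynomial Γ.edgeSet k)).det =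
      ∑ T ∈ trees Γ, ∏ e ∈ T, MvPolynomial.X e := by
  classical
  rw [hA k Γ.edgeSet (Fin n) (ga Γ) (gb Γ)]
  rw [← Finset.sum_filter_add_sum_filter_not Finset.univ (fun T => T ∈ trees Γ)]
  have h0 : ∑ T ∈ Finset.univ.filter (fun T : Finset Γ.edgeSet => ¬ T ∈ trees Γ),
      (if T.card = Fintype.card (Fin n) then
        MvPolynomial.C (lpm (ga Γ) (gb Γ) fun e => if e ∈ T then (1 : k) else 0).det *
          ∏ e ∈ T, (MvPolynomial.X e : MvPolynomial Γ.edgeSet k) else 0) = 0 := by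
    refine Finset.sum_eq_zero fun T hT => ?_
    have hT' := (Finset.mem_filter.1 hT).2
    split_ifs with hc
    · rw [Fintype.card_fin] at hc
      rw [((hB n Γ T).2 k hc).2 hT', map_zero, zero_mul]
    · rfl
  rw [h0, add_zero]
  have h1 : Finset.univ.filter (fun T : Finset Γ.edgeSet => T ∈ trees Γ) = trees Γ := by
    ext T
    simp only [Finset.mem_filter, Finset.mem_univ, true_and]
  rw [h1]
  refine Finset.sum_congr rfl fun T hT => ?_
  have hc := (hB n Γ T).1 hT
  rw [if_pos (by rw [Fintype.card_fin]; exact hc), ((hB n Γ T).2 k hc).1 hT, map_one, one_mul]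

/-- the determinant of the Laplacian matrix for arbitrary weights -/
theorem mtc_val (hA : St_MTA) (hB : St_MTB) (n : ℕ) (Γ : SimpleGraph (Fin (n + 1)))
    [Fintype Γ.edgeSet] [DecidableEq Γ.edgeSet] (K : Type) [CommRing K] (x : Γ.edgeSet → K) :
    (lpm (ga Γ) (gb Γ) x).det = ∑ T ∈ trees Γ, ∏ e ∈ T, x e := by
  have h := congrArg (MvPolynomial.eval x) (mtc_gen hA hB K n Γ)
  rw [RingHom.map_det] at h
  have h1 : (MvPolynomial.eval x).mapMatrix
      (lpm (ga Γ) (gb Γ) (MvPolynomial.X : Γ.edgeSet → MvPolynomial Γ.edgeSet K)) =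
      lpm (ga Γ) (gb Γ) x := by
    have h2 := lpm_map (ga Γ) (gb Γ) (MvPolynomial.eval x)
      (MvPolynomial.X : Γ.edgeSet → MvPolynomial Γ.edgeSet K)
    refine h2.trans ?_
    congr 1
    funext e
    exact MvPolynomial.eval_X e
  rw [h1, map_sum] at h
  rw [h]
  refine Finset.sum_congr rfl fun T _ => ?_
  rw [map_prod]
  exact Finset.prod_congr rfl fun e _ => MvPolynomial.eval_X e

/-- the determinant of the graph matrix for nonzero weights in a field -/
theorem mtc_fld (hA : St_MTA) (hB : St_MTB) (n : ℕ) (Γ : SimpleGraph (Fin (n + 1)))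
    [Fintype Γ.edgeSet] [DecidableEq Γ.edgeSet] (K : Type) [Field K] (y : Γ.edgeSet → K)
    (hy : ∀ e, y e ≠ 0) :
    (grm (ga Γ) (gb Γ) y).det = ∑ T ∈ trees Γ, ∏ e ∈ Tᶜ, y e := by
  have hinv : diagonal (fun e => (y e)⁻¹) * diagonal y = (1 : Matrix Γ.edgeSet Γ.edgeSet K) := by
    rw [diagonal_mul_diagonal, ← diagonal_one]
    congr 1
    funext e
    exact inv_mul_cancel₀ (hy e)
  have hinv' : diagonal y * diagonal (fun e => (y e)⁻¹) = (1 : Matrix Γ.edgeSet Γ.edgeSet K) := by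
    rw [diagonal_mul_diagonal, ← diagonal_one]
    congr 1
    funext e
    exact mul_inv_cancel₀ (hy e)
  let _ : Invertible (diagonal y) := ⟨diagonal (fun e => (y e)⁻¹), hinv, hinv'⟩
  have h1 : (grm (ga Γ) (gb Γ) y).det = (diagonal y).det *
      (lpm (ga Γ) (gb Γ) fun e => (y e)⁻¹).det := by
    unfold grm lpm
    rw [det_fromBlocks₁₁]
    congr 2
    have h2 : ⅟(diagonal y) = diagonal (fun e => (y e)⁻¹) := rfl
    rw [h2, zero_sub, Matrix.neg_mul, Matrix.neg_mul, neg_neg]
  rw [h1, mtc_val hA hB, det_diagonal, Finset.mul_sum]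
  refine Finset.sum_congr rfl fun T _ => ?_
  rw [← Finset.prod_mul_prod_compl T y, mul_right_comm, ← Finset.prod_mul_distrib,
    Finset.prod_congr rfl (fun e _ => mul_inv_cancel₀ (hy e)), Finset.prod_const_one, one_mul]

/-- the determinant of the graph matrix of the variables -/
theorem mtc_grm (hA : St_MTA) (hB : St_MTB) (k : Type) [CommRing k] [IsDomain k] (n : ℕ)
    (Γ : SimpleGraph (Fin (n + 1))) [Fintype Γ.edgeSet] [DecidableEq Γ.edgeSet] :
    (grm (ga Γ) (gb Γ) (MvPolynomial.X : Γ.edgeSet → MvPolynomial Γ.edgeSet k)).det =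
      ∑ T ∈ trees Γ, ∏ e ∈ Tᶜ, MvPolynomial.X e := by
  have hinj : Injective (algebraMap (MvPolynomial Γ.edgeSet k)
      (FractionRing (MvPolynomial Γ.edgeSet k))) :=
    IsFractionRing.injective _ _
  apply hinj
  rw [RingHom.map_det]
  have h2 : (algebraMap (MvPolynomial Γ.edgeSet k)
      (FractionRing (MvPolynomial Γ.edgeSet k))).mapMatrix
        (grm (ga Γ) (gb Γ) (MvPolynomial.X : Γ.edgeSet → MvPolynomial Γ.edgeSet k)) =
      grm (ga Γ) (gb Γ) fun e => algebraMap (MvPolynomial Γ.edgeSet k)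
        (FractionRing (MvPolynomial Γ.edgeSet k)) (MvPolynomial.X e) :=
    grm_map (ga Γ) (gb Γ) _ _
  rw [h2, mtc_fld hA hB n Γ _ _ (fun e h => ?_), map_sum]
  · refine Finset.sum_congr rfl fun T _ => ?_
    rw [map_prod]
  · rw [map_eq_zero_iff _ hinj] at h
    exact MvPolynomial.X_ne_zero e h

theorem thm_MTC (h : St_REP) (hA : St_MTA) (hB : St_MTB) : St_MTC := by
  classical
  intro k _ _ n Γ
  refine ⟨?_, ?_⟩
  · rw [← (h k).2 n Γ, mtc_gen hA hB k n Γ]
    rfl
  · have h1 := mtc_grm hA hB k n Γ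
    unfold gdet gmat smz
    convert h1
end Pool.Agent.KGR
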