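import Pool.Agent.KGR.St3

/-!
# KGR: representable by noetherian rings; one more closure property (helper81)
-/

set_option autoImplicit false

noncomputable section

namespace Pool.Agent.KGR

open Function Matrix

section

variable {k : Type} [CommRing k] {G : (R : Type) → [CommRing R] → Prop}

theorem noe_uniq (hA : St_FNA) (hG : ClsQ G) {F : Fn k} (hF : F.Good G) (R : Type) [CommRing R]
    [Algebra k R] [IsNoetherianRing R] (u : F.obj R) (hu : F.Rep R u) : G R := by
  obtain ⟨R0, _, _, u0, hN, h0, hG0⟩ := hF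
  obtain ⟨e⟩ := (hA k).1 F R0 R u0 u h0 hu
  exact hG.iso R0 R e.toRingEquiv hG0

theorem noe_iso (hA : St_FNA) {F F' : Fn k} (e : F.Iso F') (hF : F.Noe) : F'.Noe := by
  obtain ⟨R0, _, _, u0, hN, h0, hG0⟩ := hF
  obtain ⟨u, hu⟩ := (hA k).2.1 F F' e R0 u0 h0
  exact ⟨R0, _, _, u, hN, hu, hG0⟩

theorem noe_unt (hA : St_FNA) (F : Fn k) (s : F.Fu) (hF : F.Noe) : (F.unt s).Noe := by
  obtain ⟨R, _, _, u, hN, hu, -⟩ := hF
  obtain ⟨u1, h1⟩ := (hA k).2.2.2.1 F s R u hu
  have hNL : IsNoetherianRing (Localization.Away (s.app u)) :=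
    IsLocalization.isNoetherianRing (Submonoid.powers (s.app u)) _ hN
  exact ⟨_, _, _, u1, hNL, h1, trivial⟩

theorem noe_two (hA : St_FNA) (hG : ClsQ G) (hE : ExtQ G) (F : Fn k) (s : F.Fu) (hF : F.Noe)
    (h : (F.unt s).Good G) (h' : (F.zer s).Good G) : F.Good G := by
  obtain ⟨R, _, _, u, hN, hu, -⟩ := hF
  obtain ⟨u1, h1⟩ := (hA k).2.2.2.1 F s R u hu
  obtain ⟨u2, h2⟩ := (hA k).2.2.1 F s R u hu
  have hNL : IsNoetherianRing (Localization.Away (s.app u)) :=
    IsLocalization.isNoetherianRing (Submonoid.powers (s.app u)) _ hN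
  have hV : G (Localization.Away (s.app u)) := noe_uniq hA hG h _ u1 h1
  have hQ : G (R ⧸ Ideal.span {s.app u}) := noe_uniq hA hG h' _ u2 h2
  exact ⟨R, _, _, u, hN, hu, hE R (Localization.Away (s.app u)) (s.app u) hQ hV⟩

theorem noe_kir (hREP : St_REP) (hDEL : St_DEL) (hA : St_FNA) [IsNoetherianRing k] (ι V : Type)
    [Fintype ι] [DecidableEq ι] [Fintype V] [DecidableEq V] (a b : ι → Option V) (s : Finset ι) :
    (KirF k a b fun e => e ∈ s).Noe := by
  induction s using Finset.induction_on with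
  | empty =>
    have h1 : (fun e : ι => e ∈ (∅ : Finset ι)) = fun _ => False := by
      funext e
      simp
    rw [h1]
    obtain ⟨u, hu⟩ := ((hREP k).1 ι V a b).1
    have hNL : IsNoetherianRing
        (Localization.Away (lpm a b (MvPolynomial.X : ι → MvPolynomial ι k)).det) :=
      IsLocalization.isNoetherianRing
        (Submonoid.powers (lpm a b (MvPolynomial.X : ι → MvPolynomial ι k)).det) _ inferInstance
    exact ⟨_, _, _, u, hNL, hu, trivial⟩
  | insert e s he ih =>
    have h1 : (fun f : ι => f ∈ insert e s) = fun f => f ∈ s ∨ f = e := by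
      funext f
      rw [Finset.mem_insert, or_comm]
    rw [h1]
    obtain ⟨i⟩ := (hDEL k ι V a b (fun f => f ∈ s) e).1
    exact noe_iso hA i (noe_unt hA _ _ ih)

end

theorem thm_NOE (hREP : St_REP) (hDEL : St_DEL) (hA : St_FNA) : St_NOE := by
  constructor
  · intro k _ _ ι V _ _ _ _ a b U
    classical
    have h1 := noe_kir (k := k) hREP hDEL hA ι V a b (Finset.univ.filter U)
    have h2 : (fun e : ι => e ∈ Finset.univ.filter U) = U := by
      funext e
      simp
    rw [h2] at h1
    exact h1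
  · intro k _ G hG hE F s h h' h''
    exact noe_two hA hG hE F s h h' h''

end Pool.Agent.KGR
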