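import Pool.Agent.KGR.St

/-!
# KGR: hyperbolic quadrics (helper90)
-/

set_option autoImplicit false
set_option linter.unusedVariables false

noncomputable section

namespace Pool.Agent.KGR

open Function Matrix

variable {k : Type} [CommRing k]

/-- `∑ ρ_i c_i = g` -/
private abbrev peel_Q {F : Fn k} (g : F.Fu) (d : Type) [Fintype d] : Fn k :=
  (F.aff (d ⊕ d)).zer (hyp g d)

/-- the function `ρ_none` -/
private def peel_s {F : Fn k} (g : F.Fu) (d : Type) [Fintype d] : (peel_Q g (Option d)).Fu where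
  app y := y.1.2 (Sum.inl none)
  nat f y := rfl

private theorem peel_hyp {F : Fn k} (g : F.Fu) (d : Type) [Fintype d] {S : Type} [CommRing S]
    [Algebra k S] (x : (F.aff (d ⊕ d)).obj S) :
    (hyp g d).app x = 0 ↔ ∑ i, x.2 (Sum.inl i) * x.2 (Sum.inr i) = g.app x.1 := sub_eq_zero

/-- the empty case -/
private def peel_iso0 {F : Fn k} (g : F.Fu) : (peel_Q g PEmpty).Iso (F.zer g) where
  fwd x := ⟨x.1.1, by
    have h := (peel_hyp g PEmpty x.1).1 x.2
    exact h.symm.trans Finset.sum_empty⟩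
  inv x := ⟨(x.1, fun i => i.elim PEmpty.elim PEmpty.elim), by
    refine (peel_hyp g PEmpty _).2 ?_
    have h : g.app x.1 = 0 := x.2
    change ∑ i : PEmpty, _ = g.app x.1
    rw [h]
    exact Finset.sum_empty⟩
  left x := Subtype.ext (Prod.ext rfl (funext fun i => by rcases i with i | i <;> exact i.elim))
  right x := rfl
  nat f x := rfl

/-- reindexing -/
private def peel_iso1 {F : Fn k} (g : F.Fu) {d d' : Type} [Fintype d] [Fintype d'] (e : d ≃ d') :
    (peel_Q g d').Iso (peel_Q g d) where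
  fwd x := ⟨(x.1.1, fun i => x.1.2 (Sum.map e e i)), by
    refine (peel_hyp g d _).2 ?_
    rw [← (peel_hyp g d' x.1).1 x.2]
    exact Equiv.sum_comp e (fun i => x.1.2 (Sum.inl i) * x.1.2 (Sum.inr i))⟩
  inv x := ⟨(x.1.1, fun i => x.1.2 (Sum.map e.symm e.symm i)), by
    refine (peel_hyp g d' _).2 ?_
    rw [← (peel_hyp g d x.1).1 x.2]
    exact Equiv.sum_comp e.symm (fun i => x.1.2 (Sum.inl i) * x.1.2 (Sum.inr i))⟩
  left x := Subtype.ext (Prod.ext rfl (funext fun i => by
    change x.1.2 _ = x.1.2 _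
    rcases i with i | i <;> simp))
  right x := Subtype.ext (Prod.ext rfl (funext fun i => by
    change x.1.2 _ = x.1.2 _
    rcases i with i | i <;> simp))
  nat f x := rfl

/-- the zeros of `ρ_none` -/
private def peel_iso2 {F : Fn k} (g : F.Fu) (d : Type) [Fintype d] :
    ((peel_Q g (Option d)).zer (peel_s g d)).Iso ((peel_Q g d).aff Unit) where
  fwd x := (⟨(x.1.1.1, Sum.elim (fun i => x.1.1.2 (Sum.inl (some i)))
      fun i => x.1.1.2 (Sum.inr (some i))), by
    refine (peel_hyp g d _).2 ?_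
    have h := (peel_hyp g (Option d) x.1.1).1 x.1.2
    rw [Fintype.sum_option] at h
    have h1 : x.1.1.2 (Sum.inl none) = 0 := x.2
    rw [h1, zero_mul, zero_add] at h
    exact h⟩, fun _ => x.1.1.2 (Sum.inr none))
  inv x := ⟨⟨(x.1.1.1, Sum.elim (fun o => o.elim 0 fun i => x.1.1.2 (Sum.inl i))
      fun o => o.elim (x.2 ()) fun i => x.1.1.2 (Sum.inr i)), by
    refine (peel_hyp g (Option d) _).2 ?_
    rw [Fintype.sum_option]
    change 0 * _ + _ = _
    rw [zero_mul, zero_add]
    exact (peel_hyp g d x.1.1).1 x.1.2⟩, rfl⟩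
  left x := by
    refine Subtype.ext (Subtype.ext (Prod.ext rfl (funext fun i => ?_)))
    have h1 : x.1.1.2 (Sum.inl none) = 0 := x.2
    rcases i with (_ | i) | (_ | i)
    · exact h1.symm
    · rfl
    · rfl
    · rfl
  right x := by
    refine Prod.ext (Subtype.ext (Prod.ext rfl (funext fun i => ?_))) rfl
    rcases i with i | i <;> rfl
  nat f x := by
    refine Prod.ext (Subtype.ext (Prod.ext rfl (funext fun i => ?_))) rfl
    rcases i with i | i <;> rfl

/-- the part where `ρ_none` is invertible -/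
private def peel_iso3 {F : Fn k} (g : F.Fu) (d : Type) [Fintype d] :
    ((F.aff (d ⊕ d)).gm Unit).Iso ((peel_Q g (Option d)).unt (peel_s g d)) where
  fwd x := ⟨⟨(x.1.1, Sum.elim (fun o => o.elim (x.2 () : _) fun i => x.1.2 (Sum.inl i))
      fun o => o.elim (((x.2 ())⁻¹ : Units _) * (g.app x.1.1 -
        ∑ i, x.1.2 (Sum.inl i) * x.1.2 (Sum.inr i))) fun i => x.1.2 (Sum.inr i)), by
    refine (peel_hyp g (Option d) _).2 ?_
    rw [Fintype.sum_option]
    change (x.2 () : _) * ((((x.2 ())⁻¹ : Units _) : _) * (g.app x.1.1 -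
        ∑ i, x.1.2 (Sum.inl i) * x.1.2 (Sum.inr i))) + ∑ i, x.1.2 (Sum.inl i) * x.1.2 (Sum.inr i) = g.app x.1.1
    rw [Units.mul_inv_cancel_left]
    ring⟩, (x.2 ()).isUnit⟩
  inv x := ((x.1.1.1, Sum.elim (fun i => x.1.1.2 (Sum.inl (some i)))
      fun i => x.1.1.2 (Sum.inr (some i))), fun _ => IsUnit.unit x.2)
  left x := by
    refine Prod.ext (Prod.ext rfl (funext fun i => ?_)) (funext fun i => Units.ext rfl)
    rcases i with i | i <;> rfl
  right x := by
    refine Subtype.ext (Subtype.ext (Prod.ext rfl (funext fun i => ?_)))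
    rcases i with (_ | i) | (_ | i)
    · rfl
    · rfl
    · have h := (peel_hyp g (Option d) x.1.1).1 x.1.2
      rw [Fintype.sum_option] at h
      have hu : IsUnit (x.1.1.2 (Sum.inl none)) := x.2
      change (((IsUnit.unit hu)⁻¹ : Units _) : _) * (g.app x.1.1.1 -
        ∑ i, x.1.1.2 (Sum.inl (some i)) * x.1.1.2 (Sum.inr (some i))) = x.1.1.2 (Sum.inr none)
      rw [Units.inv_mul_eq_iff_eq_mul, ← h]
      change _ = x.1.1.2 (Sum.inl none) * _
      ring
    · rfl
  nat {S S'} _ _ _ _ f x := by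
    refine Subtype.ext (Subtype.ext (Prod.ext rfl (funext fun i => ?_)))
    rcases i with (_ | i) | (_ | i)
    · rfl
    · rfl
    · change (((Units.map (f : S →* S') (x.2 ()))⁻¹ : Units _) : _) * (g.app (F.map f x.1.1) -
        ∑ i, f (x.1.2 (Sum.inl i)) * f (x.1.2 (Sum.inr i))) = f ((((x.2 ())⁻¹ : Units _) : _) * (g.app x.1.1 -
        ∑ i, x.1.2 (Sum.inl i) * x.1.2 (Sum.inr i)))
      rw [g.nat, map_mul, map_sub, map_sum, ← map_inv]
      simp only [map_mul]
      rfl
    · rfl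

theorem thm_PEEL (hFNB : St_FNB) : St_PEEL := by
  intro k _ G hG F g d _ hF
  obtain ⟨h1, h2, h3, h4, h5, -⟩ := hFNB k G hG
  refine Fintype.induction_empty_option
    (P := fun d [Fintype d] => ((F.aff (d ⊕ d)).zer (hyp g d)).Good G → (F.zer g).Good G) ?_ ?_ ?_ d
  · intro α β _ e ih hβ
    let _ := Fintype.ofEquiv β e.symm
    exact ih (h1 _ _ (peel_iso1 g e) hβ)
  · intro h
    exact h1 _ _ (peel_iso0 g) h
  · intro α _ ih h
    refine ih ?_
    have a1 : ((peel_Q g (Option α)).unt (peel_s g α)).Good G :=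
      h1 _ _ (peel_iso3 g α) ((h5 _ Unit).2 ((h4 _ (α ⊕ α)).2 hF))
    have a2 := h2 _ (peel_s g α) h a1
    exact (h4 _ Unit).1 (h1 _ _ (peel_iso2 g α) a2)

end Pool.Agent.KGR
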