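import Pool.Agent.KGR.St3
import Pool.Agent.KGR.GRL

/-!
# KGR REP: representing rings of the functors of weights (helper27)
-/

set_option autoImplicit false

noncomputable section

namespace Pool.Agent.KGR

open Function Matrix

/-- the determinant is invertible -/
theorem rep_unit {A : Type} [CommRing A] {m : Type} [Fintype m] [DecidableEq m]
    (N : Matrix m m A) : IsUnit (N.map (algebraMap A (Localization.Away N.det))).det := by
  have h1 : (N.map (algebraMap A (Localization.Away N.det))).det =
      algebraMap A (Localization.Away N.det) N.det := (RingHom.map_det _ _).symm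
  rw [h1]
  exact IsLocalization.Away.algebraMap_isUnit _

theorem rep_1 (k : Type) [CommRing k] (ι V : Type) [Fintype ι] [DecidableEq ι] [Fintype V]
    [DecidableEq V] (a b : ι → Option V) : ∃ u, (KirF k a b fun _ => False).Rep
      (Localization.Away (lpm a b (MvPolynomial.X : ι → MvPolynomial ι k)).det) u := by
  refine ⟨⟨fun e => algebraMap (MvPolynomial ι k) (Localization.Away (lpm a b
    (MvPolynomial.X : ι → MvPolynomial ι k)).det) (MvPolynomial.X e), fun _ h => h.elim, ?_⟩, ?_⟩
  · have h1 := rep_unit (lpm a b (MvPolynomial.X : ι → MvPolynomial ι k))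
    rwa [lpm_map] at h1
  · refine grl_rep _ _ _ _ ?_
    intro S _ _ y
    refine ⟨y.1, ?_, fun f => ?_⟩
    · have h2 : MvPolynomial.aeval (R := k) y.1
          (lpm a b (MvPolynomial.X : ι → MvPolynomial ι k)).det = (lpm a b y.1).det := by
        rw [AlgHom.map_det]
        have h3 := lpm_map a b (MvPolynomial.aeval (R := k) y.1 : _ →ₐ[k] S).toRingHom
          (MvPolynomial.X : ι → MvPolynomial ι k)
        have h4 : (fun e => (MvPolynomial.aeval (R := k) y.1 : _ →ₐ[k] S).toRingHom
            ((MvPolynomial.X : ι → MvPolynomial ι k) e)) = y.1 := by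
          funext e
          exact MvPolynomial.aeval_X y.1 e
        rw [h4] at h3
        exact congrArg det h3
      rw [h2]
      exact y.2.2
    · constructor
      · intro h i
        exact congrFun (congrArg Subtype.val h) i
      · intro h
        exact Subtype.ext (funext h)

theorem rep_2 (k : Type) [CommRing k] (ι V : Type) [Fintype ι] [DecidableEq ι] [Fintype V]
    [DecidableEq V] (a b : ι → Option V) : ∃ u, (SymF k a b fun _ => False).Rep
      (Localization.Away (grm a b (MvPolynomial.X : ι → MvPolynomial ι k)).det) u := by
  refine ⟨⟨fun e => algebraMap (MvPolynomial ι k) (Localization.Away (grm a b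
    (MvPolynomial.X : ι → MvPolynomial ι k)).det) (MvPolynomial.X e), fun _ h => h.elim, ?_⟩, ?_⟩
  · have h1 := rep_unit (grm a b (MvPolynomial.X : ι → MvPolynomial ι k))
    rwa [grm_map] at h1
  · refine grl_rep _ _ _ _ ?_
    intro S _ _ y
    refine ⟨y.1, ?_, fun f => ?_⟩
    · have h2 : MvPolynomial.aeval (R := k) y.1
          (grm a b (MvPolynomial.X : ι → MvPolynomial ι k)).det = (grm a b y.1).det := by
        rw [AlgHom.map_det]
        have h3 := grm_map a b (MvPolynomial.aeval (R := k) y.1 : _ →ₐ[k] S).toRingHom
          (MvPolynomial.X : ι → MvPolynomial ι k)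
        have h4 : (fun e => (MvPolynomial.aeval (R := k) y.1 : _ →ₐ[k] S).toRingHom
            ((MvPolynomial.X : ι → MvPolynomial ι k) e)) = y.1 := by
          funext e
          exact MvPolynomial.aeval_X y.1 e
        rw [h4] at h3
        exact congrArg det h3
      rw [h2]
      exact y.2.2
    · constructor
      · intro h i
        exact congrFun (congrArg Subtype.val h) i
      · intro h
        exact Subtype.ext (funext h)

theorem rep_op {n : ℕ} (v : Fin (n + 1)) (i : Fin n) : op v = some i ↔ v = i.succ := by
  refine Fin.cases ?_ (fun j => ?_) v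
  · constructor
    · intro h
      exact absurd (show (none : Option (Fin n)) = some i from h) (by simp)
    · intro h
      exact absurd h.symm (Fin.succ_ne_zero i)
  · constructor
    · intro h
      have h1 : some j = some i := h
      rw [Option.some.inj h1]
    · intro h
      rw [Fin.succ_injective _ h]
      rfl

/-- the products of two entries in a row of the incidence matrix -/
theorem rep_prod {n : ℕ} {S : Type} [CommRing S] (z : Sym2 (Fin (n + 1))) (hz : ¬ z.IsDiag)
    (i j : Fin n) : ((if z.sup = i.succ then (1 : S) else 0) - if z.inf = i.succ then 1 else 0) *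
      ((if z.sup = j.succ then (1 : S) else 0) - if z.inf = j.succ then 1 else 0) =
      if i = j then (if i.succ ∈ z then 1 else 0) else if z = s(i.succ, j.succ) then -1 else 0 := by
  induction z using Sym2.ind with
  | _ p q =>
    wlog hpq : p < q generalizing p q
    · have h1 : p ≠ q := hz
      have h2 : q < p := lt_of_le_of_ne (not_lt.1 hpq) h1.symm
      have h3 := this q p (fun h => h1 (show q = p from h).symm) h2
      rw [Sym2.eq_swap] at h3
      exact h3
    rw [Sym2.sup_mk, Sym2.inf_mk, sup_eq_right.2 hpq.le, inf_eq_left.2 hpq.le]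
    have hne := hpq.ne
    by_cases hij : i = j
    · subst hij
      rw [if_pos rfl]
      by_cases h1 : q = i.succ
      · have h2 : p ≠ i.succ := fun h => hne (h.trans h1.symm)
        rw [if_pos h1, if_neg h2, if_pos (Sym2.mem_iff.2 (Or.inr h1.symm))]
        ring
      · by_cases h2 : p = i.succ
        · rw [if_neg h1, if_pos h2, if_pos (Sym2.mem_iff.2 (Or.inl h2.symm))]
          ring
        · rw [if_neg h1, if_neg h2, if_neg (by
            intro hm
            rcases Sym2.mem_iff.1 hm with h | h
            · exact h2 h.symm
            · exact h1 h.symm)]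
          ring
    · rw [if_neg hij]
      have hs : i.succ ≠ j.succ := fun h => hij (Fin.succ_injective _ h)
      by_cases h1 : q = i.succ
      · have h2 : p ≠ i.succ := fun h => hne (h.trans h1.symm)
        have h3 : q ≠ j.succ := fun h => hs (h1.symm.trans h)
        by_cases h4 : p = j.succ
        · rw [if_pos h1, if_neg h2, if_neg h3, if_pos h4, if_pos (by rw [h1, h4, Sym2.eq_swap])]
          ring
        · rw [if_pos h1, if_neg h2, if_neg h3, if_neg h4, if_neg (by
            rw [Sym2.eq_iff]
            rintro (h | h)
            · exact h2 h.1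
            · exact h4 h.1)]
          ring
      · by_cases h2 : p = i.succ
        · have h3 : p ≠ j.succ := fun h => hs (h2.symm.trans h)
          by_cases h4 : q = j.succ
          · rw [if_neg h1, if_pos h2, if_pos h4, if_neg h3, if_pos (by rw [h2, h4])]
            ring
          · rw [if_neg h1, if_pos h2, if_neg h4, if_neg h3, if_neg (by
              rw [Sym2.eq_iff]
              rintro (h | h)
              · exact h4 h.2
              · exact h1 h.2)]
            ring
        · have h5 : s(p, q) ≠ s(i.succ, j.succ) := by
            rw [ne_eq, Sym2.eq_iff]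
            rintro (h | h)
            · exact h2 h.1
            · exact h1 h.2
          rw [if_neg h1, if_neg h2, if_neg h5]
          ring

theorem rep_3 (k : Type) [CommRing k] (n : ℕ) (Γ : SimpleGraph (Fin (n + 1))) [Fintype Γ.edgeSet]
    [DecidableEq Γ.edgeSet] :
    lpm (ga Γ) (gb Γ) (MvPolynomial.X : Γ.edgeSet → MvPolynomial Γ.edgeSet k) = lap k Γ := by
  ext1 i j
  have h1 : lpm (ga Γ) (gb Γ) (MvPolynomial.X : Γ.edgeSet → MvPolynomial Γ.edgeSet k) i j =
      ∑ e : Γ.edgeSet, (if i = j then (if i.succ ∈ e.1 then 1 else 0) else
        if e.1 = s(i.succ, j.succ) then -1 else 0) * MvPolynomial.X e := by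
    unfold lpm
    rw [mul_apply]
    refine Finset.sum_congr rfl fun e _ => ?_
    rw [mul_diagonal, transpose_apply, ← rep_prod e.1 (Γ.not_isDiag_of_mem_edgeSet e.2) i j]
    have h2 : ∀ v : Fin n, inc (MvPolynomial Γ.edgeSet k) (ga Γ) (gb Γ) e v =
        (if e.1.sup = v.succ then 1 else 0) - if e.1.inf = v.succ then 1 else 0 := by
      intro v
      unfold inc ga gb
      rw [if_congr (rep_op e.1.sup v) rfl rfl, if_congr (rep_op e.1.inf v) rfl rfl]
    rw [h2, h2]
    ring
  rw [h1]
  unfold lap
  by_cases hij : i = j
  · subst hij
    rw [if_pos rfl]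
    refine Finset.sum_congr ?_ fun e _ => ?_
    · ext e
      simp
    · rw [if_pos rfl]
      by_cases h : i.succ ∈ e.1
      · rw [if_pos h, if_pos h, one_mul]
      · rw [if_neg h, if_neg h, zero_mul]
  · rw [if_neg hij]
    by_cases h : Γ.Adj i.succ j.succ
    · rw [dif_pos h, Finset.sum_eq_single ⟨s(i.succ, j.succ), h⟩]
      · rw [if_neg hij, if_pos rfl, neg_one_mul]
      · intro e _ he
        rw [if_neg hij, if_neg fun h' => he (Subtype.ext h'), zero_mul]
      · intro h'
        exact absurd (Finset.mem_univ _) h'
    · rw [dif_neg h]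
      refine Finset.sum_eq_zero fun e _ => ?_
      rw [if_neg hij, if_neg, zero_mul]
      intro h'
      have h2 := e.2
      rw [h'] at h2
      exact h h2

theorem thm_REP : St_REP := fun k _ =>
  ⟨fun ι V _ _ _ _ a b => ⟨rep_1 k ι V a b, rep_2 k ι V a b⟩, fun n Γ _ _ => rep_3 k n Γ⟩

end Pool.Agent.KGR
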