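import Pool.Agent.KGR.St3

/-!
# KGR: SER, subdivision of all edges (helper60)

A square matrix over a commutative ring is invertible iff it is surjective; the systems of linear
equations of the two graph matrices are equivalent.
-/

set_option autoImplicit false

noncomputable section

namespace Pool.Agent.KGR

open Function Matrix

/-- the value at a vertex, zero at the deleted vertex -/
def ser_ev {V S : Type} [Zero S] (η : V → S) (o : Option V) : S := o.elim 0 η

theorem ser_inc {S : Type} [CommRing S] {ι V : Type} [Fintype V] [DecidableEq V]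
    (a b : ι → Option V) (η : V → S) (e : ι) :
    (inc S a b *ᵥ η) e = ser_ev η (a e) - ser_ev η (b e) := by
  have h : ∀ o : Option V, (∑ v, (if o = some v then (1 : S) else 0) * η v) = ser_ev η o := by
    intro o
    rcases o with _ | w
    · simp [ser_ev]
    · simp [ser_ev]
  rw [mulVec, dotProduct, ← h, ← h, ← Finset.sum_sub_distrib]
  refine Finset.sum_congr rfl fun v _ => ?_
  unfold inc
  ring

theorem ser_grm {S : Type} [CommRing S] {ι V : Type} [Fintype ι] [DecidableEq ι] [Fintype V]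
    [DecidableEq V] (a b : ι → Option V) (x : ι → S) :
    IsUnit (grm a b x).det ↔ ∀ (p : ι → S) (q : V → S), ∃ (ξ : ι → S) (η : V → S),
      (∀ e, x e * ξ e + (ser_ev η (a e) - ser_ev η (b e)) = p e) ∧
      ∀ v, ∑ e, ((if b e = some v then 1 else 0) - if a e = some v then 1 else 0) * ξ e = q v := by
  rw [← isUnit_iff_isUnit_det, ← mulVec_surjective_iff_isUnit]
  have key : ∀ (ξ : ι → S) (η : V → S) (p : ι → S) (q : V → S),
      grm a b x *ᵥ Sum.elim ξ η = Sum.elim p q ↔
      (∀ e, x e * ξ e + (ser_ev η (a e) - ser_ev η (b e)) = p e) ∧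
      ∀ v, ∑ e, ((if b e = some v then 1 else 0) - if a e = some v then 1 else 0) * ξ e = q v := by
    intro ξ η p q
    unfold grm
    rw [fromBlocks_mulVec, funext_iff]
    constructor
    · intro h
      refine ⟨fun e => ?_, fun v => ?_⟩
      · have h1 := h (Sum.inl e)
        simp only [Sum.elim_inl, Sum.elim_comp_inl, Sum.elim_comp_inr, Pi.add_apply] at h1
        rw [mulVec_diagonal, ser_inc] at h1
        exact h1
      · have h1 := h (Sum.inr v)
        simp only [Sum.elim_inr, Sum.elim_comp_inl, Sum.elim_comp_inr, Pi.add_apply,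
          zero_mulVec, Pi.zero_apply, add_zero] at h1
        rw [← h1, mulVec, dotProduct]
        refine Finset.sum_congr rfl fun e _ => ?_
        rw [neg_apply, transpose_apply, inc]
        ring
    · rintro ⟨h1, h2⟩ (e | v)
      · simp only [Sum.elim_inl, Sum.elim_comp_inl, Sum.elim_comp_inr, Pi.add_apply]
        rw [mulVec_diagonal, ser_inc]
        exact h1 e
      · simp only [Sum.elim_inr, Sum.elim_comp_inl, Sum.elim_comp_inr, Pi.add_apply,
          zero_mulVec, Pi.zero_apply, add_zero]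
        rw [← h2 v, mulVec, dotProduct]
        refine Finset.sum_congr rfl fun e _ => ?_
        rw [neg_apply, transpose_apply, inc]
        ring
  constructor
  · intro h p q
    obtain ⟨z, hz⟩ := h (Sum.elim p q)
    refine ⟨z ∘ Sum.inl, z ∘ Sum.inr, (key _ _ _ _).mp ?_⟩
    rw [Sum.elim_comp_inl_inr]
    exact hz
  · intro h z
    obtain ⟨ξ, η, h1⟩ := h (z ∘ Sum.inl) (z ∘ Sum.inr)
    refine ⟨Sum.elim ξ η, ?_⟩
    have h2 := (key _ _ _ _).mpr h1
    rw [Sum.elim_comp_inl_inr] at h2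
    exact h2

/-- first ends -/
def ser_a {ι V : Type} (a : ι → Option V) : ι ⊕ (ι ⊕ ι) → Option (V ⊕ (ι ⊕ ι))
  | Sum.inl e => (a e).map Sum.inl
  | Sum.inr (Sum.inl e) => some (Sum.inr (Sum.inl e))
  | Sum.inr (Sum.inr e) => some (Sum.inr (Sum.inr e))

/-- second ends -/
def ser_b {ι V : Type} (b : ι → Option V) : ι ⊕ (ι ⊕ ι) → Option (V ⊕ (ι ⊕ ι))
  | Sum.inl e => some (Sum.inr (Sum.inl e))
  | Sum.inr (Sum.inl e) => some (Sum.inr (Sum.inr e))
  | Sum.inr (Sum.inr e) => (b e).map Sum.inl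

theorem ser_ev_map {V W S : Type} [Zero S] (η : V ⊕ W → S) (o : Option V) :
    ser_ev η (o.map Sum.inl) = ser_ev (η ∘ Sum.inl) o := by
  rcases o with _ | v <;> rfl

theorem ser_simp {ι V : Type} (a b : ι → Option V) : Simp (ser_a a) (ser_b b) := by
  have h : ∀ (o : Option V) (w : ι ⊕ ι), o.map Sum.inl ≠ some (Sum.inr w : V ⊕ (ι ⊕ ι)) := by
    intro o w
    rcases o with _ | v <;> simp
  have h' : ∀ (o : Option V) (w : ι ⊕ ι), some (Sum.inr w : V ⊕ (ι ⊕ ι)) ≠ o.map Sum.inl :=
    fun o w => (h o w).symm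
  refine ⟨?_, ?_⟩
  · rintro (e | e | e)
    · exact h _ _
    · simp [ser_a, ser_b]
    · exact h' _ _
  · intro e f hef
    have h1 : (ser_a a e = ser_a a f ∧ ser_b b e = ser_b b f) ∨
        (ser_a a e = ser_b b f ∧ ser_b b e = ser_a a f) := Sym2.eq_iff.mp hef
    clear hef
    rcases e with e | e | e <;> rcases f with f | f | f <;> rcases h1 with ⟨h1, h2⟩ | ⟨h1, h2⟩ <;>
      simp only [ser_a, ser_b, h, h', Option.some.injEq, Sum.inr.injEq, Sum.inl.injEq,
        reduceCtorEq] at h1 h2 <;> first | rw [h1] | rw [h2] | skip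

theorem ser_w0 {S : Type} [CommRing S] {ι V : Type} [Fintype ι] [DecidableEq ι]
    [DecidableEq V] (a b : ι → Option V) (ξ : ι ⊕ (ι ⊕ ι) → S) (e : ι) :
    ∑ f, ((if ser_b b f = some (Sum.inr (Sum.inl e)) then 1 else 0) -
      if ser_a a f = some (Sum.inr (Sum.inl e)) then 1 else 0) * ξ f =
      ξ (Sum.inl e) - ξ (Sum.inr (Sum.inl e)) := by
  have h : ∀ (o : Option V) (w : ι ⊕ ι), o.map Sum.inl ≠ some (Sum.inr w : V ⊕ (ι ⊕ ι)) := by
    intro o w
    rcases o with _ | v <;> simp
  simp only [Fintype.sum_sum_type, ser_a, ser_b, h, Option.some.injEq, Sum.inr.injEq,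
    Sum.inl.injEq, reduceCtorEq, if_false, sub_zero, zero_sub, ite_mul, one_mul, zero_mul,
    neg_mul, Finset.sum_ite_eq', Finset.mem_univ, if_true, Finset.sum_neg_distrib, sub_self,
    Finset.sum_const_zero, add_zero]
  ring

theorem ser_w1 {S : Type} [CommRing S] {ι V : Type} [Fintype ι] [DecidableEq ι]
    [DecidableEq V] (a b : ι → Option V) (ξ : ι ⊕ (ι ⊕ ι) → S) (e : ι) :
    ∑ f, ((if ser_b b f = some (Sum.inr (Sum.inr e)) then 1 else 0) -
      if ser_a a f = some (Sum.inr (Sum.inr e)) then 1 else 0) * ξ f =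
      ξ (Sum.inr (Sum.inl e)) - ξ (Sum.inr (Sum.inr e)) := by
  have h : ∀ (o : Option V) (w : ι ⊕ ι), o.map Sum.inl ≠ some (Sum.inr w : V ⊕ (ι ⊕ ι)) := by
    intro o w
    rcases o with _ | v <;> simp
  simp only [Fintype.sum_sum_type, ser_a, ser_b, h, Option.some.injEq, Sum.inr.injEq,
    Sum.inl.injEq, reduceCtorEq, if_false, sub_zero, zero_sub, ite_mul, one_mul, zero_mul,
    neg_mul, Finset.sum_ite_eq', Finset.mem_univ, if_true, Finset.sum_neg_distrib, sub_self,
    Finset.sum_const_zero, add_zero, zero_add]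
  ring

theorem ser_v {S : Type} [CommRing S] {ι V : Type} [Fintype ι] [DecidableEq ι]
    [DecidableEq V] (a b : ι → Option V) (ξ : ι ⊕ (ι ⊕ ι) → S) (v : V) :
    ∑ f, ((if ser_b b f = some (Sum.inl v) then 1 else 0) -
      if ser_a a f = some (Sum.inl v) then 1 else 0) * ξ f =
      ∑ e, (if b e = some v then 1 else 0) * ξ (Sum.inr (Sum.inr e)) -
      ∑ e, (if a e = some v then 1 else 0) * ξ (Sum.inl e) := by
  have h : ∀ (o : Option V), (o.map Sum.inl = some (Sum.inl v : V ⊕ (ι ⊕ ι))) = (o = some v) := by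
    intro o
    rcases o with _ | v <;> simp
  simp only [Fintype.sum_sum_type, ser_a, ser_b, h, Option.some.injEq,
    reduceCtorEq, if_false, sub_zero, zero_sub, neg_mul, Finset.sum_neg_distrib, sub_self,
    zero_mul, Finset.sum_const_zero, zero_add]
  ring

theorem ser_iff {S : Type} [CommRing S] {ι V : Type} [Fintype ι] [DecidableEq ι] [Fintype V]
    [DecidableEq V] (a b : ι → Option V) (x : ι ⊕ (ι ⊕ ι) → S) :
    IsUnit (grm (ser_a a) (ser_b b) x).det ↔ IsUnit (grm a b fun e =>
      x (Sum.inl e) + x (Sum.inr (Sum.inl e)) + x (Sum.inr (Sum.inr e))).det := by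
  rw [ser_grm, ser_grm]
  constructor
  · intro h p q
    obtain ⟨ξ, η, h1, h2⟩ := h (Sum.elim p 0) (Sum.elim q 0)
    have e0 : ∀ e, ξ (Sum.inr (Sum.inl e)) = ξ (Sum.inl e) := by
      intro e
      have h3 := h2 (Sum.inr (Sum.inl e))
      rw [ser_w0] at h3
      exact (sub_eq_zero.mp h3).symm
    have e1 : ∀ e, ξ (Sum.inr (Sum.inr e)) = ξ (Sum.inl e) := by
      intro e
      have h3 := h2 (Sum.inr (Sum.inr e))
      rw [ser_w1] at h3
      rw [← e0]
      exact (sub_eq_zero.mp h3).symm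
    refine ⟨ξ ∘ Sum.inl, η ∘ Sum.inl, fun e => ?_, fun v => ?_⟩
    · have g0 := h1 (Sum.inl e)
      have g1 := h1 (Sum.inr (Sum.inl e))
      have g2 := h1 (Sum.inr (Sum.inr e))
      simp only [ser_a, ser_b, ser_ev_map, Sum.elim_inl, Sum.elim_inr, e0, e1,
        Pi.zero_apply] at g0 g1 g2
      simp only [Function.comp_apply]
      linear_combination g0 + g1 + g2
    · have g := h2 (Sum.inl v)
      rw [ser_v] at g
      simp only [e1, Sum.elim_inl] at g
      rw [← g, ← Finset.sum_sub_distrib]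
      refine Finset.sum_congr rfl fun e _ => ?_
      simp only [Function.comp_apply]
      ring
  · intro h p q
    obtain ⟨ξ, η, h1, h2⟩ := h (fun e => p (Sum.inl e) + p (Sum.inr (Sum.inl e)) +
      p (Sum.inr (Sum.inr e)) + x (Sum.inr (Sum.inl e)) * q (Sum.inr (Sum.inl e)) +
      x (Sum.inr (Sum.inr e)) * (q (Sum.inr (Sum.inl e)) + q (Sum.inr (Sum.inr e))))
      (fun v => q (Sum.inl v) + ∑ e, (if b e = some v then 1 else 0) *
        (q (Sum.inr (Sum.inl e)) + q (Sum.inr (Sum.inr e))))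
    set ξ' : ι ⊕ (ι ⊕ ι) → S := Sum.elim ξ (Sum.elim (fun e => ξ e - q (Sum.inr (Sum.inl e)))
      fun e => ξ e - q (Sum.inr (Sum.inl e)) - q (Sum.inr (Sum.inr e))) with hξ
    set ζ0 : ι → S := fun e => x (Sum.inl e) * ξ e + ser_ev η (a e) - p (Sum.inl e) with hζ0
    set ζ1 : ι → S := fun e => x (Sum.inr (Sum.inl e)) * (ξ e - q (Sum.inr (Sum.inl e))) + ζ0 e -
      p (Sum.inr (Sum.inl e)) with hζ1
    refine ⟨ξ', Sum.elim η (Sum.elim ζ0 ζ1), ?_, ?_⟩
    · rintro (e | e | e)
      · simp only [ser_a, ser_b, ser_ev_map, hξ, Sum.elim_inl, Sum.elim_comp_inl]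
        change _ + (_ - ζ0 e) = _
        rw [hζ0]
        ring
      · simp only [ser_a, ser_b, hξ, Sum.elim_inl, Sum.elim_inr]
        change _ + (ζ0 e - ζ1 e) = _
        rw [hζ1]
        ring
      · simp only [ser_a, ser_b, ser_ev_map, hξ, Sum.elim_inl, Sum.elim_inr, Sum.elim_comp_inl]
        change _ + (ζ1 e - _) = _
        rw [hζ1, hζ0]
        have g := h1 e
        simp only at g ⊢
        linear_combination g
    · rintro (v | e | e)
      · rw [ser_v]
        simp only [hξ, Sum.elim_inl, Sum.elim_inr]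
        have g := h2 v
        rw [← Finset.sum_sub_distrib]
        have e2 : q (Sum.inl v) = ∑ e, ((if b e = some v then 1 else 0) -
            if a e = some v then 1 else 0) * ξ e - ∑ e, (if b e = some v then 1 else 0) *
            (q (Sum.inr (Sum.inl e)) + q (Sum.inr (Sum.inr e))) := by
          rw [g]
          ring
        rw [e2, ← Finset.sum_sub_distrib]
        refine Finset.sum_congr rfl fun e _ => ?_
        ring
      · rw [ser_w0]
        simp only [hξ, Sum.elim_inl, Sum.elim_inr]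
        ring
      · rw [ser_w1]
        simp only [hξ, Sum.elim_inl, Sum.elim_inr]
        ring

theorem thm_SER : St_SER := by
  intro k _ ι V _ _ _ _ a b
  refine ⟨ι ⊕ (ι ⊕ ι), V ⊕ (ι ⊕ ι), inferInstance, inferInstance, inferInstance, inferInstance,
    ser_a a, ser_b b, ι ⊕ ι, inferInstance, ser_simp a b, ⟨?_⟩⟩
  refine
    { fwd := fun {S} _ _ x => (⟨fun e => x.1 (Sum.inl e) + x.1 (Sum.inr (Sum.inl e)) +
        x.1 (Sum.inr (Sum.inr e)), fun e h => h.elim, (ser_iff a b x.1).mp x.2.2⟩,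
        fun i => x.1 (Sum.inr i))
      inv := fun {S} _ _ y => ⟨Sum.elim (fun e => y.1.1 e - y.2 (Sum.inl e) - y.2 (Sum.inr e)) y.2,
        fun e h => h.elim, (ser_iff a b _).mpr ?_⟩
      left := ?_
      right := ?_
      nat := ?_ }
  · have e : (fun e => (Sum.elim (fun e => y.1.1 e - y.2 (Sum.inl e) - y.2 (Sum.inr e)) y.2 :
        ι ⊕ (ι ⊕ ι) → S) (Sum.inl e) + Sum.elim (fun e => y.1.1 e - y.2 (Sum.inl e) -
        y.2 (Sum.inr e)) y.2 (Sum.inr (Sum.inl e)) + Sum.elim (fun e => y.1.1 e -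
        y.2 (Sum.inl e) - y.2 (Sum.inr e)) y.2 (Sum.inr (Sum.inr e))) = y.1.1 := by
      funext e
      simp only [Sum.elim_inl, Sum.elim_inr]
      ring
    rw [e]
    exact y.1.2.2
  · intro S _ _ x
    apply Subtype.ext
    funext i
    rcases i with e | e | e
    · simp only [Sum.elim_inl]
      ring
    · rfl
    · rfl
  · intro S _ _ y
    refine Prod.ext (Subtype.ext (funext fun e => ?_)) (funext fun i => rfl)
    simp only [Sum.elim_inl, Sum.elim_inr]
    ring
  · intro S S' _ _ _ _ f x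
    refine Prod.ext (Subtype.ext (funext fun e => ?_)) (funext fun i => rfl)
    change f (x.1 (Sum.inl e)) + f (x.1 (Sum.inr (Sum.inl e))) + f (x.1 (Sum.inr (Sum.inr e))) =
      f (x.1 (Sum.inl e) + x.1 (Sum.inr (Sum.inl e)) + x.1 (Sum.inr (Sum.inr e)))
    rw [map_add, map_add]

end Pool.Agent.KGR
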