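import Pool.Agent.KGR.St3

/-!
# KGR [SIM]: simple multigraphs and graphs
-/

set_option autoImplicit false

noncomputable section

namespace Pool.Agent.KGR

open Function Matrix

/-- a row of the incidence matrix, up to a sign -/
private theorem sim_row {S : Type} [CommRing S] {ι V ι' V' : Type} [DecidableEq V]
    [DecidableEq V'] (a b : ι → Option V) (a' b' : ι' → Option V') (ψ : ι ≃ ι') (e : V ≃ V')
    (hab : ∀ f, (a' (ψ f) = (a f).map e ∧ b' (ψ f) = (b f).map e) ∨
      (a' (ψ f) = (b f).map e ∧ b' (ψ f) = (a f).map e)) (f : ι) :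
    ∃ ε : S, ε * ε = 1 ∧ ∀ v, inc S a' b' (ψ f) (e v) = ε * inc S a b f v := by
  have hx : ∀ (x : Option V) (v : V), (if x.map e = some (e v) then 1 else 0 : S) =
      if x = some v then 1 else 0 := by
    intro x v
    congr 1
    rw [eq_iff_iff]
    rcases x with _ | x
    · simp
    · simp
  rcases hab f with ⟨h1, h2⟩ | ⟨h1, h2⟩
  · refine ⟨1, by ring, fun v => ?_⟩
    show (if a' (ψ f) = some (e v) then 1 else 0 : S) - (if b' (ψ f) = some (e v) then 1 else 0) =
      1 * ((if a f = some v then 1 else 0) - if b f = some v then 1 else 0)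
    rw [h1, h2, hx, hx]
    ring
  · refine ⟨-1, by ring, fun v => ?_⟩
    show (if a' (ψ f) = some (e v) then 1 else 0 : S) - (if b' (ψ f) = some (e v) then 1 else 0) =
      -1 * ((if a f = some v then 1 else 0) - if b f = some v then 1 else 0)
    rw [h1, h2, hx, hx]
    ring

/-- the determinant of the graph matrix does not depend on the orientation of the edges -/
private theorem sim_det {S : Type} [CommRing S] {ι V ι' V' : Type} [Fintype ι] [DecidableEq ι]
    [Fintype V] [DecidableEq V] [Fintype ι'] [DecidableEq ι'] [Fintype V'] [DecidableEq V']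
    (a b : ι → Option V) (a' b' : ι' → Option V') (ψ : ι ≃ ι') (e : V ≃ V')
    (hab : ∀ f, (a' (ψ f) = (a f).map e ∧ b' (ψ f) = (b f).map e) ∨
      (a' (ψ f) = (b f).map e ∧ b' (ψ f) = (a f).map e)) (x : ι' → S) :
    (grm a' b' x).det = (grm a b fun f => x (ψ f)).det := by
  choose ε hε1 hε2 using sim_row (S := S) a b a' b' ψ e hab
  have hM : (grm a' b' x).submatrix (ψ.sumCongr e) (ψ.sumCongr e) =
      diagonal (Sum.elim ε fun _ => 1) * (grm a b fun f => x (ψ f)) *
        diagonal (Sum.elim ε fun _ => 1) := by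
    ext i j
    rw [mul_diagonal, diagonal_mul, submatrix_apply]
    rcases i with f | v
    · rcases j with f' | v'
      · show diagonal x (ψ f) (ψ f') = ε f * diagonal (fun f => x (ψ f)) f f' * ε f'
        by_cases h : f = f'
        · subst h
          rw [diagonal_apply_eq, diagonal_apply_eq]
          linear_combination (-x (ψ f)) * hε1 f
        · rw [diagonal_apply_ne _ h, diagonal_apply_ne _ (fun h' => h (ψ.injective h'))]
          ring
      · show inc S a' b' (ψ f) (e v') = ε f * inc S a b f v' * 1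
        rw [hε2, mul_one]
    · rcases j with f' | v'
      · show -inc S a' b' (ψ f') (e v) = 1 * -inc S a b f' v * ε f'
        rw [hε2]
        ring
      · show (0 : S) = 1 * 0 * 1
        ring
  have h1 := det_submatrix_equiv_self (ψ.sumCongr e) (grm a' b' x)
  rw [← h1, hM, det_mul, det_mul, det_diagonal]
  have h2 : (∏ i, (Sum.elim ε fun _ => 1 : ι ⊕ V → S) i) *
      (∏ i, (Sum.elim ε fun _ => 1 : ι ⊕ V → S) i) = 1 := by
    rw [← Finset.prod_mul_distrib]
    refine Finset.prod_eq_one fun i _ => ?_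
    rcases i with f | v
    · exact hε1 f
    · exact mul_one 1
  linear_combination ((grm a b fun f => x (ψ f)).det) * h2

/-- [SIM] -/
theorem thm_SIM : St_SIM := by
  intro k _ ι V _ _ _ _ a b hab
  obtain ⟨h1, h2⟩ := hab
  let e : V ≃ Fin (Fintype.card V) := Fintype.equivFin V
  let φ : Option V ≃ Fin (Fintype.card V + 1) :=
    (Equiv.optionCongr e).trans (finSuccEquiv (Fintype.card V)).symm
  have hφ : ∀ x, op (φ x) = Option.map e x := by
    intro x
    rcases x with _ | x
    · rfl
    · rfl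
  let Γ : SimpleGraph (Fin (Fintype.card V + 1)) :=
    SimpleGraph.fromEdgeSet (Set.range fun f => s(φ (a f), φ (b f)))
  have hΓ : ∀ p : Sym2 (Fin (Fintype.card V + 1)), p ∈ Γ.edgeSet ↔
      ∃ f, s(φ (a f), φ (b f)) = p := by
    intro p
    rw [SimpleGraph.edgeSet_fromEdgeSet]
    constructor
    · rintro ⟨⟨f, hf⟩, -⟩
      exact ⟨f, hf⟩
    · rintro ⟨f, rfl⟩
      refine ⟨⟨f, rfl⟩, ?_⟩
      intro h
      exact h1 f (φ.injective (Sym2.mk_isDiag_iff.mp h))
  let ψ : ι ≃ Γ.edgeSet := Equiv.ofBijective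
    (fun f => ⟨s(φ (a f), φ (b f)), (hΓ _).mpr ⟨f, rfl⟩⟩) (by
      constructor
      · intro f f' hff
        apply h2
        apply Sym2.map.injective φ.injective
        exact congrArg Subtype.val hff
      · rintro ⟨p, hp⟩
        obtain ⟨f, hf⟩ := (hΓ p).mp hp
        exact ⟨f, Subtype.ext hf⟩)
  have hψ : ∀ f, (ψ f).1 = s(φ (a f), φ (b f)) := fun f => rfl
  have hor : ∀ f, (ga Γ (ψ f) = (a f).map e ∧ gb Γ (ψ f) = (b f).map e) ∨
      (ga Γ (ψ f) = (b f).map e ∧ gb Γ (ψ f) = (a f).map e) := by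
    intro f
    unfold ga gb
    rw [hψ, Sym2.sup_mk, Sym2.inf_mk]
    rcases le_total (φ (a f)) (φ (b f)) with h | h
    · right
      rw [sup_eq_right.mpr h, inf_eq_left.mpr h, hφ, hφ]
      exact ⟨rfl, rfl⟩
    · left
      rw [sup_eq_left.mpr h, inf_eq_right.mpr h, hφ, hφ]
      exact ⟨rfl, rfl⟩
  letI i1 : Fintype Γ.edgeSet := Fintype.ofEquiv ι ψ
  letI i2 : DecidableEq Γ.edgeSet := ψ.symm.decidableEq
  refine ⟨Fintype.card V, Γ, i1, i2, ⟨?_⟩⟩
  refine
    { fwd := fun x => ⟨fun f => x.1 (ψ f), fun _ h => h.elim, ?_⟩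
      inv := fun x => ⟨fun p => x.1 (ψ.symm p), fun _ h => h.elim, ?_⟩
      left := fun x => ?_
      right := fun x => ?_
      nat := fun f x => rfl }
  · rw [← sim_det a b (ga Γ) (gb Γ) ψ e hor x.1]
    exact x.2.2
  · rw [sim_det a b (ga Γ) (gb Γ) ψ e hor fun p => x.1 (ψ.symm p)]
    have h3 : (fun f => x.1 (ψ.symm (ψ f))) = x.1 := by
      funext f
      rw [Equiv.symm_apply_apply]
    rw [h3]
    exact x.2.2
  · apply Subtype.ext
    funext p
    show x.1 (ψ (ψ.symm p)) = x.1 p
    rw [Equiv.apply_symm_apply]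
  · apply Subtype.ext
    funext f
    show x.1 (ψ.symm (ψ f)) = x.1 f
    rw [Equiv.symm_apply_apply]

end Pool.Agent.KGR
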