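import Pool.Agent.KGR.St

/-!
# KGR: module SLP (every finitely generated algebra is given by a system)
-/

set_option autoImplicit false

noncomputable section

namespace Pool.Agent.KGR

open Function
open Pool.Agent.KGT (Vr bf ev2 Pr ev2_X ev2_bf exists_pr)

namespace SLP

/-- the indices -/
inductive Ix (σ : Type) (N : ℕ) : Type
  | one : Ix σ N
  | zero : Ix σ N
  | x (i : σ) : Ix σ N
  | v (i : σ) : Ix σ N
  | p (i l : σ) : Ix σ N
  | w (T : Finset (σ × σ)) (j : Fin (N + 1)) : Ix σ N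

/-- enumeration of the indices -/
def ixm (σ : Type) (N : ℕ) : (Unit ⊕ Unit) ⊕ (σ ⊕ σ) ⊕ (σ × σ) ⊕ (Finset (σ × σ) × Fin (N + 1)) → Ix σ N
  | Sum.inl (Sum.inl _) => .one
  | Sum.inl (Sum.inr _) => .zero
  | Sum.inr (Sum.inl (Sum.inl i)) => .x i
  | Sum.inr (Sum.inl (Sum.inr i)) => .v i
  | Sum.inr (Sum.inr (Sum.inl q)) => .p q.1 q.2
  | Sum.inr (Sum.inr (Sum.inr q)) => .w q.1 q.2

theorem ix_finite (σ : Type) [Finite σ] (N : ℕ) : Finite (Ix σ N) := by
  refine Finite.of_surjective (ixm σ N) ?_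
  rintro (_ | _ | i | i | ⟨i, l⟩ | ⟨T, j⟩)
  · exact ⟨Sum.inl (Sum.inl ()), rfl⟩
  · exact ⟨Sum.inl (Sum.inr ()), rfl⟩
  · exact ⟨Sum.inr (Sum.inl (Sum.inl i)), rfl⟩
  · exact ⟨Sum.inr (Sum.inl (Sum.inr i)), rfl⟩
  · exact ⟨Sum.inr (Sum.inr (Sum.inl (i, l))), rfl⟩
  · exact ⟨Sum.inr (Sum.inr (Sum.inr (T, j))), rfl⟩

variable {σ : Type} {N : ℕ} (o : σ) (R : Set (Finset (σ × σ))) (e : Fin N ≃ σ × σ)

/-- the system -/
def sys : Sys (Ix σ N) where
  o := .one
  mul a b c := ∃ i l, a = .p i l ∧ b = .x i ∧ c = .v l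
  add a b c := (a = .zero ∧ b = .zero ∧ c = .zero) ∨ ((a = .x o ∨ a = .v o) ∧ b = .one ∧ c = .zero) ∨
    (∃ T, (a = .w T 0 ∨ (T ∈ R ∧ a = .w T (Fin.last N))) ∧ b = .zero ∧ c = .zero) ∨
    ∃ T, ∃ j : Fin N, a = .w T j.succ ∧ b = .w T j.castSucc ∧
      ((e j ∈ T ∧ c = .p (e j).1 (e j).2) ∨ (e j ∉ T ∧ c = .zero))

open Classical in
/-- the partial sums -/
def ps {S : Type} [CommRing S] (x v : σ → S) (T : Finset (σ × σ)) (j : ℕ) : S :=
  ∑ j' : Fin N, if j'.1 < j ∧ e j' ∈ T then x (e j').1 * v (e j').2 else 0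

theorem ps_zero {S : Type} [CommRing S] (x v : σ → S) (T : Finset (σ × σ)) : ps e x v T 0 = 0 := by
  classical
  refine Finset.sum_eq_zero fun j _ => if_neg fun h => ?_
  exact Nat.not_lt_zero _ h.1

theorem ps_last {S : Type} [CommRing S] (x v : σ → S) (T : Finset (σ × σ)) :
    ps e x v T N = ∑ s ∈ T, x s.1 * v s.2 := by
  classical
  have : Fintype (σ × σ) := Fintype.ofEquiv _ e
  have h1 : ps e x v T N = ∑ j' : Fin N, if e j' ∈ T then x (e j').1 * v (e j').2 else 0 := by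
    refine Finset.sum_congr rfl fun j _ => ?_
    by_cases h : e j ∈ T
    · rw [if_pos ⟨j.2, h⟩, if_pos h]
    · rw [if_neg fun h' => h h'.2, if_neg h]
  rw [h1, Equiv.sum_comp e (fun s => if s ∈ T then x s.1 * v s.2 else 0), Finset.sum_ite_mem,
    Finset.univ_inter]

open Classical in
theorem ps_succ {S : Type} [CommRing S] (x v : σ → S) (T : Finset (σ × σ)) (j : Fin N) :
    ps e x v T (j.1 + 1) = ps e x v T j.1 + if e j ∈ T then x (e j).1 * v (e j).2 else 0 := by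
  have h1 : ∀ j' : Fin N, (if j'.1 < j.1 + 1 ∧ e j' ∈ T then x (e j').1 * v (e j').2 else 0) =
      (if j'.1 < j.1 ∧ e j' ∈ T then x (e j').1 * v (e j').2 else 0) +
      if j' = j then (if e j' ∈ T then x (e j').1 * v (e j').2 else 0) else 0 := by
    intro j'
    by_cases h : e j' ∈ T
    · rcases lt_trichotomy j'.1 j.1 with h2 | h2 | h2
      · rw [if_pos ⟨h2.trans (Nat.lt_succ_self _), h⟩, if_pos ⟨h2, h⟩, if_neg fun h3 => ?_, add_zero]
        rw [h3] at h2
        exact lt_irrefl _ h2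
      · rw [if_pos ⟨Nat.lt_succ_of_le h2.le, h⟩, if_neg fun h3 => (h3.1.ne h2), if_pos (Fin.ext h2),
          if_pos h, zero_add]
      · rw [if_neg fun h3 => ?_, if_neg fun h3 => lt_asymm h3.1 h2, if_neg fun h3 => ?_, add_zero]
        · rw [h3] at h2
          exact lt_irrefl _ h2
        · exact absurd (Nat.lt_succ_iff.1 h3.1) (not_le.2 h2)
    · rw [if_neg fun h3 => h h3.2, if_neg fun h3 => h h3.2, if_neg h]
      simp
  unfold ps
  rw [Finset.sum_congr rfl fun j' _ => h1 j', Finset.sum_add_distrib, Finset.sum_ite_eq' Finset.univ j,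
    if_pos (Finset.mem_univ _)]

/-- the solutions -/
structure Sol {S : Type} [CommRing S] (z : Ix σ N → S) : Prop where
  one : z .one = 1
  zero : z .zero = 0
  xo : z (.x o) = 1
  vo : z (.v o) = 1
  p : ∀ i l, z (.p i l) = z (.x i) * z (.v l)
  w : ∀ T (j : Fin (N + 1)), z (.w T j) = ps e (fun i => z (.x i)) (fun i => z (.v i)) T j.1
  R : ∀ T ∈ R, ∑ s ∈ T, z (.x s.1) * z (.v s.2) = 0

theorem sol_iff {S : Type} [CommRing S] (z : Ix σ N → S) :
    (z (sys o R e).o = 1 ∧ (∀ a b c, (sys o R e).mul a b c → z a = z b * z c) ∧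
      ∀ a b c, (sys o R e).add a b c → z a = z b + z c) ↔ Sol o R e z := by
  classical
  constructor
  · rintro ⟨h1, h2, h3⟩
    have h0 : z .zero = 0 := by
      have h := h3 .zero .zero .zero (Or.inl ⟨rfl, rfl, rfl⟩)
      exact left_eq_add.1 h
    have hp : ∀ i l, z (.p i l) = z (.x i) * z (.v l) := fun i l => h2 _ _ _ ⟨i, l, rfl, rfl, rfl⟩
    have hw : ∀ T (j : Fin (N + 1)), z (.w T j) = ps e (fun i => z (.x i)) (fun i => z (.v i)) T j.1 := by
      intro T j
      induction j using Fin.induction with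
      | zero =>
        have h := h3 (.w T 0) .zero .zero (Or.inr (Or.inr (Or.inl ⟨T, Or.inl rfl, rfl, rfl⟩)))
        rw [h, h0, add_zero]
        exact (ps_zero _ _ _ _).symm
      | succ j ih =>
        rw [Fin.val_succ, ps_succ, ← Fin.val_castSucc, ← ih]
        by_cases hj : e j ∈ T
        · have h := h3 (.w T j.succ) (.w T j.castSucc) (.p (e j).1 (e j).2)
            (Or.inr (Or.inr (Or.inr ⟨T, j, rfl, rfl, Or.inl ⟨hj, rfl⟩⟩)))
          rw [h, hp, if_pos hj]
        · have h := h3 (.w T j.succ) (.w T j.castSucc) .zero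
            (Or.inr (Or.inr (Or.inr ⟨T, j, rfl, rfl, Or.inr ⟨hj, rfl⟩⟩)))
          rw [h, h0, if_neg hj]
    refine ⟨h1, h0, ?_, ?_, hp, hw, fun T hT => ?_⟩
    · rw [h3 (.x o) .one .zero (Or.inr (Or.inl ⟨Or.inl rfl, rfl, rfl⟩)), h0, add_zero]
      exact h1
    · rw [h3 (.v o) .one .zero (Or.inr (Or.inl ⟨Or.inr rfl, rfl, rfl⟩)), h0, add_zero]
      exact h1
    · have h := h3 (.w T (Fin.last N)) .zero .zero (Or.inr (Or.inr (Or.inl ⟨T, Or.inr ⟨hT, rfl⟩, rfl, rfl⟩)))
      rw [hw, h0, add_zero, Fin.val_last, ps_last] at h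
      exact h
  · intro h
    refine ⟨h.one, ?_, ?_⟩
    · rintro a b c ⟨i, l, rfl, rfl, rfl⟩
      exact h.p i l
    · rintro a b c (⟨rfl, rfl, rfl⟩ | ⟨rfl | rfl, rfl, rfl⟩ | ⟨T, rfl | ⟨hT, rfl⟩, rfl, rfl⟩ |
        ⟨T, j, rfl, rfl, ⟨hj, rfl⟩ | ⟨hj, rfl⟩⟩)
      · rw [h.zero, add_zero]
      · rw [h.xo, h.one, h.zero, add_zero]
      · rw [h.vo, h.one, h.zero, add_zero]
      · rw [h.w, h.zero, add_zero]
        exact ps_zero _ _ _ _
      · rw [h.w, h.zero, add_zero, Fin.val_last, ps_last]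
        exact h.R T hT
      · rw [h.w, h.w, h.p, Fin.val_succ, ps_succ, Fin.val_castSucc, if_pos hj]
      · rw [h.w, h.w, h.zero, Fin.val_succ, ps_succ, Fin.val_castSucc, if_neg hj]

/-- two solutions with the same `x` and `v` are equal -/
theorem sol_ext {S : Type} [CommRing S] {z z' : Ix σ N → S} (h : Sol o R e z) (h' : Sol o R e z')
    (hx : ∀ i, z (.x i) = z' (.x i)) (hv : ∀ i, z (.v i) = z' (.v i)) : z = z' := by
  funext a
  rcases a with _ | _ | i | i | ⟨i, l⟩ | ⟨T, j⟩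
  · rw [h.one, h'.one]
  · rw [h.zero, h'.zero]
  · exact hx i
  · exact hv i
  · rw [h.p, h'.p, hx, hv]
  · rw [h.w, h'.w]
    have e1 : (fun i => z (.x i)) = fun i => z' (.x i) := funext hx
    have e2 : (fun i => z (.v i)) = fun i => z' (.v i) := funext hv
    rw [e1, e2]

/-- the solution given by `x` and `v` -/
def mk {S : Type} [CommRing S] (x v : σ → S) : Ix σ N → S
  | .one => 1
  | .zero => 0
  | .x i => x i
  | .v i => v i
  | .p i l => x i * v l
  | .w T j => ps e x v T j.1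

theorem mk_sol {S : Type} [CommRing S] (x v : σ → S) (hx : x o = 1) (hv : v o = 1)
    (hR : ∀ T ∈ R, ∑ s ∈ T, x s.1 * v s.2 = 0) : Sol o R e (mk e x v) :=
  ⟨rfl, rfl, hx, hv, fun _ _ => rfl, fun _ _ => rfl, hR⟩

variable {o R}

/-- homomorphisms are determined by the values at the generators -/
theorem hom_ext {B S : Type} [CommRing B] [CommRing S] {z : σ → B} (hs : Surjective (ev2 z))
    {f g : B →+* S} (h : ∀ i, f (z i) = g (z i)) : f = g := by
  have h1 : f.comp (ev2 z) = g.comp (ev2 z) := by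
    apply MvPolynomial.ringHom_ext'
    · exact Subsingleton.elim _ _
    · intro s
      rw [RingHom.comp_apply, RingHom.comp_apply, ev2_X]
      rcases s with i | i <;> exact h i
  exact (RingHom.cancel_right hs).1 h1

/-- homomorphisms with given values at the generators -/
theorem hom_ex {B S : Type} [CommRing B] [CommRing S] {z : σ → B} (hs : Surjective (ev2 z))
    (hR : RingHom.ker (ev2 z) = Ideal.span (bf '' R) ⊔ Ideal.span {MvPolynomial.X (Sum.inl o) - 1} ⊔
      Ideal.span {MvPolynomial.X (Sum.inr o) - 1})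
    (x v : σ → S) (hx : x o = 1) (hv : v o = 1) (hT : ∀ T ∈ R, ∑ s ∈ T, x s.1 * v s.2 = 0) :
    ∃ f : B →+* S, (∀ i, f (z i) = x i) ∧ ∀ i, f (z i) = v i := by
  let g : Vr σ →+* S := (MvPolynomial.aeval (Sum.elim x v) : Vr σ →ₐ[ℤ] S).toRingHom
  have gX : ∀ s, g (MvPolynomial.X s) = Sum.elim x v s := fun s => MvPolynomial.aeval_X _ _
  have hg : RingHom.ker (ev2 z) ≤ RingHom.ker g := by
    rw [hR]
    refine sup_le (sup_le ?_ ?_) ?_
    · rw [Ideal.span_le]
      rintro _ ⟨T, hTR, rfl⟩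
      change _ ∈ RingHom.ker _
      rw [RingHom.mem_ker]
      unfold bf
      rw [map_sum, ← hT T hTR]
      refine Finset.sum_congr rfl fun s _ => ?_
      rw [map_mul, gX, gX]
      rfl
    · rw [Ideal.span_le, Set.singleton_subset_iff]
      change _ ∈ RingHom.ker _
      rw [RingHom.mem_ker, map_sub, map_one, gX]
      exact sub_eq_zero.2 hx
    · rw [Ideal.span_le, Set.singleton_subset_iff]
      change _ ∈ RingHom.ker _
      rw [RingHom.mem_ker, map_sub, map_one, gX]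
      exact sub_eq_zero.2 hv
  let f : B →+* S := (ev2 z).liftOfSurjective hs ⟨g, hg⟩
  have hf : ∀ q, f (ev2 z q) = g q := fun q => RingHom.liftOfRightInverse_comp_apply _ _ _ ⟨g, hg⟩ q
  refine ⟨f, fun i => ?_, fun i => ?_⟩
  · have h1 := hf (MvPolynomial.X (Sum.inl i))
    rw [ev2_X, gX] at h1
    exact h1
  · have h1 := hf (MvPolynomial.X (Sum.inr i))
    rw [ev2_X, gX] at h1
    exact h1

end SLP

theorem thm_SLP : St_SLP := by
  intro k _ hk B _ _ _
  have hfk : Algebra.FiniteType ℤ k :=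
    Algebra.FiniteType.of_surjective (Algebra.ofId ℤ k) hk
  have hfB : Algebra.FiniteType ℤ B := Algebra.FiniteType.trans hfk inferInstance
  obtain ⟨σ, hσ, o, z, hz, hs⟩ := exists_pr B
  obtain ⟨R, hR⟩ := hz.ker
  obtain ⟨N, ⟨e'⟩⟩ := Finite.exists_equiv_fin (σ × σ)
  let e : Fin N ≃ σ × σ := e'.symm
  have hf1 : ∀ {S : Type} [CommRing S] [Algebra k S] (q : (SysF k (SLP.sys o R e)).obj S),
      ∃ f : B →ₐ[k] S, (∀ i, f (z i) = q.1 (.x i)) ∧ ∀ i, f (z i) = q.1 (.v i) := by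
    intro S _ _ q
    have hq := (SLP.sol_iff o R e q.1).1 q.2
    obtain ⟨f, h1, h2⟩ := SLP.hom_ex hs hR (fun i => q.1 (.x i)) (fun i => q.1 (.v i)) hq.xo hq.vo hq.R
    refine ⟨{ f with commutes' := fun c => ?_ }, h1, h2⟩
    obtain ⟨n, rfl⟩ := hk c
    change f (algebraMap k B (n : k)) = algebraMap k S (n : k)
    rw [map_intCast, map_intCast, map_intCast]
  have hf2 : ∀ {S : Type} [CommRing S] [Algebra k S] (f g : B →ₐ[k] S), (∀ i, f (z i) = g (z i)) → f = g := by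
    intro S _ _ f g h
    have h1 : (f : B →+* S) = g := SLP.hom_ext hs h
    exact AlgHom.ext fun b => RingHom.congr_fun h1 b
  have hinv : ∀ {S : Type} [CommRing S] [Algebra k S] (f : B →ₐ[k] S),
      SLP.Sol o R e (SLP.mk e (fun i => f (z i)) fun i => f (z i)) := by
    intro S _ _ f
    refine SLP.mk_sol o R e _ _ ?_ ?_ fun T hT => ?_
    · rw [hz.one, map_one]
    · rw [hz.one, map_one]
    · have h1 : ev2 z (bf T) = 0 := by
        rw [← RingHom.mem_ker, hR]
        exact Ideal.mem_sup_left (Ideal.mem_sup_left (Ideal.subset_span ⟨T, hT, rfl⟩))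
      rw [ev2_bf] at h1
      have h2 := congrArg f h1
      rw [map_sum, map_zero] at h2
      rw [← h2]
      exact Finset.sum_congr rfl fun s _ => (map_mul f _ _).symm
  refine ⟨SLP.Ix σ N, SLP.ix_finite σ N, SLP.sys o R e, ⟨{
    fwd := fun q => (hf1 q).choose
    inv := fun {S} _ _ (f : B →ₐ[k] S) => ⟨SLP.mk e (fun i => f (z i)) fun i => f (z i),
      (SLP.sol_iff o R e _).2 (hinv f)⟩
    left := fun q => ?_
    right := fun f => ?_
    nat := fun f q => ?_ }⟩⟩
  · refine Subtype.ext (SLP.sol_ext o R e (hinv _) ((SLP.sol_iff o R e q.1).1 q.2) (fun i => ?_) fun i => ?_)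
    · exact (hf1 q).choose_spec.1 i
    · exact (hf1 q).choose_spec.2 i
  · exact hf2 _ _ fun i => (hf1 _).choose_spec.1 i
  · refine hf2 _ _ fun i => ?_
    rw [(hf1 _).choose_spec.1 i]
    change f (q.1 (.x i)) = f ((hf1 q).choose (z i))
    rw [(hf1 q).choose_spec.1 i]

end Pool.Agent.KGR
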