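import Pool.Agent.KGR.St

/-!
# KGR SPI: `Phi` for the products `V W` is a space of sparse invertible matrices
-/

set_option autoImplicit false

noncomputable section

namespace Pool.Agent.KGR

open Function Matrix

/-- An isomorphism from a natural bijection in the other direction. -/
theorem spi_iso {k : Type} [CommRing k] {F F' : Fn k}
    (φ : ∀ {S : Type} [CommRing S] [Algebra k S], F.obj S → F'.obj S)
    (nat : ∀ {S S' : Type} [CommRing S] [Algebra k S] [CommRing S'] [Algebra k S']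
      (f : S →ₐ[k] S') (x : F.obj S), φ (F.map f x) = F'.map f (φ x))
    (hb : ∀ {S : Type} [CommRing S] [Algebra k S], Bijective (φ (S := S))) :
    Nonempty (F'.Iso F) :=
  ⟨{ fwd := fun {S} _ _ y => (Equiv.ofBijective (φ (S := S)) hb).symm y
     inv := fun {S} _ _ x => φ (S := S) x
     left := fun {S} _ _ y => Equiv.ofBijective_apply_symm_apply (φ (S := S)) hb y
     right := fun {S} _ _ x => Equiv.ofBijective_symm_apply_apply (φ (S := S)) hb x
     nat := fun {S S'} _ _ _ _ f y => by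
      rw [Equiv.symm_apply_eq, Equiv.ofBijective_apply, nat,
        Equiv.ofBijective_apply_symm_apply (φ (S := S)) hb y] }⟩

section spi

set_option linter.unusedSectionVars false

variable {k : Type} [CommRing k] {S : Type} [CommRing S] {A B C J m : Type} [Fintype A]
  [DecidableEq A] [Fintype B] [DecidableEq B] [Fintype C] [DecidableEq C] [Fintype J]
  [DecidableEq J] [Fintype m] [DecidableEq m]

/-- the unipotent matrix -/
def spi_U (V : Matrix A B S) (W : Matrix B C S) : Matrix (A ⊕ (B ⊕ C)) (A ⊕ (B ⊕ C)) S :=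
  fromBlocks 1 (fromCols V 0) 0 (fromBlocks 1 W 0 1)

/-- its inverse -/
def spi_Ui (V : Matrix A B S) (W : Matrix B C S) : Matrix (A ⊕ (B ⊕ C)) (A ⊕ (B ⊕ C)) S :=
  fromBlocks 1 (fromCols (-V) (V * W)) 0 (fromBlocks 1 (-W) 0 1)

theorem spi_U_mul (V : Matrix A B S) (W : Matrix B C S) : spi_U V W * spi_Ui V W = 1 := by
  unfold spi_U spi_Ui
  rw [fromBlocks_multiply, fromCols_mul_fromBlocks, fromBlocks_multiply]
  have h1 : (fromCols (-V) (V * W) + fromCols V (V * -W) : Matrix A (B ⊕ C) S) = 0 := by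
    ext i (j | j)
    · simp [fromCols]
    · simp [fromCols]
  simp only [Matrix.mul_zero, Matrix.zero_mul, Matrix.one_mul, Matrix.mul_one, add_zero, zero_add,
    neg_add_cancel, h1, fromBlocks_one]

theorem spi_Ui_mul (V : Matrix A B S) (W : Matrix B C S) : spi_Ui V W * spi_U V W = 1 :=
  mul_eq_one_comm.1 (spi_U_mul V W)

theorem spi_U_det (V : Matrix A B S) (W : Matrix B C S) : (spi_U V W).det = 1 := by
  unfold spi_U
  rw [det_fromBlocks_zero₂₁, det_fromBlocks_zero₂₁, det_one, det_one, det_one, one_mul, one_mul]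

/-- the block `Y` -/
def spi_Y (c : J → C) : Matrix (A ⊕ (B ⊕ C)) (J ⊕ m) S
  | Sum.inr (Sum.inr c'), Sum.inl j => if c' = c j then 1 else 0
  | _, _ => 0

/-- the block `Z` -/
def spi_Z (a : J → A) : Matrix (J ⊕ m) (A ⊕ (B ⊕ C)) S
  | Sum.inl j, Sum.inl a' => if a' = a j then 1 else 0
  | _, _ => 0

/-- the correction -/
def spi_E (a : J → A) (c : J → C) (V : Matrix A B S) (W : Matrix B C S) :
    Matrix (J ⊕ m) (J ⊕ m) S :=
  fromBlocks (of fun j j' => (V * W) (a j) (c j')) 0 0 0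

theorem spi_ZUY (a : J → A) (c : J → C) (V : Matrix A B S) (W : Matrix B C S) :
    (spi_Z a : Matrix (J ⊕ m) (A ⊕ (B ⊕ C)) S) * spi_Ui V W *
      (spi_Y c : Matrix (A ⊕ (B ⊕ C)) (J ⊕ m) S) = spi_E a c V W := by
  ext (x | x) (y | y) <;>
  simp [mul_apply, Fintype.sum_sum_type, spi_Z, spi_Y, spi_E, spi_Ui]

/-- the matrix -/
def spi_M (a : J → A) (c : J → C) (V : Matrix A B S) (W : Matrix B C S)
    (N : Matrix (J ⊕ m) (J ⊕ m) S) :
    Matrix ((A ⊕ (B ⊕ C)) ⊕ (J ⊕ m)) ((A ⊕ (B ⊕ C)) ⊕ (J ⊕ m)) S :=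
  fromBlocks (spi_U V W) (spi_Y c) (spi_Z a) (N + spi_E a c V W)

theorem spi_det (a : J → A) (c : J → C) (V : Matrix A B S) (W : Matrix B C S)
    (N : Matrix (J ⊕ m) (J ⊕ m) S) : (spi_M a c V W N).det = N.det := by
  let _ : Invertible (spi_U V W) := ⟨spi_Ui V W, spi_Ui_mul V W, spi_U_mul V W⟩
  have h : ⅟(spi_U V W) = spi_Ui V W := rfl
  unfold spi_M
  rw [det_fromBlocks₁₁, h, spi_ZUY, spi_U_det, one_mul, add_sub_cancel_right]

/-- the left units -/
def spi_L (q : A ⊕ B ⊕ C ⊕ J ⊕ J → Sˣ) : (A ⊕ (B ⊕ C)) ⊕ (J ⊕ m) → Sˣ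
  | Sum.inl (Sum.inl a) => q (Sum.inl a)
  | Sum.inl (Sum.inr (Sum.inl b)) => q (Sum.inr (Sum.inl b))
  | Sum.inl (Sum.inr (Sum.inr c)) => q (Sum.inr (Sum.inr (Sum.inl c)))
  | Sum.inr (Sum.inl j) => q (Sum.inr (Sum.inr (Sum.inr (Sum.inl j))))
  | Sum.inr (Sum.inr _) => 1

/-- the right units -/
def spi_R (c : J → C) (q : A ⊕ B ⊕ C ⊕ J ⊕ J → Sˣ) : (A ⊕ (B ⊕ C)) ⊕ (J ⊕ m) → Sˣ
  | Sum.inl _ => 1
  | Sum.inr (Sum.inl j) => q (Sum.inr (Sum.inr (Sum.inr (Sum.inr j)))) *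
      (q (Sum.inr (Sum.inr (Sum.inl (c j)))))⁻¹
  | Sum.inr (Sum.inr _) => 1

/-- the sparse matrix -/
def spi_F (a : J → A) (c : J → C) (V : Matrix A B S) (W : Matrix B C S)
    (N : Matrix (J ⊕ m) (J ⊕ m) S) (q : A ⊕ B ⊕ C ⊕ J ⊕ J → Sˣ) :
    Matrix ((A ⊕ (B ⊕ C)) ⊕ (J ⊕ m)) ((A ⊕ (B ⊕ C)) ⊕ (J ⊕ m)) S :=
  of fun i j => (spi_L q i : S) * spi_M a c V W N i j * (spi_R c q j : S)

theorem spi_F_det (a : J → A) (c : J → C) (V : Matrix A B S) (W : Matrix B C S)
    (N : Matrix (J ⊕ m) (J ⊕ m) S) (q : A ⊕ B ⊕ C ⊕ J ⊕ J → Sˣ) :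
    IsUnit (spi_F a c V W N q).det ↔ IsUnit N.det := by
  have h : spi_F a c V W N q = diagonal (fun i => (spi_L q i : S)) * spi_M a c V W N *
      diagonal (fun i => (spi_R c q i : S)) := by
    ext i j
    rw [mul_diagonal, diagonal_mul]
    rfl
  rw [h, det_mul, det_mul, det_diagonal, det_diagonal, spi_det, ← Units.coe_prod,
    ← Units.coe_prod, Units.isUnit_mul_units, Units.isUnit_units_mul]

/-- the pattern -/
def spi_P (PV : A → B → Prop) (PW : B → C → Prop) (a : J → A) (c : J → C) :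
    (A ⊕ (B ⊕ C)) ⊕ (J ⊕ m) → (A ⊕ (B ⊕ C)) ⊕ (J ⊕ m) → Prop
  | Sum.inl (Sum.inl x), Sum.inl (Sum.inl y) => x = y
  | Sum.inl (Sum.inl x), Sum.inl (Sum.inr (Sum.inl y)) => PV x y
  | Sum.inl (Sum.inr (Sum.inl x)), Sum.inl (Sum.inr (Sum.inl y)) => x = y
  | Sum.inl (Sum.inr (Sum.inl x)), Sum.inl (Sum.inr (Sum.inr y)) => PW x y
  | Sum.inl (Sum.inr (Sum.inr x)), Sum.inl (Sum.inr (Sum.inr y)) => x = y
  | Sum.inl (Sum.inr (Sum.inr x)), Sum.inr (Sum.inl j) => x = c j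
  | Sum.inr (Sum.inl j), Sum.inl (Sum.inl x) => x = a j
  | Sum.inr (Sum.inl j), Sum.inr (Sum.inl j') => j ≠ j'
  | Sum.inr (Sum.inl _), Sum.inr (Sum.inr _) => True
  | Sum.inr (Sum.inr _), Sum.inr _ => True
  | _, _ => False

/-- the invertible entries -/
def spi_I (UV : A → B → Prop) (UW : B → C → Prop) (a : J → A) (c : J → C) :
    (A ⊕ (B ⊕ C)) ⊕ (J ⊕ m) → (A ⊕ (B ⊕ C)) ⊕ (J ⊕ m) → Prop
  | Sum.inl (Sum.inl x), Sum.inl (Sum.inl y) => x = y
  | Sum.inl (Sum.inl x), Sum.inl (Sum.inr (Sum.inl y)) => UV x y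
  | Sum.inl (Sum.inr (Sum.inl x)), Sum.inl (Sum.inr (Sum.inl y)) => x = y
  | Sum.inl (Sum.inr (Sum.inl x)), Sum.inl (Sum.inr (Sum.inr y)) => UW x y
  | Sum.inl (Sum.inr (Sum.inr x)), Sum.inl (Sum.inr (Sum.inr y)) => x = y
  | Sum.inl (Sum.inr (Sum.inr x)), Sum.inr (Sum.inl j) => x = c j
  | Sum.inr (Sum.inl j), Sum.inl (Sum.inl x) => x = a j
  | _, _ => False

theorem spi_M_zero (PV : A → B → Prop) (PW : B → C → Prop) (a : J → A) (c : J → C)
    (V : Matrix A B S) (W : Matrix B C S) (N : Matrix (J ⊕ m) (J ⊕ m) S)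
    (hV : ∀ x y, ¬ PV x y → V x y = 0) (hW : ∀ x y, ¬ PW x y → W x y = 0)
    (hN : ∀ j, N (Sum.inl j) (Sum.inl j) = -(V * W) (a j) (c j))
    (i j : (A ⊕ (B ⊕ C)) ⊕ (J ⊕ m)) (h : ¬ spi_P PV PW a c i j) :
    spi_M a c V W N i j = 0 := by
  rcases i with ((x | (x | x)) | (x | x)) <;> rcases j with ((y | (y | y)) | (y | y)) <;>
    simp only [spi_P, not_true, not_false_iff, ne_eq, not_not] at h <;>
    first
    | exact h.elim
    | rfl
    | (simp [spi_M, spi_U, spi_Y, spi_Z, h]; done)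
    | exact hV _ _ h
    | exact hW _ _ h
    | skip
  subst h
  change N (Sum.inl x) (Sum.inl x) + (V * W) (a x) (c x) = 0
  rw [hN]
  exact neg_add_cancel _

theorem spi_M_unit (UV : A → B → Prop) (UW : B → C → Prop) (a : J → A) (c : J → C)
    (V : Matrix A B S) (W : Matrix B C S) (N : Matrix (J ⊕ m) (J ⊕ m) S)
    (hV : ∀ x y, UV x y → IsUnit (V x y)) (hW : ∀ x y, UW x y → IsUnit (W x y))
    (i j : (A ⊕ (B ⊕ C)) ⊕ (J ⊕ m)) (h : spi_I UV UW a c i j) :
    IsUnit (spi_M a c V W N i j) := by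
  rcases i with ((x | (x | x)) | (x | x)) <;> rcases j with ((y | (y | y)) | (y | y)) <;>
    simp only [spi_I] at h <;>
    first
    | exact hV _ _ h
    | exact hW _ _ h
    | simp [spi_M, spi_U, spi_Y, spi_Z, h]

theorem spi_M_map {S' : Type} [CommRing S'] (f : S →+* S') (a : J → A) (c : J → C)
    (V : Matrix A B S) (W : Matrix B C S) (N : Matrix (J ⊕ m) (J ⊕ m) S)
    (i j : (A ⊕ (B ⊕ C)) ⊕ (J ⊕ m)) :
    spi_M a c (V.map f) (W.map f) (N.map f) i j = f (spi_M a c V W N i j) := by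
  rcases i with ((x | (x | x)) | (x | x)) <;> rcases j with ((y | (y | y)) | (y | y)) <;>
    first
    | (simp [spi_M, spi_U, spi_Y, spi_Z, spi_E, one_apply, apply_ite f]; done)
    | skip
  change f (N (Sum.inl x) (Sum.inl y)) + (V.map f * W.map f) (a x) (c y) =
    f (N (Sum.inl x) (Sum.inl y) + (V * W) (a x) (c y))
  rw [map_add, ← Matrix.map_mul]
  rfl

theorem spi_L_map {S' : Type} [CommRing S'] (f : S →* S') (q : A ⊕ B ⊕ C ⊕ J ⊕ J → Sˣ)
    (i : (A ⊕ (B ⊕ C)) ⊕ (J ⊕ m)) :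
    spi_L (fun r => Units.map f (q r)) i = Units.map f (spi_L q i) := by
  rcases i with ((x | (x | x)) | (x | x))
  · rfl
  · rfl
  · rfl
  · rfl
  · exact (map_one _).symm

theorem spi_R_map {S' : Type} [CommRing S'] (f : S →* S') (c : J → C)
    (q : A ⊕ B ⊕ C ⊕ J ⊕ J → Sˣ) (i : (A ⊕ (B ⊕ C)) ⊕ (J ⊕ m)) :
    spi_R c (fun r => Units.map f (q r)) i = Units.map f (spi_R c q i) := by
  rcases i with (x | (x | x))
  · exact (map_one _).symm
  · change _ = Units.map f (q _ * (q _)⁻¹)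
    rw [map_mul, map_inv]
    rfl
  · exact (map_one _).symm

theorem spi_surj (PV : A → B → Prop) (PW : B → C → Prop) (a : J → A) (c : J → C)
    (M : Matrix ((A ⊕ (B ⊕ C)) ⊕ (J ⊕ m)) ((A ⊕ (B ⊕ C)) ⊕ (J ⊕ m)) S)
    (hM : ∀ i j, ¬ spi_P PV PW a c i j → M i j = 0) (q : A ⊕ B ⊕ C ⊕ J ⊕ J → Sˣ)
    (hA : ∀ x, (q (Sum.inl x) : S) = M (Sum.inl (Sum.inl x)) (Sum.inl (Sum.inl x)))
    (hB : ∀ x, (q (Sum.inr (Sum.inl x)) : S) =
      M (Sum.inl (Sum.inr (Sum.inl x))) (Sum.inl (Sum.inr (Sum.inl x))))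
    (hC : ∀ x, (q (Sum.inr (Sum.inr (Sum.inl x))) : S) =
      M (Sum.inl (Sum.inr (Sum.inr x))) (Sum.inl (Sum.inr (Sum.inr x))))
    (hZ : ∀ j, (q (Sum.inr (Sum.inr (Sum.inr (Sum.inl j)))) : S) =
      M (Sum.inr (Sum.inl j)) (Sum.inl (Sum.inl (a j))))
    (hY : ∀ j, (q (Sum.inr (Sum.inr (Sum.inr (Sum.inr j)))) : S) =
      M (Sum.inl (Sum.inr (Sum.inr (c j)))) (Sum.inr (Sum.inl j)))
    (V : Matrix A B S) (W : Matrix B C S) (N : Matrix (J ⊕ m) (J ⊕ m) S)
    (hV : ∀ x y, (q (Sum.inl x) : S) * V x y =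
      M (Sum.inl (Sum.inl x)) (Sum.inl (Sum.inr (Sum.inl y))))
    (hW : ∀ x y, (q (Sum.inr (Sum.inl x)) : S) * W x y =
      M (Sum.inl (Sum.inr (Sum.inl x))) (Sum.inl (Sum.inr (Sum.inr y))))
    (hN : ∀ x y, (spi_L q (Sum.inr x) : S) * (N x y + spi_E a c V W x y) *
      (spi_R c q (Sum.inr y) : S) = M (Sum.inr x) (Sum.inr y)) :
    spi_F a c V W N q = M := by
  ext i j
  change (spi_L q i : S) * spi_M a c V W N i j * (spi_R c q j : S) = M i j
  rcases i with (i | x)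
  · rcases j with (j | y)
    · change (spi_L q (Sum.inl i) : S) * spi_U V W i j * ((1 : Sˣ) : S) = _
      rw [Units.val_one, mul_one]
      rcases i with (x | (x | x)) <;> rcases j with (y | (y | y))
      · change (q (Sum.inl x) : S) * (1 : Matrix A A S) x y = _
        by_cases h : x = y
        · subst h
          rw [one_apply_eq, mul_one, hA]
        · rw [one_apply_ne h, mul_zero, hM (Sum.inl (Sum.inl x)) (Sum.inl (Sum.inl y)) h]
      · exact hV x y
      · change _ * (0 : S) = _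
        rw [mul_zero, hM _ _ id]
      · change _ * (0 : S) = _
        rw [mul_zero, hM _ _ id]
      · change (q (Sum.inr (Sum.inl x)) : S) * (1 : Matrix B B S) x y = _
        by_cases h : x = y
        · subst h
          rw [one_apply_eq, mul_one, hB]
        · rw [one_apply_ne h, mul_zero,
            hM (Sum.inl (Sum.inr (Sum.inl x))) (Sum.inl (Sum.inr (Sum.inl y))) h]
      · exact hW x y
      · change _ * (0 : S) = _
        rw [mul_zero, hM _ _ id]
      · change _ * (0 : S) = _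
        rw [mul_zero, hM _ _ id]
      · change (q (Sum.inr (Sum.inr (Sum.inl x))) : S) * (1 : Matrix C C S) x y = _
        by_cases h : x = y
        · subst h
          rw [one_apply_eq, mul_one, hC]
        · rw [one_apply_ne h, mul_zero,
            hM (Sum.inl (Sum.inr (Sum.inr x))) (Sum.inl (Sum.inr (Sum.inr y))) h]
    · change (spi_L q (Sum.inl i) : S) * spi_Y c i y * _ = _
      rcases i with (x | (x | x)) <;> rcases y with (y | y)
      · change _ * (0 : S) * _ = _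
        rw [mul_zero, zero_mul, hM _ _ id]
      · change _ * (0 : S) * _ = _
        rw [mul_zero, zero_mul, hM _ _ id]
      · change _ * (0 : S) * _ = _
        rw [mul_zero, zero_mul, hM _ _ id]
      · change _ * (0 : S) * _ = _
        rw [mul_zero, zero_mul, hM _ _ id]
      · change (q (Sum.inr (Sum.inr (Sum.inl x))) : S) * (if x = c y then 1 else 0) *
          ((q (Sum.inr (Sum.inr (Sum.inr (Sum.inr y)))) *
          (q (Sum.inr (Sum.inr (Sum.inl (c y)))))⁻¹ : Sˣ) : S) = _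
        by_cases h : x = c y
        · subst h
          rw [if_pos rfl, mul_one, ← hY, ← Units.val_mul, mul_comm (q _) (_ * _), mul_assoc,
            inv_mul_cancel, mul_one]
        · rw [if_neg h, mul_zero, zero_mul,
            hM (Sum.inl (Sum.inr (Sum.inr x))) (Sum.inr (Sum.inl y)) h]
      · change _ * (0 : S) * _ = _
        rw [mul_zero, zero_mul, hM _ _ id]
  · rcases j with (j | y)
    · change (spi_L q (Sum.inr x) : S) * spi_Z a x j * ((1 : Sˣ) : S) = _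
      rw [Units.val_one, mul_one]
      rcases x with (x | x) <;> rcases j with (y | (y | y))
      · change (q (Sum.inr (Sum.inr (Sum.inr (Sum.inl x)))) : S) * (if y = a x then 1 else 0) = _
        by_cases h : y = a x
        · subst h
          rw [if_pos rfl, mul_one, hZ]
        · rw [if_neg h, mul_zero, hM (Sum.inr (Sum.inl x)) (Sum.inl (Sum.inl y)) h]
      · change _ * (0 : S) = _
        rw [mul_zero, hM _ _ id]
      · change _ * (0 : S) = _
        rw [mul_zero, hM _ _ id]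
      · change _ * (0 : S) = _
        rw [mul_zero, hM _ _ id]
      · change _ * (0 : S) = _
        rw [mul_zero, hM _ _ id]
      · change _ * (0 : S) = _
        rw [mul_zero, hM _ _ id]
    · exact hN x y

theorem spi_inj (a : J → A) (c : J → C) (V V' : Matrix A B S) (W W' : Matrix B C S)
    (N N' : Matrix (J ⊕ m) (J ⊕ m) S) (q q' : A ⊕ B ⊕ C ⊕ J ⊕ J → Sˣ)
    (h : spi_F a c V W N q = spi_F a c V' W' N' q') :
    V = V' ∧ W = W' ∧ N = N' ∧ q = q' := by
  have h1 : ∀ i j, (spi_L q i : S) * spi_M a c V W N i j * (spi_R c q j : S) =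
      (spi_L q' i : S) * spi_M a c V' W' N' i j * (spi_R c q' j : S) := fun i j =>
    congrFun (congrFun h i) j
  have hA : ∀ x, q (Sum.inl x) = q' (Sum.inl x) := fun x => by
    have h2 := h1 (Sum.inl (Sum.inl x)) (Sum.inl (Sum.inl x))
    change (q (Sum.inl x) : S) * (1 : Matrix A A S) x x * ((1 : Sˣ) : S) =
      (q' (Sum.inl x) : S) * (1 : Matrix A A S) x x * ((1 : Sˣ) : S) at h2
    rw [one_apply_eq, Units.val_one, mul_one, mul_one, mul_one, mul_one] at h2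
    exact Units.ext h2
  have hB : ∀ x, q (Sum.inr (Sum.inl x)) = q' (Sum.inr (Sum.inl x)) := fun x => by
    have h2 := h1 (Sum.inl (Sum.inr (Sum.inl x))) (Sum.inl (Sum.inr (Sum.inl x)))
    change (q (Sum.inr (Sum.inl x)) : S) * (1 : Matrix B B S) x x * ((1 : Sˣ) : S) =
      (q' (Sum.inr (Sum.inl x)) : S) * (1 : Matrix B B S) x x * ((1 : Sˣ) : S) at h2
    rw [one_apply_eq, Units.val_one, mul_one, mul_one, mul_one, mul_one] at h2
    exact Units.ext h2
  have hC : ∀ x, q (Sum.inr (Sum.inr (Sum.inl x))) = q' (Sum.inr (Sum.inr (Sum.inl x))) :=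
    fun x => by
    have h2 := h1 (Sum.inl (Sum.inr (Sum.inr x))) (Sum.inl (Sum.inr (Sum.inr x)))
    change (q (Sum.inr (Sum.inr (Sum.inl x))) : S) * (1 : Matrix C C S) x x * ((1 : Sˣ) : S) =
      (q' (Sum.inr (Sum.inr (Sum.inl x))) : S) * (1 : Matrix C C S) x x * ((1 : Sˣ) : S) at h2
    rw [one_apply_eq, Units.val_one, mul_one, mul_one, mul_one, mul_one] at h2
    exact Units.ext h2
  have hZ : ∀ j, q (Sum.inr (Sum.inr (Sum.inr (Sum.inl j)))) =
      q' (Sum.inr (Sum.inr (Sum.inr (Sum.inl j)))) := fun j => by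
    have h2 := h1 (Sum.inr (Sum.inl j)) (Sum.inl (Sum.inl (a j)))
    change (q (Sum.inr (Sum.inr (Sum.inr (Sum.inl j)))) : S) * (if a j = a j then 1 else 0) *
      ((1 : Sˣ) : S) = (q' (Sum.inr (Sum.inr (Sum.inr (Sum.inl j)))) : S) *
      (if a j = a j then 1 else 0) * ((1 : Sˣ) : S) at h2
    rw [if_pos rfl, Units.val_one, mul_one, mul_one, mul_one, mul_one] at h2
    exact Units.ext h2
  have hY : ∀ j, q (Sum.inr (Sum.inr (Sum.inr (Sum.inr j)))) =
      q' (Sum.inr (Sum.inr (Sum.inr (Sum.inr j)))) := fun j => by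
    have h2 := h1 (Sum.inl (Sum.inr (Sum.inr (c j)))) (Sum.inr (Sum.inl j))
    change (q (Sum.inr (Sum.inr (Sum.inl (c j)))) : S) * (if c j = c j then 1 else 0) *
      ((q (Sum.inr (Sum.inr (Sum.inr (Sum.inr j)))) *
      (q (Sum.inr (Sum.inr (Sum.inl (c j)))))⁻¹ : Sˣ) : S) =
      (q' (Sum.inr (Sum.inr (Sum.inl (c j)))) : S) * (if c j = c j then 1 else 0) *
      ((q' (Sum.inr (Sum.inr (Sum.inr (Sum.inr j)))) *
      (q' (Sum.inr (Sum.inr (Sum.inl (c j)))))⁻¹ : Sˣ) : S) at h2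
    rw [if_pos rfl, mul_one, mul_one, ← Units.val_mul, ← Units.val_mul] at h2
    have h3 := Units.ext h2
    rw [mul_comm (q _) (_ * _), mul_assoc, inv_mul_cancel, mul_one, mul_comm (q' _) (_ * _),
      mul_assoc, inv_mul_cancel, mul_one] at h3
    exact h3
  have hq : q = q' := by
    funext r
    rcases r with (r | (r | (r | (r | r))))
    · exact hA r
    · exact hB r
    · exact hC r
    · exact hZ r
    · exact hY r
  subst hq
  have h2 : ∀ i j, spi_M a c V W N i j = spi_M a c V' W' N' i j := fun i j =>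
    (Units.mul_right_inj _).1 ((Units.mul_left_inj _).1 (h1 i j))
  have hV : V = V' := by
    ext x y
    exact h2 (Sum.inl (Sum.inl x)) (Sum.inl (Sum.inr (Sum.inl y)))
  have hW : W = W' := by
    ext x y
    exact h2 (Sum.inl (Sum.inr (Sum.inl x))) (Sum.inl (Sum.inr (Sum.inr y)))
  subst hV hW
  refine ⟨rfl, rfl, ?_, rfl⟩
  ext x y
  exact add_right_cancel (h2 (Sum.inr x) (Sum.inr y))

/-- the map -/
def spi_map (PV UV : A → B → Prop) (PW UW : B → C → Prop) (a : J → A) (c : J → C) [Algebra k S]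
    (p : ((Phi (LVW k PV UV PW UW) (fun j => gVW PV UV PW UW (a j) (c j)) m).gm
      (A ⊕ B ⊕ C ⊕ J ⊕ J)).obj S) :
    (MatU k ((A ⊕ (B ⊕ C)) ⊕ (J ⊕ m)) (spi_P PV PW a c) (spi_I UV UW a c)).obj S :=
  ⟨spi_F a c p.1.1.1.1.1 p.1.1.1.1.2 p.1.1.2 p.2, fun i j h => by
    change (spi_L p.2 i : S) * spi_M a c _ _ _ i j * (spi_R c p.2 j : S) = 0
    rw [spi_M_zero PV PW a c _ _ _ (fun x y => p.1.1.1.2.1 x y)
      (fun x y => p.1.1.1.2.2.2.1 x y) (fun j => p.1.2.1 j) i j h, mul_zero, zero_mul],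
    fun i j h => ((Units.isUnit _).mul (spi_M_unit UV UW a c _ _ _ (fun x y => p.1.1.1.2.2.1 x y)
      (fun x y => p.1.1.1.2.2.2.2 x y) i j h)).mul (Units.isUnit _),
    (spi_F_det a c _ _ _ _).2 p.1.2.2⟩

theorem spi_main (PV UV : A → B → Prop) (PW UW : B → C → Prop) (a : J → A) (c : J → C) :
    Nonempty ((MatU k ((A ⊕ (B ⊕ C)) ⊕ (J ⊕ m)) (spi_P PV PW a c) (spi_I UV UW a c)).Iso
      ((Phi (LVW k PV UV PW UW) (fun j => gVW PV UV PW UW (a j) (c j)) m).gm
      (A ⊕ B ⊕ C ⊕ J ⊕ J))) := by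
  refine spi_iso (fun {S} _ _ p => spi_map PV UV PW UW a c p) ?_ ?_
  · intro S S' _ _ _ _ f p
    refine Subtype.ext ?_
    ext i j
    change (spi_L (fun r => Units.map (f : S →* S') (p.2 r)) i : S') *
      spi_M a c (p.1.1.1.1.1.map f) (p.1.1.1.1.2.map f) (p.1.1.2.map f) i j *
      (spi_R c (fun r => Units.map (f : S →* S') (p.2 r)) j : S') =
      f ((spi_L p.2 i : S) * spi_M a c p.1.1.1.1.1 p.1.1.1.1.2 p.1.1.2 i j *
      (spi_R c p.2 j : S))
    rw [spi_L_map, spi_R_map, map_mul, map_mul]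
    have h := spi_M_map (f : S →+* S') a c p.1.1.1.1.1 p.1.1.1.1.2 p.1.1.2 i j
    exact congrArg₂ (· * ·) (congrArg₂ (· * ·) rfl h) rfl
  · intro S _ _
    refine ⟨fun p p' h => ?_, fun M => ?_⟩
    · have h1 := spi_inj a c _ _ _ _ _ _ _ _ (congrArg Subtype.val h)
      exact Prod.ext (Subtype.ext (Prod.ext (Subtype.ext (Prod.ext h1.1 h1.2.1)) h1.2.2.1))
        h1.2.2.2
    · have hu := M.2.2.1
      let q : A ⊕ B ⊕ C ⊕ J ⊕ J → Sˣ := fun r => match r with
        | Sum.inl x => (hu (Sum.inl (Sum.inl x)) (Sum.inl (Sum.inl x)) rfl).unit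
        | Sum.inr (Sum.inl x) =>
          (hu (Sum.inl (Sum.inr (Sum.inl x))) (Sum.inl (Sum.inr (Sum.inl x))) rfl).unit
        | Sum.inr (Sum.inr (Sum.inl x)) =>
          (hu (Sum.inl (Sum.inr (Sum.inr x))) (Sum.inl (Sum.inr (Sum.inr x))) rfl).unit
        | Sum.inr (Sum.inr (Sum.inr (Sum.inl j))) =>
          (hu (Sum.inr (Sum.inl j)) (Sum.inl (Sum.inl (a j))) rfl).unit
        | Sum.inr (Sum.inr (Sum.inr (Sum.inr j))) =>
          (hu (Sum.inl (Sum.inr (Sum.inr (c j)))) (Sum.inr (Sum.inl j)) rfl).unit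
      let V : Matrix A B S := of fun x y =>
        ((q (Sum.inl x))⁻¹ : Sˣ) * M.1 (Sum.inl (Sum.inl x)) (Sum.inl (Sum.inr (Sum.inl y)))
      let W : Matrix B C S := of fun x y => ((q (Sum.inr (Sum.inl x)))⁻¹ : Sˣ) *
        M.1 (Sum.inl (Sum.inr (Sum.inl x))) (Sum.inl (Sum.inr (Sum.inr y)))
      let N : Matrix (J ⊕ m) (J ⊕ m) S := of fun x y =>
        (((spi_L q (Sum.inr x) : Sˣ)⁻¹ : Sˣ) : S) * M.1 (Sum.inr x) (Sum.inr y) *
        (((spi_R c q (Sum.inr y) : Sˣ)⁻¹ : Sˣ) : S) - spi_E a c V W x y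
      have hF : spi_F a c V W N q = M.1 := by
        refine spi_surj PV PW a c M.1 M.2.1 q (fun x => rfl) (fun x => rfl) (fun x => rfl)
          (fun x => rfl) (fun x => rfl) V W N (fun x y => ?_) (fun x y => ?_) (fun x y => ?_)
        · exact Units.mul_inv_cancel_left _ _
        · exact Units.mul_inv_cancel_left _ _
        · change (spi_L q (Sum.inr x) : S) * ((((spi_L q (Sum.inr x) : Sˣ)⁻¹ : Sˣ) : S) *
            M.1 (Sum.inr x) (Sum.inr y) * (((spi_R c q (Sum.inr y) : Sˣ)⁻¹ : Sˣ) : S) -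
            spi_E a c V W x y + spi_E a c V W x y) * (spi_R c q (Sum.inr y) : S) = _
          rw [sub_add_cancel, mul_assoc, mul_assoc, Units.inv_mul, mul_one,
            Units.mul_inv_cancel_left]
      have hV0 : ∀ x y, ¬ PV x y → V x y = 0 := fun x y h => by
        change ((q (Sum.inl x))⁻¹ : Sˣ) *
          M.1 (Sum.inl (Sum.inl x)) (Sum.inl (Sum.inr (Sum.inl y))) = 0
        rw [M.2.1 (Sum.inl (Sum.inl x)) (Sum.inl (Sum.inr (Sum.inl y))) h, mul_zero]
      have hW0 : ∀ x y, ¬ PW x y → W x y = 0 := fun x y h => by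
        change ((q (Sum.inr (Sum.inl x)))⁻¹ : Sˣ) *
          M.1 (Sum.inl (Sum.inr (Sum.inl x))) (Sum.inl (Sum.inr (Sum.inr y))) = 0
        rw [M.2.1 (Sum.inl (Sum.inr (Sum.inl x))) (Sum.inl (Sum.inr (Sum.inr y))) h, mul_zero]
      have hV1 : ∀ x y, UV x y → IsUnit (V x y) := fun x y h =>
        (Units.isUnit _).mul (hu (Sum.inl (Sum.inl x)) (Sum.inl (Sum.inr (Sum.inl y))) h)
      have hW1 : ∀ x y, UW x y → IsUnit (W x y) := fun x y h =>
        (Units.isUnit _).mul (hu (Sum.inl (Sum.inr (Sum.inl x))) (Sum.inl (Sum.inr (Sum.inr y))) h)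
      have hN : ∀ j, N (Sum.inl j) (Sum.inl j) = -(V * W) (a j) (c j) := fun j => by
        change (((spi_L q (Sum.inr (Sum.inl j)) : Sˣ)⁻¹ : Sˣ) : S) *
          M.1 (Sum.inr (Sum.inl j)) (Sum.inr (Sum.inl j)) *
          (((spi_R c q (Sum.inr (Sum.inl j)) : Sˣ)⁻¹ : Sˣ) : S) - (V * W) (a j) (c j) = _
        rw [M.2.1 (Sum.inr (Sum.inl j)) (Sum.inr (Sum.inl j)) (fun h => h rfl), mul_zero, zero_mul,
          zero_sub]
      have hdet : IsUnit N.det := by
        rw [← spi_F_det a c V W N q, hF]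
        exact M.2.2.2
      exact ⟨(⟨(⟨(V, W), hV0, hV1, hW0, hW1⟩, N), hN, hdet⟩, q), Subtype.ext hF⟩

end spi

theorem thm_SPI (hFNB : St_FNB) : St_SPI := by
  intro k _ G hG hM A B C _ _ _ _ _ _ PV UV PW UW J _ _ a c m _ _
  obtain ⟨hiso, -, -, -, hgm, -⟩ := hFNB k G hG
  refine (hgm _ (A ⊕ B ⊕ C ⊕ J ⊕ J)).1 ?_
  obtain ⟨e⟩ := spi_main (k := k) (m := m) PV UV PW UW a c
  exact hiso _ _ e (hM _ (spi_P PV PW a c) (spi_I UV UW a c))

end Pool.Agent.KGR
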