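import Pool.Agent.KGR.St

/-!
# KGR SYA: symmetric block matrices, elimination of a diagonal entry
-/

set_option autoImplicit false

noncomputable section

namespace Pool.Agent.KGR

open Function Matrix

/-- the move of the index `none` -/
def sya_e (I K K' : Type) : I ⊕ Option K ⊕ K' ≃ I ⊕ K ⊕ Option K' where
  toFun
    | Sum.inl i => Sum.inl i
    | Sum.inr (Sum.inl none) => Sum.inr (Sum.inr none)
    | Sum.inr (Sum.inl (some l)) => Sum.inr (Sum.inl l)
    | Sum.inr (Sum.inr l) => Sum.inr (Sum.inr (some l))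
  invFun
    | Sum.inl i => Sum.inl i
    | Sum.inr (Sum.inr none) => Sum.inr (Sum.inl none)
    | Sum.inr (Sum.inl l) => Sum.inr (Sum.inl (some l))
    | Sum.inr (Sum.inr (some l)) => Sum.inr (Sum.inr l)
  left_inv := by rintro (i | (_ | l) | l) <;> rfl
  right_inv := by rintro (i | l | _ | l) <;> rfl

/-- the index `none` is put at the end -/
def sya_o (I K K' : Type) : I ⊕ Option K ⊕ K' ≃ (I ⊕ K ⊕ K') ⊕ Unit where
  toFun
    | Sum.inl i => Sum.inl (Sum.inl i)
    | Sum.inr (Sum.inl none) => Sum.inr ()
    | Sum.inr (Sum.inl (some l)) => Sum.inl (Sum.inr (Sum.inl l))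
    | Sum.inr (Sum.inr l) => Sum.inl (Sum.inr (Sum.inr l))
  invFun
    | Sum.inl (Sum.inl i) => Sum.inl i
    | Sum.inr _ => Sum.inr (Sum.inl none)
    | Sum.inl (Sum.inr (Sum.inl l)) => Sum.inr (Sum.inl (some l))
    | Sum.inl (Sum.inr (Sum.inr l)) => Sum.inr (Sum.inr l)
  left_inv := by rintro (i | (_ | l) | l) <;> rfl
  right_inv := by rintro ((i | l | l) | _) <;> rfl

theorem sya_bm1 {I K K' S : Type} [CommRing S] [DecidableEq K] (A : Matrix I I S)
    (T : Matrix I K S) (T' : Matrix I (Option K') S) (δ : K → S) (U : Matrix I (Option K) S)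
    (U' : Matrix I K' S) (ε : Option K → S) (h1 : ∀ i l, U i (some l) = T i l)
    (h2 : ∀ i, U i none = T' i none) (h3 : ∀ i l, U' i l = T' i (some l)) (h4 : ε none = 0)
    (h5 : ∀ l, ε (some l) = δ l) :
    bmat A U U' ε = (bmat A T T' δ).submatrix (sya_e I K K') (sya_e I K K') := by
  ext (i | (_ | i) | i) (j | (_ | j) | j)
  · rfl
  · exact h2 i
  · exact h1 i j
  · exact h3 i j
  · exact h2 j
  · exact h4
  · rfl
  · rfl
  · exact h1 j i
  · rfl
  · change diagonal ε (some i) (some j) = diagonal δ i j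
    rw [diagonal_apply, diagonal_apply]
    simp only [Option.some.injEq, h5]
  · rfl
  · exact h3 j i
  · rfl
  · rfl
  · rfl

theorem sya_det1 {I K K' S : Type} [CommRing S] [Fintype I] [DecidableEq I] [Fintype K]
    [DecidableEq K] [Fintype K'] [DecidableEq K'] (A : Matrix I I S)
    (T : Matrix I K S) (T' : Matrix I (Option K') S) (δ : K → S) (U : Matrix I (Option K) S)
    (U' : Matrix I K' S) (ε : Option K → S) (h1 : ∀ i l, U i (some l) = T i l)
    (h2 : ∀ i, U i none = T' i none) (h3 : ∀ i l, U' i l = T' i (some l)) (h4 : ε none = 0)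
    (h5 : ∀ l, ε (some l) = δ l) :
    (bmat A U U' ε).det = (bmat A T T' δ).det := by
  rw [sya_bm1 A T T' δ U U' ε h1 h2 h3 h4 h5, det_submatrix_equiv_self]

theorem sya_bm2 {I K K' S : Type} [CommRing S] [DecidableEq K] (A : Matrix I I S)
    (T : Matrix I (Option K) S) (T' : Matrix I K' S) (δ : Option K → S) :
    bmat A T T' δ = (fromBlocks (bmat A (T.submatrix id some) T' fun l => δ (some l))
      (replicateCol Unit (Sum.elim (fun i => T i none) fun _ => 0))
      (replicateRow Unit (Sum.elim (fun i => T i none) fun _ => 0))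
      (of fun _ _ => δ none)).submatrix (sya_o I K K') (sya_o I K K') := by
  ext (i | (_ | i) | i) (j | (_ | j) | j)
  · rfl
  · rfl
  · rfl
  · rfl
  · rfl
  · rfl
  · rfl
  · rfl
  · rfl
  · rfl
  · change diagonal δ (some i) (some j) = diagonal (fun l => δ (some l)) i j
    rw [diagonal_apply, diagonal_apply]
    simp only [Option.some.injEq]
  · rfl
  · rfl
  · rfl
  · rfl
  · rfl

theorem sya_det2 {I K K' S : Type} [CommRing S] [Fintype I] [DecidableEq I] [Fintype K]
    [DecidableEq K] [Fintype K'] [DecidableEq K'] (A B : Matrix I I S)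
    (T : Matrix I (Option K) S) (T' : Matrix I K' S) (δ : Option K → S) (d : Sˣ)
    (hd : (d : S) = δ none) (hB : ∀ i j, B i j = A i j - T i none * ((d⁻¹ : Sˣ) : S) * T j none) :
    (bmat A T T' δ).det = d * (bmat B (T.submatrix id some) T' fun l => δ (some l)).det := by
  rw [sya_bm2 A T T' δ, det_submatrix_equiv_self]
  let _ : Invertible (of fun (_ : Unit) (_ : Unit) => δ none) :=
    ⟨of fun _ _ => ((d⁻¹ : Sˣ) : S), by
      ext i j
      simp [mul_apply, ← hd], by
      ext i j
      simp [mul_apply, ← hd]⟩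
  rw [det_fromBlocks₂₂]
  congr 1
  · rw [det_unique, hd]
    rfl
  · congr 1
    ext (i | i) (j | j)
    · change A i j - _ = B i j
      rw [hB]
      congr 1
      rw [mul_apply, Fintype.sum_unique, mul_apply, Fintype.sum_unique]
      rfl
    · rcases j with j | j
      · change T i (some j) - _ = T i (some j)
        rw [mul_apply, Fintype.sum_unique]
        change T i (some j) - _ * 0 = T i (some j)
        ring
      · change T' i j - _ = T' i j
        rw [mul_apply, Fintype.sum_unique]
        change T' i j - _ * 0 = T' i j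
        ring
    · rcases i with i | i
      · change T j (some i) - _ = T j (some i)
        rw [mul_apply, Fintype.sum_unique, mul_apply, Fintype.sum_unique]
        change T j (some i) - 0 * _ * _ = T j (some i)
        ring
      · change T' j i - _ = T' j i
        rw [mul_apply, Fintype.sum_unique, mul_apply, Fintype.sum_unique]
        change T' j i - 0 * _ * _ = T' j i
        ring
    · rw [Matrix.sub_apply, mul_apply, Fintype.sum_unique, mul_apply, Fintype.sum_unique]
      change _ - 0 * _ * _ = _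
      rw [zero_mul, zero_mul, sub_zero]
      rfl

/-- the first isomorphism, forward -/
def sya_f1 (k : Type) [CommRing k] (I K K' : Type) [Fintype I] [DecidableEq I]
    [Fintype K] [DecidableEq K] [Fintype K'] [DecidableEq K'] (P : I → K → Prop)
    (P' : I → Option K' → Prop) {S : Type} [CommRing S] [Algebra k S]
    (x : ((BF k I (Option K) K' (fun i l => l.elim (P' i none) (P i)) fun i l => P' i (some l)).zer
      (BF.dl _ _ none)).obj S) : (BF k I K (Option K') P P').obj S :=
  ⟨((x.1.1.1.1, of fun i l => x.1.1.1.2 i (some l)),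
    (of fun i l => l.elim (x.1.1.1.2 i none) (x.1.1.2.1 i)), fun l => x.1.1.2.2 (some l)),
    x.1.2.1, fun i l h => x.1.2.2.1 i (some l) h, fun i l h => by
      rcases l with _ | l
      · exact x.1.2.2.1 i none h
      · exact x.1.2.2.2.1 i l h, by
      have h := x.1.2.2.2.2
      rw [sya_det1 (I := I) (K := K) (K' := K') x.1.1.1.1 (of fun i l => x.1.1.1.2 i (some l))
        (of fun i l => l.elim (x.1.1.1.2 i none) (x.1.1.2.1 i)) (fun l => x.1.1.2.2 (some l))
        x.1.1.1.2 x.1.1.2.1 x.1.1.2.2 (fun _ _ => rfl) (fun _ => rfl) (fun _ _ => rfl) x.2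
        (fun _ => rfl)] at h
      exact h⟩

/-- the first isomorphism, backward -/
def sya_g1 (k : Type) [CommRing k] (I K K' : Type) [Fintype I] [DecidableEq I]
    [Fintype K] [DecidableEq K] [Fintype K'] [DecidableEq K'] (P : I → K → Prop)
    (P' : I → Option K' → Prop) {S : Type} [CommRing S] [Algebra k S]
    (y : (BF k I K (Option K') P P').obj S) :
    ((BF k I (Option K) K' (fun i l => l.elim (P' i none) (P i)) fun i l => P' i (some l)).zer
      (BF.dl _ _ none)).obj S :=
  ⟨⟨((y.1.1.1, of fun i l => l.elim (y.1.2.1 i none) (y.1.1.2 i)),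
    (of fun i l => y.1.2.1 i (some l)), fun l => l.elim 0 y.1.2.2),
    y.2.1, fun i l h => by
      rcases l with _ | l
      · exact y.2.2.2.1 i none h
      · exact y.2.2.1 i l h, fun i l h => y.2.2.2.1 i (some l) h, by
      have h := y.2.2.2.2
      rw [← sya_det1 (I := I) (K := K) (K' := K') y.1.1.1 y.1.1.2 y.1.2.1 y.1.2.2
        (of fun i l => l.elim (y.1.2.1 i none) (y.1.1.2 i)) (of fun i l => y.1.2.1 i (some l))
        (fun l => l.elim 0 y.1.2.2) (fun _ _ => rfl) (fun _ => rfl) (fun _ _ => rfl) rfl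
        (fun _ => rfl)] at h
      exact h⟩, rfl⟩

theorem sya_iso1 (k : Type) [CommRing k] (I K K' : Type) [Fintype I] [DecidableEq I]
    [Fintype K] [DecidableEq K] [Fintype K'] [DecidableEq K'] (P : I → K → Prop)
    (P' : I → Option K' → Prop) : Nonempty (Fn.Iso
    ((BF k I (Option K) K' (fun i l => l.elim (P' i none) (P i)) fun i l => P' i (some l)).zer
      (BF.dl _ _ none)) (BF k I K (Option K') P P')) :=
  ⟨{ fwd := fun x => sya_f1 k I K K' P P' x
     inv := fun y => sya_g1 k I K K' P P' y
     left := fun x => by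
      apply Subtype.ext
      apply Subtype.ext
      refine Prod.ext (Prod.ext rfl ?_) (Prod.ext rfl ?_)
      · ext i l
        rcases l with _ | l <;> rfl
      · funext l
        rcases l with _ | l
        · exact x.2.symm
        · rfl
     right := fun y => by
      apply Subtype.ext
      refine Prod.ext (Prod.ext rfl rfl) (Prod.ext ?_ rfl)
      ext i l
      rcases l with _ | l <;> rfl
     nat := fun f x => by
      apply Subtype.ext
      refine Prod.ext (Prod.ext rfl rfl) (Prod.ext ?_ rfl)
      ext i l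
      rcases l with _ | l <;> rfl }⟩

theorem sya_inv {S : Type} [CommRing S] (a : S) (h : IsUnit a) (u : Sˣ) (hu : (u : S) = a) :
    ((h.unit⁻¹ : Sˣ) : S) = ((u⁻¹ : Sˣ) : S) := by
  have e : h.unit = u := Units.ext hu.symm
  rw [e]

theorem sya_r {S : Type} [CommRing S] (a b c w : S) (h : IsUnit w) (u : Sˣ) (hu : (u : S) = w) :
    a + b * ((u⁻¹ : Sˣ) : S) * c - b * ((h.unit⁻¹ : Sˣ) : S) * c = a := by
  rw [sya_inv w h u hu]
  exact add_sub_cancel_right _ _

theorem sya_n {k S S' : Type} [CommRing k] [CommRing S] [CommRing S'] [Algebra k S]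
    [Algebra k S'] (f : S →ₐ[k] S') (a b c w : S) (h : IsUnit w) (h' : IsUnit (f w)) :
    f a - f b * ((h'.unit⁻¹ : S'ˣ) : S') * f c = f (a - b * ((h.unit⁻¹ : Sˣ) : S) * c) := by
  rw [sya_inv (f w) h' (Units.map (f : S →* S') h.unit) rfl, map_sub, map_mul, map_mul]
  rfl

/-- the second isomorphism, forward -/
def sya_f2 (k : Type) [CommRing k] (I K K' : Type) [Fintype I] [DecidableEq I]
    [Fintype K] [DecidableEq K] [Fintype K'] [DecidableEq K'] (P : I → Option K → Prop)
    (P' : I → K' → Prop) {S : Type} [CommRing S] [Algebra k S]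
    (x : ((BF k I (Option K) K' P P').unt (BF.dl _ _ none)).obj S) :
    (((BF k I K K' (fun i l => P i (some l)) P').aff {i // P i none}).gm Unit).obj S :=
  ((⟨((of fun i j => x.1.1.1.1 i j - x.1.1.1.2 i none * ((x.2.unit⁻¹ : Sˣ) : S) *
      x.1.1.1.2 j none, of fun i l => x.1.1.1.2 i (some l)), x.1.1.2.1,
      fun l => x.1.1.2.2 (some l)), fun i j => by
        change x.1.1.1.1 i j - x.1.1.1.2 i none * ((x.2.unit⁻¹ : Sˣ) : S) * x.1.1.1.2 j none =
          x.1.1.1.1 j i - x.1.1.1.2 j none * ((x.2.unit⁻¹ : Sˣ) : S) * x.1.1.1.2 i none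
        rw [x.1.2.1 i j]
        ring, fun i l h => x.1.2.2.1 i (some l) h, x.1.2.2.2.1, by
        have h := x.1.2.2.2.2
        rw [sya_det2 x.1.1.1.1 (of fun i j => x.1.1.1.1 i j - x.1.1.1.2 i none *
          ((x.2.unit⁻¹ : Sˣ) : S) * x.1.1.1.2 j none) x.1.1.1.2 x.1.1.2.1 x.1.1.2.2 x.2.unit rfl
          (fun _ _ => rfl), Units.isUnit_units_mul] at h
        exact h⟩, fun i => x.1.1.1.2 i.1 none), fun _ => x.2.unit)

open Classical in
/-- the vector `t` -/
def sya_t {I S : Type} [Zero S] (P : I → Prop) (t : {i // P i} → S) (i : I) : S :=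
  if h : P i then t ⟨i, h⟩ else 0

/-- the second isomorphism, backward -/
def sya_g2 (k : Type) [CommRing k] (I K K' : Type) [Fintype I] [DecidableEq I]
    [Fintype K] [DecidableEq K] [Fintype K'] [DecidableEq K'] (P : I → Option K → Prop)
    (P' : I → K' → Prop) {S : Type} [CommRing S] [Algebra k S]
    (y : (((BF k I K K' (fun i l => P i (some l)) P').aff {i // P i none}).gm Unit).obj S) :
    ((BF k I (Option K) K' P P').unt (BF.dl _ _ none)).obj S :=
  ⟨⟨((of fun i j => y.1.1.1.1.1 i j + sya_t (fun i => P i none) y.1.2 i *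
      (((y.2 ())⁻¹ : Sˣ) : S) * sya_t (fun i => P i none) y.1.2 j,
      of fun i l => l.elim (sya_t (fun i => P i none) y.1.2 i) (y.1.1.1.1.2 i)), y.1.1.1.2.1,
      fun l => l.elim (y.2 () : S) y.1.1.1.2.2), fun i j => by
        change y.1.1.1.1.1 i j + _ * _ * _ = y.1.1.1.1.1 j i + _ * _ * _
        rw [y.1.1.2.1 i j]
        ring, fun i l h => by
        rcases l with _ | l
        · exact dif_neg h
        · exact y.1.1.2.2.1 i l h, y.1.1.2.2.2.1, by
        have h := y.1.1.2.2.2.2
        rw [sya_det2 _ y.1.1.1.1.1 _ _ _ (y.2 ()) rfl (fun i j => by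
          simp), Units.isUnit_units_mul]
        exact h⟩, (y.2 ()).isUnit⟩

theorem sya_iso2 (k : Type) [CommRing k] (I K K' : Type) [Fintype I] [DecidableEq I]
    [Fintype K] [DecidableEq K] [Fintype K'] [DecidableEq K'] (P : I → Option K → Prop)
    (P' : I → K' → Prop) : Nonempty (Fn.Iso
    ((BF k I (Option K) K' P P').unt (BF.dl _ _ none))
    (((BF k I K K' (fun i l => P i (some l)) P').aff {i // P i none}).gm Unit)) :=
  ⟨{ fwd := fun x => sya_f2 k I K K' P P' x
     inv := fun y => sya_g2 k I K K' P P' y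
     left := fun x => by
      have ht : ∀ i, sya_t (fun i => P i none) (fun i => x.1.1.1.2 i.1 none) i =
          x.1.1.1.2 i none := by
        intro i
        unfold sya_t
        split_ifs with h
        · rfl
        · exact (x.1.2.2.1 i none h).symm
      apply Subtype.ext
      apply Subtype.ext
      refine Prod.ext (Prod.ext ?_ ?_) (Prod.ext rfl ?_)
      · ext i j
        change x.1.1.1.1 i j - x.1.1.1.2 i none * ((x.2.unit⁻¹ : _) : _) * x.1.1.1.2 j none +
          sya_t (fun i => P i none) (fun i => x.1.1.1.2 i.1 none) i * ((x.2.unit⁻¹ : _) : _) *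
          sya_t (fun i => P i none) (fun i => x.1.1.1.2 i.1 none) j = x.1.1.1.1 i j
        rw [ht, ht]
        ring
      · ext i l
        rcases l with _ | l
        · exact ht i
        · rfl
      · funext l
        rcases l with _ | l <;> rfl
     right := fun y => by
      have ht : ∀ i : {i // P i none}, sya_t (fun i => P i none) y.1.2 i.1 = y.1.2 i := by
        intro i
        unfold sya_t
        rw [dif_pos i.2]
      have hu : ∀ h : IsUnit ((y.2 ()).1), h.unit = y.2 () := fun h => Units.ext rfl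
      refine Prod.ext (Prod.ext (Subtype.ext (Prod.ext (Prod.ext ?_ rfl) rfl)) ?_) ?_
      · ext i j
        exact sya_r _ _ _ _ _ (y.2 ()) rfl
      · funext i
        exact ht i
      · funext i
        exact Units.ext rfl
     nat := fun f x => by
      refine Prod.ext (Prod.ext (Subtype.ext (Prod.ext (Prod.ext ?_ rfl) rfl)) rfl) ?_
      · ext i j
        exact sya_n f _ _ _ _ _ _
      · funext i
        exact Units.ext rfl }⟩

theorem thm_SYA : St_SYA := by
  intro k _ I K K' _ _ _ _ _ _
  exact ⟨fun P P' => sya_iso1 k I K K' P P', fun P P' => sya_iso2 k I K K' P P'⟩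

end Pool.Agent.KGR
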