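import Pool.Agent.KGR.St

/-!
# KGR SYB: symmetric block matrices, the extreme cases (helper41)
-/

set_option autoImplicit false

noncomputable section

namespace Pool.Agent.KGR

open Function Matrix

/-- the exchange matrix -/
def syb_J (I S : Type) [CommRing S] [DecidableEq I] : Matrix (I ⊕ I) (I ⊕ I) S :=
  fromBlocks (0 : Matrix I I S) (1 : Matrix I I S) (1 : Matrix I I S) (0 : Matrix I I S)

theorem syb_det {I S : Type} [CommRing S] [Fintype I] [DecidableEq I] (A B : Matrix I I S) :
    IsUnit (fromBlocks A B Bᵀ 0).det ↔ IsUnit B.det := by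
  have h1 : fromBlocks A B Bᵀ 0 * syb_J I S = fromBlocks B A 0 Bᵀ := by
    rw [syb_J, fromBlocks_multiply]
    simp only [Matrix.mul_zero, Matrix.mul_one, zero_add, add_zero]
  have h2 : syb_J I S * syb_J I S = 1 := by
    rw [syb_J, fromBlocks_multiply]
    simp only [Matrix.mul_zero, Matrix.mul_one, zero_add, add_zero, fromBlocks_one]
  have h3 : IsUnit (syb_J I S).det := by
    have h5 := congrArg det h2
    rw [det_mul, det_one] at h5
    exact IsUnit.of_mul_eq_one _ h5
  have h4 := congrArg det h1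
  rw [det_mul, det_fromBlocks_zero₂₁, det_transpose] at h4
  constructor
  · intro h
    have h5 := h.mul h3
    rw [h4] at h5
    exact isUnit_of_mul_isUnit_left h5
  · intro h
    have h5 := h.mul h
    rw [← h4] at h5
    exact isUnit_of_mul_isUnit_left h5

theorem syb_bm1 {I K S : Type} [CommRing S] [DecidableEq K] (A : Matrix I I S)
    (T : Matrix I K S) (T' : Matrix I PEmpty S) (δ : K → S) :
    fromBlocks A T Tᵀ (diagonal δ) = (bmat A T T' δ).submatrix
      (Equiv.sumCongr (Equiv.refl I) (Equiv.sumEmpty K PEmpty).symm)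
      (Equiv.sumCongr (Equiv.refl I) (Equiv.sumEmpty K PEmpty).symm) := by
  ext (i | i) (j | j) <;> rfl

theorem syb_bm2 {I S : Type} [CommRing S] (A : Matrix I I S)
    (T : Matrix I PEmpty S) (T' : Matrix I I S) (δ : PEmpty → S) :
    fromBlocks A T' T'ᵀ 0 = (bmat A T T' δ).submatrix
      (Equiv.sumCongr (Equiv.refl I) (Equiv.emptySum PEmpty I).symm)
      (Equiv.sumCongr (Equiv.refl I) (Equiv.emptySum PEmpty I).symm) := by
  ext (i | i) (j | j) <;> rfl

theorem syb_dt1 {I K S : Type} [CommRing S] [Fintype I] [DecidableEq I] [Fintype K]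
    [DecidableEq K] (A : Matrix I I S) (T : Matrix I K S) (T' : Matrix I PEmpty S) (δ : K → S) :
    (fromBlocks A T Tᵀ (diagonal δ)).det = (bmat A T T' δ).det := by
  rw [syb_bm1 A T T' δ, det_submatrix_equiv_self]

theorem syb_dt2 {I S : Type} [CommRing S] [Fintype I] [DecidableEq I] (A : Matrix I I S)
    (T : Matrix I PEmpty S) (T' : Matrix I I S) (δ : PEmpty → S) :
    IsUnit (bmat A T T' δ).det ↔ IsUnit T'.det := by
  rw [← syb_det A T', syb_bm2 A T T' δ, det_submatrix_equiv_self]

/-- the pattern -/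
def syb_E {I K : Type} (P : I → K → Prop) : I ⊕ K → I ⊕ K → Prop := fun x y => match x, y with
  | Sum.inl _, Sum.inl _ => True
  | Sum.inl i, Sum.inr l => P i l
  | Sum.inr l, Sum.inl i => P i l
  | Sum.inr l, Sum.inr l' => l = l'

theorem syb_bl {I K S : Type} [CommRing S] [DecidableEq K] (P : I → K → Prop)
    (M : Matrix (I ⊕ K) (I ⊕ K) S) (h1 : ∀ i j, M i j = M j i)
    (h2 : ∀ i j, ¬ syb_E P i j → M i j = 0) :
    fromBlocks (of fun i j => M (Sum.inl i) (Sum.inl j)) (of fun i l => M (Sum.inl i) (Sum.inr l))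
      (of fun i l => M (Sum.inl i) (Sum.inr l))ᵀ (diagonal fun l => M (Sum.inr l) (Sum.inr l)) =
      M := by
  ext (i | i) (j | j)
  · rfl
  · rfl
  · exact h1 _ _
  · change diagonal (fun l => M (Sum.inr l) (Sum.inr l)) i j = _
    rw [diagonal_apply]
    split_ifs with h
    · rw [h]
    · exact (h2 (Sum.inr i) (Sum.inr j) h).symm

/-- [SYB] (1) -/
def syb_1 (k : Type) [CommRing k] (I K : Type) [Fintype I] [DecidableEq I]
    [Fintype K] [DecidableEq K] (P : I → K → Prop) (P' : I → PEmpty → Prop) :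
    Fn.Iso (SymU k (I ⊕ K) (syb_E P)) (BF k I K PEmpty P P') where
  fwd M := ⟨((of fun i j => M.1 (Sum.inl i) (Sum.inl j), of fun i l => M.1 (Sum.inl i) (Sum.inr l)),
    (of fun _ x => x.elim), fun l => M.1 (Sum.inr l) (Sum.inr l)), fun i j => M.2.1 _ _,
    fun i l h => M.2.2.1 (Sum.inl i) (Sum.inr l) h, fun _ x => x.elim, by
      rw [← syb_dt1, syb_bl P M.1 M.2.1 M.2.2.1]
      exact M.2.2.2⟩
  inv p := ⟨fromBlocks p.1.1.1 p.1.1.2 p.1.1.2ᵀ (diagonal p.1.2.2), by
      rintro (i | i) (j | j)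
      · exact p.2.1 i j
      · rfl
      · rfl
      · change diagonal p.1.2.2 i j = diagonal p.1.2.2 j i
        rw [diagonal_apply, diagonal_apply]
        by_cases h : i = j
        · rw [if_pos h, if_pos h.symm, h]
        · rw [if_neg h, if_neg (Ne.symm h)], by
      rintro (i | i) (j | j) h
      · exact absurd trivial h
      · exact p.2.2.1 i j h
      · exact p.2.2.1 j i h
      · exact diagonal_apply_ne _ h, by
      rw [syb_dt1 _ _ p.1.2.1]
      exact p.2.2.2.2⟩
  left M := Subtype.ext (syb_bl P M.1 M.2.1 M.2.2.1)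
  right p := by
    apply Subtype.ext
    refine Prod.ext (Prod.ext rfl rfl) (Prod.ext ?_ ?_)
    · funext i x
      exact x.elim
    · funext l
      exact diagonal_apply_eq _ _
  nat f M := by
    apply Subtype.ext
    refine Prod.ext (Prod.ext rfl rfl) (Prod.ext ?_ rfl)
    funext i x
    exact x.elim

/-- [SYB] (2) -/
def syb_2 (k : Type) [CommRing k] (I : Type) [Fintype I] [DecidableEq I]
    (P : I → PEmpty → Prop) (P' : I → I → Prop) :
    Fn.Iso (BF k I PEmpty I P P') ((MatU k I P' fun _ _ => False).aff (Sym2 I)) where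
  fwd p := (⟨p.1.2.1, p.2.2.2.1, fun _ _ h => h.elim, (syb_dt2 _ _ _ _).1 p.2.2.2.2⟩,
    fun z => Sym2.lift ⟨fun i j => p.1.1.1 i j, p.2.1⟩ z)
  inv q := ⟨((of fun i j => q.2 s(i, j), of fun _ x => x.elim), q.1.1, fun x => x.elim),
    fun i j => congrArg q.2 Sym2.eq_swap, fun _ x => x.elim, q.1.2.1,
    (syb_dt2 _ _ _ _).2 q.1.2.2.2⟩
  left p := by
    apply Subtype.ext
    refine Prod.ext (Prod.ext rfl ?_) (Prod.ext rfl ?_)
    · funext i x
      exact x.elim
    · funext x
      exact x.elim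
  right q := by
    refine Prod.ext rfl ?_
    funext z
    induction z using Sym2.ind with
    | _ i j => rfl
  nat f p := by
    refine Prod.ext rfl ?_
    funext z
    induction z using Sym2.ind with
    | _ i j => rfl

/-- [SYB] symmetric block matrices, the extreme cases -/
theorem thm_SYB : St_SYB := by
  intro k _ I K _ _ _ _
  exact ⟨fun P P' => ⟨syb_1 k I K P P'⟩, fun P P' => ⟨syb_2 k I P P'⟩⟩

end Pool.Agent.KGR
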