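import Pool.Agent.KGR.St3

/-!
# KGR, SYF: graph polynomials, the theorem for rings
-/

set_option autoImplicit false

noncomputable section

namespace Pool.Agent.KGR

open Function Matrix

theorem syf_det {ι V : Type} (a b : ι → Option V) {S : Type} [CommRing S] (x : ι → S)
    (d d' : DecidableEq (ι ⊕ V)) (f f' : Fintype (ι ⊕ V)) (i i' : DecidableEq ι)
    (j j' : DecidableEq V) :
    @Matrix.det (ι ⊕ V) d f S _ (@grm ι V i j a b S _ x) =
      @Matrix.det (ι ⊕ V) d' f' S _ (@grm ι V i' j' a b S _ x) := by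
  cases Subsingleton.elim d d'
  cases Subsingleton.elim f f'
  cases Subsingleton.elim i i'
  cases Subsingleton.elim j j'
  rfl

theorem syf_gdet (k : Type) [CommRing k] {n : ℕ} (Γ : SimpleGraph (Fin (n + 1)))
    [Fintype Γ.edgeSet] [DecidableEq Γ.edgeSet] :
    (grm (ga Γ) (gb Γ) (MvPolynomial.X : Γ.edgeSet → MvPolynomial Γ.edgeSet k)).det
      = gdet k Γ := by
  unfold gdet gmat
  exact syf_det _ _ _ _ _ _ _ _ _ _ _

/-- composition of isomorphisms -/
def syf_trans {k : Type} [CommRing k] {F F' F'' : Fn k} (e : F.Iso F') (e' : F'.Iso F'') :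
    F.Iso F'' where
  fwd x := e'.fwd (e.fwd x)
  inv x := e.inv (e'.inv x)
  left x := by rw [e'.left, e.left]
  right x := by rw [e.right, e'.right]
  nat f x := by rw [e.nat, e'.nat]

/-- products with affine spaces -/
def syf_aff {k : Type} [CommRing k] {F F' : Fn k} (e : F.Iso F') (σ : Type) :
    (F.aff σ).Iso (F'.aff σ) where
  fwd x := (e.fwd x.1, x.2)
  inv x := (e.inv x.1, x.2)
  left x := Prod.ext (e.left x.1) rfl
  right x := Prod.ext (e.right x.1) rfl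
  nat f x := Prod.ext (e.nat f x.1) rfl

theorem syf_noeth {R : Type} [CommRing R] [IsNoetherianRing R] (s : R) :
    IsNoetherianRing (Localization.Away s) :=
  IsLocalization.isNoetherianRing (Submonoid.powers s) _ inferInstance

/-- the graph functor of a simple graph is good -/
theorem syf_simple (hREP : St_REP) (k : Type) [CommRing k] [IsNoetherianRing k]
    (G : (R : Type) → [CommRing R] → Prop)
    (H : ∀ (n : ℕ) (Γ : SimpleGraph (Fin (n + 1))), G (Localization.Away (gdet k Γ)))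
    (n : ℕ) (Γ : SimpleGraph (Fin (n + 1))) [Fintype Γ.edgeSet] [DecidableEq Γ.edgeSet] :
    (SymF k (ga Γ) (gb Γ) fun _ => False).Good G := by
  obtain ⟨u, hu⟩ := ((hREP k).1 Γ.edgeSet (Fin n) (ga Γ) (gb Γ)).2
  refine ⟨_, _, _, u, syf_noeth _, hu, ?_⟩
  have h := H n Γ
  rw [← syf_gdet k Γ] at h
  exact h

/-- all graph functors are good -/
theorem syf_good (hFNB : St_FNB) (hSER : St_SER) (hSIM : St_SIM) (hREP : St_REP)
    (k : Type) [CommRing k] [IsNoetherianRing k]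
    (G : (R : Type) → [CommRing R] → Prop) (hC : ClsQ G)
    (H : ∀ (n : ℕ) (Γ : SimpleGraph (Fin (n + 1))), G (Localization.Away (gdet k Γ)))
    (ι V : Type) [Fintype ι] [DecidableEq ι] [Fintype V] [DecidableEq V] (a b : ι → Option V) :
    (SymF k a b fun _ => False).Good G := by
  obtain ⟨ι', V', i1, i2, i3, i4, a', b', σ, hσ, hs, ⟨e⟩⟩ := hSER k ι V a b
  obtain ⟨n, Γ, j1, j2, ⟨e'⟩⟩ := hSIM k ι' V' a' b' hs
  have h1 : (SymF k (ga Γ) (gb Γ) fun _ => False).Good G := syf_simple hREP k G H n Γ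
  have h2 := (hFNB k G hC).1 _ _ (syf_trans e' e) h1
  exact ((hFNB k G hC).2.2.2.1 _ σ).1 h2

theorem thm_SYF (hFNA : St_FNA) (hFNB : St_FNB) (hSER : St_SER) (hSIM : St_SIM)
    (hREP : St_REP) (hTOP : St_TOP) (hLOO : St_LOO) (hGML : St_GML) : St_SYF := by
  classical
  constructor
  · intro k _ _ G hC hE H n Γ
    have hall := (hTOP k G hC hE fun ι V _ _ _ _ a b =>
      syf_good hFNB hSER hSIM hREP k G hC H ι V a b).2
    obtain ⟨R, _, _, u, hN, hu, hG⟩ := hall Γ.edgeSet (Fin n) (ga Γ) (gb Γ) fun _ => False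
    obtain ⟨u', hu'⟩ := ((hREP k).1 Γ.edgeSet (Fin n) (ga Γ) (gb Γ)).1
    obtain ⟨e⟩ := (hFNA k).1 _ R _ u u' hu hu'
    have : IsNoetherianRing (Localization.Away
        (lpm (ga Γ) (gb Γ) (MvPolynomial.X : Γ.edgeSet → MvPolynomial Γ.edgeSet k)).det) :=
      syf_noeth _
    have h := hC.iso R _ e.toRingEquiv hG
    rw [(hREP k).2 n Γ] at h
    exact h
  · intro k _ n Γ
    obtain ⟨e1⟩ := hLOO k Γ.edgeSet (Fin n) (ga Γ) (gb Γ)
    obtain ⟨ι', V', i1, i2, i3, i4, a', b', σ, hσ, hs, ⟨e2⟩⟩ :=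
      hSER k (Option Γ.edgeSet) (Fin n) (fun e : Option Γ.edgeSet => e.elim none (ga Γ))
        (fun e : Option Γ.edgeSet => e.elim none (gb Γ))
    obtain ⟨n', Γ', j1, j2, ⟨e3⟩⟩ := hSIM k ι' V' a' b' hs
    refine ⟨n', Γ', σ, hσ, ?_⟩
    obtain ⟨u, hu⟩ := ((hREP k).1 Γ.edgeSet (Fin n) (ga Γ) (gb Γ)).2
    obtain ⟨u', hu'⟩ := ((hREP k).1 Γ'.edgeSet (Fin n') (ga Γ') (gb Γ')).2
    have e4 := syf_trans e3 (syf_trans e2 (syf_aff e1 σ))
    obtain ⟨u'', hu''⟩ := (hFNA k).2.1 _ _ e4 _ u' hu'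
    have h := hGML k _ _ u hu σ _ u'' hu''
    rw [syf_gdet k Γ, syf_gdet k Γ'] at h
    exact h

end Pool.Agent.KGR
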