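import Pool.Agent.KGR.St

/-!
# KGR, module SYM (helper1): from symmetric patterns to patterns
-/

set_option autoImplicit false

noncomputable section

namespace Pool.Agent.KGR

open Function Matrix

variable {k : Type} [CommRing k]

/-- the inverse isomorphism -/
def sym_symm {F F' : Fn k} (e : F.Iso F') : F'.Iso F where
  fwd := e.inv
  inv := e.fwd
  left := e.right
  right := e.left
  nat f x := by
    have h1 := e.nat f (e.inv x)
    rw [e.right] at h1
    rw [← h1, e.left]

/-- reindexing of symmetric matrices -/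
def sym_reS {V W : Type} [Fintype V] [DecidableEq V] [Fintype W] [DecidableEq W] (e : V ≃ W)
    (E : V → V → Prop) : (SymU k W fun i j => E (e.symm i) (e.symm j)).Iso (SymU k V E) where
  fwd M := ⟨M.1.submatrix e e, fun i j => M.2.1 _ _, fun i j h => M.2.2.1 _ _ (by
    show ¬ E (e.symm (e i)) (e.symm (e j))
    rw [e.symm_apply_apply, e.symm_apply_apply]
    exact h), by
    rw [det_submatrix_equiv_self]
    exact M.2.2.2⟩
  inv M := ⟨M.1.submatrix e.symm e.symm, fun i j => M.2.1 _ _, fun i j h => M.2.2.1 _ _ h, by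
    rw [det_submatrix_equiv_self]
    exact M.2.2.2⟩
  left M := Subtype.ext (by
    ext i j
    show M.1 (e (e.symm i)) (e (e.symm j)) = M.1 i j
    rw [e.apply_symm_apply, e.apply_symm_apply])
  right M := Subtype.ext (by
    ext i j
    show M.1 (e.symm (e i)) (e.symm (e j)) = M.1 i j
    rw [e.symm_apply_apply, e.symm_apply_apply])
  nat _ _ := rfl

/-- reindexing of matrices -/
def sym_reM {V W : Type} [Fintype V] [DecidableEq V] [Fintype W] [DecidableEq W] (e : V ≃ W)
    (P : V → V → Prop) : (MatU k W (fun i j => P (e.symm i) (e.symm j)) fun _ _ => False).Iso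
      (MatU k V P fun _ _ => False) where
  fwd M := ⟨M.1.submatrix e e, fun i j h => M.2.1 _ _ (by
    show ¬ P (e.symm (e i)) (e.symm (e j))
    rw [e.symm_apply_apply, e.symm_apply_apply]
    exact h), fun i j h => h.elim, by
    rw [det_submatrix_equiv_self]
    exact M.2.2.2⟩
  inv M := ⟨M.1.submatrix e.symm e.symm, fun i j h => M.2.1 _ _ h, fun i j h => h.elim, by
    rw [det_submatrix_equiv_self]
    exact M.2.2.2⟩
  left M := Subtype.ext (by
    ext i j
    show M.1 (e (e.symm i)) (e (e.symm j)) = M.1 i j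
    rw [e.apply_symm_apply, e.apply_symm_apply])
  right M := Subtype.ext (by
    ext i j
    show M.1 (e.symm (e i)) (e.symm (e j)) = M.1 i j
    rw [e.symm_apply_apply, e.symm_apply_apply])
  nat _ _ := rfl

theorem thm_SYM (hFNB : St_FNB) (hSYA : St_SYA) (hSYB : St_SYB) : St_SYM := by
  intro k _ G hG hS
  obtain ⟨f1, f2, -, f4, f5, -⟩ := hFNB k G hG
  -- arbitrary index types
  have hS' : ∀ (V : Type) [Fintype V] [DecidableEq V] (E : V → V → Prop), (∀ i, E i i) →
      (∀ i j, E i j → E j i) → (SymU k V E).Good G := by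
    intro V _ _ E h1 h2
    exact f1 _ _ (sym_reS (Fintype.equivFin V) E) (hS _ _ (fun i => h1 _) fun i j h => h2 _ _ h)
  -- block matrices
  have key : ∀ n : ℕ, ∃ (K' : Type) (_ : Fintype K') (_ : DecidableEq K'), Fintype.card K' = n ∧
      ∀ (I K : Type) [Fintype I] [DecidableEq I] [Fintype K] [DecidableEq K] (P : I → K → Prop)
        (P' : I → K' → Prop), (BF k I K K' P P').Good G := by
    intro n
    induction n with
    | zero =>
      refine ⟨PEmpty, inferInstance, inferInstance, rfl, ?_⟩
      intro I K _ _ _ _ P P'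
      obtain ⟨e⟩ := (hSYB k I K).1 P P'
      refine f1 _ _ e (hS' (I ⊕ K) _ ?_ ?_)
      · rintro (i | i)
        · trivial
        · rfl
      · rintro (i | i) (j | j) h
        · trivial
        · exact h
        · exact h
        · exact Eq.symm h
    | succ n ih =>
      obtain ⟨K', iF, iD, hn, ih⟩ := ih
      refine ⟨Option K', inferInstance, inferInstance, ?_, ?_⟩
      · rw [Fintype.card_option, hn]
      · intro I K _ _ _ _ P P'
        obtain ⟨e⟩ := (hSYA k I K K').1 P P'
        obtain ⟨e'⟩ := (hSYA k I K K').2 (fun i l => l.elim (P' i none) (P i))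
          (fun i l => P' i (some l))
        refine f1 _ _ e (f2 _ _ (ih I (Option K) _ _) (f1 _ _ (sym_symm e') ?_))
        exact (f5 _ Unit).2 ((f4 _ _).2 (ih I K _ _))
  -- conclusion
  intro n P
  obtain ⟨K', iF, iD, hn, hK⟩ := key n
  let e : Fin n ≃ K' := (Fintype.equivFinOfCardEq hn).symm
  obtain ⟨e'⟩ := (hSYB k K' PEmpty).2 (fun _ _ => True) (fun i j => P (e.symm i) (e.symm j))
  have h1 := f1 _ _ e' (hK K' PEmpty _ _)
  exact f1 _ _ (sym_reM e P) ((f4 _ _).1 h1)

end Pool.Agent.KGR
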