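import Pool.Agent.KGR.St3

/-!
# KGR TOP: from graph matrices to Laplacian matrices
-/

set_option autoImplicit false

noncomputable section

namespace Pool.Agent.KGR

open Function Matrix

variable {k : Type} [CommRing k]

/-- the inverse isomorphism -/
def top_symm {F F' : Fn k} (i : F.Iso F') : F'.Iso F where
  fwd x := i.inv x
  inv x := i.fwd x
  left x := i.right x
  right x := i.left x
  nat f x := by
    have h := i.nat f (i.inv x)
    rw [i.right] at h
    rw [← h, i.left]

theorem top_ncard {ι : Type} [Finite ι] (P : ι → Prop) (e : ι) :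
    Set.ncard {g : {f // f ≠ e} | P g.1} ≤ Set.ncard {f | P f ∧ f ≠ e} :=
  Set.ncard_le_ncard_of_injOn (fun g => g.1) (fun g hg => ⟨hg, g.2⟩)
    (fun g _ g' _ h => Subtype.ext h) (Set.toFinite _)

theorem top_lt {ι : Type} [Finite ι] (P : ι → Prop) (e : ι) (h : P e) {m : ℕ}
    (hm : Set.ncard {f | P f} ≤ m + 1) : Set.ncard {f | P f ∧ f ≠ e} ≤ m := by
  have h1 : Set.ncard {f | P f ∧ f ≠ e} < Set.ncard {f | P f} := by
    refine Set.ncard_lt_ncard ⟨fun f hf => hf.1, fun hs => ?_⟩ (Set.toFinite _)
    exact (hs h).2 rfl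
  omega

theorem top_zero {ι : Type} [Finite ι] (P : ι → Prop) (hm : Set.ncard {f | P f} ≤ 0) (e : ι) :
    ¬ P e := by
  intro h
  have h1 : 0 < Set.ncard {f | P f} := (Set.ncard_pos (Set.toFinite _)).2 ⟨e, h⟩
  omega

theorem top_sym (hF : St_FNB) (hD : St_DEL) (hC : St_CON)
    (G : (R : Type) → [CommRing R] → Prop) (hG : ClsQ G)
    (h0 : ∀ (ι V : Type) [Fintype ι] [DecidableEq ι] [Fintype V] [DecidableEq V]
      (a b : ι → Option V), (SymF k a b fun _ => False).Good G) :
    ∀ (m : ℕ) (ι V : Type) [Fintype ι] [DecidableEq ι] [Fintype V] [DecidableEq V]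
      (a b : ι → Option V) (U : ι → Prop), Set.ncard {e | U e} ≤ m → (SymF k a b U).Good G := by
  obtain ⟨iso, -, unt, -, -, -⟩ := hF k G hG
  intro m
  induction m with
  | zero =>
    intro ι V _ _ _ _ a b U hU
    have e : U = fun _ => False := by
      funext e
      exact propext ⟨top_zero U hU e, False.elim⟩
    rw [e]
    exact h0 ι V a b
  | succ m ih =>
    intro ι V _ _ _ _ a b U hU
    by_cases hex : ∃ e, U e
    · obtain ⟨e, he⟩ := hex
      have hU' := top_lt U e he hU
      have hg : (SymF k a b fun f => U f ∧ f ≠ e).Good G := ih ι V a b _ hU'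
      have hi : U = fun f => (U f ∧ f ≠ e) ∨ f = e := by
        funext f
        refine propext ⟨fun h => ?_, fun h => ?_⟩
        · by_cases hf : f = e
          · exact Or.inr hf
          · exact Or.inl ⟨h, hf⟩
        · rcases h with h | h
          · exact h.1
          · rw [h]; exact he
      rw [hi]
      by_cases hab : a e = b e
      · obtain ⟨i⟩ := (hC k ι V a b (fun f => U f ∧ f ≠ e) e).1 hab
        exact iso _ _ (top_symm i) hg
      · obtain ⟨V', iV, dV, a', b', ⟨i⟩⟩ :=
          (hC k ι V a b (fun f => U f ∧ f ≠ e) e).2 hab (fun h => h.2 rfl)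
        have hz := iso _ _ (top_symm i) (ih {f // f ≠ e} V' a' b' (fun f => U f.1 ∧ f.1 ≠ e) (by
          refine le_trans ?_ hU'
          refine Set.ncard_le_ncard_of_injOn (fun g => g.1) (fun g hg => hg)
            (fun g _ g' _ h => Subtype.ext h) (Set.toFinite _)))
        obtain ⟨j⟩ := (hD k ι V a b (fun f => U f ∧ f ≠ e) e).2.1
        exact iso _ _ j (unt _ _ hg hz)
    · have e : U = fun _ => False := by
        funext e
        exact propext ⟨fun h => hex ⟨e, h⟩, False.elim⟩
      rw [e]
      exact h0 ι V a b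

theorem top_kir [IsNoetherianRing k] (hF : St_FNB) (hT : St_TOR) (hD : St_DEL) (hN : St_NOE)
    (G : (R : Type) → [CommRing R] → Prop) (hG : ClsQ G) (hE : ExtQ G)
    (h1 : ∀ (ι V : Type) [Fintype ι] [DecidableEq ι] [Fintype V] [DecidableEq V]
      (a b : ι → Option V) (U : ι → Prop), (SymF k a b U).Good G) :
    ∀ (m : ℕ) (ι V : Type) [Fintype ι] [DecidableEq ι] [Fintype V] [DecidableEq V]
      (a b : ι → Option V) (U : ι → Prop), Set.ncard {e | ¬ U e} ≤ m →
      (KirF k a b U).Good G := by
  obtain ⟨iso, -, -, -, -, -⟩ := hF k G hG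
  have htrue : ∀ (ι V : Type) [Fintype ι] [DecidableEq ι] [Fintype V] [DecidableEq V]
      (a b : ι → Option V) (U : ι → Prop), (∀ e, U e) → (KirF k a b U).Good G := by
    intro ι V _ _ _ _ a b U hU
    have e : U = fun _ => True := by
      funext e
      exact propext ⟨fun _ => trivial, fun _ => hU e⟩
    rw [e]
    obtain ⟨i⟩ := hT k ι V a b
    exact iso _ _ i (h1 ι V a b _)
  intro m
  induction m with
  | zero =>
    intro ι V _ _ _ _ a b U hU
    exact htrue ι V a b U fun e => not_not.1 (top_zero (fun e => ¬ U e) hU e)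
  | succ m ih =>
    intro ι V _ _ _ _ a b U hU
    by_cases hex : ∃ e, ¬ U e
    · obtain ⟨e, he⟩ := hex
      have hU' := top_lt (fun e => ¬ U e) e he hU
      have hu : ((KirF k a b U).unt (KirF.x a b U e)).Good G := by
        obtain ⟨i⟩ := (hD k ι V a b U e).1
        refine iso _ _ (top_symm i) (ih ι V a b _ ?_)
        refine le_trans (Set.ncard_le_ncard ?_ (Set.toFinite _)) hU'
        intro f hf
        exact ⟨fun h => hf (Or.inl h), fun h => hf (Or.inr h)⟩
      have hz : ((KirF k a b U).zer (KirF.x a b U e)).Good G := by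
        obtain ⟨i⟩ := (hD k ι V a b U e).2.2 he
        refine iso _ _ (top_symm i) (ih _ V _ _ _ ?_)
        exact le_trans (top_ncard (fun f => ¬ U f) e) hU'
      exact hN.2 k G hG hE _ _ (hN.1 k ι V a b U) hu hz
    · exact htrue ι V a b U fun e => by
        by_contra h
        exact hex ⟨e, h⟩

theorem thm_TOP (hF : St_FNB) (hT : St_TOR) (hD : St_DEL) (hC : St_CON) (hN : St_NOE) :
    St_TOP := by
  intro k _ _ G hG hE h0
  have h1 : ∀ (ι V : Type) [Fintype ι] [DecidableEq ι] [Fintype V] [DecidableEq V]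
      (a b : ι → Option V) (U : ι → Prop), (SymF k a b U).Good G := by
    intro ι V _ _ _ _ a b U
    exact top_sym hF hD hC G hG h0 _ ι V a b U le_rfl
  refine ⟨h1, ?_⟩
  intro ι V _ _ _ _ a b U
  exact top_kir hF hT hD hN G hG hE h1 _ ι V a b U le_rfl

end Pool.Agent.KGR
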