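import Pool.Agent.KGR.St3

/-!
# KGR: all weights invertible (helper81)
-/

set_option autoImplicit false

noncomputable section

namespace Pool.Agent.KGR

open Function Matrix

theorem tor_det {ι V : Type} [Fintype ι] [DecidableEq ι] [Fintype V] [DecidableEq V]
    (a b : ι → Option V) {S : Type} [CommRing S] (x y : ι → S) (h : ∀ e, x e * y e = 1) :
    (grm a b x).det = (∏ e, x e) * (lpm a b y).det := by
  have h1 : diagonal x * diagonal y = (1 : Matrix ι ι S) := by
    rw [diagonal_mul_diagonal, ← diagonal_one]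
    congr 1
    funext e
    exact h e
  have h2 : diagonal y * diagonal x = (1 : Matrix ι ι S) := by
    rw [diagonal_mul_diagonal, ← diagonal_one]
    congr 1
    funext e
    rw [mul_comm]
    exact h e
  letI : Invertible (diagonal x) := ⟨diagonal y, h2, h1⟩
  have h3 : ⅟(diagonal x) = diagonal y := rfl
  unfold grm lpm
  rw [det_fromBlocks₁₁, det_diagonal, h3]
  congr 2
  rw [Matrix.neg_mul, Matrix.neg_mul, sub_neg_eq_add, zero_add]

theorem tor_inv_map {S S' : Type} [CommRing S] [CommRing S'] (f : S →+* S') (x : S)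
    (h : IsUnit x) : Ring.inverse (f x) = f (Ring.inverse x) := by
  have h1 : IsUnit (f x) := h.map f
  rw [← h1.mul_left_inj, Ring.inverse_mul_cancel _ h1, ← map_mul, Ring.inverse_mul_cancel _ h,
    map_one]

theorem tor_unit_inv {S : Type} [CommRing S] (x : S) (h : IsUnit x) : IsUnit (Ring.inverse x) := by
  obtain ⟨u, rfl⟩ := h
  rw [Ring.inverse_unit]
  exact u⁻¹.isUnit

theorem tor_inv_inv {S : Type} [CommRing S] (x : S) (h : IsUnit x) :
    Ring.inverse (Ring.inverse x) = x := by
  obtain ⟨u, rfl⟩ := h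
  rw [Ring.inverse_unit, Ring.inverse_unit, inv_inv]

theorem tor_iff {ι V : Type} [Fintype ι] [DecidableEq ι] [Fintype V] [DecidableEq V]
    (a b : ι → Option V) {S : Type} [CommRing S] (x y : ι → S) (h : ∀ e, x e * y e = 1) :
    IsUnit (grm a b x).det ↔ IsUnit (lpm a b y).det := by
  rw [tor_det a b x y h, IsUnit.mul_iff]
  refine ⟨fun h1 => h1.2, fun h1 => ⟨?_, h1⟩⟩
  exact IsUnit.of_mul_eq_one (∏ e, y e) (by
    rw [← Finset.prod_mul_distrib]
    exact Finset.prod_eq_one fun e _ => h e)

theorem thm_TOR : St_TOR := by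
  intro k _ ι V _ _ _ _ a b
  exact ⟨{
    fwd := fun {S} _ _ x => ⟨fun e => Ring.inverse (x.1 e),
      fun e _ => tor_unit_inv _ (x.2.1 e trivial),
      (tor_iff a b x.1 _ fun e => Ring.mul_inverse_cancel _ (x.2.1 e trivial)).1 x.2.2⟩
    inv := fun {S} _ _ x => ⟨fun e => Ring.inverse (x.1 e),
      fun e _ => tor_unit_inv _ (x.2.1 e trivial),
      (tor_iff a b _ x.1 fun e => Ring.inverse_mul_cancel _ (x.2.1 e trivial)).2 x.2.2⟩
    left := fun {S} _ _ x => Subtype.ext (funext fun e => tor_inv_inv _ (x.2.1 e trivial))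
    right := fun {S} _ _ x => Subtype.ext (funext fun e => tor_inv_inv _ (x.2.1 e trivial))
    nat := fun {S S'} _ _ _ _ f x => Subtype.ext (funext fun e =>
      tor_inv_map f.toRingHom (x.1 e) (x.2.1 e trivial)) }⟩

end Pool.Agent.KGR
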