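import Pool.Agent.KGR.GAll
import Pool.Agent.KGT.WAll
import Pool.Agent.KGR.ASM
import Pool.Agent.KGR.BOR
import Pool.Agent.KGR.CQ
import Pool.Agent.KGR.DEL
import Pool.Agent.KGR.FNA
import Pool.Agent.KGR.FNB
import Pool.Agent.KGR.GAU
import Pool.Agent.KGR.GML
import Pool.Agent.KGR.GRL
import Pool.Agent.KGR.GRS
import Pool.Agent.KGR.INC
import Pool.Agent.KGR.LAU
import Pool.Agent.KGR.LD
import Pool.Agent.KGR.MTB
import Pool.Agent.KGR.MTC
import Pool.Agent.KGR.NOE
import Pool.Agent.KGR.PAT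
import Pool.Agent.KGR.PEEL
import Pool.Agent.KGR.REP
import Pool.Agent.KGR.SER
import Pool.Agent.KGR.SIM
import Pool.Agent.KGR.SLP
import Pool.Agent.KGR.SPI
import Pool.Agent.KGR.SYA
import Pool.Agent.KGR.SYB
import Pool.Agent.KGR.SYF
import Pool.Agent.KGR.SYM
import Pool.Agent.KGR.TOP
import Pool.Agent.KGR.TOR

/-!
# KGR: the theorem on graph hypersurfaces and Bass's question, assembly (helper71)
-/

set_option autoImplicit false

noncomputable section

namespace Pool.Agent.KGR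

open CategoryTheory AlgebraicGeometry Function Pool.Agent.KQ Pool.Agent.KQG Pool.Agent.KTX
open Pool.Agent.KPR Pool.Agent.GTH Pool.Agent.KGT Pool.Agent.KQH

theorem all_FNB : St_FNB := thm_FNB thm_FNA

theorem all_ASM : St_ASM :=
  thm_ASM all_FNB (thm_SYM all_FNB thm_SYA thm_SYB) (thm_PAT all_FNB) (thm_SPI all_FNB)
    (thm_LD all_FNB thm_BOR (thm_PEEL all_FNB)) thm_GAU thm_INC thm_SLP

theorem all_F : St_F := thm_F thm_CQ thm_LAU thm_GRL all_ASM

theorem all_SYF (hC : St_CON) (hL : St_LOO) : St_SYF :=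
  thm_SYF thm_FNA all_FNB thm_SER thm_SIM thm_REP
    (thm_TOP all_FNB thm_TOR thm_DEL hC (thm_NOE thm_REP thm_DEL thm_FNA)) hL
    (thm_GML thm_FNA)

theorem all_MTC (hA : St_MTA) : St_MTC := thm_MTC thm_REP hA thm_MTB

theorem g_all (hC : St_CON) (hL : St_LOO) (hA : St_MTA)
    {𝒮 : (G : Type 1) → [AddCommGroup G] → Prop} (h𝒮 : W.SerreClass 𝒮) (m : ℕ)
    (hm : m = 0 ∨ m.Prime) :
    ∀ F ∈ [G.Kirchhoff (ZMod m), G.Symanzik (ZMod m), G.Generic (ZMod m),
      G.GenericSym (ZMod m)], (G.Statements 𝒮 F).TFAE := by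
  have hk : ∀ n : ℕ, 𝒮 (KX n (Sp (ZMod m))) := fun n => h𝒮.fg _ (base_all all_NR m hm n)
  have hd : IsDomain (ZMod m) := by
    rcases hm with rfl | h
    · exact inferInstanceAs (IsDomain ℤ)
    · have := Fact.mk h
      infer_instance
  have hr : IsRegularRing (ZMod m) := by
    rcases hm with rfl | h
    · exact inferInstanceAs (IsRegularRing ℤ)
    · have := Fact.mk h
      infer_instance
  exact g_main all_F thm_CQ thm_LAU thm_GRL all_ASM (all_SYF hC hL) thm_GRS (all_MTC hA)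
    h𝒮.serre (ZMod m) (ZMod.ringHom_surjective _) hk

end Pool.Agent.KGR
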