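import Pool.Agent.KGT.WDefs

/-!
# Definitions for the theorem on graph hypersurfaces and Bass's question
-/

set_option autoImplicit false

noncomputable section

namespace Pool.Agent.KGR.G

open AlgebraicGeometry Pool.Agent.KPR Pool.Agent.KGT.W

open Classical in
/-- The spanning trees of the graph `Γ` with the vertices `0, …, m`, as sets of edges. -/
def trees {m : ℕ} (Γ : SimpleGraph (Fin (m + 1))) : Finset (Finset Γ.edgeSet) :=
  Finset.univ.filter fun T => (SimpleGraph.fromEdgeSet (Subtype.val '' (T : Set Γ.edgeSet))).IsTree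

/-- The Kirchhoff polynomial of a graph: the variables are the `x_e` for the edges `e`, and the
polynomial is the sum over the spanning trees `T` of the products of the `x_e` with `e ∈ T`. -/
def kirchhoff (k : Type) [CommRing k] {m : ℕ} (Γ : SimpleGraph (Fin (m + 1))) :
    MvPolynomial Γ.edgeSet k :=
  ∑ T ∈ trees Γ, ∏ e ∈ T, MvPolynomial.X e

open Classical in
/-- The graph polynomial (first Symanzik polynomial) of a graph: the sum over the spanning trees `T` of
the products of the `x_e` with `e ∉ T`. -/
def symanzik (k : Type) [CommRing k] {m : ℕ} (Γ : SimpleGraph (Fin (m + 1))) :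
    MvPolynomial Γ.edgeSet k :=
  ∑ T ∈ trees Γ, ∏ e ∈ Tᶜ, MvPolynomial.X e

/-- The generic matrix with zeros outside `P`: the entry at the position `(i, j) ∈ P` is the
variable `x_(i, j)`. -/
def generic (k : Type) [CommRing k] {m : ℕ} (P : Finset (Fin m × Fin m)) :
    Matrix (Fin m) (Fin m) (MvPolynomial P k) := fun i j =>
  if h : (i, j) ∈ P then MvPolynomial.X ⟨(i, j), h⟩ else 0

/-- The generic symmetric matrix with zeros outside `P`: the entries at the positions `(i, j)` and
`(j, i)` with `{i, j} ∈ P` are the variable `x_{i, j}`. -/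
def genericSym (k : Type) [CommRing k] {m : ℕ} (P : Finset (Sym2 (Fin m))) :
    Matrix (Fin m) (Fin m) (MvPolynomial P k) := fun i j =>
  if h : s(i, j) ∈ P then MvPolynomial.X ⟨s(i, j), h⟩ else 0

/-- A family of polynomials over `k`. -/
structure Family (k : Type) [CommRing k] where
  /-- the indices -/
  J : Type
  /-- the variables -/
  ι : J → Type
  /-- the polynomials -/
  f : (j : J) → MvPolynomial (ι j) k

/-- the Kirchhoff polynomials of all graphs -/
def Kirchhoff (k : Type) [CommRing k] : Family k :=
  ⟨Σ m : ℕ, SimpleGraph (Fin (m + 1)), fun Γ => Γ.2.edgeSet, fun Γ => kirchhoff k Γ.2⟩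

/-- the graph polynomials of all graphs -/
def Symanzik (k : Type) [CommRing k] : Family k :=
  ⟨Σ m : ℕ, SimpleGraph (Fin (m + 1)), fun Γ => Γ.2.edgeSet, fun Γ => symanzik k Γ.2⟩

/-- the determinants of the generic matrices with zeros outside `P`, for all `P` -/
def Generic (k : Type) [CommRing k] : Family k :=
  ⟨Σ m : ℕ, Finset (Fin m × Fin m), fun P => P.2, fun P => (generic k P.2).det⟩

/-- the determinants of the generic symmetric matrices with zeros outside `P`, for all `P` -/
def GenericSym (k : Type) [CommRing k] : Family k :=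
  ⟨Σ m : ℕ, Finset (Sym2 (Fin m)), fun P => P.2, fun P => (genericSym k P.2).det⟩

/-- The statements for a family of polynomials `f` over `k`: `K'_n(X)` is in `𝒮` for all regular
schemes `X` of finite type over `k` and all `n`; for all schemes `X` of finite type over `k` and all `n`;
for the complements `f ≠ 0` in affine spaces and all `n`, or infinitely many `n`; for the
hypersurfaces `f = 0` and all `n`, or infinitely many `n`. -/
def Statements {k : Type} [CommRing k] (𝒮 : (G : Type 1) → [AddCommGroup G] → Prop)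
    (F : Family k) : List Prop :=
  [∀ X : Scheme.{0}, FinType k X → Regular X → ∀ n : ℕ, 𝒮 (KX n X),
    ∀ X : Scheme.{0}, FinType k X → ∀ n : ℕ, 𝒮 (KX n X),
    ∀ n : ℕ, ∀ j, 𝒮 (KX n (Compl (F.f j))),
    ∀ N : ℕ, ∃ n, N ≤ n ∧ ∀ j, 𝒮 (KX n (Compl (F.f j))),
    ∀ n : ℕ, ∀ j, 𝒮 (KX n (Hyp (F.f j))),
    ∀ N : ℕ, ∃ n, N ≤ n ∧ ∀ j, 𝒮 (KX n (Hyp (F.f j)))]

end Pool.Agent.KGR.G
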