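import Pool.Agent.KGR.St3

/-!
# KGR LOO: a loop at the deleted vertex (helper71)
-/

set_option autoImplicit false

noncomputable section

namespace Pool.Agent.KGR

open Function Matrix

/-- the ends of the edges with a new loop -/
abbrev loo_a {ι V : Type} (a : ι → Option V) (e : Option ι) : Option V := e.elim none a

/-- the indices -/
def loo_e (ι V : Type) : Unit ⊕ (ι ⊕ V) ≃ Option ι ⊕ V where
  toFun
    | .inl _ => .inl none
    | .inr (.inl i) => .inl (some i)
    | .inr (.inr v) => .inr v
  invFun
    | .inl none => .inl ()
    | .inl (some i) => .inr (.inl i)
    | .inr v => .inr (.inr v)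
  left_inv := by rintro (_ | _ | _) <;> rfl
  right_inv := by rintro ((_ | _) | _) <;> rfl

theorem loo_det {ι V : Type} [Fintype ι] [DecidableEq ι] [Fintype V] [DecidableEq V]
    (a b : ι → Option V) {S : Type} [CommRing S] (x : Option ι → S) :
    (grm (loo_a a) (loo_a b) x).det = x none * (grm a b fun i => x (some i)).det := by
  have h : (grm (loo_a a) (loo_a b) x).submatrix (loo_e ι V) (loo_e ι V) =
      fromBlocks (of fun (_ : Unit) (_ : Unit) => x none) 0 0
        (grm a b fun i => x (some i)) := by
    ext (i | i | i) (j | j | j)
    · change diagonal x none none = x none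
      rw [diagonal_apply_eq]
    · change diagonal x none (some j) = 0
      rw [diagonal_apply_ne]
      exact (Option.some_ne_none j).symm
    · change (if (none : Option V) = some j then (1 : S) else 0) -
        (if (none : Option V) = some j then 1 else 0) = 0
      rw [sub_self]
    · change diagonal x (some i) none = 0
      rw [diagonal_apply_ne]
      exact Option.some_ne_none i
    · change diagonal x (some i) (some j) = diagonal (fun i => x (some i)) i j
      rw [diagonal_apply, diagonal_apply]
      by_cases h : i = j
      · rw [if_pos h, if_pos (congrArg some h)]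
      · rw [if_neg h, if_neg fun h' => h (Option.some_injective _ h')]
    · rfl
    · change -((if (none : Option V) = some i then (1 : S) else 0) -
        (if (none : Option V) = some i then 1 else 0)) = 0
      rw [sub_self, neg_zero]
    · rfl
    · rfl
  rw [← det_submatrix_equiv_self (loo_e ι V), h, det_fromBlocks_zero₂₁, det_unique]
  rfl

/-- **LOO.** A loop at the deleted vertex. -/
theorem thm_LOO : St_LOO := by
  intro k _ ι V _ _ _ _ a b
  refine ⟨?_⟩
  exact
    { fwd := fun x => (⟨fun i => x.1 (some i), fun _ h => h.elim, by
          have h := x.2.2
          rw [loo_det] at h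
          exact isUnit_of_mul_isUnit_right h⟩, fun _ => (isUnit_of_mul_isUnit_left (by
          have h := x.2.2
          rw [loo_det] at h
          exact h)).unit)
      inv := fun y => ⟨fun i => i.elim (y.2 () : _) y.1.1, fun _ h => h.elim, by
          rw [loo_det]
          exact (y.2 ()).isUnit.mul y.1.2.2⟩
      left := fun x => Subtype.ext (funext fun i => by cases i <;> rfl)
      right := fun y => Prod.ext rfl (funext fun _ => Units.ext rfl)
      nat := fun f x => Prod.ext rfl (funext fun _ => Units.ext rfl) }

end Pool.Agent.KGR
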