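import Pool.Agent.KGR.St3

/-!
# KGR MTA: Cauchy-Binet for the weighted Laplacian (helper71)
-/

set_option autoImplicit false

noncomputable section

namespace Pool.Agent.KGR

open Function Matrix

section

variable {ι V : Type} [Fintype ι] [DecidableEq ι] [Fintype V] [DecidableEq V]
  (a b : ι → Option V)

/-- the coefficient of a function -/
def mta_c (S : Type) [CommRing S] (f : V → ι) : S :=
  (∏ v, inc S a b (f v) v) * (of fun v w => inc S a b (f v) w : Matrix V V S).det

theorem mta_exp {S : Type} [CommRing S] (x : ι → S) :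
    (lpm a b x).det = ∑ f : V → ι, mta_c a b S f * ∏ v, x (f v) := by
  have h1 : lpm a b x = fun v => ∑ e, (inc S a b e v * x e) • inc S a b e := by
    funext v w
    rw [Finset.sum_apply]
    unfold lpm
    rw [mul_apply]
    refine Finset.sum_congr rfl fun e _ => ?_
    rw [mul_diagonal, transpose_apply]
    rfl
  change detRowAlternating (lpm a b x) = _
  rw [h1]
  have h2 := (detRowAlternating (n := V) (R := S)).toMultilinearMap.map_sum
    (fun v e => (inc S a b e v * x e) • inc S a b e)
  refine h2.trans (Finset.sum_congr rfl fun f _ => ?_)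
  have h3 := (detRowAlternating (n := V) (R := S)).toMultilinearMap.map_smul_univ
    (fun v => inc S a b (f v) v * x (f v)) (fun v => inc S a b (f v))
  refine h3.trans ?_
  rw [Finset.prod_mul_distrib, smul_eq_mul]
  unfold mta_c
  change _ * _ * (of fun v w => inc S a b (f v) w : Matrix V V S).det = _
  ring

theorem mta_noninj (S : Type) [CommRing S] (f : V → ι) (hf : ¬ Injective f) :
    mta_c a b S f = 0 := by
  unfold Injective at hf
  push Not at hf
  obtain ⟨v, w, h, hne⟩ := hf
  unfold mta_c
  rw [det_zero_of_row_eq hne, mul_zero]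
  funext u
  change inc S a b (f v) u = inc S a b (f w) u
  rw [h]

theorem mta_map {S S' : Type} [CommRing S] [CommRing S'] (φ : S →+* S') (f : V → ι) :
    φ (mta_c a b S f) = mta_c a b S' f := by
  unfold mta_c
  rw [map_mul, map_prod, RingHom.map_det]
  have h : ∀ (e : ι) (v : V), φ (inc S a b e v) = inc S' a b e v := fun e v =>
    congrFun (congrFun (inc_map a b φ) e) v
  congr 1
  · exact Finset.prod_congr rfl fun v _ => h _ _
  · refine congrArg Matrix.det ?_
    ext v w
    exact h _ _

theorem mta_inj {S : Type} [CommRing S] (x : ι → S) (f : V → ι) (hf : Injective f) :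
    (∑ T : Finset ι, if T.card = Fintype.card V then
      (∏ v, if f v ∈ T then (1 : S) else 0) * ∏ e ∈ T, x e else 0) = ∏ v, x (f v) := by
  rw [Finset.sum_eq_single (Finset.univ.map ⟨f, hf⟩)]
  · rw [if_pos (by rw [Finset.card_map, Finset.card_univ]), Finset.prod_map]
    have h : (∏ v, if f v ∈ Finset.univ.map ⟨f, hf⟩ then (1 : S) else 0) = 1 :=
      Finset.prod_eq_one fun v _ => if_pos (Finset.mem_map.2 ⟨v, Finset.mem_univ v, rfl⟩)
    rw [h, one_mul]
    rfl
  · intro T _ hT
    split_ifs with hc
    · have : ∃ v, f v ∉ T := by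
        by_contra hall
        push Not at hall
        refine hT (Finset.eq_of_subset_of_card_le (fun e he => ?_) ?_).symm
        · obtain ⟨v, -, rfl⟩ := Finset.mem_map.1 he
          exact hall v
        · rw [hc, Finset.card_map, Finset.card_univ]
      obtain ⟨v, hv⟩ := this
      rw [Finset.prod_eq_zero (Finset.mem_univ v) (if_neg hv), zero_mul]
    · rfl
  · intro h
    exact absurd (Finset.mem_univ _) h

end

/-- **MTA.** Cauchy-Binet for the weighted Laplacian. -/
theorem thm_MTA : St_MTA := by
  intro k _ ι V _ _ _ _ a b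
  rw [mta_exp]
  have h1 : ∀ T : Finset ι, (MvPolynomial.C (lpm a b fun e => if e ∈ T then (1 : k) else 0).det :
      MvPolynomial ι k) = ∑ f : V → ι, mta_c a b (MvPolynomial ι k) f *
        ∏ v, if f v ∈ T then 1 else 0 := by
    intro T
    rw [mta_exp, map_sum]
    refine Finset.sum_congr rfl fun f _ => ?_
    rw [map_mul, mta_map a b (MvPolynomial.C : k →+* MvPolynomial ι k), map_prod]
    congr 1
    refine Finset.prod_congr rfl fun v _ => ?_
    split_ifs
    · exact map_one _
    · exact map_zero _
  simp only [h1]
  have h2 : ∀ T : Finset ι, (if T.card = Fintype.card V then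
      (∑ f : V → ι, mta_c a b (MvPolynomial ι k) f * ∏ v, if f v ∈ T then 1 else 0) *
        ∏ e ∈ T, MvPolynomial.X e else 0 : MvPolynomial ι k) =
      ∑ f : V → ι, mta_c a b (MvPolynomial ι k) f * (if T.card = Fintype.card V then
        (∏ v, if f v ∈ T then (1 : MvPolynomial ι k) else 0) *
          ∏ e ∈ T, MvPolynomial.X e else 0) := by
    intro T
    split_ifs
    · rw [Finset.sum_mul]
      exact Finset.sum_congr rfl fun f _ => mul_assoc _ _ _
    · simp only [mul_zero, Finset.sum_const_zero]
  simp only [h2]
  rw [Finset.sum_comm]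
  refine Finset.sum_congr rfl fun f _ => ?_
  rw [← Finset.mul_sum]
  by_cases hf : Injective f
  · rw [mta_inj _ f hf]
  · rw [mta_noninj a b _ f hf, zero_mul, zero_mul]

end Pool.Agent.KGR
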