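import Pool.Agent.KGR.St

/-!
# KGR, PAT: invertible entries (helper14)
-/

set_option autoImplicit false

noncomputable section

namespace Pool.Agent.KGR

open Function Matrix

section

variable {k : Type} [CommRing k] {V : Type} [Fintype V] [DecidableEq V]

/-- an entry as a function -/
def pat_ent (k : Type) [CommRing k] {V : Type} [Fintype V] [DecidableEq V] (P U : V → V → Prop) (i j : V) :
    (MatU k V P U).Fu where
  app M := M.1 i j
  nat _ _ := rfl

/-- one more invertible entry -/
def pat_unt (P U U' : V → V → Prop) (i j : V) (h : ∀ a b, U' a b ↔ U a b ∨ (a = i ∧ b = j)) :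
    Fn.Iso ((MatU k V P U).unt (pat_ent k P U i j)) (MatU k V P U') where
  fwd x := ⟨x.1.1, x.1.2.1, fun a b hab => by
    rcases (h a b).1 hab with h1 | ⟨rfl, rfl⟩
    · exact x.1.2.2.1 a b h1
    · exact x.2, x.1.2.2.2⟩
  inv x := ⟨⟨x.1, x.2.1, fun a b hab => x.2.2.1 a b ((h a b).2 (Or.inl hab)), x.2.2.2⟩,
    x.2.2.1 i j ((h i j).2 (Or.inr ⟨rfl, rfl⟩))⟩
  left _ := rfl
  right _ := rfl
  nat _ _ := rfl

/-- one more zero -/
def pat_zer (P P' U : V → V → Prop) (i j : V) (h : ∀ a b, P' a b ↔ P a b ∧ ¬ (a = i ∧ b = j)) :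
    Fn.Iso (MatU k V P' U) ((MatU k V P U).zer (pat_ent k P U i j)) where
  fwd x := ⟨⟨x.1, fun a b hab => x.2.1 a b fun h1 => hab ((h a b).1 h1).1, x.2.2.1, x.2.2.2⟩,
    x.2.1 i j fun h1 => ((h i j).1 h1).2 ⟨rfl, rfl⟩⟩
  inv x := ⟨x.1.1, fun a b hab => by
    by_cases h1 : a = i ∧ b = j
    · obtain ⟨rfl, rfl⟩ := h1
      exact x.2
    · exact x.1.2.1 a b fun h2 => hab ((h a b).2 ⟨h2, h1⟩), x.1.2.2.1, x.1.2.2.2⟩
  left _ := rfl
  right _ := rfl
  nat _ _ := rfl

/-- reindexing -/
def pat_idx {W : Type} [Fintype W] [DecidableEq W] (e : V ≃ W) (P : V → V → Prop) :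
    Fn.Iso (MatU k W (fun a b => P (e.symm a) (e.symm b)) fun _ _ => False)
      (MatU k V P fun _ _ => False) where
  fwd x := ⟨x.1.submatrix e e, fun a b hab => by
      refine x.2.1 (e a) (e b) ?_
      change ¬ P (e.symm (e a)) (e.symm (e b))
      rw [e.symm_apply_apply, e.symm_apply_apply]
      exact hab, fun a b h => h.elim, by
      rw [det_submatrix_equiv_self]
      exact x.2.2.2⟩
  inv x := ⟨x.1.submatrix e.symm e.symm, fun a b hab => x.2.1 _ _ hab, fun a b h => h.elim, by
      rw [det_submatrix_equiv_self]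
      exact x.2.2.2⟩
  left x := by
    refine Subtype.ext ?_
    ext a b
    change x.1 (e (e.symm a)) (e (e.symm b)) = x.1 a b
    rw [e.apply_symm_apply, e.apply_symm_apply]
  right x := by
    refine Subtype.ext ?_
    ext a b
    change x.1 (e.symm (e a)) (e.symm (e b)) = x.1 a b
    rw [e.symm_apply_apply, e.symm_apply_apply]
  nat _ _ := rfl

end

theorem thm_PAT (hFNB : St_FNB) : St_PAT := by
  intro k _ G hG hHP V _ _ P U
  classical
  obtain ⟨h1, -, h3, -, -, -⟩ := hFNB k G hG
  have key : ∀ (T : Finset (V × V)) (P : V → V → Prop), (MatU k V P fun a b => (a, b) ∈ T).Good G := by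
    intro T
    induction T using Finset.induction_on with
    | empty =>
      intro P
      have e : (fun a b : V => (a, b) ∈ (∅ : Finset (V × V))) = fun _ _ => False := by
        funext a b
        exact propext ⟨fun h => absurd h (Finset.notMem_empty _), fun h => h.elim⟩
      rw [e]
      exact h1 _ _ (pat_idx (Fintype.equivFin V) P) (hHP _ _)
    | @insert p T _ ih =>
      intro P
      refine h1 _ _ (pat_unt P (fun a b => (a, b) ∈ T) _ p.1 p.2 fun a b => ?_) (h3 _ _ (ih P)
        (h1 _ _ (pat_zer P (fun a b => P a b ∧ ¬ (a = p.1 ∧ b = p.2)) _ p.1 p.2 fun a b => Iff.rfl) (ih _)))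
      rw [Finset.mem_insert, Prod.ext_iff]
      exact or_comm
  have e : U = fun a b => (a, b) ∈ (Finset.univ : Finset (V × V)).filter fun p => U p.1 p.2 := by
    funext a b
    simp
  rw [e]
  exact key _ P

end Pool.Agent.KGR
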