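import Pool.Agent.KGT.Real2
import Pool.Agent.KGR.St

/-!
# KGR: statements, part F: Quillen's groups `K'_n` (architect helper71)
-/

set_option autoImplicit false

noncomputable section

namespace Pool.Agent.KGR

open CategoryTheory AlgebraicGeometry Function Pool.Agent.KQ Pool.Agent.KQG Pool.Agent.KTX
open Pool.Agent.KPR Pool.Agent.GTH Pool.Agent.KGT

/-- the coordinate ring of the complement of the hypersurface `det (lap k Γ) = 0` -/
abbrev GrR (k : Type) [CommRing k] {n : ℕ} (Γ : SimpleGraph (Fin (n + 1))) : Type :=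
  Localization.Away (lap k Γ).det

/-- the coordinate ring of the scheme of the invertible matrices with zeros outside `P` -/
abbrev PaR (k : Type) [CommRing k] {n : ℕ} (P : Finset (Fin n × Fin n)) : Type :=
  Localization.Away (genM k P).det

/-- the condition for the complements of all graph hypersurfaces, degree `M` -/
def GrG (𝒮 : (G : Type 1) → [AddCommGroup G] → Prop) (k : Type) [CommRing k] (M : ℕ) : Prop :=
  ∀ (n : ℕ) (Γ : SimpleGraph (Fin (n + 1))), 𝒮 (KX M (Sp (GrR k Γ)))

/-- the condition for all schemes of invertible matrices with given zeros, degree `M` -/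
def PaG (𝒮 : (G : Type 1) → [AddCommGroup G] → Prop) (k : Type) [CommRing k] (M : ℕ) : Prop :=
  ∀ (n : ℕ) (P : Finset (Fin n × Fin n)), 𝒮 (KX M (Sp (PaR k P)))

/-- **CQ** (0.7 h). The closure properties of the class of rings with good groups.

Proof. `iso`, `away`, `of_lau` and one half of `mv`: `KGT.cls_PA`. `mv`: `SFG.mv` (an equivalence for every bound
of the degree; `KGT.pa_iff`). `quot`: the sequence `T (n + 1) V → T n (R / s) → T n R` is exact (`exC` with
`isLoc_alg`, `N = ⊤`), `Serre.exact`. -/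
def St_CQ : Prop := ∀ (𝒯 : GTheory.{1} ⊤) (𝒮 : (G : Type 1) → [AddCommGroup G] → Prop),
  Serre 𝒮 → ClsQ (fun R _ => PA 𝒯 𝒮 R)

/-- **LAU** (0.7 h). One degree less.

Proof. `KGT.real`. In a G-theory `T (n + 1) (R[X, 1/X]) → T n R` is surjective (`exC` for `s = X`, `π = constantCoeff`, and
`push_zero`); `Serre.of_surj`. -/
def St_LAU : Prop := St_HOMK → ∀ (𝒮 : (G : Type 1) → [AddCommGroup G] → Prop), Serre 𝒮 →
  ∀ (R : Type) [CommRing R] [IsNoetherianRing R] (M : ℕ),
    𝒮 (KX (M + 1) (Sp (Localization.Away (Polynomial.X : Polynomial R)))) → 𝒮 (KX M (Sp R))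

/-- **F** (1 h). The theorem.

Proof. (1) implies the others: `KGT.ft_of_sch`. `GrG` for infinitely many degrees implies it for all: `St_LAU`
and `St_GRL` (3) (`KGT.kx_iso`); the same for `PaG`, `St_GRL` (4). `PaG` in all degrees implies (1): by `KGT.real_PA`
the class of the rings `R` with `𝒮 (KX n (Sp R))` for all `n` is the class `PA` of a G-theory, so `St_CQ` applies;
`HP` by `St_GRL` (2); `St_ASM`; `KGT.sch_of_aff`. `GrG` in all degrees implies `HS` by `St_GRL` (1), so `HP` by `St_ASM`, so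
(1). `k` is noetherian, as a quotient of `ℤ`. (7) for regular domains: `KGT.reg_iff`. -/
def St_F : Prop := St_HOMK → ∀ (𝒮 : (G : Type 1) → [AddCommGroup G] → Prop), Serre 𝒮 →
  ∀ (k : Type) [CommRing k], Surjective (Int.castRingHom k) →
    List.TFAE [SchG 𝒮 k, ∀ M, GrG 𝒮 k M, ∀ N : ℕ, ∃ M, N ≤ M ∧ GrG 𝒮 k M, ∀ M, PaG 𝒮 k M,
      ∀ N : ℕ, ∃ M, N ≤ M ∧ PaG 𝒮 k M] ∧
    (IsDomain k → IsRegularRing k → (RegG 𝒮 k ↔ ∀ M, GrG 𝒮 k M))

end Pool.Agent.KGR
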